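import Pool.Graph.R_seed8.TH229.Kan.WFinal

set_option autoImplicit false

namespace Pool.Agent.H212.KR.Expo

open Complex Filter Topology MeasureTheory
open Pool.Agent.TH229.Kan

lemma cont_log (α : ℝ) (h : |α| < 1) :
    Continuous fun u : ℝ => Real.log ‖1 + (α : ℂ) * ((Real.cos (2 * Real.pi * u) : ℝ) : ℂ)‖ := by
  apply Continuous.log
  · fun_prop
  · intro u hu
    rw [norm_eq_zero] at hu
    have h1 : (1 : ℝ) + α * Real.cos (2 * Real.pi * u) = 0 := by
      have h7 : ((1 + α * Real.cos (2 * Real.pi * u) : ℝ) : ℂ) = 0 := by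
        rw [← hu]
        push_cast
        rfl
      exact_mod_cast h7
    have h2 : |α * Real.cos (2 * Real.pi * u)| ≤ |α| := by
      rw [abs_mul]
      have := Real.abs_cos_le_one (2 * Real.pi * u)
      nlinarith [abs_nonneg α]
    have h3 : α * Real.cos (2 * Real.pi * u) = -1 := by linarith
    rw [h3, abs_neg, abs_one] at h2
    linarith

lemma norm_re (a : ℝ) (h : |a| < 1) : ‖(1 : ℂ) + (a : ℂ)‖ = 1 + a := by
  have : (1 : ℂ) + (a : ℂ) = ((1 + a : ℝ) : ℂ) := by push_cast; rfl
  rw [this, Complex.norm_real, Real.norm_eq_abs, abs_of_pos]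
  have := (abs_lt.1 h).1
  linarith

theorem neg_exponent {α : ℝ} (h0 : α ≠ 0) (h1 : |α| < 1) :
    ∫ u in (0 : ℝ)..1, Real.log ‖1 + (α : ℂ) * ((Real.cos (2 * Real.pi * u) : ℝ) : ℂ)‖ < 0 := by
  have he := exponents_eq (α : ℂ)
  set I := ∫ u in (0 : ℝ)..1, Real.log ‖1 + (α : ℂ) * ((Real.cos (2 * Real.pi * u) : ℝ) : ℂ)‖ with hI
  have c1 := cont_log α h1
  have c2 : Continuous fun u : ℝ => Real.log ‖1 - (α : ℂ) * ((Real.cos (2 * Real.pi * u) : ℝ) : ℂ)‖ := by
    have := cont_log (-α) (by rwa [abs_neg])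
    refine this.congr fun u => ?_
    congr 2
    push_cast
    ring
  have hsum : I + I = ∫ u in (0 : ℝ)..1, (Real.log ‖1 + (α : ℂ) * ((Real.cos (2 * Real.pi * u) : ℝ) : ℂ)‖
      + Real.log ‖1 - (α : ℂ) * ((Real.cos (2 * Real.pi * u) : ℝ) : ℂ)‖) := by
    rw [intervalIntegral.integral_add (c1.intervalIntegrable _ _) (c2.intervalIntegrable _ _), he]
  have hle : ∫ u in (0 : ℝ)..1, (Real.log ‖1 + (α : ℂ) * ((Real.cos (2 * Real.pi * u) : ℝ) : ℂ)‖
      + Real.log ‖1 - (α : ℂ) * ((Real.cos (2 * Real.pi * u) : ℝ) : ℂ)‖)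
      ≤ ∫ u in (0 : ℝ)..1, -(α ^ 2 * Real.cos (2 * Real.pi * u) ^ 2) := by
    apply intervalIntegral.integral_mono_on (by norm_num) ((c1.add c2).intervalIntegrable _ _)
    · apply Continuous.intervalIntegrable
      fun_prop
    · intro u _
      set a : ℝ := α * Real.cos (2 * Real.pi * u) with ha
      have ha1 : |a| < 1 := by
        rw [ha, abs_mul]
        have := Real.abs_cos_le_one (2 * Real.pi * u)
        nlinarith [abs_nonneg α]
      have e1 : ‖1 + (α : ℂ) * ((Real.cos (2 * Real.pi * u) : ℝ) : ℂ)‖ = 1 + a := by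
        rw [← norm_re a ha1, ha]
        push_cast
        rfl
      have e2 : ‖1 - (α : ℂ) * ((Real.cos (2 * Real.pi * u) : ℝ) : ℂ)‖ = 1 + (-a) := by
        rw [← norm_re (-a) (by rwa [abs_neg]), ha]
        push_cast
        rw [sub_eq_add_neg]
      simp only [Pi.add_apply]
      rw [e1, e2]
      have p1 : 0 < 1 + a := by have := (abs_lt.1 ha1).1; linarith
      have p2 : 0 < 1 + -a := by have := (abs_lt.1 ha1).2; linarith
      rw [← Real.log_mul p1.ne' p2.ne']
      have := Real.log_le_sub_one_of_pos (mul_pos p1 p2)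
      have e3 : α ^ 2 * Real.cos (2 * Real.pi * u) ^ 2 = a ^ 2 := by rw [ha]; ring
      rw [e3]
      nlinarith
  have hint : ∫ u in (0 : ℝ)..1, -(α ^ 2 * Real.cos (2 * Real.pi * u) ^ 2) = -(α ^ 2 / 2) := by
    have h2 : ∀ u : ℝ, -(α ^ 2 * Real.cos (2 * Real.pi * u) ^ 2)
        = -(α ^ 2 / 2) - (α ^ 2 / 2) * Real.cos ((4 * Real.pi) * u) := by
      intro u
      have : Real.cos ((4 * Real.pi) * u) = 2 * Real.cos (2 * Real.pi * u) ^ 2 - 1 := by
        rw [← Real.cos_two_mul]
        congr 1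
        ring
      rw [this]
      ring
    simp_rw [h2]
    rw [intervalIntegral.integral_sub (by apply Continuous.intervalIntegrable; fun_prop)
      (by apply Continuous.intervalIntegrable; fun_prop)]
    rw [intervalIntegral.integral_const, intervalIntegral.integral_const_mul]
    have h3 : ∫ u in (0 : ℝ)..1, Real.cos ((4 * Real.pi) * u) = 0 := by
      rw [intervalIntegral.integral_comp_mul_left (fun x => Real.cos x) (by positivity)]
      simp only [mul_zero, mul_one, integral_cos, Real.sin_zero, sub_zero, smul_eq_mul]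
      have : Real.sin (4 * Real.pi) = 0 := by
        have := Real.sin_nat_mul_pi 4
        simpa using this
      rw [this, mul_zero]
    rw [h3]
    simp
  have hpos : 0 < α ^ 2 := by positivity
  linarith

end Pool.Agent.H212.KR.Expo
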