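import Pool.Agent.H212.KR.Stm

/-! # Project KR: S_B -/

set_option autoImplicit false

namespace Pool.Agent.H212.KR

open Complex Filter Topology MeasureTheory
open Pool.Agent.TH229.Kan

namespace Baux

lemma zdiff (L : ℕ) (α : ℂ) (n : ℕ) (u : ℝ) : Differentiable ℂ fun w : ℂ => Phi L α w n u := by
  induction n with
  | zero => exact differentiable_id
  | succ n ih =>
    have e : (fun w : ℂ => Phi L α w (n + 1) u) =
        fun w => Phi L α w n u * (1 + α * cr L n u * (1 - Phi L α w n u)) := by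
      funext w
      exact Phi_succ_real' L α w n u
    rw [e]
    exact ih.mul (((ih.const_sub 1).const_mul _).const_add 1)

lemma zderiv (L : ℕ) (α : ℂ) (n : ℕ) (u : ℝ) (w : ℂ) :
    deriv (fun w : ℂ => Phi L α w (n + 1) u) w =
      deriv (fun w : ℂ => Phi L α w n u) w * (1 + α * cr L n u * (1 - 2 * Phi L α w n u)) := by
  have hd := (zdiff L α n u w).hasDerivAt
  have e : (fun w : ℂ => Phi L α w (n + 1) u) =
      fun w => Phi L α w n u * (1 + α * cr L n u * (1 - Phi L α w n u)) := by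
    funext w
    exact Phi_succ_real' L α w n u
  rw [e]
  have h := hd.mul (((hd.const_sub 1).const_mul (α * cr L n u)).const_add 1)
  refine (HasDerivAt.deriv h).trans ?_
  ring

lemma phi0 (L : ℕ) (α : ℂ) (n : ℕ) (u : ℝ) : Phi L α 0 n u = 0 := by
  induction n with
  | zero => rfl
  | succ n ih => rw [Phi_succ, ih]; ring

lemma phi1 (L : ℕ) (α : ℂ) (n : ℕ) (u : ℝ) : Phi L α 1 n u = 1 := by
  induction n with
  | zero => rfl
  | succ n ih => rw [Phi_succ, ih]; ring

lemma im_succ (L : ℕ) (α : ℝ) (w : ℂ) (n : ℕ) (u : ℝ) :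
    (Phi L α w (n + 1) u).im =
      (Phi L α w n u).im * (1 + α * cr L n u * (1 - 2 * (Phi L α w n u).re)) := by
  rw [Phi_succ_real']
  simp only [Complex.mul_im, Complex.add_im, Complex.add_re, Complex.mul_re, Complex.ofReal_re,
    Complex.ofReal_im, Complex.sub_im, Complex.sub_re, Complex.one_re, Complex.one_im]
  ring

/-- Schwarz-Pick at the centre of a disc -/
lemma pick {f : ℂ → ℂ} {z : ℂ} {r : ℝ} (hr : 0 < r) (hf : Differentiable ℂ f)
    (hp : ∀ w ∈ Metric.ball z r, 0 < (f w).im) : ‖deriv f z‖ ≤ 2 * (f z).im / r := by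
  have hza : 0 < (f z).im := hp z (Metric.mem_ball_self hr)
  have hne : ∀ w ∈ Metric.ball z r, f w - starRingEnd ℂ (f z) ≠ 0 := by
    intro w hw h
    have h1 := congrArg Complex.im h
    rw [Complex.sub_im, Complex.conj_im, Complex.zero_im] at h1
    have := hp w hw
    linarith
  have hd : DifferentiableOn ℂ (fun w => (f w - f z) / (f w - starRingEnd ℂ (f z)))
      (Metric.ball z r) := by
    intro w hw
    exact (((hf w).sub_const (f z)).div ((hf w).sub_const _) (hne w hw)).differentiableWithinAt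
  have hz0 : (f z - f z) / (f z - starRingEnd ℂ (f z)) = 0 := by rw [sub_self, zero_div]
  have hmaps : Set.MapsTo (fun w => (f w - f z) / (f w - starRingEnd ℂ (f z))) (Metric.ball z r)
      (Metric.ball ((fun w => (f w - f z) / (f w - starRingEnd ℂ (f z))) z) 1) := by
    intro w hw
    show (f w - f z) / (f w - starRingEnd ℂ (f z)) ∈
      Metric.ball ((f z - f z) / (f z - starRingEnd ℂ (f z))) 1
    rw [hz0, mem_ball_zero_iff, norm_div, div_lt_one (norm_pos_iff.mpr (hne w hw)),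
      ← sq_lt_sq₀ (norm_nonneg _) (norm_nonneg _), Complex.sq_norm, Complex.sq_norm,
      Complex.normSq_apply, Complex.normSq_apply]
    simp only [Complex.sub_re, Complex.sub_im, Complex.conj_re, Complex.conj_im]
    nlinarith [mul_pos (hp w hw) hza]
  have hS := Complex.norm_deriv_le_div_of_mapsTo_ball hd
    (hmaps.mono_right Metric.ball_subset_closedBall) hr
  have hder : deriv (fun w => (f w - f z) / (f w - starRingEnd ℂ (f z))) z =
      deriv f z / (f z - starRingEnd ℂ (f z)) := by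
    have h1 := (hf z).hasDerivAt
    have h2 := (h1.sub_const (f z)).div (h1.sub_const (starRingEnd ℂ (f z)))
      (hne z (Metric.mem_ball_self hr))
    refine (HasDerivAt.deriv h2).trans ?_
    have h3 := hne z (Metric.mem_ball_self hr)
    field_simp
    ring
  rw [hder, norm_div] at hS
  have h4 : ‖f z - starRingEnd ℂ (f z)‖ = 2 * (f z).im := by
    rw [Complex.sub_conj, norm_mul, Complex.norm_I, mul_one, Complex.norm_real, Real.norm_eq_abs,
      abs_of_pos (by positivity)]
  rw [h4, div_le_iff₀ (by positivity)] at hS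
  calc ‖deriv f z‖ ≤ 1 / r * (2 * (f z).im) := hS
    _ = _ := by ring

/-- Schwarz-Pick for maps which avoid the real line -/
lemma pick' {f : ℂ → ℂ} {z : ℂ} {r : ℝ} (hr : 0 < r) (hf : Differentiable ℂ f)
    (hp : ∀ w ∈ Metric.ball z r, (f w).im ≠ 0) : ‖deriv f z‖ ≤ 2 * |(f z).im| / r := by
  have hz := hp z (Metric.mem_ball_self hr)
  have hconn : IsPreconnected (Metric.ball z r) := (convex_ball z r).isPreconnected
  have hcont : ContinuousOn (fun w => (f w).im) (Metric.ball z r) :=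
    (Complex.continuous_im.comp hf.continuous).continuousOn
  rcases lt_or_gt_of_ne hz with h | h
  · have hneg : ∀ w ∈ Metric.ball z r, (f w).im < 0 := by
      intro w hw
      by_contra hc
      push Not at hc
      obtain ⟨v, hv, hv0⟩ := hconn.intermediate_value (Metric.mem_ball_self hr) hw hcont
        (⟨h.le, hc⟩ : (0 : ℝ) ∈ Set.Icc ((f z).im) ((f w).im))
      exact hp v hv hv0
    have := pick (f := fun w => - f w) hr hf.neg (fun w hw => by
      rw [Complex.neg_im]; linarith [hneg w hw])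
    rw [show deriv (fun w => - f w) z = - deriv f z from (hf z).hasDerivAt.neg.deriv, norm_neg,
      Complex.neg_im] at this
    rw [abs_of_neg h]
    exact this
  · have hpos : ∀ w ∈ Metric.ball z r, 0 < (f w).im := by
      intro w hw
      by_contra hc
      push Not at hc
      obtain ⟨v, hv, hv0⟩ := hconn.intermediate_value hw (Metric.mem_ball_self hr) hcont
        (⟨hc, h.le⟩ : (0 : ℝ) ∈ Set.Icc ((f w).im) ((f z).im))
      exact hp v hv hv0
    have := pick hr hf hpos
    rw [abs_of_pos h]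
    exact this

/-- no real values on the disc -/
lemma no_real {L : ℕ} {α : ℝ} {u : ℝ}
    (hq : ∀ (n : ℕ) (p : ℚ), Absorbed L α (((p : ℝ) : ℂ)) ((L : ℝ) ^ n * u))
    {z : ℂ} {r : ℝ} (hna : ∀ w ∈ Metric.ball z r, ¬ Absorbed L α w u) (n : ℕ) :
    ∀ w ∈ Metric.ball z r, (Phi L α w n u).im ≠ 0 := by
  intro w hw him
  have han : AnalyticOnNhd ℂ (fun w : ℂ => Phi L α w n u) Set.univ :=
    fun x _ => (zdiff L α n u).analyticAt x
  rcases han.is_constant_or_isOpen isPreconnected_univ with ⟨c, hc⟩ | hop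
  · have h0 := hc 0 (Set.mem_univ _)
    have h1 := hc 1 (Set.mem_univ _)
    rw [phi0] at h0
    rw [phi1] at h1
    exact zero_ne_one (h0.trans h1.symm)
  · have ho := hop (Metric.ball z r) (Set.subset_univ _) Metric.isOpen_ball
    have hmem : Phi L α w n u ∈ (fun w : ℂ => Phi L α w n u) '' Metric.ball z r :=
      ⟨w, hw, rfl⟩
    have hre : Phi L α w n u = (((Phi L α w n u).re : ℝ) : ℂ) := by
      apply Complex.ext
      · rw [Complex.ofReal_re]
      · rw [Complex.ofReal_im, him]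
    have ho' : IsOpen ((fun t : ℝ => (t : ℂ)) ⁻¹'
        ((fun w : ℂ => Phi L α w n u) '' Metric.ball z r)) := ho.preimage Complex.continuous_ofReal
    have hne : ((fun t : ℝ => (t : ℂ)) ⁻¹'
        ((fun w : ℂ => Phi L α w n u) '' Metric.ball z r)).Nonempty := by
      refine ⟨(Phi L α w n u).re, ?_⟩
      rw [Set.mem_preimage, ← hre]
      exact hmem
    obtain ⟨t, ht, ⟨q, hqt⟩⟩ := Rat.denseRange_cast (𝕜 := ℝ) |>.exists_mem_open ho' hne |>.elim
      (fun q hq' => (⟨(q : ℝ), hq', ⟨q, rfl⟩⟩ : ∃ t : ℝ, t ∈ ((fun t : ℝ => (t : ℂ)) ⁻¹'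
        ((fun w : ℂ => Phi L α w n u) '' Metric.ball z r)) ∧ ∃ q : ℚ, (q : ℝ) = t))
    obtain ⟨w', hw', hw'q⟩ := ht
    have hab := hq n q
    rw [hqt] at hab
    simp only at hw'q
    rw [← hw'q] at hab
    exact hna w' hw' (Absorbed_shift n hab)

end Baux

open Baux in
theorem t_B : S_B := by
  intro L hL α hα0 hα1 ε δ R hε hδ hδ8 hR u hq z r hr hna
  have hnr := fun n => no_real hq hna n
  have hzb : z ∈ Metric.ball z r := Metric.mem_ball_self hr
  set y : ℕ → ℝ := fun n => (Phi L α z n u).im with hy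
  set x : ℕ → ℝ := fun n => (Phi L α z n u).re with hx
  set d : ℕ → ℂ := fun n => deriv (fun w : ℂ => Phi L α w n u) z with hd
  set b : ℕ → ℝ := fun n => α * cr L n u with hb
  have hy0 : ∀ n, y n ≠ 0 := fun n => hnr n z hzb
  have hpk : ∀ n, ‖d n‖ ≤ 2 * |y n| / r := fun n => pick' hr (zdiff L α n u) (hnr n)
  have hys : ∀ n, y (n + 1) = y n * (1 + b n * (1 - 2 * x n)) := fun n => im_succ L α z n u
  have hds : ∀ n, d (n + 1) = d n * (1 + (b n : ℂ) * (1 - 2 * Phi L α z n u)) := by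
    intro n
    have := zderiv L α n u z
    simp only [hd, hb]
    rw [this]
    push_cast
    ring
  have hmul : ∀ n, 1 + b n * (1 - 2 * x n) ≠ 0 := by
    intro n h
    apply hy0 (n + 1)
    rw [hys, h, mul_zero]
  have hd2 : ∀ n, ‖d (n + 1)‖ ^ 2 = ‖d n‖ ^ 2 *
      ((1 + b n * (1 - 2 * x n)) ^ 2 + 4 * b n ^ 2 * y n ^ 2) := by
    intro n
    rw [hds, norm_mul, mul_pow]
    congr 1
    rw [Complex.sq_norm, Complex.normSq_apply]
    simp only [Complex.add_re, Complex.add_im, Complex.mul_re, Complex.mul_im, Complex.sub_re,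
      Complex.sub_im, Complex.one_re, Complex.one_im, Complex.ofReal_re, Complex.ofReal_im,
      Complex.re_ofNat, Complex.im_ofNat, hx, hy]
    ring
  set t : ℕ → ℝ := fun n => ‖d n‖ ^ 2 / y n ^ 2 with ht
  set s : ℕ → ℝ := fun n => 4 * b n ^ 2 * y n ^ 2 / (1 + b n * (1 - 2 * x n)) ^ 2 with hs
  have hts : ∀ n, t (n + 1) = t n * (1 + s n) := by
    intro n
    have h1 := hy0 n
    have h2 := hmul n
    simp only [ht, hs]
    rw [hd2, hys]
    field_simp
  have hs0 : ∀ n, 0 ≤ s n := fun n => by simp only [hs]; positivity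
  have ht0 : ∀ n, 0 ≤ t n := fun n => by simp only [ht]; positivity
  have hmono : Monotone t := by
    refine monotone_nat_of_le_succ fun n => ?_
    rw [hts]
    nlinarith [mul_nonneg (ht0 n) (hs0 n)]
  have hbd : ∀ n, t n ≤ 4 / r ^ 2 := by
    intro n
    have h1 := hy0 n
    have h2 : 0 < y n ^ 2 := by positivity
    simp only [ht]
    rw [div_le_iff₀ h2]
    calc ‖d n‖ ^ 2 ≤ (2 * |y n| / r) ^ 2 := pow_le_pow_left₀ (norm_nonneg _) (hpk n) 2
      _ = 4 / r ^ 2 * y n ^ 2 := by rw [div_pow, mul_pow, sq_abs]; ring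
  have hlim : ∃ T, Tendsto t atTop (𝓝 T) :=
    ⟨_, tendsto_atTop_ciSup hmono ⟨4 / r ^ 2, by rintro _ ⟨n, rfl⟩; exact hbd n⟩⟩
  obtain ⟨T, hT⟩ := hlim
  have hdiff : Tendsto (fun n => t (n + 1) - t n) atTop (𝓝 0) := by
    have := (hT.comp (tendsto_add_atTop_nat 1)).sub hT
    rwa [sub_self] at this
  have ht00 : 0 < t 0 := by
    have h1 := hy0 0
    have h2 : d 0 = 1 := by
      simp only [hd]
      exact deriv_id z
    simp only [ht]
    rw [h2]
    simp only [norm_one]
    positivity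
  have hs_small : ∀ η : ℝ, 0 < η → ∃ N, ∀ k ≥ N, s k < η := by
    intro η hη
    have h1 := (hdiff.eventually_lt_const (show (0 : ℝ) < η * t 0 by positivity))
    obtain ⟨N, hN⟩ := eventually_atTop.mp h1
    refine ⟨N, fun k hk => ?_⟩
    have h2 := hN k hk
    rw [hts] at h2
    have h3 : t 0 ≤ t k := hmono (Nat.zero_le k)
    have h4 : t 0 * s k ≤ t k * s k := mul_le_mul_of_nonneg_right h3 (hs0 k)
    by_contra hc
    push Not at hc
    have h5 : t 0 * η ≤ t 0 * s k := mul_le_mul_of_nonneg_left hc ht00.le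
    nlinarith
  obtain ⟨N, hN⟩ := hs_small ((α * ε) ^ 2 / (2 + 2 * R) ^ 2) (by positivity)
  refine ⟨N, fun k hk j hj hRk => ?_⟩
  have hsk := hN k hk
  -- lower bound of the cosine
  have hcos : 1 / 2 ≤ cr L k u := by
    have h1 : cr L k u = Real.cos (2 * Real.pi * ((L : ℝ) ^ k * u - j)) := by
      unfold cr
      rw [mul_sub, show 2 * Real.pi * (j : ℝ) = (j : ℝ) * (2 * Real.pi) by ring,
        Real.cos_sub_int_mul_two_pi]
    rw [h1, ← Real.cos_abs]
    have hpi := Real.pi_pos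
    have h2 : |2 * Real.pi * ((L : ℝ) ^ k * u - j)| ≤ Real.pi / 3 := by
      rw [abs_mul, abs_of_pos (by positivity : (0 : ℝ) < 2 * Real.pi)]
      nlinarith
    have h3 := Real.cos_le_cos_of_nonneg_of_le_pi (abs_nonneg _) (by linarith) h2
    rw [Real.cos_pi_div_three] at h3
    exact h3
  have hcos1 : |cr L k u| ≤ 1 := cr_abs_le L k u
  have hbk : α / 2 ≤ b k := by
    simp only [hb]
    nlinarith
  have hbk1 : |b k| ≤ 1 := by
    simp only [hb]
    rw [abs_mul, abs_of_pos hα0]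
    nlinarith [abs_nonneg (cr L k u)]
  have hxk : |x k| ≤ R := (Complex.abs_re_le_norm _).trans hRk
  have hM : |1 + b k * (1 - 2 * x k)| ≤ 2 + 2 * R := by
    have h1 : |b k * (1 - 2 * x k)| ≤ 1 * (1 + 2 * R) := by
      rw [abs_mul]
      refine mul_le_mul hbk1 ?_ (abs_nonneg _) zero_le_one
      calc |1 - 2 * x k| ≤ |1| + |2 * x k| := abs_sub _ _
        _ ≤ 1 + 2 * R := by rw [abs_one, abs_mul, abs_two]; linarith
    calc |1 + b k * (1 - 2 * x k)| ≤ |1| + |b k * (1 - 2 * x k)| := abs_add_le _ _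
      _ ≤ 2 + 2 * R := by rw [abs_one]; linarith
  have hM2 : (1 + b k * (1 - 2 * x k)) ^ 2 ≤ (2 + 2 * R) ^ 2 := by
    rw [← sq_abs (1 + b k * (1 - 2 * x k))]
    exact pow_le_pow_left₀ (abs_nonneg _) hM 2
  have hMpos : 0 < (1 + b k * (1 - 2 * x k)) ^ 2 := by
    have := hmul k
    positivity
  simp only [hs] at hsk
  rw [div_lt_div_iff₀ hMpos (by positivity)] at hsk
  have h6 : 4 * b k ^ 2 * y k ^ 2 * (2 + 2 * R) ^ 2 < (α * ε) ^ 2 * (2 + 2 * R) ^ 2 :=
    lt_of_lt_of_le hsk (mul_le_mul_of_nonneg_left hM2 (by positivity))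
  have h7 : 4 * b k ^ 2 * y k ^ 2 < (α * ε) ^ 2 :=
    lt_of_mul_lt_mul_right h6 (by positivity)
  have h8 : α ^ 2 ≤ 4 * b k ^ 2 := by nlinarith
  have h9 : α ^ 2 * y k ^ 2 < α ^ 2 * ε ^ 2 := by
    calc α ^ 2 * y k ^ 2 ≤ 4 * b k ^ 2 * y k ^ 2 := mul_le_mul_of_nonneg_right h8 (by positivity)
      _ < (α * ε) ^ 2 := h7
      _ = _ := by ring
  have h10 : y k ^ 2 < ε ^ 2 := lt_of_mul_lt_mul_left h9 (by positivity)
  have h11 := abs_lt_of_sq_lt_sq h10 hε.le
  exact h11.le

end Pool.Agent.H212.KR
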