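import Pool.Agent.H212.KR.Stm

/-!
# Project KR, S_BC: polynomial bound of non absorbed orbits (helper105)
-/

set_option autoImplicit false

namespace Pool.Agent.H212.KR

open Complex Filter Topology MeasureTheory
open Pool.Agent.TH229.Kan

namespace BCaux

/-- bad base points in a unit interval -/
def Bd (L : ℕ) (a : ℤ) (n : ℕ) (x : ℝ) : Prop :=
  x ∈ Set.Icc (a : ℝ) (a + 1) ∧ (L : ℝ) ^ n * x ∈ (GE L (((n : ℝ) + 1) ^ 2))ᶜ

theorem vol_Bd {L : ℕ} (hL : 0 < L) (a : ℤ) (n : ℕ) :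
    volume {x | Bd L a n x} ≤ ENNReal.ofReal (2 / ((n : ℝ) + 1) ^ 2) := by
  have hL0 : (0 : ℝ) < L := by exact_mod_cast hL
  have h1 := volume_periodic_scale (G := (GE L (((n : ℝ) + 1) ^ 2))ᶜ)
    (GE_closed _ _).measurableSet.compl (fun x => not_congr (GE_periodic _ _ x)) (a : ℝ)
    ((L : ℝ) ^ n) (by positivity) (L ^ n)
  have h2 : ((L ^ n : ℕ) : ℝ) / (L : ℝ) ^ n = 1 := by
    push_cast
    exact div_self (by positivity)
  rw [h2, ENNReal.ofReal_one, one_mul] at h1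
  have h3 : {x | Bd L a n x} = {x | x ∈ Set.Icc (a : ℝ) (a + 1) ∧
      (L : ℝ) ^ n * x ∈ (GE L (((n : ℝ) + 1) ^ 2))ᶜ} := rfl
  rw [h3, h1]
  exact GE_compl hL (by positivity)

theorem ae_ev {L : ℕ} (hL : 0 < L) :
    ∀ᵐ u : ℝ, ∀ᶠ n : ℕ in atTop, (L : ℝ) ^ n * u ∈ GE L (((n : ℝ) + 1) ^ 2) := by
  have hsum : Summable (fun n : ℕ => 2 / ((n : ℝ) + 1) ^ 2) := by
    have h1 : Summable (fun n : ℕ => 1 / ((n : ℝ)) ^ 2) :=
      Real.summable_one_div_nat_pow.2 (by norm_num)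
    have h2 := (summable_nat_add_iff 1).2 h1
    have h3 := h2.mul_left 2
    refine h3.congr (fun n => ?_)
    push_cast
    ring
  have h0 : ∀ a : ℤ, volume {x | ∃ᶠ n in atTop, Bd L a n x} = 0 := by
    intro a
    apply measure_setOf_frequently_eq_zero
    refine ne_top_of_le_ne_top ?_ (ENNReal.tsum_le_tsum (vol_Bd hL a))
    rw [← ENNReal.ofReal_tsum_of_nonneg (fun n => by positivity) hsum]
    exact ENNReal.ofReal_ne_top
  have h1 : ∀ᵐ u : ℝ, ∀ a : ℤ, ¬ ∃ᶠ n in atTop, Bd L a n u := by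
    rw [ae_all_iff]
    intro a
    rw [ae_iff]
    simp only [not_not]
    exact h0 a
  filter_upwards [h1] with u hu
  have h2 := hu ⌊u⌋
  rw [not_frequently] at h2
  filter_upwards [h2] with n hn
  by_contra hcon
  exact hn ⟨⟨Int.floor_le u, (Int.lt_floor_add_one u).le⟩, hcon⟩

end BCaux

theorem t_BC : S_BC := by
  intro L hL α z hα0 hα
  filter_upwards [BCaux.ae_ev (L := L) (by omega)] with u hu hnot
  obtain ⟨N, hN⟩ := exists_nat_ge (1 + 12 / ‖α‖)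
  filter_upwards [hu, eventually_ge_atTop (N + 1)] with n hn hnN
  have hn1 : (1 : ℝ) ≤ n := by
    have : 1 ≤ n := by omega
    exact_mod_cast this
  have hnN' : 1 + 12 / ‖α‖ ≤ (n : ℝ) := by
    refine hN.trans ?_
    have : N ≤ n := by omega
    exact_mod_cast this
  have h1 : ‖Phi L α z n u‖ < RE α (((n : ℝ) + 1) ^ 2) := by
    by_contra hcon
    push Not at hcon
    exact hnot (Absorbed_shift n (absorbed_of_escape hα0 (by positivity) hn hcon))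
  refine h1.le.trans ?_
  unfold RE
  have h2 : ((n : ℝ) + 1) ^ 2 ≤ 4 * (n : ℝ) ^ 2 := by nlinarith
  have h3 : 3 * ((n : ℝ) + 1) ^ 2 / ‖α‖ ≤ 12 * (n : ℝ) ^ 2 / ‖α‖ := by
    apply div_le_div_of_nonneg_right _ hα0.le
    linarith
  have h4 : (n : ℝ) ^ 2 * (1 + 12 / ‖α‖) ≤ (n : ℝ) ^ 2 * n :=
    mul_le_mul_of_nonneg_left hnN' (by positivity)
  have h5 : (n : ℝ) ^ 2 * (1 + 12 / ‖α‖) = (n : ℝ) ^ 2 + 12 * (n : ℝ) ^ 2 / ‖α‖ := by ring
  have h6 : (1 : ℝ) ≤ (n : ℝ) ^ 2 := one_le_pow₀ hn1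
  calc 1 + 3 * ((n : ℝ) + 1) ^ 2 / ‖α‖ ≤ (n : ℝ) ^ 2 + 12 * (n : ℝ) ^ 2 / ‖α‖ := by linarith
    _ ≤ (n : ℝ) ^ 2 * n := by rw [← h5]; exact h4
    _ = (n : ℝ) ^ 3 := by ring

end Pool.Agent.H212.KR
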