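import Pool.Graph.R_seed8.TH229.Kan.Sphere

/-!
# Project KR: the holomorphic Kan skew product, real coupling, every base degree L >= 2

Statements `S_X : Prop` with complete paper proofs in the docstrings. The library modules
`Pool.Graph.R_seed8.TH229.Kan.*` (namespace `Pool.Agent.TH229.Kan`) contain the definitions
`cc`, `Phi`, `NN`, `cr`, `GE`, `RE`, `GS`, `rS`, `Absorbed`, ... and many lemmas about them.
-/

set_option autoImplicit false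

namespace Pool.Agent.H212.KR

open Complex Filter Topology MeasureTheory
open Pool.Agent.TH229.Kan

/-! ### 1. Function theory -/

/-- **S_PI (Poisson inequality for functions of exponential type, periodic case).**
`F` entire, `1`-periodic, `‖F z‖ ≤ exp (C + D |Im z|)`. Then for `h > 0`
`log⁺ ‖F (x + i h)‖ ≤ D h + (P_h * log⁺ ‖F‖) (x)`, `P_h (t) = h / (π (t² + h²))`.

Proof. Let `φ t = log⁺ ‖F t‖` (real `t`): continuous, `1`-periodic, `0 ≤ φ ≤ C`.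
`G z = (1/(π i)) ∫ φ t (1/(t-z) - t/(1+t²)) dt` is analytic on the upper half plane with
`Re G (x+iy) = (P_y * φ) x ≥ 0`, and `P_y * φ → φ` uniformly on `ℝ` as `y → 0` (φ is uniformly
continuous). `H z = F z * exp (i D z - G z)` is bounded by `exp C` on the upper half plane, and for
every `η > 0` one has `‖H‖ ≤ exp η` on the line `Im z = y` for all small `y > 0`
(`log ‖F (x+iy)‖ ≤ φ x + η/2 ≤ (P_y * φ) x + η`, by uniform continuity of `F` on a strip, use periodicity;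
where `‖F‖ < 1` the estimate is trivial). Phragmen-Lindelof for bounded functions on the half plane
`{Im z > y}` gives `‖H‖ ≤ exp η` there; `η → 0`: `‖H‖ ≤ 1`, i.e. `log ‖F (x+ih)‖ ≤ D h + (P_h*φ) x`; the right side
is `≥ 0` so `log⁺` is fine.
(Alternative: with `w = exp (2π i z)`, `F z = f w`, `f` analytic on `ℂ∖0`, `w^k f w`, `k = ⌊D/2π⌋`, is analytic on
the disc; use the Poisson formula on discs in `Mathlib.Analysis.Complex.Harmonic.Poisson` / `JensenFormula`; then the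
periodised kernel. Or replace `φ` by a step function majorant, whose harmonic extension is explicit.)
Any proof is fine. -/
def S_PI : Prop :=
  ∀ F : ℂ → ℂ, Differentiable ℂ F → (∀ z, F (z + 1) = F z) → ∀ C D : ℝ, 0 ≤ C → 0 ≤ D →
    (∀ z, ‖F z‖ ≤ Real.exp (C + D * |z.im|)) → ∀ x h : ℝ, 0 < h →
      Real.posLog ‖F ((x : ℂ) + h * I)‖ ≤
        D * h + ∫ t : ℝ, (h / (Real.pi * ((x - t) ^ 2 + h ^ 2))) * Real.posLog ‖F t‖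

/-- **S_VT (vanishing set trick).** `F n` entire, `1`-periodic, `‖F n z‖ ≤ exp (D n (C + |Im z|))`,
`‖F n‖ ≤ 1` on a measurable `1`-periodic set `A ⊆ ℝ` of positive measure. Then on a subset `A' ⊆ A` of positive
measure all the `F n` have uniform Lipschitz type growth: `‖F n (u + ζ)‖ ≤ exp (K D n ‖ζ‖)`.

Proof (the theorem to deliver is `theorem t_VT (hPI : S_PI) (hVJ : S_VJ) (hVK : S_VK) : S_VT`; `S_VJ`, `S_VK` at the end of the file are the two real variable halves). `v n z = (1/D n) log⁺ ‖F n z‖`, `0 ≤ v n z ≤ C + |Im z|`.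
`S_PI`, applied to `z ↦ F n (z + i a)` and to `z ↦ F n (-z + i a)` (both entire, periodic, same type), gives for all real
`a, x`, `h > 0`:  `v n (x + i(a ± h)) ≤ h + ∫ P_h(x-t) v n (t + i a) dt`.   (*)
Put `V t = sup_n v n t` for real `t`: `1`-periodic, measurable, `0 ≤ V ≤ C`, `V = 0` on `A`.
Twice (*) (up by `h/2`, down by `h/2`): `v n x ≤ h + T_h V x`, `T_h = P_{h/2} * P_{h/2} *`, so `V ≤ h + T_h V` on `ℝ`.
`T_h V` is `1`-periodic with the same integral over a period as `V`, so `∫_0^1 (h + T_h V - V) = h`, the integrand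
is `≥ 0`, and on `A` it is `≥ T_h V`: hence `∫_{A ∩ [0,1]} T_h V ≤ h`.
Kernel lower bound: `(P_{h/2} * P_{h/2}) s ≥ c h / (s² + h²)` with an absolute `c > 0` (restrict the
convolution integral to `|r| ≤ h`; e.g. `c = 1/60`). Thus `∫_{u ∈ A ∩ [0,1]} ∫_t V t / ((u-t)² + h²) dt du ≤ 1/c` for all `h > 0`;
let `h ↓ 0` (monotone convergence, lintegrals): `J u := ∫_t V t / (u-t)² dt ∈ [0,∞]` has `∫_{A ∩ [0,1]} J ≤ 1/c`.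
`A' := {u ∈ A | J u ≤ λ}`, `λ` large: measurable, positive measure (`A` periodic of positive measure, Markov).
For `u ∈ A'`, `ζ ≠ 0`, `r = ‖ζ‖`, `z = u + ζ = x + i y`: (*) from the line `Im = -2r` up to `z` (height `y + 2r ∈ [r, 3r]`) and from `ℝ`
down to the line `Im = -2r` gives `v n z ≤ (y + 2r) + 2r + (P_{y+2r} * P_{2r} * V) x ≤ 5 r + ∫ k(x-t) V t dt`, where
`k = P_{y+2r} * P_{2r}` satisfies `k s ≤ P_{y+2r}(s/2) + P_{2r}(s/2) ≤ 8 r / s²` (split the convolution at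
`|s'| ≤ |s|/2`, both kernels have mass one) and `k s ≤ max P_{2r} ≤ 1/(2π r)`. With `|x - u| ≤ r`: if `|t-u| ≥ 2r` then `|x-t| ≥ |t-u|/2`, so
`k (x-t) ≤ 32 r/(t-u)²`; if `|t-u| < 2r` then `k(x-t) ≤ 1/(2π r) ≤ 4 r/(t-u)²`. So `v n z ≤ 5 r + 32 r J u ≤ (5 + 32 λ) r`.
Then `‖F n z‖ ≤ exp (log⁺ ‖F n z‖) = exp (D n * v n z)`. -/
def S_VT : Prop :=
  ∀ F : ℕ → ℂ → ℂ, (∀ n, Differentiable ℂ (F n)) → (∀ n z, F n (z + 1) = F n z) →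
    ∀ D : ℕ → ℝ, (∀ n, 0 < D n) → ∀ C : ℝ, 0 ≤ C →
    (∀ n z, ‖F n z‖ ≤ Real.exp (D n * (C + |z.im|))) →
    ∀ A : Set ℝ, MeasurableSet A → (∀ x, x + 1 ∈ A ↔ x ∈ A) →
    (∀ n, ∀ x ∈ A, ‖F n (x : ℂ)‖ ≤ 1) → volume A ≠ 0 →
    ∃ A' ⊆ A, MeasurableSet A' ∧ volume A' ≠ 0 ∧ ∃ K : ℝ, 0 ≤ K ∧
      ∀ n, ∀ u ∈ A', ∀ ζ : ℂ, ‖F n ((u : ℂ) + ζ)‖ ≤ Real.exp (K * D n * ‖ζ‖)

/-- the two-constants property with exceptional measure `ε` -/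
def TCprop (ε : ℝ) : Prop :=
  ∀ F : ℂ → ℂ, Differentiable ℂ F → ∀ B : ℝ, 0 ≤ B →
    (∀ ζ : ℂ, ‖ζ‖ ≤ 1 → ‖F ζ‖ ≤ Real.exp B) →
    volume {t : ℝ | t ∈ Set.Icc (-1) 1 ∧ 1 < ‖F t‖} ≤ ENNReal.ofReal ε →
    ∀ ζ : ℂ, ‖ζ‖ ≤ 1 / 100 → ‖F ζ‖ ≤ Real.exp (B / 20 + 2)

/-- **S_TC (two constants, radius 1/100, gain 20).** Proof: copy `two_const`, `two_const_meas` of
`Pool.Graph.R_seed8.TH229.Kan.TC/TCM` (there radius 1/6, gain 0.46) using their `disc_bound` and `cover_lemma` (for a general compact set):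
the bound there is `B (re² - im² + 2 |im|) + b + small`. For `‖ζ‖ ≤ 1/100` use the circle of radius `1/90` around `x = re ζ` in place
of `1/30`, so that `‖w‖ ≤ 0.0212` on it and `B (re² - im² + 2|im|) ≤ 0.023 B`; take `K = ⌈B/100⌉`, so that the polynomial
factor costs at most `0.007 B + 0.7` and the region `60..|im| ≤ exp(-100)` is beaten by `exp(-100 K) ≤ exp(-B)`; total
`≤ 0.04 B + 1`. Take `b` small (e.g. use the closed set `{e^{1/10} ≤ ‖F t‖} ⊆ {1 < ‖F t‖}`, `b = 1/10`), and `ε` tiny. -/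
def S_TC : Prop := ∃ ε : ℝ, 0 < ε ∧ TCprop ε

/-- **S_CAS (cascade).** Iterating the two-constants property at the scales `ρ0/100^i`. Induction on `i`: rescale
`F ζ = Y (ρ_i ζ) / (C1 ρ_i^a)`, `ρ_i = ρ0/100^i`, `B = g0/20^i + 8`; `ρ_{i+1}^a = ρ_i^a / 100^a`, `100^a ≤ 100 ≤ exp 4.61`,
`(g0/20^i + 8)/20 + 2 + 4.61 ≤ g0/20^(i+1) + 8`. Deliver `theorem t_CAS : S_CAS`. -/
def S_CAS : Prop :=
  ∀ ε : ℝ, 0 < ε → TCprop ε → ∀ Y : ℂ → ℂ, Differentiable ℂ Y →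
    ∀ C1 a ρ0 g0 : ℝ, 0 < C1 → 0 ≤ a → a ≤ 1 → 0 < ρ0 → 0 ≤ g0 →
    (∀ x : ℂ, ‖x‖ ≤ ρ0 → ‖Y x‖ ≤ Real.exp g0 * (C1 * ρ0 ^ a)) →
    ∀ J : ℕ, (∀ i < J, volume {x : ℝ | x ∈ Set.Icc (-(ρ0 / 100 ^ i)) (ρ0 / 100 ^ i) ∧
        C1 * (ρ0 / 100 ^ i) ^ a < ‖Y x‖} ≤ ENNReal.ofReal (ε * (ρ0 / 100 ^ i))) →
    ∀ i ≤ J, ∀ x : ℂ, ‖x‖ ≤ ρ0 / 100 ^ i →
      ‖Y x‖ ≤ Real.exp (g0 / 20 ^ i + 8) * (C1 * (ρ0 / 100 ^ i) ^ a)

/-! ### 2. Measure theory on the line -/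

/-- **S_ST (shrinking targets at 0 for `u ↦ L u`).**
Proof. Let `k_n ≥ 1` be such that `L^(-k_n) ≤ δ_n < L^(1-k_n)` (for `δ_n < 1/L`, else replace `δ_n` by the minimum; note `δ_n ≤ 1`), and let
`E_n` (`n ≥ 1`) be the set of `u ∈ [0,1)` whose base `L` digits satisfy: digit `n` is `≠ 0`, digits
`n+1, …, n+k_n` are `0` (then `|L^n u - k| < L^(-k_n) ≤ δ_n`, `k = ⌊L^n u⌋`). `|E_n| = (1 - 1/L) L^(-k_n) ≥ δ_n/(2L)`, so `Σ |E_n| = ∞`. For `n < m`: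
if `m ≤ n + k_n`, `E_n ∩ E_m = ∅`; if `m > n + k_n` they depend on disjoint blocks of digits, `|E_n ∩ E_m| = |E_n||E_m|`. So the number
`S_N` of `n ≤ N` with `u ∈ E_n` has `Var S_N ≤ E S_N`, Chebyshev: `|{S_N ≤ E S_N / 2}| ≤ 4 / E S_N → 0`, hence `S_N → ∞` a.e. on `[0,1)`; by
periodicity a.e. on `ℝ`. (Avoid digits: `E_n = {u : ⌊L^n u⌋ ≢ 0 mod L, fract (L^n u) < L^(-k_n)}`, a finite union of equal
intervals in `[0,1)`; or use any quasi-independence + Kochen-Stone + ergodicity argument: `|{‖L^m u‖<δ_m} ∩ {‖L^n u‖ < δ_n}| ≤ 4 δ_m δ_n + 2 δ_n L^(-(n-m))`.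
The library `Pool.Graph` may contain a dynamical Borel-Cantelli lemma.) -/
def S_ST : Prop :=
  ∀ L : ℕ, 2 ≤ L → ∀ δ : ℕ → ℝ, (∀ n, 0 < δ n) → (∀ n, δ n ≤ 1) → Antitone δ → ¬ Summable δ →
    ∀ᵐ u : ℝ, ∃ᶠ n : ℕ in atTop, ∃ k : ℤ, |(L : ℝ) ^ n * u - k| < δ n

/-- **S_DEN (Lebesgue density).** From Mathlib (`Besicovitch.ae_tendsto_measure_inter_div` or `IsUnifLocDoublingMeasure`), see also
`density_point` in `Kan/Core.lean`. -/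
def S_DEN : Prop :=
  ∀ A : Set ℝ, MeasurableSet A → ∀ᵐ u ∂(volume.restrict A), ∀ ε : ℝ, 0 < ε →
    ∃ r : ℝ, 0 < r ∧ ∀ s : ℝ, 0 < s → s ≤ r →
      volume (Aᶜ ∩ Set.Icc (u - s) (u + s)) ≤ ENNReal.ofReal (ε * s)

/-- **S_PER.** Proportion of the complement of a periodic set in a window at least one period long: `{x ∈ [-s,s] | c x ∉ G}` is
`c⁻¹` times the part of `Gᶜ` in `[-cs, cs]`, covered by at most `2cs + 2 ≤ 4cs` unit intervals `[k,k+1]`. -/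
def S_PER : Prop :=
  ∀ G : Set ℝ, MeasurableSet G → (∀ x, x + 1 ∈ G ↔ x ∈ G) → ∀ e : ℝ, 0 ≤ e →
    volume (Gᶜ ∩ Set.Icc 0 1) ≤ ENNReal.ofReal e → ∀ c s : ℝ, 0 < c → 0 < s → 1 ≤ c * s →
    volume {x : ℝ | x ∈ Set.Icc (-s) s ∧ c * x ∉ G} ≤ ENNReal.ofReal (4 * e * s)

/-- **S_BAD (bad exits).** For each `m` the set `B_m = {x | 1/(8L) ≤ L^m |x| < 1/8, L^m x ∉ G}` has measure
`≤ L^(-m) |Gᶜ ∩ [-1/8,1/8]| ≤ L^(-m) e` (periodicity) and meets `[-ρ,ρ]` only if `L^(-m) ≤ 8 L ρ`; the sum of `L^(-m)` over these `m` is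
`≤ 2 · 8 L ρ`. -/
def S_BAD : Prop :=
  ∀ L : ℕ, 2 ≤ L → ∀ G : Set ℝ, MeasurableSet G → (∀ x, x + 1 ∈ G ↔ x ∈ G) → ∀ e : ℝ, 0 ≤ e →
    volume (Gᶜ ∩ Set.Icc 0 1) ≤ ENNReal.ofReal e → ∀ ρ : ℝ, 0 < ρ →
    volume {x : ℝ | x ∈ Set.Icc (-ρ) ρ ∧ ∃ m : ℕ, 1 / (8 * (L : ℝ)) ≤ (L : ℝ) ^ m * |x| ∧
      (L : ℝ) ^ m * |x| < 1 / 8 ∧ (L : ℝ) ^ m * x ∉ G} ≤ ENNReal.ofReal (32 * L * e * ρ)

/-- **S_G0 (good exits have almost full measure).** From the library: `ae_GS` (its two integral hypotheses hold for real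
`α`, `0 < α < 1`: both integrals are equal to `log ((1 + sqrt(1-α²))/2) < 0`, or simply `< 0` by strict concavity of `log`: the integral of
`1 ± α cos` is `1`, strict Jensen, or pair `u` and `u + 1/2`: `log(1-α²cos²) / 2 < 0` integrated), `ae_GE`, monotonicity `GS_mono`, `GE_mono`, continuity of measure. -/
def S_G0 : Prop :=
  ∀ L : ℕ, 2 ≤ L → ∀ α : ℝ, 0 < α → α < 1 → ∃ θ : ℝ, 0 < θ ∧ θ < 1 ∧ ∀ e : ℝ, 0 < e →
    ∃ C0 : ℝ, 2 ≤ C0 ∧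
      volume ((GE L C0 ∩ GS L (α : ℂ) θ C0)ᶜ ∩ Set.Icc 0 1) ≤ ENNReal.ofReal e

/-- **S_BC.** For a.e. `u` with non absorbed orbit, `‖Phi_n(u)‖ ≤ n³` eventually.
Proof: `GE_compl` (library) bounds the measure of the complement of `GE L M` in a period by `C/M`, so by Borel-Cantelli (with `M = n²`, the maps
`u ↦ L^n u` preserve Lebesgue measure on the circle: `volume_periodic_scale` or `S_PER`-type counting) for a.e. `u` eventually `L^n u ∈ GE L (n²)`. If `‖Phi_n(u)‖ ≥ RE α (n²) = 1 + 3 n²/‖α‖` for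
such `n`, then the orbit escapes: `absorbed_of_escape` and `Absorbed_shift`. And `RE α (n²) ≤ n³` for large `n`. -/
def S_BC : Prop :=
  ∀ L : ℕ, 2 ≤ L → ∀ α z : ℂ, 0 < ‖α‖ → ‖α‖ < 1 →
    ∀ᵐ u : ℝ, ¬ Absorbed L α z u → ∀ᶠ n : ℕ in atTop, ‖Phi L α z n u‖ ≤ (n : ℝ) ^ 3

/-! ### 3. Dynamics near the base point 0 -/

/-- **S_CR1.** Up to a good exit time `m` a non absorbed orbit stays bounded and away from `1`.
Proof: for `k ≤ m` we have `L^k x ∈ GE L C0`: for `i ≤ m - k`, `L^(k+i)|x| < 1/8` so `cos ≥ cos(π/4) ≥ 1/2 ≥ 1/(C0 2^i)`; for `i > m-k` use `L^m x ∈ GE L C0`.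
If `RE α C0 ≤ ‖Phi_k‖`, then the orbit is absorbed (`absorbed_of_escape`, `Absorbed_shift`). If `‖Phi_k - 1‖ < η1`, `η1 = min (1/2) (rS α θ C0)`, at a `k ≤ m`, then
`Phi_{k+1} - 1 = (Phi_k - 1)(1 - β_k Phi_k)`, `β_k = α cos(2π L^k x) ∈ [α/2, α]` for `k ≤ m`, and `|1 - β w| ≤ |1-β| + β |w-1| ≤ 1 - β/2 ≤ 1`, so `‖Phi_m - 1‖ < rS` and
`absorbed_of_one` applies at `L^m x ∈ GS`. -/
def S_CR1 : Prop :=
  ∀ L : ℕ, 2 ≤ L → ∀ α : ℝ, 0 < α → α < 1 → ∀ θ : ℝ, 0 < θ → θ < 1 → ∀ C0 : ℝ, 2 ≤ C0 →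
    ∀ (w : ℂ) (x : ℝ) (m : ℕ), (L : ℝ) ^ m * |x| < 1 / 8 → (L : ℝ) ^ m * x ∈ GE L C0 →
    (L : ℝ) ^ m * x ∈ GS L (α : ℂ) θ C0 → ¬ Absorbed L α w x →
    ∀ k ≤ m, ‖Phi L α w k x‖ < RE (α : ℂ) C0 ∧
      min (1 / 2) (rS (α : ℂ) θ C0) ≤ ‖Phi L α w k x - 1‖

/-- **S_CR2 (compactness).** `f w = w + α w (1 - w)` (the fibre map over the base point `0`; `Phi L α w k 0 = f^k w`). Real dynamics: fixed points `0` (repelling) and `1`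
(attracting), `f(1 + 1/α) = 0`; if `0 < w < 1 + 1/α` is real then `f^k w → 1`; if `w < 0` or `w > 1 + 1/α` then `f^k w → -∞`. So for every real `w` with
`w ≠ 0, 1 + 1/α` there is `k` with `|f^k w| > R` or `|f^k w - 1| < η1`. [`0<w≤1`: `f` is increasing on `[0,1]` (`f' = 1+α-2αw ≥ 1-α > 0`) and `w < f w < 1`, monotone convergence; `1 < w < 1+1/α`: `0 < f w ≤ (1+α)²/(4α)`; if `f w ≤ 1` done by the first case; the maximum `(1+α)²/(4α)` is attained at `c = (1+α)/(2α) > 1`; for `w ∈ (1, c]`: `1 < f w < w`, (`f` increasing on `[0,c]`, `f w < w` for `w>1`), so the orbit decreases to `1`; for `w ∈ (c, 1+1/α)`, `f w = f(w')` with `w' = 2c - w = 1+1/α - w ∈ (0, c)`.] Compactness: `K = {w real, |w| ≤ R,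
|w| ≥ η, |w - 1 - 1/α| ≥ η}` is compact, the sets `U_k = {(w,x) ∈ ℂ × ℝ : ‖Phi L α w k x‖ > R or ‖Phi L α w k x - 1‖ < η1}` are open and cover `K × {0}`; so `U_0 ∪ … ∪ U_N` contains `K × {0}`, and by compactness of
`{w ∈ ℂ : ‖w‖ ≤ R, ‖w‖ ≥ η, ‖w - 1 - 1/α‖ ≥ η, |Im w| ≤ ε, } × [-δ,δ]` (shrinking to `K × {0}` as `ε, δ → 0`) it contains these for small `ε = δ`. -/
def S_CR2 : Prop :=
  ∀ L : ℕ, 2 ≤ L → ∀ α : ℝ, 0 < α → α < 1 → ∀ R η η1 : ℝ, 0 < R → 0 < η → 0 < η1 →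
    ∃ N : ℕ, ∃ δ ε : ℝ, 0 < δ ∧ 0 < ε ∧ ∀ w : ℂ, ‖w‖ ≤ R → |w.im| ≤ ε → η ≤ ‖w‖ →
      η ≤ ‖w - 1 - 1 / α‖ → ∀ x : ℝ, |x| ≤ δ →
      ∃ k ≤ N, R < ‖Phi L α w k x‖ ∨ ‖Phi L α w k x - 1‖ < η1

/-- **S_CR3 (repulsion from 0).** `w_k = Phi L α w k x`, `‖w_k‖ ≤ η` for `1 ≤ k ≤ K` and `L^K |x| ≤ 1/8`. Then `‖w_1‖ ≤ C (1+α)^(-K)`.
Proof. `w_{k+1} = w_k (1 + β_k (1 - w_k))`, `β_k = α cos(2π y_k)`, `y_k = L^k x`, `|y_k| ≤ L^(-(K-k))/8`, `cos (2π y) ≥ 1 - 20 y²` and `≥ 0.7`. (a) `‖w_{k+1}‖ ≥ ‖w_k‖ (1 + β_k - β_k ‖w_k‖) ≥ (1 + α/2) ‖w_k‖` for `η ≤ 1/4`, so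
`‖w_k‖ ≤ η (1+α/2)^(-(K-k))`. (b) `1 + β_k - β_k ‖w_k‖ ≥ (1+α)(1 - 20 y_k² - ‖w_k‖)`, where `a_k := 20 y_k² + ‖w_k‖ ≤ 0.3125 L^(-2(K-k)) + η (1+α/2)^(-(K-k)) ≤ 0.6` and `Σ a_k ≤ 1/2 + η (1 + 2/α)`-ish is
bounded; `∏ (1 - a_k) ≥ exp(-3 Σ a_k) =: c`. So `η ≥ ‖w_K‖ ≥ c (1+α)^(K-1) ‖w_1‖`. -/
def S_CR3 : Prop :=
  ∀ L : ℕ, 2 ≤ L → ∀ α : ℝ, 0 < α → α < 1 → ∃ η C : ℝ, 0 < η ∧ η ≤ 1 / 8 ∧ 0 < C ∧
    ∀ (w : ℂ) (x : ℝ) (K : ℕ), 1 ≤ K → (L : ℝ) ^ K * |x| ≤ 1 / 8 →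
    (∀ k, 1 ≤ k → k ≤ K → ‖Phi L α w k x‖ ≤ η) → ‖Phi L α w 1 x‖ ≤ C * ((1 + α) ^ K)⁻¹

/-- **S_CR (real estimate).** At a real base position `x` near `0` with a good exit, a non absorbed orbit which is near-real near the base point `0` starts within
`C1 |x|^a` of the two preimages `0`, `1 + 1/α` of `0`, `a = log_L (1+α)`.
Proof (`theorem t_CR (h1 : S_CR1) (h2 : S_CR2) (h3 : S_CR3) : S_CR`). Fix `η` from `S_CR3` (`η ≤ 1/8`), `R = RE α C0`, `η1 = min (1/2) (rS α θ C0)`, and `N, δ', ε` from `S_CR2`; `δ = min` of `δ'`, `1/(8 L^(N+1))`, and a small constant with `20 δ² (1/α + 1) ≤ 1/8`. Let `w_k = Phi L α w k x`.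
For `k` with `L^k |x| ≤ δ`: `L^(k+N)|x| ≤ 1/(8L) ≤ L^m |x|`, so `k + N ≤ m`; by `S_CR1` `‖w_k‖ < R` so by hypothesis `|Im w_k| ≤ ε`; if `‖w_k‖ ≥ η` and `‖w_k - 1 - 1/α‖ ≥ η`, `S_CR2` at the point `w_k` over `L^k x` (`Phi_add_real`) gives `k' ≤ k + N ≤ m` contradicting `S_CR1`.
So `‖w_k‖ < η` or `‖w_k - 1 - 1/α‖ < η` for all `k` with `L^k|x| ≤ δ`. If moreover `L^(k+1)|x| ≤ δ` then `‖w_{k+1}‖ < η`: in the first case `‖w_{k+1}‖ ≤ 3η < 2 - η`, in the second `w_{k+1} = w_k (1 + β_k (1 - w_k))` with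
`|1 + β_k(1-w_k)| ≤ α η + 20 δ² α (1/α + η)` and `‖w_k‖ ≤ 1 + 1/α + η`, product `≤ 3 (η + 20 δ² (1/α+η)) < 2 - η`; so `w_{k+1}` is not within `η` of `1 + 1/α ≥ 2`. Let `K` be maximal with `L^K |x| ≤ δ`. If `K = 0`, `|x| > δ/L` and the bound is trivial (`‖w_0‖ < R`). If `K ≥ 1`, `S_CR3` gives
`‖w_1‖ ≤ C (1+α)^(-K)`, and `L^(K+1)|x| > δ` gives `(1+α)^(-K) = (L^(-K))^a ≤ (L|x|/δ)^a`. Finally `w_1 = w(1 + β_0(1-w)) = -α w (w - 1 - 1/α) + (β_0 - α) w (1-w)`, `|β_0 - α| ≤ 20 α x² ≤ 20 α |x|^a`. -/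
def S_CR : Prop :=
  ∀ L : ℕ, 2 ≤ L → ∀ α : ℝ, 0 < α → α < 1 → ∀ θ : ℝ, 0 < θ → θ < 1 → ∀ C0 : ℝ, 2 ≤ C0 →
    ∃ ε δ C1 : ℝ, 0 < ε ∧ 0 < δ ∧ δ ≤ 1 / 8 ∧ 0 < C1 ∧
      ∀ (w : ℂ) (x : ℝ), x ≠ 0 → |x| ≤ δ → ∀ m : ℕ, 1 / (8 * (L : ℝ)) ≤ (L : ℝ) ^ m * |x| →
      (L : ℝ) ^ m * |x| < 1 / 8 → (L : ℝ) ^ m * x ∈ GE L C0 → (L : ℝ) ^ m * x ∈ GS L (α : ℂ) θ C0 →
      ¬ Absorbed L α w x →
      (∀ k : ℕ, (L : ℝ) ^ k * |x| ≤ δ → ‖Phi L α w k x‖ ≤ RE (α : ℂ) C0 →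
        |(Phi L α w k x).im| ≤ ε) →
      ‖w * (w - 1 - 1 / α)‖ ≤ C1 * |x| ^ Real.logb L (1 + α)

/-- **S_EV (evolution of a small window to the whole circle).** `a = log_L(1+α) < 1`, `w` entire, `Y x = w x (w x - 1 - 1/α)`; if `‖Y‖ ≤ C3 ρ^a` on `‖x‖ ≤ ρ` and `‖Y‖ ≤ C3 (ρ/100^q)^a` on `‖x‖ ≤ ρ/100^q`, then for the real window `|x| ≤ s0 ρ`
some iterate `K` with `L^K s0 ρ ≥ 1` has `‖Phi L α (w x) K x‖ < rS` for ALL real `x` in the window.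
Proof. `ρ ≤ ρ1` small makes `C3 ρ^a ≤ 1`, hence `‖w x‖ ≤ 2 + 1/α =: R1` for `‖x‖ ≤ ρ` (else `‖Y‖ > 1`). By the Schwarz lemma / Cauchy estimate
for `‖x‖ ≤ s0 ρ`: `‖Y x - Y 0‖ ≤ 2 s0 C3 ρ^a` (times an absolute constant if the Cauchy estimate on the half disc is used), and `‖Y 0‖ ≤ C3 (ρ/100^q)^a ≤ s0 C3 ρ^a` if `100^(-q a) ≤ s0`. So `‖Y‖ ≤ 5 s0 C3 ρ^a` on the window. `W x := Phi L α (w x) 1 x = w x + α cos(2πx) w x (1 - w x) = -α Y x + α (cos (2πx) - 1) w x (1 - w x)`,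
`|cos(2πx) - 1| ≤ 20 x²`, so for real `|x| ≤ s0 ρ`: `‖W x‖ ≤ 5 s0 C3 ρ^a + 20 (s0 ρ)² R1 (1+R1) ≤ 6 s0 C3 ρ^a =: σ` if `ρ ≤ ρ1` (as `a < 1 < 2`). Let `K` be minimal with `L^K s0 ρ ≥ 1` (`K ≥ 1`), so `L^(K-1) s0 ρ < 1`,
`(1+α)^(K-1) = (L^(K-1))^a ≤ (s0 ρ)^(-a)`. For `w_k = Phi L α (w x) k x`, `k ≥ 1`: `‖w_{k+1}‖ ≤ ‖w_k‖ (1+α)(1 + ‖w_k‖)`; by induction `‖w_k‖ ≤ 2 σ (1+α)^(k-1)` for `1 ≤ k ≤ K` because `Σ_{i<k} 2σ(1+α)^(i-1) ≤ 2σ (1+α)^(K-1)(1+1/α) ≤ log 2`, where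
`2 σ (1+α)^(K-1) ≤ 12 C3 s0^(1-a)`, which is as small as we like (also `< rS`) for `s0` small since `a < 1`. Choose `s0`, then `q`, then `ρ1`. -/
def S_EV : Prop :=
  ∀ L : ℕ, 2 ≤ L → ∀ α : ℝ, 0 < α → α < 1 → ∀ θ : ℝ, 0 < θ → θ < 1 → ∀ C0 C3 : ℝ, 2 ≤ C0 → 0 < C3 →
    ∃ (s0 ρ1 : ℝ) (q : ℕ), 0 < s0 ∧ s0 < 1 ∧ 0 < ρ1 ∧ ∀ ρ : ℝ, 0 < ρ → ρ ≤ ρ1 →
      ∀ w : ℂ → ℂ, Differentiable ℂ w →
      (∀ x : ℂ, ‖x‖ ≤ ρ → ‖w x * (w x - 1 - 1 / α)‖ ≤ C3 * ρ ^ Real.logb L (1 + α)) →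
      (∀ x : ℂ, ‖x‖ ≤ ρ / 100 ^ q →
        ‖w x * (w x - 1 - 1 / α)‖ ≤ C3 * (ρ / 100 ^ q) ^ Real.logb L (1 + α)) →
      ∃ K : ℕ, 1 ≤ (L : ℝ) ^ K * (s0 * ρ) ∧
        ∀ x : ℝ, |x| ≤ s0 * ρ → ‖Phi L α (w (x : ℂ)) K x‖ < rS (α : ℂ) θ C0

/-! ### 4. Assembly -/

/-- **S_WIN (the window argument).** There are `ε, δ, R` (depending on `L, α` only) and `η > 0` such that for every `C2` and all large `n` there is no entire `w` with `‖w‖ ≤ exp (C2 log n)` on `‖x‖ ≤ log n / n` and no measurable set `A` of real base positions with density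
close to one at all scales `ρ ∈ [1/(n log n), log n / n]` on which the orbits of `w x` over `x` are non absorbed and near-real near the base point `0`.
Proof (`theorem t_WIN (hTC : S_TC) (hCAS : S_CAS) (hPER : S_PER) (hBAD : S_BAD) (hG0 : S_G0) (hCR : S_CR) (hEV : S_EV) (hNUM : S_NUM) : S_WIN`). `ε1` from `S_TC`, `θ, C0` from `S_G0` with `e = min (ε1/(64 L)) (1/100)`, `G = GE L C0 ∩ GS L α θ C0` (closed, periodic: `GE_closed`, `GS_closed`, `GE_periodic`, `GS_periodic`); `ε, δ, C1` from `S_CR`, `R = RE α C0`,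
`C3 = C1 exp 9`, `s0, ρ1, q` from `S_EV`, `η = min (ε1/2) (1/4)`, `a = log_L(1+α) ∈ (0,1)`. Let `B` = set of `x` having an `m` with `1/(8L) ≤ L^m|x| < 1/8`, `L^m x ∉ G`. For `x ∈ A ∖ B`, `0 < |x| ≤ δ` (`δ ≤ 1/8`): the exit `m` exists, so `‖Y x‖ ≤ C1 |x|^a`, `Y = w (w - 1 - 1/α)`.
With `ρ_i = ρ0/100^i`, `ρ0 = log n/n ≤ δ`: the set in `S_CAS` at level `i` is contained in `(Aᶜ ∪ B ∪ {0}) ∩ [-ρ_i,ρ_i]`, measure `≤ (η + 32 L e) ρ_i ≤ ε1 ρ_i` as long as `ρ_i ≥ 1/(n log n)`. `‖Y‖ ≤ exp(2 C2 log n + const) ≤ exp(g0) C1 ρ0^a` with `g0 = C4 log n`. Let `j` be minimal with `20^j ≥ g0`; then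
`100^j ≤ 100 (g0)^(log 100/log 20)`, `log 100/log 20 < 1.54`, so `100^(j+q) ≤ s0 (log n)²` for `n` large: all levels `i ≤ j + q` and the scale `s0 ρ_j` are `≥ 1/(n log n)`. `S_CAS` with `J = j+q` at `i = j` and `i = j+q`: `‖Y‖ ≤ C3 ρ^a` on `‖x‖ ≤ ρ := ρ_j`, and same at `ρ/100^q`. `S_EV`: on `|x| ≤ s0 ρ`, `‖Phi_K‖ < rS`;
whenever `L^K x ∈ GS L α θ C0`, `absorbed_of_zero` + `Absorbed_shift` give `Absorbed L α (w x) x`, so `x ∉ A`. By `S_PER` (`c = L^K`, `s = s0 ρ`) the `x` in the window with `L^K x ∉ G` have measure `≤ 4 e s0 ρ`; so `2 s0 ρ ≤ |Aᶜ ∩ window| + 4 e s0 ρ ≤ (1/4 + 4/100) s0 ρ`. Contradiction. -/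
def S_WIN : Prop :=
  ∀ L : ℕ, 2 ≤ L → ∀ α : ℝ, 0 < α → α < 1 →
    ∃ ε δ R η : ℝ, 0 < ε ∧ 0 < δ ∧ δ ≤ 1 / 8 ∧ 0 < R ∧ 0 < η ∧ ∀ C2 : ℝ, ∃ n1 : ℕ, 3 ≤ n1 ∧
      ∀ n : ℕ, n1 ≤ n → ∀ w : ℂ → ℂ, Differentiable ℂ w →
      (∀ x : ℂ, ‖x‖ ≤ Real.log n / n → ‖w x‖ ≤ Real.exp (C2 * Real.log n)) →
      ∀ A : Set ℝ, MeasurableSet A → (∀ x ∈ A, ¬ Absorbed L α (w (x : ℂ)) x) →
      (∀ x ∈ A, ∀ k : ℕ, (L : ℝ) ^ k * |x| ≤ δ → ‖Phi L α (w (x : ℂ)) k x‖ ≤ R →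
        |(Phi L α (w (x : ℂ)) k x).im| ≤ ε) →
      (∀ ρ : ℝ, 1 / (n * Real.log n) ≤ ρ → ρ ≤ Real.log n / n →
        volume (Aᶜ ∩ Set.Icc (-ρ) ρ) ≤ ENNReal.ofReal (η * ρ)) → False

/-- near-real near the base point `0`: from some time on, whenever the base point is within `δ` of `0` and the orbit is
bounded by `R`, the imaginary part is at most `ε` -/
def NR (L : ℕ) (α z : ℂ) (ε δ R u : ℝ) : Prop :=
  ∃ N : ℕ, ∀ k ≥ N, ∀ j : ℤ, |(L : ℝ) ^ k * u - j| ≤ δ → ‖Phi L α z k u‖ ≤ R →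
    |(Phi L α z k u).im| ≤ ε

/-- **S_A (Lemma A).** For a.e. `u`, a near-real orbit is absorbed.
Proof (`theorem t_A (hVT : S_VT) (hST : S_ST) (hDEN : S_DEN) (hBC : S_BC) (hWIN : S_WIN) (hGR : S_GR) (hAM : S_AM) : S_A`; `AN`, `S_GR`, `S_AM` at the end of the file). `ε, δ, R, η` from `S_WIN`. For `N ∈ ℕ` let `A_N` = set of `u` with `¬ Absorbed L α z u`, `∀ k ≥ N, ‖Phi_k u‖ ≤ k³`, and the `NR` property with this `N`. By `S_BC` it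
suffices that every `A_N` (`N ≥ 1`) is null. It is measurable (`Absorbed_measurable`, continuity of `Phi` in `u`) and `1`-periodic. Suppose not null. `S_VT` with `F_n = Phi_{n+N}/(n+N)³`, `D_n = 2π (n+N) L^(n+N)`: growth (`growth_step` iterated: `NN Phi_n ≤ exp (2^n (log NN z + log 3) + 2π n L^n |Im|)`, because
`Σ_{k<n} 2^(n-1-k) L^k ≤ n L^n`) gives the hypothesis with `C = log NN z + log 3`. Get `A' ⊆ A_N`, `K`. Pick (`S_DEN` for `A_N`, `S_ST` with `δ_n = 1/((n+3) log (n+3))`, antitone, not summable) `u0 ∈ A'` which is a density point of `A_N` and has `|L^n u0 - j| < δ_n` for infinitely many `n` (`j ∈ ℤ` depending on `n`). For such a large `n` put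
`w x = Phi L α z n ((j + x)/L^n)`, `A = {x | (j+x)/L^n ∈ A_N}`. For `‖x‖ ≤ log n/n`: `‖(j+x)/L^n - u0‖ ≤ (‖x‖ + δ_n)/L^n`, so `‖w x‖ ≤ n³ exp (K 2π n (log n/n + 1/(n log n))) ≤ exp (C2 log n)`. `x ∈ A`: with `u = (j+x)/L^n`, `L^n u = j + x`, `Phi L α (w x) k x = Phi L α z (n+k) u` (`Phi_add`, periodicity `Phi_add_int`), so non absorption
and near-reality transfer. Density: `|Aᶜ ∩ [-ρ,ρ]| = L^n |A_Nᶜ ∩ [(j-ρ)/L^n, (j+ρ)/L^n]| ≤ L^n |A_Nᶜ ∩ [u0 - 2ρ/L^n, u0 + 2ρ/L^n]| ≤ η ρ` for `ρ ≥ 1/(n log n) ≥ δ_n` and `n` large. `S_WIN` gives the contradiction. -/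
def S_A : Prop :=
  ∀ L : ℕ, 2 ≤ L → ∀ α : ℝ, 0 < α → α < 1 → ∃ ε δ R : ℝ, 0 < ε ∧ 0 < δ ∧ δ ≤ 1 / 8 ∧ 0 < R ∧
    ∀ z : ℂ, ∀ᵐ u : ℝ, NR L α z ε δ R u → Absorbed L α z u

/-- **S_B (a disc without absorbed points is near-real).** Hypothesis on `u`: every rational real point is absorbed over every `L^n u`.
Proof. `g n w = Phi L α w n u` is a polynomial in `w`, non constant since `g n 0 = 0`, `g n 1 = 1`. If `g n w0` is real for some `w0 ∈ ball z r`, by the open mapping theorem `g n (ball z r)` contains a real rational `q = g n w'`; `Absorbed L α q (L^n u)` gives `Absorbed L α w' u`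
(`Phi_add_real`/`Absorbed_shift`), contradiction. So `g n (ball z r)` is a connected set (image of a ball) disjoint from `ℝ`: it lies in one half plane. Schwarz-Pick (`g n : ball z r → ± upper half plane`): `‖(g n)' z‖ ≤ 2 |Im (g n z)| / r`. (E.g. compose with a Cayley transform and the Schwarz lemma, or Borel-Caratheodory type.) Let
`x_n + i y_n = g n z`, `β_n = α cos (2π L^n u)`, `τ_n = ‖(g n)' z‖/|y_n| ≤ 2/r`, `τ_0 = 1/|Im z| > 0`. Chain rule: `(g (n+1))' z = (1 + β_n (1 - 2 g n z)) (g n)' z`, `y_{n+1} = y_n (1 + β_n (1 - 2 x_n))`, so `τ_{n+1}² = τ_n² (1 + 4 β_n² y_n² / (1 + β_n(1-2x_n))²)`. `τ_n²` is nondecreasing and bounded, with positive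
limit, so `4 β_n² y_n² / (1 + β_n (1-2x_n))² → 0`. If `|L^n u - j| ≤ δ ≤ 1/8`, then `|β_n| ≥ α/2`; and if `‖g n z‖ ≤ R` then `|1 + β_n(1-2x_n)| ≤ 2 + 2R`, so `|y_n| ≤ ε` once `n` is large. -/
def S_B : Prop :=
  ∀ L : ℕ, 2 ≤ L → ∀ α : ℝ, 0 < α → α < 1 → ∀ ε δ R : ℝ, 0 < ε → 0 < δ → δ ≤ 1 / 8 → 0 < R →
    ∀ u : ℝ, (∀ (n : ℕ) (p : ℚ), Absorbed L α (((p : ℝ) : ℂ)) ((L : ℝ) ^ n * u)) →
    ∀ (z : ℂ) (r : ℝ), 0 < r → (∀ w ∈ Metric.ball z r, ¬ Absorbed L α w u) →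
      NR L α z ε δ R u

/-- **S_D (absorbed points are dense for almost every base point).**
Proof (`theorem t_D (hA : S_A) (hB : S_B) : S_D`). For real `z` the property `NR` is trivial (`Phi` is real), so by `S_A` every rational real point is absorbed for a.e. `u`, hence (countably many null sets, and preimages of null sets under `u ↦ L^n u` are null) for a.e. `u` the hypothesis of `S_B` holds. For a.e. `u` also: for all `z ∈ ℚ + iℚ`, `NR` implies absorbed.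
If `ball z r` had no absorbed point, take `z' ∈ ℚ+iℚ` in it and a small ball around `z'`: `S_B` gives `NR` for `z'`, so `z'` is absorbed, contradiction. -/
def S_D : Prop :=
  ∀ L : ℕ, 2 ≤ L → ∀ α : ℝ, 0 < α → α < 1 →
    ∀ᵐ u : ℝ, ∀ (z : ℂ) (r : ℝ), 0 < r → ∃ w ∈ Metric.ball z r, Absorbed L α w u

/-! ### 5. Extra pieces -/

/-- the Poisson kernel of the half plane -/
noncomputable def PK (h t : ℝ) : ℝ := h / (Real.pi * (t ^ 2 + h ^ 2))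

/-- **S_VJ (first half of the vanishing set trick).** See the proof of `S_VT`: `T_h V ≥ V - h`, `∫_0^1 T_h V = ∫_0^1 V` (Fubini, kernel mass one, periodicity) so
`∫_{A ∩ [0,1]} T_h V ≤ ∫_0^1 (h + T_h V - V) = h`; `(P_{h/2} * P_{h/2}) s ≥ h / (60 (s² + h²))` (restrict the convolution to `|r| ≤ h`: there `P_{h/2} r ≥ 2/(5 π h)` and `P_{h/2}(s-r) ≥ (2h/9)/(π (s²+h²))`);
so `∫_{A∩[0,1]} ∫ V t/((u-t)²+h²) dt du ≤ 60` for all `h > 0`, and `h ↓ 0` by monotone convergence. -/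
def S_VJ : Prop :=
  ∀ V : ℝ → ℝ, Measurable V → (∀ x, V (x + 1) = V x) → ∀ C : ℝ, (∀ x, 0 ≤ V x) → (∀ x, V x ≤ C) →
    ∀ A : Set ℝ, MeasurableSet A → (∀ x, x + 1 ∈ A ↔ x ∈ A) → (∀ x ∈ A, V x = 0) →
    (∀ h : ℝ, 0 < h → ∀ x, V x ≤ h + ∫ s : ℝ, PK (h / 2) (x - s) * ∫ t : ℝ, PK (h / 2) (s - t) * V t) →
    ∫⁻ u in A ∩ Set.Icc 0 1, ∫⁻ t : ℝ, ENNReal.ofReal (V t / (u - t) ^ 2) ≤ ENNReal.ofReal 60

/-- **S_VK (second half of the vanishing set trick).** `k = P_a * P_{2r}`, `a ∈ [r, 3r]`: `k s ≤ P_a (s/2) + P_{2r}(s/2) ≤ 8r/s²` (split the convolution at `|s'| ≤ |s|/2`; both kernels have mass one) and `k s ≤ 1/(2π r)`.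
With `|x-u| ≤ r`: `|t-u| ≥ 2r` implies `|x-t| ≥ |t-u|/2`, `k (x-t) ≤ 32 r/(t-u)²`; `|t-u| < 2r`: `k (x-t) ≤ 1/(2πr) ≤ 4r/(t-u)²`. -/
def S_VK : Prop :=
  ∀ V : ℝ → ℝ, Measurable V → ∀ C : ℝ, (∀ x, 0 ≤ V x) → (∀ x, V x ≤ C) → ∀ u lam : ℝ, 0 ≤ lam →
    ∫⁻ t : ℝ, ENNReal.ofReal (V t / (u - t) ^ 2) ≤ ENNReal.ofReal lam →
    ∀ r a x : ℝ, 0 < r → r ≤ a → a ≤ 3 * r → |x - u| ≤ r →
      ∫ s : ℝ, PK a (x - s) * ∫ t : ℝ, PK (2 * r) (s - t) * V t ≤ 32 * r * lam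

/-- **S_GR (growth).** Iterate `growth_step` (library): `NN Phi_n ≤ exp (2^n (log NN z + log 3) - log 3 + 2π (Σ_{k<n} 2^(n-1-k) L^k) |Im x|)` and
`Σ_{k<n} 2^(n-1-k) L^k ≤ n L^n`, `2^n ≤ 2 π n L^n` for `n ≥ 1`. -/
def S_GR : Prop :=
  ∀ L : ℕ, 2 ≤ L → ∀ α z : ℂ, ‖α‖ ≤ 1 → ∀ n : ℕ, 1 ≤ n → ∀ x : ℂ,
    ‖Phi L α z n x‖ ≤
      Real.exp (2 * Real.pi * n * (L : ℝ) ^ n * (Real.log (NN z) + Real.log 3 + |x.im|))

/-- the sets `A_N` in the proof of `S_A` -/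
def AN (L : ℕ) (α z : ℂ) (ε δ R : ℝ) (N : ℕ) : Set ℝ :=
  {u : ℝ | ¬ Absorbed L α z u ∧ (∀ k ≥ N, ‖Phi L α z k u‖ ≤ (k : ℝ) ^ 3) ∧
    ∀ k ≥ N, ∀ j : ℤ, |(L : ℝ) ^ k * u - j| ≤ δ → ‖Phi L α z k u‖ ≤ R → |(Phi L α z k u).im| ≤ ε}

/-- **S_AM.** The sets `A_N` are measurable (`Absorbed_measurable`; countable intersections of sets defined by continuous functions of `u`) and
`1`-periodic (`Phi` is `1`-periodic; shift `j` by `L^k`). -/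
def S_AM : Prop :=
  ∀ (L : ℕ) (α z : ℂ) (ε δ R : ℝ) (N : ℕ), MeasurableSet (AN L α z ε δ R N) ∧
    ∀ x, x + 1 ∈ AN L α z ε δ R N ↔ x ∈ AN L α z ε δ R N

/-- **S_NUM (numerics for `S_WIN`).** `j` minimal with `20^j ≥ C4 log n`: `100^j ≤ 100 (C4 log n)^(log 100/log 20)`, `log 100/log 20 < 1.54 < 2` (`100^2 ≤ 20^(3.08)`; e.g. `100^13 ≤ 20^20`), and so
`100^(j+q) ≤ s0 (log n)²` for `n` large. -/
def S_NUM : Prop :=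
  ∀ (C4 s0 δ : ℝ) (q : ℕ), 0 < C4 → 0 < s0 → 0 < δ → ∃ n1 : ℕ, 3 ≤ n1 ∧ ∀ n : ℕ, n1 ≤ n →
    Real.log n / n ≤ δ ∧ ∃ j : ℕ, C4 * Real.log n ≤ 20 ^ j ∧
      1 / (n * Real.log n) ≤ s0 * (Real.log n / n / 100 ^ (j + q))

end Pool.Agent.H212.KR
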