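import Mathlib
import Pool.Agent.H212.KR.Stm

set_option autoImplicit false

namespace Pool.Agent.H212.KR

open Complex Filter Topology MeasureTheory
open Pool.Agent.TH229.Kan

/-- one step of the cascade -/
theorem CAS_step {ε : ℝ} (hε : 0 < ε) (hTC : TCprop ε) {Y : ℂ → ℂ} (hY : Differentiable ℂ Y)
    {C1 a r B : ℝ} (hC1 : 0 < C1) (ha : 0 ≤ a) (ha1 : a ≤ 1) (hr : 0 < r) (hB : 0 ≤ B)
    (h : ∀ x : ℂ, ‖x‖ ≤ r → ‖Y x‖ ≤ Real.exp B * (C1 * r ^ a))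
    (hv : volume {x : ℝ | x ∈ Set.Icc (-r) r ∧ C1 * r ^ a < ‖Y x‖} ≤ ENNReal.ofReal (ε * r))
    (x : ℂ) (hx : ‖x‖ ≤ r / 100) :
    ‖Y x‖ ≤ Real.exp (B / 20 + 2 + 5) * (C1 * (r / 100) ^ a) := by
  have hc : 0 < C1 * r ^ a := mul_pos hC1 (Real.rpow_pos_of_pos hr a)
  have hcc : ((C1 * r ^ a : ℝ) : ℂ) ≠ 0 := by exact_mod_cast hc.ne'
  have hrc : ((r : ℝ) : ℂ) ≠ 0 := by exact_mod_cast hr.ne'
  have hnc : ‖((C1 * r ^ a : ℝ) : ℂ)‖ = C1 * r ^ a := by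
    rw [Complex.norm_real, Real.norm_of_nonneg hc.le]
  have hnr : ‖((r : ℝ) : ℂ)‖ = r := by
    rw [Complex.norm_real, Real.norm_of_nonneg hr.le]
  obtain ⟨F, hF⟩ : ∃ F : ℂ → ℂ, F = fun ζ => Y ((r : ℂ) * ζ) / ((C1 * r ^ a : ℝ) : ℂ) := ⟨_, rfl⟩
  have hFn : ∀ ζ, ‖F ζ‖ = ‖Y ((r : ℂ) * ζ)‖ / (C1 * r ^ a) := by
    intro ζ
    rw [hF]
    show ‖Y ((r : ℂ) * ζ) / ((C1 * r ^ a : ℝ) : ℂ)‖ = _
    rw [norm_div, hnc]
  have hFd : Differentiable ℂ F := by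
    rw [hF]
    exact (hY.comp (differentiable_const _ |>.mul differentiable_id)).div_const _
  have h1 : ∀ ζ : ℂ, ‖ζ‖ ≤ 1 → ‖F ζ‖ ≤ Real.exp B := by
    intro ζ hζ
    rw [hFn, div_le_iff₀ hc]
    refine h _ ?_
    rw [norm_mul, hnr]
    nlinarith
  have h2 : volume {t : ℝ | t ∈ Set.Icc (-1) 1 ∧ 1 < ‖F t‖} ≤ ENNReal.ofReal ε := by
    have e1 : {t : ℝ | t ∈ Set.Icc (-1 : ℝ) 1 ∧ 1 < ‖F t‖} ⊆
        (fun t => r * t) ⁻¹' {x : ℝ | x ∈ Set.Icc (-r) r ∧ C1 * r ^ a < ‖Y x‖} := by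
      rintro t ⟨⟨ht1, ht2⟩, ht3⟩
      refine ⟨⟨?_, ?_⟩, ?_⟩
      · show -r ≤ r * t
        nlinarith
      · show r * t ≤ r
        nlinarith
      · rw [hFn, lt_div_iff₀ hc, one_mul] at ht3
        show C1 * r ^ a < ‖Y ((r * t : ℝ) : ℂ)‖
        rw [Complex.ofReal_mul]
        exact ht3
    refine (measure_mono e1).trans ?_
    rw [Real.volume_preimage_mul_left hr.ne']
    refine (mul_le_mul_right hv _).trans ?_
    rw [← ENNReal.ofReal_mul (abs_nonneg _), abs_of_pos (inv_pos.2 hr)]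
    refine ENNReal.ofReal_le_ofReal (le_of_eq ?_)
    field_simp
  have h3 := hTC F hFd B hB h1 h2 (x / r) (by
    rw [norm_div, hnr, div_le_iff₀ hr]
    linarith)
  rw [hFn, mul_div_cancel₀ _ hrc, div_le_iff₀ hc] at h3
  refine h3.trans ?_
  have h4 : (100 : ℝ) ≤ Real.exp 5 := by
    have e1 : Real.exp 5 = Real.exp 1 ^ 5 := by
      rw [← Real.exp_nat_mul]
      norm_num
    have e2 : (2.7 : ℝ) ≤ Real.exp 1 := by
      have := Real.exp_one_gt_d9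
      linarith
    rw [e1]
    calc (100 : ℝ) ≤ 2.7 ^ 5 := by norm_num
      _ ≤ Real.exp 1 ^ 5 := pow_le_pow_left₀ (by norm_num) e2 5
  have h5 : r ^ a ≤ 100 * (r / 100) ^ a := by
    have e1 : r ^ a = (100 : ℝ) ^ a * (r / 100) ^ a := by
      rw [← Real.mul_rpow (by norm_num) (by positivity)]
      congr 1
      ring
    have e2 : (100 : ℝ) ^ a ≤ 100 := by
      calc (100 : ℝ) ^ a ≤ (100 : ℝ) ^ (1 : ℝ) :=
            Real.rpow_le_rpow_of_exponent_le (by norm_num) ha1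
        _ = 100 := Real.rpow_one _
    rw [e1]
    exact mul_le_mul_of_nonneg_right e2 (Real.rpow_nonneg (by positivity) _)
  have h6 : (0 : ℝ) ≤ (r / 100) ^ a := Real.rpow_nonneg (by positivity) _
  rw [Real.exp_add (B / 20 + 2) 5]
  have h7 : r ^ a ≤ Real.exp 5 * (r / 100) ^ a := h5.trans (mul_le_mul_of_nonneg_right h4 h6)
  have h8 : C1 * r ^ a ≤ Real.exp 5 * (C1 * (r / 100) ^ a) := by
    calc C1 * r ^ a ≤ C1 * (Real.exp 5 * (r / 100) ^ a) := mul_le_mul_of_nonneg_left h7 hC1.le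
      _ = Real.exp 5 * (C1 * (r / 100) ^ a) := by ring
  calc Real.exp (B / 20 + 2) * (C1 * r ^ a) ≤
        Real.exp (B / 20 + 2) * (Real.exp 5 * (C1 * (r / 100) ^ a)) :=
        mul_le_mul_of_nonneg_left h8 (Real.exp_pos _).le
    _ = Real.exp (B / 20 + 2) * Real.exp 5 * (C1 * (r / 100) ^ a) := by ring

theorem t_CAS : S_CAS := by
  intro ε hε hTC Y hY C1 a ρ0 g0 hC1 ha ha1 hρ0 hg0 h0 J hv i
  induction i with
  | zero =>
    intro _ x hx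
    rw [pow_zero, div_one] at hx ⊢
    rw [pow_zero, div_one]
    refine (h0 x hx).trans (mul_le_mul_of_nonneg_right (Real.exp_le_exp.2 (by linarith)) ?_)
    exact mul_nonneg hC1.le (Real.rpow_nonneg hρ0.le _)
  | succ i ih =>
    intro hi x hx
    have hr : 0 < ρ0 / 100 ^ i := by positivity
    have e1 : ρ0 / 100 ^ (i + 1) = ρ0 / 100 ^ i / 100 := by
      rw [pow_succ, div_div]
    have hB : 0 ≤ g0 / 20 ^ i + 8 := by positivity
    rw [e1] at hx ⊢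
    refine (CAS_step hε hTC hY hC1 ha ha1 hr hB (ih (by omega)) (hv i (by omega)) x hx).trans ?_
    refine mul_le_mul_of_nonneg_right (Real.exp_le_exp.2 ?_)
      (mul_nonneg hC1.le (Real.rpow_nonneg (by positivity) _))
    have e2 : g0 / 20 ^ (i + 1) = g0 / 20 ^ i / 20 := by
      rw [pow_succ, div_div]
    rw [e2]
    linarith

end Pool.Agent.H212.KR
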