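import Pool.Agent.H212.KR.Stm

set_option autoImplicit false

namespace Pool.Agent.H212.KR

open Complex Filter Topology MeasureTheory
open Pool.Agent.TH229.Kan

theorem CR1_cos {y : ℝ} (hy : |y| < 1 / 8) : 1 / 2 ≤ Real.cos (2 * Real.pi * y) := by
  have hpi := Real.pi_pos
  have h1 : Real.cos (2 * Real.pi * y) = Real.cos (2 * Real.pi * |y|) := by
    rcases abs_cases y with h | h
    · rw [h.1]
    · rw [h.1, mul_neg, Real.cos_neg]
  rw [h1, ← Real.cos_pi_div_three]
  have h0 := abs_nonneg y
  apply Real.cos_le_cos_of_nonneg_of_le_pi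
  · positivity
  · linarith
  · nlinarith

theorem CR1_small {L : ℕ} (hL : 2 ≤ L) {x : ℝ} {m j : ℕ} (hx : (L : ℝ) ^ m * |x| < 1 / 8)
    (hj : j ≤ m) : |(L : ℝ) ^ j * x| < 1 / 8 := by
  have hL1 : (1 : ℝ) ≤ L := by exact_mod_cast (by omega : 1 ≤ L)
  rw [abs_mul, abs_of_nonneg (by positivity)]
  exact lt_of_le_of_lt (mul_le_mul_of_nonneg_right (pow_le_pow_right₀ hL1 hj) (abs_nonneg x)) hx

theorem CR1_cr {L : ℕ} (i k : ℕ) (x : ℝ) : cr L i ((L : ℝ) ^ k * x) = cr L (i + k) x := by
  unfold cr
  rw [pow_add]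
  congr 1
  ring

theorem CR1_GE {L : ℕ} (hL : 2 ≤ L) {C0 x : ℝ} (hC : 2 ≤ C0) {m k : ℕ}
    (hx : (L : ℝ) ^ m * |x| < 1 / 8) (hk : k ≤ m) (hG : (L : ℝ) ^ m * x ∈ GE L C0) :
    (L : ℝ) ^ k * x ∈ GE L C0 := by
  intro i
  rw [CR1_cr]
  rcases le_or_gt (i + k) m with h | h
  · have h1 := CR1_cos (CR1_small hL hx h)
    have h2 : 1 / (C0 * 2 ^ i) ≤ 1 / 2 := by
      apply one_div_le_one_div_of_le (by norm_num)
      have : (1 : ℝ) ≤ 2 ^ i := one_le_pow₀ (by norm_num)
      nlinarith
    exact h2.trans (h1.trans (le_abs_self _))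
  · have h1 := hG (i + k - m)
    rw [CR1_cr, Nat.sub_add_cancel h.le] at h1
    refine le_trans ?_ h1
    apply one_div_le_one_div_of_le (by positivity)
    apply mul_le_mul_of_nonneg_left _ (by linarith)
    exact pow_le_pow_right₀ (by norm_num) (by omega)

theorem t_CR1 : S_CR1 := by
  intro L hL α hα0 hα1 θ hθ0 hθ1 C0 hC w x m hx hGE hGS hna k hk
  have hn : ‖(α : ℂ)‖ = α := by
    rw [Complex.norm_real, Real.norm_eq_abs, abs_of_pos hα0]
  constructor
  · by_contra hcon
    rw [not_lt] at hcon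
    exact hna (Absorbed_shift k (absorbed_of_escape (by rw [hn]; exact hα0) (by linarith)
      (CR1_GE hL hC hx hk hGE) hcon))
  · by_contra hcon
    rw [not_le, lt_min_iff] at hcon
    have key : ∀ j, k ≤ j → j ≤ m → ‖Phi L α w j x - 1‖ ≤ ‖Phi L α w k x - 1‖ := by
      intro j hkj
      induction j, hkj using Nat.le_induction with
      | base => exact fun _ => le_rfl
      | succ j hkj ih =>
        intro hj
        have h1 := ih (by omega)
        have hcos := CR1_cos (CR1_small hL hx (by omega : j ≤ m))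
        have hcos1 := Real.cos_le_one (2 * Real.pi * ((L : ℝ) ^ j * x))
        have hcr : cr L j x = Real.cos (2 * Real.pi * ((L : ℝ) ^ j * x)) := rfl
        rw [← hcr] at hcos hcos1
        have e1 : Phi L α w (j + 1) x - 1 =
            (Phi L α w j x - 1) * (1 - ((α * cr L j x : ℝ) : ℂ) * Phi L α w j x) := by
          change Phi L α w j x + α * cc ((L : ℂ) ^ j * x) * Phi L α w j x * (1 - Phi L α w j x) - 1 = _
          rw [cc_cr]
          push_cast
          ring
        set β : ℝ := α * cr L j x with hβ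
        have hβ0 : 0 < β := by positivity
        have hβ1 : β ≤ 1 := by nlinarith
        have e2 : (1 : ℂ) - (β : ℂ) * Phi L α w j x =
            ((1 - β : ℝ) : ℂ) - (β : ℂ) * (Phi L α w j x - 1) := by
          push_cast
          ring
        have h2 : ‖(1 : ℂ) - (β : ℂ) * Phi L α w j x‖ ≤ 1 := by
          rw [e2]
          refine (norm_sub_le _ _).trans ?_
          rw [norm_mul, Complex.norm_real, Complex.norm_real, Real.norm_eq_abs, Real.norm_eq_abs,
            abs_of_nonneg (by linarith), abs_of_pos hβ0]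
          have h3 : ‖Phi L α w j x - 1‖ ≤ 1 := by linarith [hcon.1]
          nlinarith
        rw [e1, norm_mul]
        have h4 := mul_le_mul_of_nonneg_left h2 (norm_nonneg (Phi L α w j x - 1))
        rw [mul_one] at h4
        exact h4.trans h1
    have h5 := key m hk le_rfl
    exact hna (Absorbed_shift m (absorbed_of_one (by rw [hn]; exact hα1) hθ0 hθ1 (by linarith) hGS
      (by rw [norm_sub_rev]; exact h5.trans hcon.2.le)))

end Pool.Agent.H212.KR
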