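import Pool.Agent.H212.KR.Stm

/-!
# KR CR2: real dynamics of `w + α w (1 - w)` and compactness (helper878)
-/

set_option autoImplicit false

namespace Pool.Agent.H212.KR

open Complex Filter Topology MeasureTheory
open Pool.Agent.TH229.Kan

/-- the fibre map over the base point `0` -/
def CR2_f (α w : ℝ) : ℝ := w + α * w * (1 - w)

/-- the orbit leaves -/
def CR2_D (α R η1 w : ℝ) : Prop :=
  ∃ k : ℕ, R < |(CR2_f α)^[k] w| ∨ |(CR2_f α)^[k] w - 1| < η1

theorem CR2_back {α R η1 w : ℝ} (h : CR2_D α R η1 (CR2_f α w)) : CR2_D α R η1 w := by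
  obtain ⟨k, hk⟩ := h
  refine ⟨k + 1, ?_⟩
  rw [Function.iterate_succ_apply]
  exact hk

/-- negative numbers -/
theorem CR2_neg {α R η1 w : ℝ} (h0 : 0 < α) (hw : w < 0) : CR2_D α R η1 w := by
  have key : ∀ k : ℕ, (CR2_f α)^[k] w ≤ (1 + α) ^ k * w := by
    intro k
    induction k with
    | zero => simp
    | succ k ih =>
      rw [Function.iterate_succ_apply']
      obtain ⟨y, hy⟩ : ∃ y, y = (CR2_f α)^[k] w := ⟨_, rfl⟩
      rw [← hy] at ih ⊢
      have h1 : CR2_f α y ≤ (1 + α) * y := by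
        unfold CR2_f
        nlinarith [mul_nonneg h0.le (sq_nonneg y)]
      calc CR2_f α y ≤ (1 + α) * y := h1
        _ ≤ (1 + α) * ((1 + α) ^ k * w) := mul_le_mul_of_nonneg_left ih (by linarith)
        _ = (1 + α) ^ (k + 1) * w := by ring
  obtain ⟨k, hk⟩ := pow_unbounded_of_one_lt (R / (-w)) (show 1 < 1 + α by linarith)
  refine ⟨k, Or.inl ?_⟩
  rw [div_lt_iff₀ (by linarith)] at hk
  have h2 := key k
  have h3 := neg_le_abs ((CR2_f α)^[k] w)
  nlinarith

/-- the unit interval -/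
theorem CR2_unit {α R η1 w : ℝ} (h0 : 0 < α) (h1 : α < 1) (hη : 0 < η1) (hw : 0 < w)
    (hw1 : w ≤ 1) : CR2_D α R η1 w := by
  rcases hw1.lt_or_eq with hw1 | hw1
  · have hc0 : 0 < 1 - α * w := by nlinarith
    have hc1 : 1 - α * w < 1 := by
      have := mul_pos h0 hw
      linarith
    have key : ∀ k : ℕ, w ≤ (CR2_f α)^[k] w ∧ (CR2_f α)^[k] w < 1 ∧
        1 - (CR2_f α)^[k] w ≤ (1 - α * w) ^ k := by
      intro k
      induction k with
      | zero =>
        refine ⟨le_rfl, hw1, ?_⟩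
        show 1 - w ≤ (1 - α * w) ^ 0
        rw [pow_zero]
        linarith
      | succ k ih =>
        rw [Function.iterate_succ_apply']
        obtain ⟨y, hy⟩ : ∃ y, y = (CR2_f α)^[k] w := ⟨_, rfl⟩
        rw [← hy] at ih ⊢
        obtain ⟨i1, i2, i3⟩ := ih
        have e : 1 - CR2_f α y = (1 - y) * (1 - α * y) := by unfold CR2_f; ring
        have hy0 : 0 < y := by linarith
        have h2 : 0 < 1 - y := by linarith
        have h3 : 0 < 1 - α * y := by nlinarith
        refine ⟨?_, ?_, ?_⟩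
        · have : 0 ≤ α * y * (1 - y) := by positivity
          unfold CR2_f
          linarith
        · have := mul_pos h2 h3
          linarith
        · rw [e, pow_succ]
          have h4 : 1 - α * y ≤ 1 - α * w := by
            have := mul_le_mul_of_nonneg_left i1 h0.le
            linarith
          exact mul_le_mul i3 h4 h3.le (by positivity)
    obtain ⟨k, hk⟩ := exists_pow_lt_of_lt_one hη hc1
    refine ⟨k, Or.inr ?_⟩
    obtain ⟨i1, i2, i3⟩ := key k
    rw [abs_sub_comm, abs_of_pos (by linarith)]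
    linarith
  · refine ⟨0, Or.inr ?_⟩
    show |w - 1| < η1
    rw [hw1, sub_self, abs_zero]
    exact hη

/-- beyond one -/
theorem CR2_mid {α R η1 w : ℝ} (h0 : 0 < α) (h1 : α < 1) (hη : 0 < η1) (hw : 1 < w)
    (hw1 : α * w < 1) : CR2_D α R η1 w := by
  have key : ∀ k : ℕ, 1 < (CR2_f α)^[k] w ∧ (CR2_f α)^[k] w ≤ w ∧
      (CR2_f α)^[k] w - 1 ≤ (w - 1) * (1 - α) ^ k := by
    intro k
    induction k with
    | zero =>
      refine ⟨hw, le_rfl, ?_⟩
      show w - 1 ≤ (w - 1) * (1 - α) ^ 0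
      rw [pow_zero, mul_one]
    | succ k ih =>
      rw [Function.iterate_succ_apply']
      obtain ⟨y, hy⟩ : ∃ y, y = (CR2_f α)^[k] w := ⟨_, rfl⟩
      rw [← hy] at ih ⊢
      obtain ⟨i1, i2, i3⟩ := ih
      have e : CR2_f α y - 1 = (y - 1) * (1 - α * y) := by unfold CR2_f; ring
      have h2 : 0 < y - 1 := by linarith
      have h3 : 0 < 1 - α * y := by
        have := mul_le_mul_of_nonneg_left i2 h0.le
        linarith
      have h4 : 1 - α * y ≤ 1 - α := by nlinarith
      have h5 : (y - 1) * (1 - α * y) ≤ (w - 1) * (1 - α) ^ k * (1 - α) :=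
        mul_le_mul i3 h4 h3.le (by
          have : 0 ≤ w - 1 := by linarith
          have : 0 ≤ 1 - α := by linarith
          positivity)
      refine ⟨?_, ?_, ?_⟩
      · have := mul_pos h2 h3
        linarith
      · have h6 : (y - 1) * (1 - α * y) ≤ (y - 1) * 1 :=
          mul_le_mul_of_nonneg_left (by linarith) h2.le
        linarith
      · rw [e, pow_succ, ← mul_assoc]
        exact h5
  obtain ⟨k, hk⟩ := exists_pow_lt_of_lt_one (x := η1 / (w - 1)) (y := 1 - α)
    (div_pos hη (by linarith)) (by linarith)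
  refine ⟨k, Or.inr ?_⟩
  obtain ⟨i1, i2, i3⟩ := key k
  rw [abs_of_pos (by linarith)]
  rw [lt_div_iff₀ (by linarith)] at hk
  linarith

/-- real dynamics -/
theorem CR2_real {α R η1 w : ℝ} (h0 : 0 < α) (h1 : α < 1) (hη : 0 < η1) (hw : w ≠ 0)
    (hw1 : w ≠ 1 + 1 / α) : CR2_D α R η1 w := by
  have e : CR2_f α w = α * w * (1 + 1 / α - w) := by
    unfold CR2_f
    field_simp
    ring
  rcases lt_or_gt_of_ne hw with h | h
  · exact CR2_neg h0 h
  · rcases le_or_gt w 1 with h2 | h2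
    · exact CR2_unit h0 h1 hη h h2
    · rcases lt_or_ge (α * w) 1 with h3 | h3
      · exact CR2_mid h0 h1 hη h2 h3
      · rcases lt_or_gt_of_ne hw1 with h4 | h4
        · refine CR2_back (CR2_unit h0 h1 hη ?_ ?_)
          · rw [e]
            have : 0 < 1 + 1 / α - w := by linarith
            positivity
          · have h5 : CR2_f α w - 1 = (w - 1) * (1 - α * w) := by unfold CR2_f; ring
            have h6 : (w - 1) * (1 - α * w) ≤ 0 :=
              mul_nonpos_of_nonneg_of_nonpos (by linarith) (by linarith)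
            linarith
        · refine CR2_back (CR2_neg h0 ?_)
          rw [e]
          have h5 : 0 < α * w := by positivity
          have h6 : 1 + 1 / α - w < 0 := by linarith
          exact mul_neg_of_pos_of_neg h5 h6

theorem CR2_Phi (L : ℕ) (α w : ℝ) (k : ℕ) :
    Phi L (α : ℂ) (w : ℂ) k ((0 : ℝ) : ℂ) = (((CR2_f α)^[k] w : ℝ) : ℂ) := by
  induction k with
  | zero => rfl
  | succ k ih =>
    rw [Function.iterate_succ_apply', Phi_succ_real', ih]
    have h1 : cr L k 0 = 1 := by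
      unfold cr
      simp
    rw [h1]
    unfold CR2_f
    push_cast
    ring

theorem t_CR2 : S_CR2 := by
  intro L hL α h0 h1 R η η1 hR hη hη1
  by_contra hcon
  push Not at hcon
  have hp : ∀ N : ℕ, (0 : ℝ) < 1 / ((N : ℝ) + 1) := fun N => by positivity
  choose w hw1 hw2 hw3 hw4 x hx hwx using fun N : ℕ =>
    hcon N (1 / ((N : ℝ) + 1)) (1 / ((N : ℝ) + 1)) (hp N) (hp N)
  obtain ⟨v, hv, φ, hφ, hlim⟩ := (isCompact_closedBall (0 : ℂ) R).tendsto_subseq
    (fun N => mem_closedBall_zero_iff.2 (hw1 N))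
  have hone : Tendsto (fun N : ℕ => 1 / ((N : ℝ) + 1)) atTop (𝓝 0) :=
    tendsto_one_div_add_atTop_nhds_zero_nat
  have honeφ := hone.comp hφ.tendsto_atTop
  have hxlim : Tendsto (fun N => x (φ N)) atTop (𝓝 0) :=
    squeeze_zero_norm (fun N => by
      rw [Real.norm_eq_abs]
      exact hx (φ N)) honeφ
  have him : v.im = 0 := by
    have h2 : Tendsto (fun N => |(w (φ N)).im|) atTop (𝓝 |v.im|) :=
      ((Complex.continuous_im.tendsto v).comp hlim).abs
    have h3 : |v.im| ≤ 0 := le_of_tendsto_of_tendsto' h2 honeφ (fun N => hw2 (φ N))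
    exact abs_nonpos_iff.1 h3
  have hn1 : η ≤ ‖v‖ := ge_of_tendsto' hlim.norm (fun N => hw3 (φ N))
  have hn2 : η ≤ ‖v - 1 - 1 / (α : ℂ)‖ :=
    ge_of_tendsto' ((hlim.sub_const 1).sub_const (1 / (α : ℂ))).norm (fun N => hw4 (φ N))
  have hvre : v = ((v.re : ℝ) : ℂ) := by
    apply Complex.ext
    · simp
    · simp [him]
  have hne0 : v.re ≠ 0 := by
    intro h
    rw [hvre, h, Complex.ofReal_zero, norm_zero] at hn1
    linarith
  have hne1 : v.re ≠ 1 + 1 / α := by
    intro h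
    rw [hvre, h] at hn2
    have e : ((1 + 1 / α : ℝ) : ℂ) - 1 - 1 / (α : ℂ) = 0 := by
      push_cast
      ring
    rw [e, norm_zero] at hn2
    linarith
  obtain ⟨k, hk⟩ := CR2_real (R := R) h0 h1 hη1 hne0 hne1
  have hj : Tendsto (fun N => Phi L (α : ℂ) (w (φ N)) k ((x (φ N) : ℝ) : ℂ)) atTop
      (𝓝 (Phi L (α : ℂ) v k ((0 : ℝ) : ℂ))) := by
    have h2 : Tendsto (fun N => ((w (φ N), x (φ N)) : ℂ × ℝ)) atTop (𝓝 (v, 0)) :=
      hlim.prodMk_nhds hxlim
    exact ((Phi_joint_cont L (α : ℂ) k).tendsto (v, 0)).comp h2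
  rw [hvre, CR2_Phi] at hj
  have hev : ∀ᶠ N in atTop, ‖Phi L (α : ℂ) (w (φ N)) k ((x (φ N) : ℝ) : ℂ)‖ ≤ R ∧
      η1 ≤ ‖Phi L (α : ℂ) (w (φ N)) k ((x (φ N) : ℝ) : ℂ) - 1‖ := by
    filter_upwards [hφ.tendsto_atTop.eventually_ge_atTop k] with N hN
    exact hwx (φ N) k hN
  rcases hk with hk | hk
  · have h2 : ‖(((CR2_f α)^[k] v.re : ℝ) : ℂ)‖ ≤ R :=
      le_of_tendsto hj.norm (hev.mono fun N h => h.1)
    rw [Complex.norm_real, Real.norm_eq_abs] at h2
    linarith
  · have h2 : η1 ≤ ‖(((CR2_f α)^[k] v.re : ℝ) : ℂ) - 1‖ :=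
      ge_of_tendsto (hj.sub_const 1).norm (hev.mono fun N h => h.2)
    have e : (((CR2_f α)^[k] v.re : ℝ) : ℂ) - 1 = (((CR2_f α)^[k] v.re - 1 : ℝ) : ℂ) := by
      push_cast
      ring
    rw [e, Complex.norm_real, Real.norm_eq_abs] at h2
    linarith

end Pool.Agent.H212.KR
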