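import Pool.Agent.H212.KR.Stm

/-!
# KR CR3: repulsion from 0 with bounded products (helper878)
-/

set_option autoImplicit false

namespace Pool.Agent.H212.KR

open Complex Filter Topology MeasureTheory
open Pool.Agent.TH229.Kan

theorem CR3_cos (y : ℝ) : 1 - 20 * y ^ 2 ≤ Real.cos (2 * Real.pi * y) := by
  have h1 := Real.one_sub_sq_div_two_le_cos (x := 2 * Real.pi * y)
  have h2 : Real.pi ^ 2 ≤ 10 := by
    have h3 := Real.pi_lt_d2
    have h4 := Real.pi_pos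
    nlinarith
  have h5 : Real.pi ^ 2 * y ^ 2 ≤ 10 * y ^ 2 := mul_le_mul_of_nonneg_right h2 (sq_nonneg y)
  nlinarith

theorem CR3_norm (w : ℂ) (β : ℝ) (hβ : 0 ≤ β) :
    1 + β - β * ‖w‖ ≤ ‖1 + (β : ℂ) * (1 - w)‖ := by
  have e : 1 + (β : ℂ) * (1 - w) = ((1 + β : ℝ) : ℂ) - (β : ℂ) * w := by push_cast; ring
  have h1 : ‖((1 + β : ℝ) : ℂ)‖ = 1 + β := by
    rw [Complex.norm_real, Real.norm_eq_abs, abs_of_nonneg (by linarith)]
  have h2 : ‖(β : ℂ) * w‖ = β * ‖w‖ := by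
    rw [norm_mul, Complex.norm_real, Real.norm_eq_abs, abs_of_nonneg hβ]
  rw [e, ← h2]
  calc 1 + β - ‖(β : ℂ) * w‖ = ‖((1 + β : ℝ) : ℂ)‖ - ‖(β : ℂ) * w‖ := by rw [h1]
    _ ≤ _ := norm_sub_norm_le _ _

/-- one step -/
theorem CR3_step {L : ℕ} (hL : 2 ≤ L) {α : ℝ} (h0 : 0 < α) (w : ℂ) (x : ℝ) (K j : ℕ)
    (hx : (L : ℝ) ^ K * |x| ≤ 1 / 8) (hj : j + 1 ≤ K)
    (hw : ‖Phi L α w (K - (j + 1)) x‖ ≤ 1 / 8) :
    ‖Phi L α w (K - (j + 1)) x‖ *
      (1 + α * (1 - 20 * ((1 / 2) ^ (j + 1) / 8) ^ 2) * (1 - ‖Phi L α w (K - (j + 1)) x‖)) ≤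
      ‖Phi L α w (K - j) x‖ := by
  obtain ⟨k, hk⟩ : ∃ k, k = K - (j + 1) := ⟨_, rfl⟩
  have hk1 : K - j = k + 1 := by omega
  rw [hk1, ← hk, Phi_succ_real', norm_mul]
  rw [← hk] at hw
  refine mul_le_mul_of_nonneg_left ?_ (norm_nonneg _)
  have hL' : (2 : ℝ) ≤ L := by exact_mod_cast hL
  have hy : |(L : ℝ) ^ k * x| ≤ (1 / 2) ^ (j + 1) / 8 := by
    rw [abs_mul, abs_of_nonneg (by positivity : (0 : ℝ) ≤ (L : ℝ) ^ k)]
    have e1 : K = k + (j + 1) := by omega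
    have e2 : (2 : ℝ) ^ (j + 1) * ((L : ℝ) ^ k * |x|) ≤ 1 / 8 := by
      refine le_trans ?_ hx
      have e6 : (L : ℝ) ^ (k + (j + 1)) * |x| = (L : ℝ) ^ (j + 1) * ((L : ℝ) ^ k * |x|) := by
        rw [pow_add]
        ring
      rw [e1, e6]
      refine mul_le_mul_of_nonneg_right ?_ (by positivity)
      exact pow_le_pow_left₀ (by norm_num) hL' _
    have e3 : (0 : ℝ) < 2 ^ (j + 1) := by positivity
    rw [one_div, inv_pow, ← one_div, div_div, le_div_iff₀ (by positivity)]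
    linarith
  have hsq : ((L : ℝ) ^ k * x) ^ 2 ≤ ((1 / 2) ^ (j + 1) / 8) ^ 2 := by
    rw [← sq_abs ((L : ℝ) ^ k * x)]
    exact pow_le_pow_left₀ (abs_nonneg _) hy 2
  have hcos : 1 - 20 * ((1 / 2) ^ (j + 1) / 8) ^ 2 ≤ cr L k x := by
    have := CR3_cos ((L : ℝ) ^ k * x)
    unfold cr
    linarith
  have hsm : 0 ≤ 1 - 20 * (((1 : ℝ) / 2) ^ (j + 1) / 8) ^ 2 := by
    have h1 : ((1 : ℝ) / 2) ^ (j + 1) ≤ 1 := pow_le_one₀ (by norm_num) (by norm_num)
    have h2 : (0 : ℝ) ≤ (1 / 2) ^ (j + 1) := by positivity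
    nlinarith
  have hcr : 0 ≤ cr L k x := hsm.trans hcos
  have h1 := CR3_norm (Phi L α w k x) (α * cr L k x) (by positivity)
  have e : 1 + ((α * cr L k x : ℝ) : ℂ) * (1 - Phi L α w k x) =
      1 + (α : ℂ) * (cr L k x : ℂ) * (1 - Phi L α w k x) := by push_cast; ring
  rw [e] at h1
  refine le_trans ?_ h1
  have h2 : α * (1 - 20 * ((1 / 2) ^ (j + 1) / 8) ^ 2) ≤ α * cr L k x :=
    mul_le_mul_of_nonneg_left hcos h0.le
  have h3 : 0 ≤ 1 - ‖Phi L α w k x‖ := by linarith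
  have h4 := mul_le_mul_of_nonneg_right h2 h3
  linarith

theorem CR3_exp {a : ℝ} (h0 : 0 ≤ a) (h1 : a ≤ 1 / 2) : Real.exp (-(2 * a)) ≤ 1 - a := by
  have h2 := Real.add_one_le_exp (2 * a)
  have h3 : 0 < Real.exp (2 * a) := Real.exp_pos _
  have h4 : Real.exp (-(2 * a)) * Real.exp (2 * a) = 1 := by
    rw [← Real.exp_add]; simp
  have h5 : 1 ≤ (1 - a) * Real.exp (2 * a) := by nlinarith
  nlinarith

theorem t_CR3 : S_CR3 := by
  intro L hL α h0 h1
  obtain ⟨q, hq⟩ : ∃ q : ℝ, q = (1 + α / 2)⁻¹ := ⟨_, rfl⟩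
  have hq0 : 0 < q := by rw [hq]; positivity
  have hq1 : q * (1 + α / 2) = 1 := by rw [hq]; exact inv_mul_cancel₀ (by positivity)
  have hqle : q ≤ 1 := by nlinarith
  obtain ⟨E, hE⟩ : ∃ E : ℕ → ℝ, ∀ j, E j =
      2 * (11 / 100 * (1 - (1 / 4) ^ j) + 1 / (4 * α) * (1 - q ^ j)) := ⟨_, fun _ => rfl⟩
  refine ⟨1 / 8, 1 / 8 * Real.exp (2 * (11 / 100 + 1 / (4 * α))) * (1 + α), by norm_num, le_rfl,
    by positivity, fun w x K hK hx hw => ?_⟩
  have hw' : ∀ j, j + 1 ≤ K → ‖Phi L α w (K - j) x‖ ≤ 1 / 8 := fun j hj =>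
    hw (K - j) (by omega) (by omega)
  -- exponential decay
  have ha : ∀ j, j + 1 ≤ K → ‖Phi L α w (K - j) x‖ ≤ 1 / 8 * q ^ j := by
    intro j
    induction j with
    | zero => intro hj; rw [pow_zero, mul_one]; exact hw' 0 hj
    | succ j ih =>
      intro hj
      have h2 := ih (by omega)
      have h3 := hw' (j + 1) hj
      have h4 := CR3_step hL h0 w x K j hx (by omega) h3
      obtain ⟨v, hv⟩ : ∃ v, v = ‖Phi L α w (K - (j + 1)) x‖ := ⟨_, rfl⟩
      rw [← hv] at h3 h4 ⊢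
      have hv0 : 0 ≤ v := by rw [hv]; exact norm_nonneg _
      have h5 : ((1 : ℝ) / 2) ^ (j + 1) ≤ 1 / 2 := by
        rw [pow_succ]
        have : ((1 : ℝ) / 2) ^ j ≤ 1 := pow_le_one₀ (by norm_num) (by norm_num)
        linarith
      have h6 : (0 : ℝ) ≤ (1 / 2) ^ (j + 1) := by positivity
      have h7 : (((1 : ℝ) / 2) ^ (j + 1) / 8) ^ 2 ≤ 1 / 256 := by nlinarith
      have h8 : 1 / 2 ≤ (1 - 20 * (((1 : ℝ) / 2) ^ (j + 1) / 8) ^ 2) * (1 - v) := by
        nlinarith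
      have h9 : v * (1 + α / 2) ≤ 1 / 8 * q ^ j := by
        refine le_trans (le_trans ?_ h4) h2
        refine mul_le_mul_of_nonneg_left ?_ hv0
        have := mul_le_mul_of_nonneg_left h8 h0.le
        linarith
      calc v = v * (1 + α / 2) * q := by
            rw [mul_assoc, mul_comm (1 + α / 2) q, hq1, mul_one]
        _ ≤ 1 / 8 * q ^ j * q := mul_le_mul_of_nonneg_right h9 hq0.le
        _ = 1 / 8 * q ^ (j + 1) := by ring
  -- the product
  have hb : ∀ j, j + 1 ≤ K → ‖Phi L α w (K - j) x‖ * (1 + α) ^ j ≤ 1 / 8 * Real.exp (E j) := by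
    intro j
    induction j with
    | zero =>
      intro hj
      have e : E 0 = 0 := by rw [hE]; simp
      rw [e, pow_zero, mul_one, Real.exp_zero, mul_one]
      exact hw' 0 hj
    | succ j ih =>
      intro hj
      have h2 := ih (by omega)
      have h3 := hw' (j + 1) hj
      have h3' := ha (j + 1) hj
      have h4 := CR3_step hL h0 w x K j hx (by omega) h3
      obtain ⟨v, hv⟩ : ∃ v, v = ‖Phi L α w (K - (j + 1)) x‖ := ⟨_, rfl⟩
      rw [← hv] at h3 h3' h4 ⊢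
      have hv0 : 0 ≤ v := by rw [hv]; exact norm_nonneg _
      obtain ⟨s, hs⟩ : ∃ s : ℝ, s = 20 * ((1 / 2) ^ (j + 1) / 8) ^ 2 := ⟨_, rfl⟩
      rw [← hs] at h4
      have hs0 : 0 ≤ s := by rw [hs]; positivity
      have hs1 : s = 5 / 16 * (1 / 4) ^ (j + 1) := by
        rw [hs, div_pow, ← pow_mul, mul_comm (j + 1) 2, pow_mul]
        norm_num
        ring
      have h5 : ((1 : ℝ) / 4) ^ (j + 1) ≤ 1 / 4 := by
        rw [pow_succ]
        have : ((1 : ℝ) / 4) ^ j ≤ 1 := pow_le_one₀ (by norm_num) (by norm_num)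
        linarith
      have h6 : (1 + α) * Real.exp (-(2 * (s + v))) ≤ 1 + α * (1 - s) * (1 - v) := by
        have h7 := CR3_exp (a := s + v) (by linarith) (by linarith)
        have h8 : (1 + α) * Real.exp (-(2 * (s + v))) ≤ (1 + α) * (1 - (s + v)) :=
          mul_le_mul_of_nonneg_left h7 (by linarith)
        refine h8.trans ?_
        have h9 : 0 ≤ α * s * v := by positivity
        nlinarith
      have h10 : v * ((1 + α) * Real.exp (-(2 * (s + v)))) ≤ ‖Phi L α w (K - j) x‖ :=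
        (mul_le_mul_of_nonneg_left h6 hv0).trans h4
      have h11 : E j + 2 * (s + v) ≤ E (j + 1) := by
        rw [hE, hE, hs1]
        have e1 : (1 : ℝ) / (4 * α) * (1 - q ^ (j + 1)) - 1 / (4 * α) * (1 - q ^ j) =
            1 / 8 * q ^ (j + 1) := by
          have e2 : q ^ j = q ^ (j + 1) * (1 + α / 2) := by
            rw [pow_succ, mul_assoc, hq1, mul_one]
          rw [e2]
          field_simp
          ring
        have e3 : ((1 : ℝ) / 4) ^ j = 4 * (1 / 4) ^ (j + 1) := by ring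
        have e4 : (0 : ℝ) ≤ (1 / 4) ^ (j + 1) := by positivity
        rw [e3]
        linarith
      have h12 : 0 < Real.exp (2 * (s + v)) := Real.exp_pos _
      have h13 : Real.exp (-(2 * (s + v))) * Real.exp (2 * (s + v)) = 1 := by
        rw [← Real.exp_add]; simp
      calc v * (1 + α) ^ (j + 1)
          = v * ((1 + α) * Real.exp (-(2 * (s + v)))) * (1 + α) ^ j * Real.exp (2 * (s + v)) := by
            rw [pow_succ]
            linear_combination (-(v * (1 + α) ^ j * (1 + α))) * h13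
        _ ≤ ‖Phi L α w (K - j) x‖ * (1 + α) ^ j * Real.exp (2 * (s + v)) := by
            gcongr
        _ ≤ 1 / 8 * Real.exp (E j) * Real.exp (2 * (s + v)) := by
            gcongr
        _ = 1 / 8 * Real.exp (E j + 2 * (s + v)) := by rw [Real.exp_add]; ring
        _ ≤ 1 / 8 * Real.exp (E (j + 1)) := by
            gcongr
  have hfin := hb (K - 1) (by omega)
  have eK : K - (K - 1) = 1 := by omega
  rw [eK] at hfin
  have hEle : E (K - 1) ≤ 2 * (11 / 100 + 1 / (4 * α)) := by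
    rw [hE]
    have g1 : (0 : ℝ) ≤ (1 / 4) ^ (K - 1) := by positivity
    have g2 : 0 ≤ 1 / (4 * α) * q ^ (K - 1) := by positivity
    nlinarith
  have h14 : ‖Phi L α w 1 x‖ * (1 + α) ^ (K - 1) ≤
      1 / 8 * Real.exp (2 * (11 / 100 + 1 / (4 * α))) := by
    refine hfin.trans ?_
    gcongr
  rw [← div_eq_mul_inv, le_div_iff₀ (by positivity)]
  have e5 : (1 + α) ^ K = (1 + α) ^ (K - 1) * (1 + α) := by
    rw [← pow_succ]
    congr 1
    omega
  rw [e5, ← mul_assoc]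
  exact mul_le_mul_of_nonneg_right h14 (by linarith)

end Pool.Agent.H212.KR
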