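import Pool.Agent.H212.KR.Stm

/-!
# Project KR: absorbed points are dense for almost every base point (`S_D`, helper23 for helper212)
-/

set_option autoImplicit false

namespace Pool.Agent.H212.KR

open Complex Filter Topology MeasureTheory
open Pool.Agent.TH229.Kan

theorem D_im (L : ℕ) (α p u : ℝ) (k : ℕ) : (Phi L (α : ℂ) (p : ℂ) k (u : ℂ)).im = 0 := by
  have h := Phi_conj L (α : ℂ) (p : ℂ) k (u : ℂ)
  rw [Complex.conj_ofReal, Complex.conj_ofReal, Complex.conj_ofReal] at h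
  exact Complex.conj_eq_iff_im.1 h.symm

theorem D_NR (L : ℕ) (α p ε δ R u : ℝ) (hε : 0 < ε) : NR L (α : ℂ) (p : ℂ) ε δ R u := by
  refine ⟨0, fun k _ j _ _ => ?_⟩
  rw [D_im, abs_zero]
  exact hε.le

theorem D_ae_scale (c : ℝ) (hc : c ≠ 0) (p : ℝ → Prop) (h : ∀ᵐ u : ℝ, p u) :
    ∀ᵐ u : ℝ, p (c * u) := by
  rw [ae_iff] at h ⊢
  have h1 : {u : ℝ | ¬ p (c * u)} = (fun u => c * u) ⁻¹' {u | ¬ p u} := rfl
  rw [h1, Real.volume_preimage_mul_left hc, h, mul_zero]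

theorem D_dense (z : ℂ) (r : ℝ) (hr : 0 < r) :
    ∃ q : ℚ × ℚ, (((q.1 : ℝ) : ℂ) + ((q.2 : ℝ) : ℂ) * I) ∈ Metric.ball z r := by
  obtain ⟨a, ha1, ha2⟩ := exists_rat_btwn (show z.re < z.re + r / 2 by linarith)
  obtain ⟨b, hb1, hb2⟩ := exists_rat_btwn (show z.im < z.im + r / 2 by linarith)
  refine ⟨(a, b), ?_⟩
  rw [Metric.mem_ball, dist_eq_norm]
  refine (Complex.norm_le_abs_re_add_abs_im _).trans_lt ?_
  have e1 : ((((a : ℝ) : ℂ) + ((b : ℝ) : ℂ) * I) - z).re = (a : ℝ) - z.re := by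
    simp
  have e2 : ((((a : ℝ) : ℂ) + ((b : ℝ) : ℂ) * I) - z).im = (b : ℝ) - z.im := by
    simp
  show |((((a : ℝ) : ℂ) + ((b : ℝ) : ℂ) * I) - z).re| +
    |((((a : ℝ) : ℂ) + ((b : ℝ) : ℂ) * I) - z).im| < r
  rw [e1, e2, abs_of_pos (by linarith), abs_of_pos (by linarith)]
  linarith

/-- `S_D` -/
theorem t_D (hA : S_A) (hB : S_B) : S_D := by
  intro L hL α hα0 hα1
  obtain ⟨ε, δ, R, hε, hδ, hδ', hR, H⟩ := hA L hL α hα0 hα1
  have hL0 : (L : ℝ) ≠ 0 := by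
    have : 0 < L := by omega
    exact_mod_cast this.ne'
  have h1 : ∀ p : ℚ, ∀ᵐ u : ℝ, Absorbed L (α : ℂ) (((p : ℝ) : ℂ)) u := by
    intro p
    filter_upwards [H ((p : ℝ) : ℂ)] with u hu
    exact hu (D_NR L α p ε δ R u hε)
  have h2 : ∀ᵐ u : ℝ, ∀ (n : ℕ) (p : ℚ),
      Absorbed L (α : ℂ) (((p : ℝ) : ℂ)) ((L : ℝ) ^ n * u) := by
    rw [ae_all_iff]
    intro n
    rw [ae_all_iff]
    intro p
    exact D_ae_scale ((L : ℝ) ^ n) (pow_ne_zero n hL0)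
      (fun u => Absorbed L (α : ℂ) (((p : ℝ) : ℂ)) u) (h1 p)
  have h3 : ∀ᵐ u : ℝ, ∀ q : ℚ × ℚ,
      NR L (α : ℂ) (((q.1 : ℝ) : ℂ) + ((q.2 : ℝ) : ℂ) * I) ε δ R u →
        Absorbed L (α : ℂ) (((q.1 : ℝ) : ℂ) + ((q.2 : ℝ) : ℂ) * I) u := by
    rw [ae_all_iff]
    intro q
    exact H _
  filter_upwards [h2, h3] with u hu2 hu3
  intro z r hr
  by_contra hneg
  push Not at hneg
  obtain ⟨q, hq⟩ := D_dense z r hr
  set z' : ℂ := ((q.1 : ℝ) : ℂ) + ((q.2 : ℝ) : ℂ) * I with hz'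
  have hd : 0 < r - dist z' z := by
    rw [Metric.mem_ball] at hq
    linarith
  have h4 := hB L hL α hα0 hα1 ε δ R hε hδ hδ' hR u hu2 z' (r - dist z' z) hd (by
    intro w hw
    refine hneg w ?_
    rw [Metric.mem_ball] at hw ⊢
    have h5 := dist_triangle w z' z
    linarith)
  exact hneg z' hq (hu3 q h4)

end Pool.Agent.H212.KR
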