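import Pool.Agent.H212.KR.Stm

/-!
# KR: density points and proportions of periodic sets (helper747)
-/

set_option autoImplicit false

namespace Pool.Agent.H212.KR

open Complex Filter Topology MeasureTheory
open Pool.Agent.TH229.Kan

theorem t_DEN : S_DEN := by
  intro A hA
  have h1 := Besicovitch.ae_tendsto_measure_inter_div_of_measurableSet
    (volume : Measure ℝ) hA.compl
  rw [ae_restrict_iff' hA]
  filter_upwards [h1] with u hu huA ε hε
  have h2 : (Aᶜ).indicator (1 : ℝ → ENNReal) u = 0 :=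
    Set.indicator_of_notMem (by simpa using huA) _
  rw [h2] at hu
  have h3 : ∀ᶠ r in 𝓝[>] (0 : ℝ),
      volume (Aᶜ ∩ Metric.closedBall u r) / volume (Metric.closedBall u r)
        < ENNReal.ofReal (ε / 2) :=
    hu.eventually (gt_mem_nhds (ENNReal.ofReal_pos.2 (by positivity)))
  rw [eventually_nhdsWithin_iff, Metric.eventually_nhds_iff] at h3
  obtain ⟨d, hd, h4⟩ := h3
  refine ⟨d / 2, by positivity, ?_⟩
  intro s hs hsd
  have h5 := h4 (y := s) (by rw [Real.dist_eq, sub_zero, abs_of_pos hs]; linarith) hs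
  have h6 : volume (Metric.closedBall u s) = ENNReal.ofReal (2 * s) := Real.volume_closedBall u s
  have h7 : ENNReal.ofReal (2 * s) ≠ 0 := (ENNReal.ofReal_pos.2 (by positivity)).ne'
  rw [h6] at h5
  have h8 : volume (Aᶜ ∩ Metric.closedBall u s) ≤
      ENNReal.ofReal (ε / 2) * ENNReal.ofReal (2 * s) :=
    (ENNReal.div_le_iff h7 ENNReal.ofReal_ne_top).1 h5.le
  rw [← ENNReal.ofReal_mul (by positivity), Real.closedBall_eq_Icc] at h8
  refine h8.trans (le_of_eq ?_)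
  congr 1
  ring

namespace DPBaux

theorem per_int (G : Set ℝ) (hG : ∀ x, x + 1 ∈ G ↔ x ∈ G) (k : ℤ) (x : ℝ) :
    x + k ∈ G ↔ x ∈ G := by
  induction k using Int.induction_on with
  | zero => simp
  | succ i ih =>
    rw [← ih, ← hG (x + (i : ℤ))]
    push_cast
    rw [add_assoc]
  | pred i ih =>
    rw [← ih, ← hG (x + ((-(i : ℤ) - 1 : ℤ) : ℝ))]
    push_cast
    have : x + (-(i : ℝ) - 1) + 1 = x + -(i : ℝ) := by ring
    rw [this]

theorem vol_unit (G : Set ℝ) (hG : ∀ x, x + 1 ∈ G ↔ x ∈ G) (k : ℤ) :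
    volume (Gᶜ ∩ Set.Icc (k : ℝ) (k + 1)) = volume (Gᶜ ∩ Set.Icc 0 1) := by
  rw [← measure_preimage_add_right volume (k : ℝ) (Gᶜ ∩ Set.Icc (k : ℝ) (k + 1))]
  congr 1
  ext x
  simp only [Set.mem_preimage, Set.mem_inter_iff, Set.mem_compl_iff, per_int G hG k x,
    Set.mem_Icc]
  constructor
  · rintro ⟨h1, h2, h3⟩
    exact ⟨h1, by linarith, by linarith⟩
  · rintro ⟨h1, h2, h3⟩
    exact ⟨h1, by linarith, by linarith⟩

theorem vol_int (G : Set ℝ) (hG : ∀ x, x + 1 ∈ G ↔ x ∈ G) (a b : ℤ) (T : Set ℝ)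
    (hT : T ⊆ Set.Ico (a : ℝ) b) :
    volume (Gᶜ ∩ T) ≤ (Finset.Ico a b).card * volume (Gᶜ ∩ Set.Icc 0 1) := by
  have h1 : Gᶜ ∩ T ⊆ ⋃ k ∈ Finset.Ico a b, Gᶜ ∩ Set.Icc (k : ℝ) (k + 1) := by
    intro x hx
    have hx2 := hT hx.2
    simp only [Set.mem_iUnion]
    refine ⟨⌊x⌋, ?_, hx.1, Int.floor_le x, (Int.lt_floor_add_one x).le⟩
    rw [Finset.mem_Ico]
    exact ⟨Int.le_floor.2 hx2.1, Int.floor_lt.2 hx2.2⟩
  refine (measure_mono h1).trans ((measure_biUnion_finset_le _ _).trans ?_)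
  rw [Finset.sum_congr rfl (fun k _ => vol_unit G hG k), Finset.sum_const, nsmul_eq_mul]

theorem vol_scale (G T : Set ℝ) (c : ℝ) (hc : 0 < c) :
    volume {x : ℝ | c * x ∈ T ∧ c * x ∉ G} = ENNReal.ofReal c⁻¹ * volume (Gᶜ ∩ T) := by
  have h1 : {x : ℝ | c * x ∈ T ∧ c * x ∉ G} = (fun x => c * x) ⁻¹' (Gᶜ ∩ T) := by
    ext x
    simp only [Set.mem_ofPred_eq, Set.mem_preimage, Set.mem_inter_iff, Set.mem_compl_iff]
    tauto
  rw [h1, Real.volume_preimage_mul_left hc.ne', abs_of_pos (inv_pos.2 hc)]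

end DPBaux

theorem t_PER : S_PER := by
  intro G _ hG e he hGe c s hc hs hcs
  have h1 : {x : ℝ | x ∈ Set.Icc (-s) s ∧ c * x ∉ G} ⊆
      {x : ℝ | c * x ∈ Set.Icc (-(c * s)) (c * s) ∧ c * x ∉ G} := by
    rintro x ⟨⟨h1, h2⟩, h3⟩
    refine ⟨⟨?_, ?_⟩, h3⟩
    · have := mul_le_mul_of_nonneg_left h1 hc.le
      linarith
    · exact mul_le_mul_of_nonneg_left h2 hc.le
  have h2 : Set.Icc (-(c * s)) (c * s) ⊆ Set.Ico ((⌊-(c * s)⌋ : ℤ) : ℝ)
      ((⌊c * s⌋ + 1 : ℤ) : ℝ) := by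
    rintro y ⟨h3, h4⟩
    refine ⟨(Int.floor_le _).trans h3, h4.trans_lt ?_⟩
    push_cast
    exact Int.lt_floor_add_one _
  have h3 := DPBaux.vol_int G hG _ _ _ h2
  have h4 : ((Finset.Ico ⌊-(c * s)⌋ (⌊c * s⌋ + 1)).card : ℝ) ≤ 4 * (c * s) := by
    rw [Int.card_Ico]
    have h5 : (0 : ℤ) ≤ ⌊c * s⌋ + 1 - ⌊-(c * s)⌋ := by
      have h6 : ⌊-(c * s)⌋ ≤ ⌊c * s⌋ := Int.floor_le_floor (by linarith)
      omega
    have h7 : (((⌊c * s⌋ + 1 - ⌊-(c * s)⌋).toNat : ℤ) : ℝ) =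
        ((⌊c * s⌋ + 1 - ⌊-(c * s)⌋ : ℤ) : ℝ) := by
      rw [Int.toNat_of_nonneg h5]
    have h8 : (((⌊c * s⌋ + 1 - ⌊-(c * s)⌋).toNat : ℕ) : ℝ) =
        ((⌊c * s⌋ + 1 - ⌊-(c * s)⌋ : ℤ) : ℝ) := by
      rw [← h7]
      push_cast
      rfl
    rw [h8]
    push_cast
    have h9 := Int.floor_le (c * s)
    have h10 := Int.lt_floor_add_one (-(c * s))
    linarith
  calc volume {x : ℝ | x ∈ Set.Icc (-s) s ∧ c * x ∉ G}
      ≤ volume {x : ℝ | c * x ∈ Set.Icc (-(c * s)) (c * s) ∧ c * x ∉ G} := measure_mono h1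
    _ = ENNReal.ofReal c⁻¹ * volume (Gᶜ ∩ Set.Icc (-(c * s)) (c * s)) := DPBaux.vol_scale G _ c hc
    _ ≤ ENNReal.ofReal c⁻¹ * (ENNReal.ofReal (4 * (c * s)) * ENNReal.ofReal e) := by
        gcongr
        refine h3.trans ?_
        gcongr
        rw [← ENNReal.ofReal_natCast]
        exact ENNReal.ofReal_le_ofReal h4
    _ = ENNReal.ofReal (4 * e * s) := by
        rw [← ENNReal.ofReal_mul (by positivity), ← ENNReal.ofReal_mul (by positivity)]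
        congr 1
        field_simp

theorem t_BAD : S_BAD := by
  intro L hL G _ hG e he hGe ρ hρ
  have hL2 : (2 : ℝ) ≤ L := by exact_mod_cast hL
  have hL0 : (0 : ℝ) < L := by linarith
  -- the least index
  have hex : ∃ m : ℕ, 1 ≤ 8 * (L : ℝ) * ρ * (L : ℝ) ^ m := by
    obtain ⟨m, hm⟩ := pow_unbounded_of_one_lt (1 / (8 * (L : ℝ) * ρ)) (by linarith : (1 : ℝ) < L)
    refine ⟨m, ?_⟩
    rw [div_lt_iff₀ (by positivity)] at hm
    linarith
  classical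
  set m0 := Nat.find hex with hm0
  have hm0' : 1 ≤ 8 * (L : ℝ) * ρ * (L : ℝ) ^ m0 := Nat.find_spec hex
  set B : ℕ → Set ℝ := fun k => {x : ℝ | (L : ℝ) ^ (m0 + k) * x ∈ Set.Ico (-1 : ℝ) 1 ∧
    (L : ℝ) ^ (m0 + k) * x ∉ G} with hB
  have h1 : {x : ℝ | x ∈ Set.Icc (-ρ) ρ ∧ ∃ m : ℕ, 1 / (8 * (L : ℝ)) ≤ (L : ℝ) ^ m * |x| ∧
      (L : ℝ) ^ m * |x| < 1 / 8 ∧ (L : ℝ) ^ m * x ∉ G} ⊆ ⋃ k, B k := by
    rintro x ⟨hx, m, hm1, hm2, hm3⟩
    have hxr : |x| ≤ ρ := abs_le.2 ⟨hx.1, hx.2⟩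
    have hle : m0 ≤ m := by
      refine Nat.find_min' hex ?_
      rw [div_le_iff₀ (by positivity)] at hm1
      have h3 : (L : ℝ) ^ m * |x| ≤ (L : ℝ) ^ m * ρ :=
        mul_le_mul_of_nonneg_left hxr (by positivity)
      have h4 : (L : ℝ) ^ m * |x| * (8 * L) ≤ (L : ℝ) ^ m * ρ * (8 * L) :=
        mul_le_mul_of_nonneg_right h3 (by positivity)
      linarith
    rw [Set.mem_iUnion]
    refine ⟨m - m0, ?_⟩
    have h5 : m0 + (m - m0) = m := by omega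
    have h6 : |(L : ℝ) ^ m * x| < 1 / 8 := by
      rwa [abs_mul, abs_of_pos (by positivity : (0 : ℝ) < (L : ℝ) ^ m)]
    rw [abs_lt] at h6
    simp only [hB, Set.mem_ofPred_eq, h5]
    exact ⟨⟨by linarith, by linarith⟩, hm3⟩
  have h2 : ∀ k, volume (B k) ≤ ENNReal.ofReal (16 * L * e * ρ * (1 / 2) ^ k) := by
    intro k
    have h3 : volume (B k) = ENNReal.ofReal ((L : ℝ) ^ (m0 + k))⁻¹ *
        volume (Gᶜ ∩ Set.Ico (-1 : ℝ) 1) := DPBaux.vol_scale G _ _ (by positivity)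
    have h4 := DPBaux.vol_int G hG (-1) 1 (Set.Ico (-1 : ℝ) 1) (by push_cast; exact subset_rfl)
    have h5 : ((Finset.Ico (-1 : ℤ) 1).card : ENNReal) = ENNReal.ofReal 2 := by
      have h6 : (Finset.Ico (-1 : ℤ) 1).card = 2 := by decide
      rw [h6]
      norm_num
    rw [h3]
    calc ENNReal.ofReal ((L : ℝ) ^ (m0 + k))⁻¹ * volume (Gᶜ ∩ Set.Ico (-1 : ℝ) 1)
        ≤ ENNReal.ofReal ((L : ℝ) ^ (m0 + k))⁻¹ * (ENNReal.ofReal 2 * ENNReal.ofReal e) := by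
          gcongr
          refine h4.trans ?_
          rw [h5]
          gcongr
      _ = ENNReal.ofReal (((L : ℝ) ^ (m0 + k))⁻¹ * (2 * e)) := by
          rw [← ENNReal.ofReal_mul (by positivity), ← ENNReal.ofReal_mul (by positivity)]
      _ ≤ ENNReal.ofReal (16 * L * e * ρ * (1 / 2) ^ k) := by
          refine ENNReal.ofReal_le_ofReal ?_
          have h6 : ((L : ℝ) ^ (m0 + k))⁻¹ ≤ 8 * L * ρ * (1 / 2) ^ k := by
            rw [pow_add, mul_inv]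
            have h7 : ((L : ℝ) ^ m0)⁻¹ ≤ 8 * L * ρ := by
              rw [inv_le_iff_one_le_mul₀ (by positivity)]
              exact hm0'
            have h8 : ((L : ℝ) ^ k)⁻¹ ≤ (1 / 2) ^ k := by
              rw [← inv_pow]
              refine pow_le_pow_left₀ (by positivity) ?_ k
              rw [one_div]
              exact inv_anti₀ (by norm_num) hL2
            exact mul_le_mul h7 h8 (by positivity) (by positivity)
          calc ((L : ℝ) ^ (m0 + k))⁻¹ * (2 * e) ≤ 8 * L * ρ * (1 / 2) ^ k * (2 * e) :=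
                mul_le_mul_of_nonneg_right h6 (by positivity)
            _ = 16 * L * e * ρ * (1 / 2) ^ k := by ring
  calc volume {x : ℝ | x ∈ Set.Icc (-ρ) ρ ∧ ∃ m : ℕ, 1 / (8 * (L : ℝ)) ≤ (L : ℝ) ^ m * |x| ∧
      (L : ℝ) ^ m * |x| < 1 / 8 ∧ (L : ℝ) ^ m * x ∉ G}
      ≤ volume (⋃ k, B k) := measure_mono h1
    _ ≤ ∑' k, volume (B k) := measure_iUnion_le _
    _ ≤ ∑' k : ℕ, ENNReal.ofReal (16 * L * e * ρ * (1 / 2) ^ k) := ENNReal.tsum_le_tsum h2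
    _ = ENNReal.ofReal (∑' k : ℕ, 16 * L * e * ρ * (1 / 2) ^ k) :=
        (ENNReal.ofReal_tsum_of_nonneg (fun k => by positivity)
          (summable_geometric_two.mul_left _)).symm
    _ = ENNReal.ofReal (32 * L * e * ρ) := by
        rw [tsum_mul_left, tsum_geometric_two]
        congr 1
        ring

end Pool.Agent.H212.KR
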