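import Mathlib
import Pool.Agent.H212.KR.Stm

/-!
# S_EV: evolution of a small window to the whole circle
-/

set_option autoImplicit false

namespace Pool.Agent.H212.KR

open Complex Filter Topology MeasureTheory
open Pool.Agent.TH229.Kan

namespace EVaux

theorem norm_cc_le (x : ℝ) : ‖cc (x : ℂ)‖ ≤ 1 := by
  rw [cc_real, Complex.norm_real, Real.norm_eq_abs]
  exact Real.abs_cos_le_one _

theorem norm_cc_le' (L j : ℕ) (x : ℝ) : ‖cc ((L : ℂ) ^ j * (x : ℂ))‖ ≤ 1 := by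
  have h : (L : ℂ) ^ j * (x : ℂ) = (((L : ℝ) ^ j * x : ℝ) : ℂ) := by push_cast; ring
  rw [h]
  exact norm_cc_le _

theorem evo {L : ℕ} {α : ℝ} (hα0 : 0 < α) (z : ℂ) (x : ℝ) (σ : ℝ) (hσ : 0 ≤ σ)
    (h1 : ‖Phi L (α : ℂ) z 1 (x : ℂ)‖ ≤ σ) (m : ℕ) (hm : σ * (1 + α) ^ m ≤ 1 / 5) :
    ∀ j ≤ m, ‖Phi L (α : ℂ) z (j + 1) (x : ℂ)‖ ≤
      σ * (1 + α) ^ j * (1 + 2 * (σ * (1 + α) ^ j)) := by
  intro j
  induction j with
  | zero =>
    intro _
    rw [pow_zero, mul_one, zero_add]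
    nlinarith
  | succ j ih =>
    intro hj
    have h2 := ih (by omega)
    obtain ⟨b, hb⟩ : ∃ b : ℝ, b = σ * (1 + α) ^ j := ⟨_, rfl⟩
    have hb0 : 0 ≤ b := by rw [hb]; positivity
    have hb1 : b ≤ 1 / 5 := by
      refine le_trans ?_ hm
      rw [hb]
      exact mul_le_mul_of_nonneg_left (pow_le_pow_right₀ (by linarith) (by omega)) hσ
    have hb2 : σ * (1 + α) ^ (j + 1) = (1 + α) * b := by rw [hb]; ring
    rw [hb2]
    rw [← hb] at h2
    obtain ⟨p, hp⟩ : ∃ p : ℝ, p = ‖Phi L (α : ℂ) z (j + 1) (x : ℂ)‖ := ⟨_, rfl⟩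
    rw [← hp] at h2
    have hp0 : 0 ≤ p := by rw [hp]; exact norm_nonneg _
    have h3 : ‖Phi L (α : ℂ) z (j + 1 + 1) (x : ℂ)‖ ≤ p + α * 1 * p * (1 + p) := by
      rw [Phi_succ]
      refine (norm_add_le _ _).trans ?_
      rw [norm_mul, norm_mul, norm_mul, Complex.norm_real, Real.norm_eq_abs, abs_of_pos hα0, ← hp]
      have h4 : ‖1 - Phi L (α : ℂ) z (j + 1) (x : ℂ)‖ ≤ 1 + p := by
        refine (norm_sub_le _ _).trans ?_
        rw [norm_one, hp]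
      have h5 := norm_cc_le' L (j + 1) x
      have h6 : α * ‖cc ((L : ℂ) ^ (j + 1) * (x : ℂ))‖ * p *
          ‖1 - Phi L (α : ℂ) z (j + 1) (x : ℂ)‖ ≤ α * 1 * p * (1 + p) := by
        gcongr
      linarith
    refine h3.trans ?_
    have h4 : p + α * 1 * p * (1 + p) ≤
        b * (1 + 2 * b) + α * 1 * (b * (1 + 2 * b)) * (1 + b * (1 + 2 * b)) := by
      gcongr
    refine h4.trans ?_
    have h5 : 0 ≤ α * b ^ 2 * (2 * (1 + α) - (1 + 2 * b) ^ 2) := by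
      apply mul_nonneg (by positivity)
      nlinarith
    nlinarith [h5]

/-- the Schwarz lemma -/
theorem schw (Y : ℂ → ℂ) (hY : Differentiable ℂ Y) (ρ B : ℝ) (hρ : 0 < ρ) (hB : 0 < B)
    (h : ∀ x : ℂ, ‖x‖ ≤ ρ → ‖Y x‖ ≤ B) (x : ℂ) (hx : ‖x‖ < ρ) :
    ‖Y x - Y 0‖ ≤ 3 * B / ρ * ‖x‖ := by
  have h1 : Set.MapsTo Y (Metric.ball 0 ρ) (Metric.closedBall (Y 0) (3 * B)) := by
    intro y hy
    rw [Metric.mem_ball, dist_zero_right] at hy
    rw [Metric.mem_closedBall, dist_eq_norm]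
    have h2 := h y hy.le
    have h3 := h 0 (by rw [norm_zero]; exact hρ.le)
    have h4 := norm_sub_le (Y y) (Y 0)
    linarith
  have h2 := Complex.dist_le_div_mul_dist_of_mapsTo_ball (hY.differentiableOn) h1
    (show x ∈ Metric.ball 0 ρ by rw [Metric.mem_ball, dist_zero_right]; exact hx)
  rwa [dist_eq_norm, dist_zero_right] at h2

end EVaux

open EVaux

theorem t_EV : S_EV := by
  intro L hL α hα0 hα1 θ hθ0 hθ1 C0 C3 hC0 hC3
  have hL1 : (1 : ℝ) < L := by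
    have : (2 : ℝ) ≤ L := by exact_mod_cast hL
    linarith
  have hL2 : (2 : ℝ) ≤ L := by exact_mod_cast hL
  obtain ⟨a, ha⟩ : ∃ a : ℝ, a = Real.logb L (1 + α) := ⟨_, rfl⟩
  have ha0 : 0 < a := by
    rw [ha]
    exact Real.logb_pos hL1 (by linarith)
  have ha1 : a < 1 := by
    rw [ha, Real.logb_lt_iff_lt_rpow hL1 (by linarith), Real.rpow_one]
    linarith
  have hLa : (L : ℝ) ^ a = 1 + α := by
    rw [ha]
    exact Real.rpow_logb (by linarith) (by linarith) (by linarith)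
  have hrS : 0 < rS (α : ℂ) θ C0 := by
    unfold rS
    rw [Complex.norm_real, Real.norm_eq_abs, abs_of_pos hα0]
    apply div_pos
    · exact mul_pos (by linarith) (by linarith)
    · linarith
  obtain ⟨τ, hτ⟩ : ∃ τ : ℝ, τ = min (1 / 5) (rS (α : ℂ) θ C0 / 3) := ⟨_, rfl⟩
  have hτ0 : 0 < τ := by
    rw [hτ]
    exact lt_min (by norm_num) (by positivity)
  have hτ1 : τ ≤ 1 / 5 := by rw [hτ]; exact min_le_left _ _
  have hτ2 : τ ≤ rS (α : ℂ) θ C0 / 3 := by rw [hτ]; exact min_le_right _ _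
  obtain ⟨s0, hs0⟩ : ∃ s0 : ℝ, s0 = min (1 / 2) ((τ / (5 * C3)) ^ (1 / (1 - a))) := ⟨_, rfl⟩
  have hs00 : 0 < s0 := by
    rw [hs0]
    exact lt_min (by norm_num) (Real.rpow_pos_of_pos (by positivity) _)
  have hs01 : s0 ≤ 1 / 2 := by rw [hs0]; exact min_le_left _ _
  have hs02 : 5 * C3 * s0 ^ (1 - a) ≤ τ := by
    have h1 : s0 ^ (1 - a) ≤ ((τ / (5 * C3)) ^ (1 / (1 - a))) ^ (1 - a) := by
      apply Real.rpow_le_rpow hs00.le _ (by linarith)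
      rw [hs0]
      exact min_le_right _ _
    rw [← Real.rpow_mul (by positivity), one_div_mul_cancel (by linarith), Real.rpow_one] at h1
    rw [le_div_iff₀ (by positivity)] at h1
    linarith
  obtain ⟨R1, hR1⟩ : ∃ R1 : ℝ, R1 = 2 + 1 / α := ⟨_, rfl⟩
  have hR10 : 0 < R1 := by rw [hR1]; positivity
  obtain ⟨ρ1, hρ1⟩ : ∃ ρ1 : ℝ, ρ1 = min 1 (min (C3 / (20 * R1 * (1 + R1)))
    ((1 / C3) ^ (1 / a))) := ⟨_, rfl⟩
  have hρ10 : 0 < ρ1 := by
    rw [hρ1]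
    exact lt_min (by norm_num) (lt_min (by positivity) (Real.rpow_pos_of_pos (by positivity) _))
  have h100 : 0 < (100 : ℝ) ^ a := Real.rpow_pos_of_pos (by norm_num) _
  have h1001 : ((100 : ℝ) ^ a)⁻¹ < 1 := by
    apply inv_lt_one_of_one_lt₀
    exact Real.one_lt_rpow (by norm_num) ha0
  obtain ⟨q, hq⟩ := exists_pow_lt_of_lt_one hs00 h1001
  refine ⟨s0, ρ1, q, hs00, by linarith, hρ10, ?_⟩
  intro ρ hρ hρle w hw hY1 hY2
  rw [← ha] at hY1 hY2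
  have hρa : 0 < ρ ^ a := Real.rpow_pos_of_pos hρ _
  have hρle1 : ρ ≤ 1 := hρle.trans (by rw [hρ1]; exact min_le_left _ _)
  have hρle2 : ρ ≤ C3 / (20 * R1 * (1 + R1)) :=
    hρle.trans (by rw [hρ1]; exact (min_le_right _ _).trans (min_le_left _ _))
  have hρle3 : ρ ≤ (1 / C3) ^ (1 / a) :=
    hρle.trans (by rw [hρ1]; exact (min_le_right _ _).trans (min_le_right _ _))
  have hC3ρ : C3 * ρ ^ a ≤ 1 := by
    have h1 : ρ ^ a ≤ ((1 / C3) ^ (1 / a)) ^ a := Real.rpow_le_rpow hρ.le hρle3 ha0.le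
    rw [← Real.rpow_mul (by positivity), one_div_mul_cancel (by linarith), Real.rpow_one] at h1
    rw [le_div_iff₀ hC3] at h1
    linarith
  -- the function `Y`
  obtain ⟨Y, hYdef⟩ : ∃ Y : ℂ → ℂ, Y = fun x => w x * (w x - 1 - 1 / α) := ⟨_, rfl⟩
  have hYx : ∀ x, w x * (w x - 1 - 1 / α) = Y x := fun x => by rw [hYdef]
  have hYd : Differentiable ℂ Y := by
    rw [hYdef]
    exact hw.mul ((hw.sub_const _).sub_const _)
  simp only [hYx] at hY1 hY2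
  have hY0 : ‖Y 0‖ ≤ s0 * (C3 * ρ ^ a) := by
    have h1 := hY2 0 (by rw [norm_zero]; positivity)
    rw [Real.div_rpow hρ.le (by positivity)] at h1
    have h2 : ((100 : ℝ) ^ q) ^ a = ((100 : ℝ) ^ a) ^ q := by
      rw [← Real.rpow_natCast, ← Real.rpow_natCast, ← Real.rpow_mul (by norm_num),
        ← Real.rpow_mul (by norm_num), mul_comm]
    rw [h2] at h1
    have h3 : C3 * (ρ ^ a / ((100 : ℝ) ^ a) ^ q) = (((100 : ℝ) ^ a)⁻¹) ^ q * (C3 * ρ ^ a) := by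
      rw [inv_pow]
      field_simp
    rw [h3] at h1
    exact h1.trans (mul_le_mul_of_nonneg_right hq.le (by positivity))
  have hYw : ∀ x : ℂ, ‖x‖ ≤ s0 * ρ → ‖Y x‖ ≤ 4 * s0 * (C3 * ρ ^ a) := by
    intro x hx
    have h0 : s0 * ρ < ρ := by nlinarith
    have h1 := schw Y hYd ρ (C3 * ρ ^ a) hρ (by positivity) hY1 x (lt_of_le_of_lt hx h0)
    have h2 : 3 * (C3 * ρ ^ a) / ρ * ‖x‖ ≤ 3 * (C3 * ρ ^ a) / ρ * (s0 * ρ) :=
      mul_le_mul_of_nonneg_left hx (by positivity)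
    have h3 : 3 * (C3 * ρ ^ a) / ρ * (s0 * ρ) = 3 * s0 * (C3 * ρ ^ a) := by
      field_simp
    have h4 : ‖Y x‖ ≤ ‖Y x - Y 0‖ + ‖Y 0‖ := by
      have h5 := norm_add_le (Y x - Y 0) (Y 0)
      rwa [sub_add_cancel] at h5
    linarith
  -- `w` is bounded
  have hwb : ∀ x : ℂ, ‖x‖ ≤ ρ → ‖w x‖ ≤ R1 := by
    intro x hx
    by_contra hcon
    push Not at hcon
    have h1 := (hY1 x hx).trans hC3ρ
    rw [← hYx x, norm_mul] at h1
    have h2 : ‖w x‖ - (1 + 1 / α) ≤ ‖w x - 1 - 1 / α‖ := by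
      have h3 : w x - 1 - 1 / α = w x - ((1 + 1 / α : ℝ) : ℂ) := by
        push_cast
        ring
      rw [h3]
      have h4 := norm_sub_norm_le (w x) ((1 + 1 / α : ℝ) : ℂ)
      rw [Complex.norm_real, Real.norm_eq_abs, abs_of_pos (by positivity : (0 : ℝ) < 1 + 1 / α)]
        at h4
      exact h4
    have h3 : 1 < ‖w x - 1 - 1 / α‖ := by
      rw [hR1] at hcon
      linarith
    have h4 : 1 < ‖w x‖ := by
      have h5 : 0 < 1 / α := by positivity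
      rw [hR1] at hcon
      linarith
    nlinarith
  obtain ⟨σ, hσ⟩ : ∃ σ : ℝ, σ = 5 * s0 * (C3 * ρ ^ a) := ⟨_, rfl⟩
  have hσ0 : 0 ≤ σ := by rw [hσ]; positivity
  -- the first step
  have hW : ∀ x : ℝ, |x| ≤ s0 * ρ → ‖Phi L (α : ℂ) (w (x : ℂ)) 1 (x : ℂ)‖ ≤ σ := by
    intro x hx
    have hxn : ‖(x : ℂ)‖ = |x| := by rw [Complex.norm_real, Real.norm_eq_abs]
    have h1 := hYw (x : ℂ) (by rw [hxn]; exact hx)
    have h0 : s0 * ρ ≤ ρ := by nlinarith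
    have h2 := hwb (x : ℂ) (by rw [hxn]; exact hx.trans h0)
    have hαc : (α : ℂ) ≠ 0 := by
      rw [Complex.ofReal_ne_zero]
      exact hα0.ne'
    have h3 : Phi L (α : ℂ) (w (x : ℂ)) 1 (x : ℂ) = -(α : ℂ) * Y x +
        α * ((Real.cos (2 * Real.pi * x) - 1 : ℝ) : ℂ) * w x * (1 - w x) := by
      rw [Phi_succ, Phi_zero, pow_zero, one_mul, cc_real, ← hYx]
      push_cast
      field_simp
      ring
    rw [h3]
    refine (norm_add_le _ _).trans ?_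
    rw [norm_mul, norm_neg, norm_mul, norm_mul, norm_mul, Complex.norm_real, Complex.norm_real,
      Real.norm_eq_abs, Real.norm_eq_abs, abs_of_pos hα0]
    have h4 : |Real.cos (2 * Real.pi * x) - 1| ≤ 20 * x ^ 2 := by
      have h5 := Real.one_sub_sq_div_two_le_cos (x := 2 * Real.pi * x)
      have h6 := Real.cos_le_one (2 * Real.pi * x)
      rw [abs_of_nonpos (by linarith)]
      have h7 : Real.pi ^ 2 ≤ 10 := by
        have h8 := Real.pi_lt_d2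
        nlinarith [Real.pi_pos]
      nlinarith [mul_nonneg (sub_nonneg.2 h7) (sq_nonneg x)]
    have h5 : ‖1 - w (x : ℂ)‖ ≤ 1 + R1 := by
      refine (norm_sub_le _ _).trans ?_
      rw [norm_one]
      linarith
    have h6 : α * |Real.cos (2 * Real.pi * x) - 1| * ‖w (x : ℂ)‖ * ‖1 - w (x : ℂ)‖ ≤
        1 * (20 * x ^ 2) * R1 * (1 + R1) := by
      gcongr
    have h7 : x ^ 2 ≤ (s0 * ρ) ^ 2 := by
      rw [← sq_abs x]
      exact pow_le_pow_left₀ (abs_nonneg x) hx 2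
    have h8 : ρ ≤ ρ ^ a := by
      have h9 := Real.rpow_le_rpow_of_exponent_ge hρ hρle1 ha1.le
      rwa [Real.rpow_one] at h9
    have h9 : 20 * R1 * (1 + R1) * ρ ≤ C3 := by
      rw [le_div_iff₀ (by positivity)] at hρle2
      linarith
    have h10 : 1 * (20 * x ^ 2) * R1 * (1 + R1) ≤ s0 * (C3 * ρ ^ a) := by
      calc 1 * (20 * x ^ 2) * R1 * (1 + R1) = 20 * R1 * (1 + R1) * x ^ 2 := by ring
        _ ≤ 20 * R1 * (1 + R1) * (s0 * ρ) ^ 2 := by gcongr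
        _ = (20 * R1 * (1 + R1) * ρ) * (s0 * s0 * ρ) := by ring
        _ ≤ C3 * (s0 * 1 * ρ ^ a) := by
          gcongr
          linarith
        _ = s0 * (C3 * ρ ^ a) := by ring
    have h11 : α * ‖Y x‖ ≤ 1 * (4 * s0 * (C3 * ρ ^ a)) := by gcongr
    rw [hσ]
    linarith
  -- the time `K`
  have hsρ : 0 < s0 * ρ := by positivity
  have hsρ1 : s0 * ρ < 1 := by nlinarith
  have hex : ∃ K : ℕ, 1 ≤ (L : ℝ) ^ K * (s0 * ρ) := by
    obtain ⟨K, hK⟩ := pow_unbounded_of_one_lt (1 / (s0 * ρ)) hL1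
    refine ⟨K, ?_⟩
    rw [div_lt_iff₀ hsρ] at hK
    exact hK.le
  classical
  obtain ⟨K, hK1, hK2⟩ : ∃ K : ℕ, 1 ≤ (L : ℝ) ^ K * (s0 * ρ) ∧
      ∀ k < K, ¬ 1 ≤ (L : ℝ) ^ k * (s0 * ρ) :=
    ⟨Nat.find hex, Nat.find_spec hex, fun k hk => Nat.find_min hex hk⟩
  have hK0 : K ≠ 0 := by
    intro h
    rw [h, pow_zero, one_mul] at hK1
    linarith
  obtain ⟨m, rfl⟩ := Nat.exists_eq_succ_of_ne_zero hK0
  have hm := hK2 m (Nat.lt_succ_self m)
  push Not at hm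
  have hbm : σ * (1 + α) ^ m ≤ τ := by
    have h1 : (1 + α) ^ m = ((L : ℝ) ^ m) ^ a := by
      rw [← hLa, ← Real.rpow_natCast, ← Real.rpow_natCast, ← Real.rpow_mul (by linarith),
        ← Real.rpow_mul (by linarith), mul_comm]
    have h2 : ((L : ℝ) ^ m) ^ a * (s0 * ρ) ^ a ≤ 1 := by
      rw [← Real.mul_rpow (by positivity) hsρ.le]
      exact Real.rpow_le_one (by positivity) hm.le ha0.le
    have h3 : (s0 * ρ) ^ a = s0 ^ a * ρ ^ a := Real.mul_rpow hs00.le hρ.le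
    have h4 : s0 = s0 ^ (1 - a) * s0 ^ a := by
      rw [← Real.rpow_add hs00, sub_add_cancel, Real.rpow_one]
    have h5 : σ * (1 + α) ^ m =
        5 * C3 * s0 ^ (1 - a) * (((L : ℝ) ^ m) ^ a * (s0 * ρ) ^ a) := by
      rw [hσ, h1, h3]
      calc 5 * s0 * (C3 * ρ ^ a) * ((L : ℝ) ^ m) ^ a
          = 5 * (s0 ^ (1 - a) * s0 ^ a) * (C3 * ρ ^ a) * ((L : ℝ) ^ m) ^ a := by rw [← h4]
        _ = _ := by ring
    rw [h5]
    have h6 : 0 ≤ 5 * C3 * s0 ^ (1 - a) := by positivity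
    have h7 := mul_le_mul_of_nonneg_left h2 h6
    rw [mul_one] at h7
    exact h7.trans hs02
  refine ⟨m + 1, hK1, ?_⟩
  intro x hx
  have h1 := evo (L := L) hα0 (w (x : ℂ)) x σ hσ0 (hW x hx) m (hbm.trans hτ1) m le_rfl
  refine lt_of_le_of_lt h1 ?_
  obtain ⟨b, hb⟩ : ∃ b : ℝ, b = σ * (1 + α) ^ m := ⟨_, rfl⟩
  rw [← hb] at hbm ⊢
  have hb0 : 0 ≤ b := by rw [hb]; positivity
  nlinarith

end Pool.Agent.H212.KR
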