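import Pool.Agent.H212.KR.Stm

set_option autoImplicit false

namespace Pool.Agent.H212.KR

open Complex Filter Topology MeasureTheory
open Pool.Agent.TH229.Kan

lemma G0_int_cos : ∫ u in (0 : ℝ)..1, Real.cos (2 * Real.pi * u) = 0 := by
  have h2 : (2 * Real.pi : ℝ) ≠ 0 := by positivity
  have h := intervalIntegral.integral_comp_mul_left (a := 0) (b := 1) (fun x => Real.cos x) h2
  rw [h]
  simp [integral_cos]

lemma G0_int {β : ℝ} (hβ0 : β ≠ 0) (hβ : |β| < 1) :
    ∫ u in (0 : ℝ)..1, Real.log (1 + β * Real.cos (2 * Real.pi * u)) < 0 := by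
  have hpos : ∀ u : ℝ, 0 < 1 + β * Real.cos (2 * Real.pi * u) := by
    intro u
    have h1 : |β * Real.cos (2 * Real.pi * u)| ≤ |β| := by
      rw [abs_mul]
      exact mul_le_of_le_one_right (abs_nonneg _) (Real.abs_cos_le_one _)
    have h2 := (abs_le.1 h1).1
    linarith
  have hlt : ∫ u in (0 : ℝ)..1, Real.log (1 + β * Real.cos (2 * Real.pi * u)) <
      ∫ u in (0 : ℝ)..1, β * Real.cos (2 * Real.pi * u) := by
    apply intervalIntegral.integral_lt_integral_of_continuousOn_of_le_of_exists_lt one_pos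
    · exact (Continuous.log (by fun_prop) (fun u => (hpos u).ne')).continuousOn
    · fun_prop
    · intro u _
      have := Real.log_le_sub_one_of_pos (hpos u)
      linarith
    · refine ⟨0, by simp, ?_⟩
      have := Real.log_lt_sub_one_of_pos (hpos 0) (by simpa using hβ0)
      linarith
  rw [intervalIntegral.integral_const_mul, G0_int_cos, mul_zero] at hlt
  exact hlt

theorem t_G0 : S_G0 := by
  intro L hL α hα0 hα1
  have hab : |α| < 1 := by rwa [abs_of_pos hα0]
  have hn : ‖(α : ℂ)‖ < 1 := by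
    rw [Complex.norm_real, Real.norm_eq_abs]
    exact hab
  have h0 : ∫ u in (0 : ℝ)..1,
      Real.log ‖1 + (α : ℂ) * ((Real.cos (2 * Real.pi * u) : ℝ) : ℂ)‖ < 0 := by
    have h := G0_int hα0.ne' hab
    have he : ∀ u : ℝ, Real.log ‖1 + (α : ℂ) * ((Real.cos (2 * Real.pi * u) : ℝ) : ℂ)‖ =
        Real.log (1 + α * Real.cos (2 * Real.pi * u)) := by
      intro u
      have : (1 + (α : ℂ) * ((Real.cos (2 * Real.pi * u) : ℝ) : ℂ)) =
          ((1 + α * Real.cos (2 * Real.pi * u) : ℝ) : ℂ) := by push_cast; ring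
      rw [this, Complex.norm_real, Real.norm_eq_abs, Real.log_abs]
    simp_rw [he]
    exact h
  have h1 : ∫ u in (0 : ℝ)..1,
      Real.log ‖1 - (α : ℂ) * ((Real.cos (2 * Real.pi * u) : ℝ) : ℂ)‖ < 0 := by
    have h := G0_int (β := -α) (neg_ne_zero.2 hα0.ne') (by rwa [abs_neg])
    have he : ∀ u : ℝ, Real.log ‖1 - (α : ℂ) * ((Real.cos (2 * Real.pi * u) : ℝ) : ℂ)‖ =
        Real.log (1 + -α * Real.cos (2 * Real.pi * u)) := by
      intro u
      have : (1 - (α : ℂ) * ((Real.cos (2 * Real.pi * u) : ℝ) : ℂ)) =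
          ((1 + -α * Real.cos (2 * Real.pi * u) : ℝ) : ℂ) := by push_cast; ring
      rw [this, Complex.norm_real, Real.norm_eq_abs, Real.log_abs]
    simp_rw [he]
    exact h
  obtain ⟨θ, hθ0, hθ, hGS⟩ := ae_GS (L := L) (by omega) hn h0 h1
  refine ⟨θ, hθ0, hθ, fun e he => ?_⟩
  have hGE := ae_GE (L := L) (by omega)
  set s : ℕ → Set ℝ := fun i =>
    (GE L ((i : ℝ) + 2) ∩ GS L (α : ℂ) θ ((i : ℝ) + 2))ᶜ ∩ Set.Icc 0 1 with hs
  have hanti : Antitone s := by
    intro i j hij
    apply Set.inter_subset_inter_left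
    apply Set.compl_subset_compl.2
    have hij' : (i : ℝ) + 2 ≤ (j : ℝ) + 2 := by
      have : (i : ℝ) ≤ j := by exact_mod_cast hij
      linarith
    exact Set.inter_subset_inter (GE_mono (by positivity) hij') (GS_mono hθ0 hij')
  have hmeas : ∀ i, NullMeasurableSet (s i) volume := by
    intro i
    exact (((GE_closed _ _).measurableSet.inter
      (GS_closed _ _ _ _).measurableSet).compl.inter measurableSet_Icc).nullMeasurableSet
  have hnull : volume (⋂ i, s i) = 0 := by
    have hae : ∀ᵐ v : ℝ, v ∉ ⋂ i, s i := by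
      filter_upwards [hGS, hGE] with v ⟨i, hi⟩ ⟨j, hj⟩ hv
      have hv1 := (Set.mem_iInter.1 hv (max i j)).1
      apply hv1
      have hm : (((max i j : ℕ) : ℝ)) = max (i : ℝ) (j : ℝ) := by push_cast; rfl
      refine ⟨GE_mono (by positivity) ?_ hj, GS_mono hθ0 ?_ hi⟩
      · rw [hm]
        have : (j : ℝ) ≤ max (i : ℝ) j := le_max_right _ _
        linarith
      · rw [hm]
        have : (i : ℝ) ≤ max (i : ℝ) j := le_max_left _ _
        linarith
    have h2 := ae_iff.1 hae
    simpa only [not_not, Set.ofPred_mem_eq] using h2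
  have hlim := tendsto_measure_iInter_atTop hmeas hanti ⟨0, by
    refine ne_of_lt (lt_of_le_of_lt (measure_mono Set.inter_subset_right) ?_)
    rw [Real.volume_Icc]
    exact ENNReal.ofReal_lt_top⟩
  rw [hnull] at hlim
  obtain ⟨i, hi⟩ := (hlim.eventually (gt_mem_nhds (ENNReal.ofReal_pos.2 he))).exists
  refine ⟨(i : ℝ) + 2, ?_, hi.le⟩
  have : (0 : ℝ) ≤ i := Nat.cast_nonneg i
  linarith

end Pool.Agent.H212.KR
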