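import Pool.Agent.H212.KR.Stm

/-!
# Shrinking targets at `0` for `u ↦ L u` (`S_ST`)

Last visit decomposition. With `δ_n ≥ L^(-κ_n)`, `κ` monotone, let `C_M` be the set of `v` with
`fract (L^n v) ≥ L^(-κ_{n+M})` for all `n`. The `C_M` increase with `M`. For `M ≥ M₀` the set `D_M` of
`u ∈ [0,1)` with `1 ≤ L^(κ_M+1) fract (L^M u) < 2` and `L^(κ_M+1) fract (L^M u) ∈ C_{M+κ_M+1}` has
measure `L^(-κ_M-1) |C_{M+κ_M+1} ∩ [0,1)| ≥ L^(-κ_M-1) |C_{M₀} ∩ [0,1)|`, and the `D_M` are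
pairwise disjoint. Since `Σ L^(-κ_M-1) = ∞`, `|C_{M₀} ∩ [0,1)| = 0`.
-/

set_option autoImplicit false

namespace Pool.Agent.H212.KR

open Filter Topology MeasureTheory

namespace STaux

/-- The set of `v` which never hit the targets from time `M` on. -/
def C (L : ℕ) (κ : ℕ → ℕ) (M : ℕ) : Set ℝ :=
  {v | ∀ n : ℕ, 1 ≤ (L : ℝ) ^ κ (n + M) * Int.fract ((L : ℝ) ^ n * v)}

/-- The last visit set. -/
def S (L : ℕ) (κ : ℕ → ℕ) (M : ℕ) : Set ℝ :=
  {x | 1 ≤ (L : ℝ) ^ (κ M + 1) * Int.fract x ∧ (L : ℝ) ^ (κ M + 1) * Int.fract x < 2 ∧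
    (L : ℝ) ^ (κ M + 1) * Int.fract x ∈ C L κ (M + κ M + 1)}

lemma C_meas (L : ℕ) (κ : ℕ → ℕ) (M : ℕ) : MeasurableSet (C L κ M) := by
  unfold C
  rw [Set.ofPred_forall]
  refine MeasurableSet.iInter fun n => ?_
  exact measurableSet_le measurable_const
    (measurable_const.mul (measurable_fract.comp (measurable_const.mul measurable_id)))

lemma C_add (L : ℕ) (κ : ℕ → ℕ) (M : ℕ) (v : ℝ) (a : ℤ) :
    v + a ∈ C L κ M ↔ v ∈ C L κ M := by
  unfold C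
  simp only [Set.mem_ofPred_eq]
  refine forall_congr' fun n => ?_
  have h : (L : ℝ) ^ n * (v + a) = (L : ℝ) ^ n * v + (((L : ℤ) ^ n * a : ℤ) : ℝ) := by
    push_cast; ring
  rw [h, Int.fract_add_intCast]

lemma C_mono {L : ℕ} (hL : 2 ≤ L) {κ : ℕ → ℕ} (hκ : Monotone κ) : Monotone (C L κ) := by
  intro M N h v hv n
  refine (hv n).trans ?_
  have h1 : (1 : ℝ) ≤ L := by exact_mod_cast (by omega : 1 ≤ L)
  have h2 : κ (n + M) ≤ κ (n + N) := hκ (by omega)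
  exact mul_le_mul_of_nonneg_right (pow_le_pow_right₀ h1 h2) (Int.fract_nonneg _)

lemma S_meas (L : ℕ) (κ : ℕ → ℕ) (M : ℕ) : MeasurableSet (S L κ M) := by
  unfold S
  have h : Measurable fun x : ℝ => (L : ℝ) ^ (κ M + 1) * Int.fract x :=
    measurable_const.mul measurable_fract
  exact (measurableSet_le measurable_const h).inter
    ((measurableSet_lt h measurable_const).inter (h (C_meas L κ _)))

lemma S_add (L : ℕ) (κ : ℕ → ℕ) (M : ℕ) (v : ℝ) (a : ℤ) :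
    v + a ∈ S L κ M ↔ v ∈ S L κ M := by
  unfold S
  simp only [Set.mem_ofPred_eq, Int.fract_add_intCast]

/-- If `x ∈ S M` then `x` hits at time `0` and never afterwards. -/
lemma S_hit {L : ℕ} (hL : 2 ≤ L) {κ : ℕ → ℕ} {M : ℕ} {x : ℝ} (hx : x ∈ S L κ M) :
    (L : ℝ) ^ κ M * Int.fract x < 1 := by
  have h1 : (2 : ℝ) ≤ L := by exact_mod_cast hL
  obtain ⟨-, h2, -⟩ := hx
  rw [pow_succ] at h2
  have h3 : 0 ≤ (L : ℝ) ^ κ M * Int.fract x := mul_nonneg (by positivity) (Int.fract_nonneg _)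
  nlinarith

lemma S_sub {L : ℕ} (hL : 2 ≤ L) {κ : ℕ → ℕ} (hκ : Monotone κ) {M : ℕ} {x : ℝ}
    (hx : x ∈ S L κ M) : (L : ℝ) * x ∈ C L κ (M + 1) := by
  have hL1 : (2 : ℝ) ≤ L := by exact_mod_cast hL
  have hL0 : (1 : ℝ) ≤ L := by linarith
  intro n
  obtain ⟨h1, h2, h3⟩ := hx
  set v := Int.fract x with hv
  have hv0 : 0 ≤ v := Int.fract_nonneg _
  have hfr : ∀ m : ℕ, Int.fract ((L : ℝ) ^ m * x) = Int.fract ((L : ℝ) ^ m * v) := by
    intro m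
    have h : (L : ℝ) ^ m * x = (L : ℝ) ^ m * v + (((L : ℤ) ^ m * ⌊x⌋ : ℤ) : ℝ) := by
      have h4 : x = v + ⌊x⌋ := (Int.fract_add_floor x).symm
      conv_lhs => rw [h4]
      push_cast
      ring
    rw [h, Int.fract_add_intCast]
  have hassoc : (L : ℝ) ^ n * ((L : ℝ) * x) = (L : ℝ) ^ (n + 1) * x := by ring
  rw [hassoc, hfr]
  rcases Nat.lt_or_ge n (κ M) with hn | hn
  · -- still small
    have h4 : (L : ℝ) ^ (n + 1) * v < 1 := by
      have h5 : (L : ℝ) * ((L : ℝ) ^ (n + 1) * v) ≤ (L : ℝ) ^ (κ M + 1) * v := by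
        have h6 : (L : ℝ) * ((L : ℝ) ^ (n + 1) * v) = (L : ℝ) ^ (n + 1 + 1) * v := by ring
        rw [h6]
        exact mul_le_mul_of_nonneg_right (pow_le_pow_right₀ hL0 (by omega)) hv0
      have h7 : 0 ≤ (L : ℝ) ^ (n + 1) * v := mul_nonneg (by positivity) hv0
      nlinarith
    rw [Int.fract_eq_self.2 ⟨mul_nonneg (by positivity) hv0, h4⟩]
    have h8 : (L : ℝ) ^ κ M ≤ (L : ℝ) ^ κ (n + (M + 1)) :=
      pow_le_pow_right₀ hL0 (hκ (by omega))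
    have h9 : (L : ℝ) ^ (κ M + 1) * v ≤ (L : ℝ) ^ κ M * ((L : ℝ) ^ (n + 1) * v) := by
      have h10 : (L : ℝ) ^ κ M * ((L : ℝ) ^ (n + 1) * v) = (L : ℝ) ^ (κ M + (n + 1)) * v := by
        ring
      rw [h10]
      exact mul_le_mul_of_nonneg_right (pow_le_pow_right₀ hL0 (by omega)) hv0
    have h11 : (L : ℝ) ^ κ M * ((L : ℝ) ^ (n + 1) * v)
        ≤ (L : ℝ) ^ κ (n + (M + 1)) * ((L : ℝ) ^ (n + 1) * v) :=
      mul_le_mul_of_nonneg_right h8 (mul_nonneg (by positivity) hv0)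
    linarith
  · -- after time `κ M + 1`
    obtain ⟨i, rfl⟩ := Nat.exists_eq_add_of_le hn
    have h4 := h3 i
    have h5 : (L : ℝ) ^ i * ((L : ℝ) ^ (κ M + 1) * v) = (L : ℝ) ^ (κ M + i + 1) * v := by ring
    have h6 : i + (M + κ M + 1) = κ M + i + (M + 1) := by omega
    rw [h5, h6] at h4
    exact h4

lemma vol_shift {A : Set ℝ} (hA : ∀ (v : ℝ) (a : ℤ), v + a ∈ A ↔ v ∈ A) (a : ℤ) :
    volume (A ∩ Set.Ico (a : ℝ) (a + 1)) = volume (A ∩ Set.Ico (0 : ℝ) 1) := by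
  have h : (fun x : ℝ => x + a) ⁻¹' (A ∩ Set.Ico (a : ℝ) (a + 1)) = A ∩ Set.Ico 0 1 := by
    ext x
    simp only [Set.mem_preimage, Set.mem_inter_iff, hA, Set.mem_Ico]
    constructor
    · rintro ⟨h1, h2, h3⟩
      exact ⟨h1, by linarith, by linarith⟩
    · rintro ⟨h1, h2, h3⟩
      exact ⟨h1, by linarith, by linarith⟩
  rw [← h, measure_preimage_add_right]

lemma vol_nat {A : Set ℝ} (hm : MeasurableSet A) (hA : ∀ (v : ℝ) (a : ℤ), v + a ∈ A ↔ v ∈ A)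
    (n : ℕ) : volume (A ∩ Set.Ico (0 : ℝ) n) = n * volume (A ∩ Set.Ico (0 : ℝ) 1) := by
  induction n with
  | zero => simp
  | succ n ih =>
    have h1 : A ∩ Set.Ico (0 : ℝ) ((n + 1 : ℕ) : ℝ)
        = (A ∩ Set.Ico (0 : ℝ) n) ∪ (A ∩ Set.Ico ((n : ℤ) : ℝ) (((n : ℤ) : ℝ) + 1)) := by
      rw [← Set.inter_union_distrib_left]
      congr 1
      rw [Int.cast_natCast, Set.Ico_union_Ico_eq_Ico (by positivity) (by linarith)]
      push_cast
      rfl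
    have h2 : Disjoint (A ∩ Set.Ico (0 : ℝ) n)
        (A ∩ Set.Ico ((n : ℤ) : ℝ) (((n : ℤ) : ℝ) + 1)) := by
      rw [Set.disjoint_left]
      rintro x ⟨-, -, h3⟩ ⟨-, h4, -⟩
      rw [Int.cast_natCast] at h4
      linarith
    rw [h1, measure_union h2 (hm.inter measurableSet_Ico), ih, vol_shift hA]
    push_cast
    ring

lemma vol_mul {A : Set ℝ} (hm : MeasurableSet A) (hA : ∀ (v : ℝ) (a : ℤ), v + a ∈ A ↔ v ∈ A)
    (n : ℕ) (hn : 0 < n) :
    volume ((fun u : ℝ => (n : ℝ) * u) ⁻¹' A ∩ Set.Ico 0 1) = volume (A ∩ Set.Ico (0 : ℝ) 1) := by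
  have hn' : (0 : ℝ) < n := by exact_mod_cast hn
  have h : (fun u : ℝ => (n : ℝ) * u) ⁻¹' A ∩ Set.Ico 0 1
      = (fun u : ℝ => (n : ℝ) * u) ⁻¹' (A ∩ Set.Ico (0 : ℝ) n) := by
    ext u
    simp only [Set.mem_inter_iff, Set.mem_preimage, Set.mem_Ico]
    constructor
    · rintro ⟨h1, h2, h3⟩
      exact ⟨h1, by positivity, by nlinarith⟩
    · rintro ⟨h1, h2, h3⟩
      refine ⟨h1, ?_, ?_⟩
      · by_contra h4
        push Not at h4
        nlinarith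
      · by_contra h4
        push Not at h4
        nlinarith
  rw [h, Real.volume_preimage_mul_left hn'.ne', vol_nat hm hA, ← mul_assoc]
  have h2 : ENNReal.ofReal |(n : ℝ)⁻¹| * (n : ENNReal) = 1 := by
    rw [abs_of_pos (inv_pos.2 hn'), ← ENNReal.ofReal_natCast n, ← ENNReal.ofReal_mul (by positivity),
      inv_mul_cancel₀ hn'.ne', ENNReal.ofReal_one]
  rw [h2, one_mul]

/-- Measure of the last visit set. -/
lemma vol_S {L : ℕ} (hL : 2 ≤ L) (κ : ℕ → ℕ) (M : ℕ) :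
    volume (S L κ M ∩ Set.Ico (0 : ℝ) 1)
      = ENNReal.ofReal ((L : ℝ) ^ (κ M + 1))⁻¹ * volume (C L κ (M + κ M + 1) ∩ Set.Ico (0 : ℝ) 1) := by
  have hL1 : (2 : ℝ) ≤ L := by exact_mod_cast hL
  have hL0 : (1 : ℝ) ≤ L := by linarith
  set K : ℝ := (L : ℝ) ^ (κ M + 1) with hK
  have hK2 : 2 ≤ K := by
    rw [hK, pow_succ]
    have : (1 : ℝ) ≤ (L : ℝ) ^ κ M := one_le_pow₀ hL0
    nlinarith
  have hK0 : 0 < K := by linarith
  have h1 : S L κ M ∩ Set.Ico (0 : ℝ) 1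
      = (fun u : ℝ => K * u) ⁻¹' (C L κ (M + κ M + 1) ∩ Set.Ico (((1 : ℤ) : ℝ)) (((1 : ℤ) : ℝ) + 1)) := by
    ext u
    simp only [S, Set.mem_inter_iff, Set.mem_ofPred_eq, Set.mem_preimage, Set.mem_Ico, Int.cast_one]
    constructor
    · rintro ⟨⟨h2, h3, h4⟩, h5, h6⟩
      rw [Int.fract_eq_self.2 ⟨h5, h6⟩] at h2 h3 h4
      exact ⟨h4, h2, by linarith⟩
    · rintro ⟨h2, h3, h4⟩
      have h5 : 0 ≤ u := by
        by_contra h
        push Not at h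
        nlinarith
      have h6 : u < 1 := by
        by_contra h
        push Not at h
        nlinarith
      rw [Int.fract_eq_self.2 ⟨h5, h6⟩]
      exact ⟨⟨h3, by linarith, h2⟩, h5, h6⟩
  rw [h1, Real.volume_preimage_mul_left hK0.ne', abs_of_pos (inv_pos.2 hK0),
    vol_shift (C_add L κ (M + κ M + 1)) 1]

/-- The key estimate: `C M₀` is null. -/
lemma vol_C {L : ℕ} (hL : 2 ≤ L) {κ : ℕ → ℕ} (hκ : Monotone κ)
    (hns : ¬ Summable fun n => ((L : ℝ) ^ (κ n + 1))⁻¹) (M₀ : ℕ) :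
    volume (C L κ M₀ ∩ Set.Ico (0 : ℝ) 1) = 0 := by
  have hL1 : (2 : ℝ) ≤ L := by exact_mod_cast hL
  by_contra hg
  set g := volume (C L κ M₀ ∩ Set.Ico (0 : ℝ) 1) with hgdef
  let D : ℕ → Set ℝ := fun i =>
    (fun u : ℝ => ((L ^ (M₀ + i) : ℕ) : ℝ) * u) ⁻¹' (S L κ (M₀ + i)) ∩ Set.Ico 0 1
  have hDm : ∀ i, MeasurableSet (D i) := fun i =>
    ((measurable_const.mul measurable_id) (S_meas L κ _)).inter measurableSet_Ico
  have hDlt : ∀ i j, i < j → Disjoint (D i) (D j) := by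
    intro i j hij
    rw [Set.disjoint_left]
    rintro u ⟨hu1, -⟩ ⟨hu2, -⟩
    have h1 := S_sub hL hκ hu1
    have h2 := S_hit hL hu2
    obtain ⟨t, rfl⟩ := Nat.exists_eq_add_of_lt hij
    have h3 := h1 t
    have h4 : t + (M₀ + i + 1) = M₀ + (i + t + 1) := by omega
    have h5 : (L : ℝ) ^ t * ((L : ℝ) * (((L ^ (M₀ + i) : ℕ) : ℝ) * u))
        = ((L ^ (M₀ + (i + t + 1)) : ℕ) : ℝ) * u := by
      push_cast
      ring
    rw [h4, h5] at h3
    linarith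
  have hDd : Pairwise (Function.onFun Disjoint D) := by
    intro i j hij
    rcases Nat.lt_or_gt_of_ne hij with h | h
    · exact hDlt i j h
    · exact (hDlt j i h).symm
  have hDv : ∀ i, ENNReal.ofReal ((L : ℝ) ^ (κ (i + M₀) + 1))⁻¹ * g ≤ volume (D i) := by
    intro i
    have h1 : volume (D i) = ENNReal.ofReal ((L : ℝ) ^ (κ (M₀ + i) + 1))⁻¹
        * volume (C L κ (M₀ + i + κ (M₀ + i) + 1) ∩ Set.Ico (0 : ℝ) 1) := by
      rw [← vol_S hL κ (M₀ + i)]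
      exact vol_mul (S_meas L κ _) (S_add L κ _) (L ^ (M₀ + i)) (by positivity)
    rw [h1, add_comm i M₀]
    have h2 : C L κ M₀ ⊆ C L κ (M₀ + i + κ (M₀ + i) + 1) := C_mono hL hκ (by omega)
    exact mul_le_mul_right (measure_mono (Set.inter_subset_inter_left _ h2)) _
  have hsum : ∑' i, ENNReal.ofReal ((L : ℝ) ^ (κ (i + M₀) + 1))⁻¹ * g ≤ 1 := by
    calc ∑' i, ENNReal.ofReal ((L : ℝ) ^ (κ (i + M₀) + 1))⁻¹ * g
        ≤ ∑' i, volume (D i) := ENNReal.tsum_le_tsum hDv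
      _ = volume (⋃ i, D i) := (measure_iUnion hDd hDm).symm
      _ ≤ volume (Set.Ico (0 : ℝ) 1) := measure_mono (Set.iUnion_subset fun i => Set.inter_subset_right)
      _ = 1 := by simp
  rw [ENNReal.tsum_mul_right] at hsum
  have hfin : ∑' i, ENNReal.ofReal ((L : ℝ) ^ (κ (i + M₀) + 1))⁻¹ ≠ ⊤ := by
    intro h
    rw [h, ENNReal.top_mul hg] at hsum
    exact absurd hsum (by simp)
  have h2 := ENNReal.summable_toReal hfin
  have h3 : Summable fun i => ((L : ℝ) ^ (κ (i + M₀) + 1))⁻¹ := by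
    refine h2.congr fun i => ?_
    rw [ENNReal.toReal_ofReal (by positivity)]
  exact hns ((summable_nat_add_iff (f := fun n => ((L : ℝ) ^ (κ n + 1))⁻¹) M₀).1 h3)

lemma vol_C_all {L : ℕ} (hL : 2 ≤ L) {κ : ℕ → ℕ} (hκ : Monotone κ)
    (hns : ¬ Summable fun n => ((L : ℝ) ^ (κ n + 1))⁻¹) (M : ℕ) :
    volume (C L κ M) = 0 := by
  have h1 : C L κ M = ⋃ a : ℤ, C L κ M ∩ Set.Ico (a : ℝ) (a + 1) := by
    rw [← Set.inter_iUnion, iUnion_Ico_intCast, Set.inter_univ]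
  rw [h1, measure_iUnion_null_iff]
  intro a
  rw [vol_shift (C_add L κ M)]
  exact vol_C hL hκ hns M

end STaux

open STaux in
theorem t_ST : S_ST := by
  intro L hL δ hδ0 hδ1 hanti hns
  classical
  have hL1 : (2 : ℝ) ≤ L := by exact_mod_cast hL
  have hLpos : (0 : ℝ) < L := by linarith
  have hex : ∀ n, ∃ k : ℕ, ((L : ℝ) ^ k)⁻¹ ≤ δ n := by
    intro n
    obtain ⟨k, hk⟩ := pow_unbounded_of_one_lt (δ n)⁻¹ (by linarith : (1 : ℝ) < L)
    refine ⟨k, ?_⟩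
    rw [inv_le_comm₀ (by positivity) (hδ0 n)]
    exact hk.le
  let κ : ℕ → ℕ := fun n => Nat.find (hex n)
  have hκ1 : ∀ n, ((L : ℝ) ^ κ n)⁻¹ ≤ δ n := fun n => Nat.find_spec (hex n)
  have hκm : Monotone κ := fun m n h => Nat.find_min' (hex m) ((hκ1 n).trans (hanti h))
  have hκ2 : ∀ n, δ n ≤ L * ((L : ℝ) ^ κ n)⁻¹ := by
    intro n
    rcases Nat.eq_zero_or_pos (κ n) with h | h
    · rw [h]
      simp only [pow_zero, inv_one, mul_one]
      linarith [hδ1 n]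
    · have h1 : ¬ ((L : ℝ) ^ (κ n - 1))⁻¹ ≤ δ n :=
        Nat.find_min (hex n) (show κ n - 1 < Nat.find (hex n) by
          have : κ n = Nat.find (hex n) := rfl
          omega)
      push Not at h1
      have h2 : (L : ℝ) * ((L : ℝ) ^ κ n)⁻¹ = ((L : ℝ) ^ (κ n - 1))⁻¹ := by
        have h3 : κ n = (κ n - 1) + 1 := by omega
        conv_lhs => rw [h3]
        rw [pow_succ]
        field_simp
      rw [h2]
      exact h1.le
  have hns' : ¬ Summable fun n => ((L : ℝ) ^ (κ n + 1))⁻¹ := by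
    intro h
    apply hns
    refine Summable.of_nonneg_of_le (fun n => (hδ0 n).le) (fun n => ?_) (h.mul_left ((L : ℝ) ^ 2))
    refine (hκ2 n).trans (le_of_eq ?_)
    rw [pow_succ (L : ℝ) (κ n)]
    field_simp
  have hnull : ∀ M : ℕ, ∀ᵐ u : ℝ, ¬ ((L : ℝ) ^ M * u ∈ C L κ M) := by
    intro M
    rw [ae_iff]
    simp only [not_not]
    have h1 : {u : ℝ | (L : ℝ) ^ M * u ∈ C L κ M} = (fun u : ℝ => (L : ℝ) ^ M * u) ⁻¹' (C L κ M) := rfl
    rw [h1, Real.volume_preimage_mul_left (by positivity), vol_C_all hL hκm hns' M, mul_zero]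
  filter_upwards [ae_all_iff.2 hnull] with u hu
  rw [frequently_atTop]
  intro M
  have h1 := hu M
  simp only [C, Set.mem_ofPred_eq, not_forall, not_le] at h1
  obtain ⟨n, hn⟩ := h1
  refine ⟨n + M, by omega, ⌊(L : ℝ) ^ (n + M) * u⌋, ?_⟩
  have h2 : (L : ℝ) ^ n * ((L : ℝ) ^ M * u) = (L : ℝ) ^ (n + M) * u := by ring
  rw [h2] at hn
  have h3 : (L : ℝ) ^ (n + M) * u - ⌊(L : ℝ) ^ (n + M) * u⌋ = Int.fract ((L : ℝ) ^ (n + M) * u) :=
    Int.self_sub_floor _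
  rw [h3, abs_of_nonneg (Int.fract_nonneg _)]
  refine lt_of_lt_of_le ?_ (hκ1 (n + M))
  have hp : (0 : ℝ) < (L : ℝ) ^ κ (n + M) := by positivity
  rw [inv_eq_one_div, lt_div_iff₀' hp]
  exact hn

end Pool.Agent.H212.KR
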