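import Pool.Agent.H212.KR.Stm
import Pool.Graph.R_seed8.TH229.Kan.TCM

/-!
# Two constants: radius `1/100`, gain `20` (helper348; adapted from `TH229.Kan.TC`)
-/

set_option autoImplicit false

namespace Pool.Agent.H212.KR

open Complex Filter Topology MeasureTheory
open Pool.Agent.TH229.Kan (disc_bound cover_lemma)

lemma TC_two_const {ι : Type*} (s : Finset ι) (m l : ι → ℝ) (hl : ∀ i ∈ s, 0 < l i)
    (F : ℂ → ℂ) (hF : Differentiable ℂ F) (B b : ℝ) (hB : 0 ≤ B) (hb : 0 ≤ b)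
    (hdisc : ∀ ζ : ℂ, ‖ζ‖ ≤ 1 → ‖F ζ‖ ≤ Real.exp B)
    (hreal : ∀ t : ℝ, |t| ≤ 1 → (∀ i ∈ s, l i / 2 < |t - m i|) → ‖F t‖ ≤ Real.exp b)
    (hε : ∑ i ∈ s, l i ≤ Real.exp (-100) / 50000)
    (ζ : ℂ) (hζ : ‖ζ‖ ≤ 1 / 100) :
    ‖F ζ‖ ≤ Real.exp (b + B / 20 + 1) := by
  have hs0 : 0 ≤ ∑ i ∈ s, l i := Finset.sum_nonneg fun i hi => (hl i hi).le
  have he1 : Real.exp (-100) ≤ 1 := Real.exp_le_one_iff.2 (by norm_num)
  have he0 : 0 < Real.exp (-100) := Real.exp_pos _
  have hre : |ζ.re| ≤ 1 / 100 := (Complex.abs_re_le_norm ζ).trans hζ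
  have him : |ζ.im| ≤ 1 / 100 := (Complex.abs_im_le_norm ζ).trans hζ
  have hA : |ζ.im| ≤ 1 / 90 := him.trans (by norm_num)
  set x : ℝ := ζ.re with hx
  set K : ℕ := ⌈B / 100⌉₊ with hK
  have hK1 : B / 100 ≤ K := Nat.le_ceil _
  have hK2 : (K : ℝ) < B / 100 + 1 := Nat.ceil_lt_add_one (by positivity)
  set Q : ℂ → ℂ := fun w => ((w - x) ^ 2 - (1 / 90) ^ 2) / (1 / 90) ^ 2 with hQ
  set G : ℂ → ℂ := fun w => F w * Q w ^ K with hG
  have hGd : Differentiable ℂ G := by
    apply hF.mul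
    apply Differentiable.pow
    simp only [hQ]
    fun_prop
  have hU : IsOpen (Metric.ball (x : ℂ) (1 / 90)) := Metric.isOpen_ball
  have hfr : ∀ w ∈ frontier (Metric.ball (x : ℂ) (1 / 90)),
      ‖G w‖ ≤ Real.exp (b + B / 20 + 1) := by
    intro w hw
    rw [frontier_ball (x : ℂ) (by norm_num : (1 / 90 : ℝ) ≠ 0)] at hw
    have hw1 : ‖w - x‖ = 1 / 90 := by simpa [dist_eq_norm] using hw
    have hxn : ‖(x : ℂ)‖ ≤ 1 / 100 := by
      rw [Complex.norm_real]
      exact hre
    have hwn : ‖w‖ ≤ 0.0212 := by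
      calc ‖w‖ = ‖(w - x) + x‖ := by ring_nf
        _ ≤ ‖w - x‖ + ‖(x : ℂ)‖ := norm_add_le _ _
        _ ≤ 0.0212 := by rw [hw1]; linarith
    have hQw : Q w = 180 * 90 * I * w.im * (w - x) := by
      have h1 : (w.re - x) ^ 2 + w.im ^ 2 = (1 / 90) ^ 2 := by
        have h2 := Complex.sq_norm (w - x)
        rw [hw1, Complex.normSq_apply] at h2
        simp at h2
        nlinarith
      have h3 : w - x = ((w.re - x : ℝ) : ℂ) + (w.im : ℝ) * I := by
        apply Complex.ext <;> simp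
      have h4 : ((1 : ℂ) / 90) ^ 2 = (((w.re - x) ^ 2 + w.im ^ 2 : ℝ) : ℂ) := by
        rw [h1]; push_cast; ring
      rw [hQ]
      simp only
      rw [div_eq_iff (by norm_num), h3]
      have h5 : ((w.re - x : ℝ) : ℂ) ^ 2 + (w.im : ℂ) ^ 2 = (1 / 90) ^ 2 := by
        rw [h4]; push_cast; ring
      have h6 : (I : ℂ) ^ 2 = -1 := Complex.I_sq
      push_cast at h5 ⊢
      linear_combination h5 + ((w.im : ℂ) ^ 2 - 2 * (w.im : ℂ) ^ 2) * h6
    have hQn : ‖Q w‖ = 180 * |w.im| := by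
      rw [hQw]
      simp only [norm_mul, Complex.norm_I, Complex.norm_real, hw1]
      norm_num
      ring
    have hGn : ‖G w‖ = ‖F w‖ * (180 * |w.im|) ^ K := by
      rw [hG]; simp only [norm_mul, norm_pow, hQn]
    have him1 : |w.im| ≤ 1 / 90 := by
      have := Complex.abs_im_le_norm (w - x)
      rw [hw1] at this
      simpa using this
    rw [hGn]
    by_cases hs : Real.exp (-100) / 180 ≤ |w.im|
    · have hwi : w.im ≠ 0 := by
        intro h
        rw [h, abs_zero] at hs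
        linarith
      have h1 := disc_bound s m l hl F hF B b hB hb hdisc hreal w (by linarith) hwi
      have h2 : (180 * |w.im|) ^ K ≤ Real.exp (0.7 * K) := by
        have h3 : 180 * |w.im| ≤ 2 := by linarith
        calc (180 * |w.im|) ^ K ≤ 2 ^ K := pow_le_pow_left₀ (by positivity) h3 K
          _ = Real.exp (K * Real.log 2) := by
              rw [Real.exp_nat_mul, Real.exp_log (by norm_num)]
          _ ≤ Real.exp (0.7 * K) := by
              rw [Real.exp_le_exp, mul_comm]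
              exact mul_le_mul_of_nonneg_right (by linarith [Real.log_two_lt_d9])
                (Nat.cast_nonneg _)
      refine (mul_le_mul h1 h2 (by positivity) (Real.exp_pos _).le).trans ?_
      rw [← Real.exp_add, Real.exp_le_exp]
      have h4 : 5 / 4 * B * (∑ i ∈ s, l i) / |w.im| ≤ 0.005 * B := by
        rw [div_le_iff₀ (by linarith [div_pos he0 (by norm_num : (0 : ℝ) < 180)])]
        have h5 : 5 / 4 * B * (∑ i ∈ s, l i) ≤ 5 / 4 * B * (Real.exp (-100) / 50000) :=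
          mul_le_mul_of_nonneg_left hε (by positivity)
        have h6 : 0.005 * B * (Real.exp (-100) / 180) ≤ 0.005 * B * |w.im| :=
          mul_le_mul_of_nonneg_left hs (by positivity)
        have h7 : 0 ≤ B * Real.exp (-100) := by positivity
        nlinarith
      have h8 : B * (w.re ^ 2 - w.im ^ 2 + 2 * |w.im|) ≤ B * 0.023 := by
        apply mul_le_mul_of_nonneg_left _ hB
        have h9 : w.re ^ 2 + w.im ^ 2 ≤ (0.0212) ^ 2 := by
          have := Complex.sq_norm w
          rw [Complex.normSq_apply] at this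
          have h10 : ‖w‖ ^ 2 ≤ (0.0212) ^ 2 := pow_le_pow_left₀ (norm_nonneg _) hwn 2
          nlinarith
        nlinarith [sq_nonneg w.im]
      linarith
    · push Not at hs
      have h1 := hdisc w (by linarith)
      have h2 : (180 * |w.im|) ^ K ≤ Real.exp (-100 * K) := by
        have h3 : 180 * |w.im| ≤ Real.exp (-100) := by linarith
        calc (180 * |w.im|) ^ K ≤ Real.exp (-100) ^ K := pow_le_pow_left₀ (by positivity) h3 K
          _ = Real.exp (-100 * K) := by
              rw [← Real.exp_nat_mul]; ring_nf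
      refine (mul_le_mul h1 h2 (by positivity) (Real.exp_pos _).le).trans ?_
      rw [← Real.exp_add, Real.exp_le_exp]
      linarith
  have hmem : ζ ∈ closure (Metric.ball (x : ℂ) (1 / 90)) := by
    rw [closure_ball (x : ℂ) (by norm_num : (1 / 90 : ℝ) ≠ 0), Metric.mem_closedBall, dist_eq_norm]
    have : ζ - x = (ζ.im : ℂ) * I := by
      apply Complex.ext <;> simp [hx]
    rw [this, norm_mul, Complex.norm_I, mul_one, Complex.norm_real]
    exact hA
  have hmain := Complex.norm_le_of_forall_mem_frontier_norm_le Metric.isBounded_ball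
    hGd.diffContOnCl hfr hmem
  have hQζ : 1 ≤ ‖Q ζ‖ := by
    have h1 : Q ζ = (((-(8100 * ζ.im ^ 2 + 1) : ℝ)) : ℂ) := by
      have h2 : ζ - x = (ζ.im : ℂ) * I := by
        apply Complex.ext <;> simp [hx]
      rw [hQ]
      simp only
      rw [h2, div_eq_iff (by norm_num)]
      push_cast
      have h6 : (I : ℂ) ^ 2 = -1 := Complex.I_sq
      linear_combination ((ζ.im : ℂ) ^ 2) * h6
    rw [h1, Complex.norm_real, Real.norm_eq_abs, abs_neg]
    rw [abs_of_nonneg (by positivity)]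
    nlinarith [sq_nonneg ζ.im]
  calc ‖F ζ‖ = ‖F ζ‖ * 1 := (mul_one _).symm
    _ ≤ ‖F ζ‖ * ‖Q ζ‖ ^ K :=
        mul_le_mul_of_nonneg_left (one_le_pow₀ hQζ) (norm_nonneg _)
    _ = ‖G ζ‖ := by rw [hG]; simp only [norm_mul, norm_pow]
    _ ≤ _ := hmain

theorem t_TC : S_TC := by
  refine ⟨Real.exp (-100) / 100000, by positivity, ?_⟩
  intro F hF B hB hdisc hreal ζ hζ
  have hlt : volume {t : ℝ | t ∈ Set.Icc (-1) 1 ∧ Real.exp (1 / 10) ≤ ‖F t‖} <
      ENNReal.ofReal (Real.exp (-100) / 50000) := by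
    have h1 : {t : ℝ | t ∈ Set.Icc (-1) 1 ∧ Real.exp (1 / 10) ≤ ‖F t‖} ⊆
        {t : ℝ | t ∈ Set.Icc (-1) 1 ∧ 1 < ‖F t‖} := by
      rintro t ⟨ht, h2⟩
      refine ⟨ht, lt_of_lt_of_le ?_ h2⟩
      exact Real.one_lt_exp_iff.2 (by norm_num)
    refine ((measure_mono h1).trans hreal).trans_lt ?_
    rw [ENNReal.ofReal_lt_ofReal_iff (by positivity)]
    have := Real.exp_pos (-100)
    linarith
  have hK : IsCompact {t : ℝ | t ∈ Set.Icc (-1) 1 ∧ Real.exp (1 / 10) ≤ ‖F t‖} := by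
    apply isCompact_Icc.inter_right
    exact isClosed_le continuous_const ((hF.continuous.comp Complex.continuous_ofReal).norm)
  obtain ⟨s, l, hl, hsl, hcov⟩ := cover_lemma _ hK _ hlt
  have h := TC_two_const s (fun k : ℤ => ((k : ℝ) + 1 / 2) * l) (fun _ => l) (fun _ _ => hl)
    F hF B (1 / 10) hB (by norm_num) hdisc (by
      intro t ht h
      by_contra hcon
      push Not at hcon
      obtain ⟨k, hk, hk2⟩ := hcov t ⟨abs_le.1 ht, hcon.le⟩
      exact absurd (h k hk) (not_lt.2 hk2)) (by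
      rw [Finset.sum_const, nsmul_eq_mul]
      exact hsl) ζ hζ
  refine h.trans (Real.exp_le_exp.2 ?_)
  linarith

end Pool.Agent.H212.KR
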