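import Pool.Agent.H212.KR.Stm

set_option autoImplicit false

namespace Pool.Agent.H212.KR

open Complex Filter Topology MeasureTheory
open scoped ENNReal

namespace VJaux

/-- the kernel with values in the extended reals -/
noncomputable def q (h : ℝ) (t : ℝ) : ℝ≥0∞ := ENNReal.ofReal (PK h t)

lemma PK_nonneg {h : ℝ} (hh : 0 < h) (t : ℝ) : 0 ≤ PK h t := by
  unfold PK
  have := Real.pi_pos
  positivity

lemma PK_meas (h : ℝ) : Measurable (PK h) := by
  unfold PK
  fun_prop

lemma q_meas (h : ℝ) : Measurable (q h) := (PK_meas h).ennreal_ofReal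

lemma q_mass {h : ℝ} (hh : 0 < h) : ∫⁻ t, q h t = 1 := by
  have hpi := Real.pi_pos
  have h0 : ∀ t, PK h t = (1 / (Real.pi * h)) * (1 + (t / h) ^ 2)⁻¹ := by
    intro t
    unfold PK
    field_simp
    ring
  have hint : Integrable (PK h) := by
    have h1 : Integrable (fun t : ℝ => (1 + (t / h) ^ 2)⁻¹) :=
      integrable_inv_one_add_sq.comp_div hh.ne'
    have h2 := h1.const_mul (1 / (Real.pi * h))
    refine h2.congr (Eventually.of_forall fun t => ?_)
    exact (h0 t).symm
  unfold q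
  rw [← ofReal_integral_eq_lintegral_ofReal hint (Eventually.of_forall (PK_nonneg hh))]
  have h3 : ∫ t, PK h t = 1 := by
    rw [integral_congr_ae (Eventually.of_forall h0), integral_const_mul]
    have h4 : ∫ t : ℝ, (1 + (t / h) ^ 2)⁻¹ = |h| • ∫ t : ℝ, (1 + t ^ 2)⁻¹ :=
      Measure.integral_comp_div (fun t : ℝ => (1 + t ^ 2)⁻¹) h
    rw [h4, integral_univ_inv_one_add_sq, abs_of_pos hh, smul_eq_mul]
    field_simp
  rw [h3, ENNReal.ofReal_one]

lemma per_lint (g : ℝ → ℝ≥0∞) (hg : ∀ x, g (x + 1) = g x) (a : ℝ) :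
    ∫⁻ x in Set.Ioc a (a + 1), g x = ∫⁻ x in Set.Ioc 0 1, g x := by
  have h1 := (isAddFundamentalDomain_Ioc (T := (1 : ℝ)) one_pos a).setLIntegral_eq
    (isAddFundamentalDomain_Ioc (T := (1 : ℝ)) one_pos 0) g (by
      rintro ⟨_, ⟨n, rfl⟩⟩ x
      have h2 : Function.Periodic g 1 := hg
      have h3 : ((⟨n • (1 : ℝ), ⟨n, rfl⟩⟩ : AddSubgroup.zmultiples (1 : ℝ)) +ᵥ x) = x + n * 1 := by
        show n • (1 : ℝ) + x = x + n * 1
        rw [zsmul_eq_mul]
        ring
      show g ((⟨n • (1 : ℝ), ⟨n, rfl⟩⟩ : AddSubgroup.zmultiples (1 : ℝ)) +ᵥ x) = g x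
      rw [h3]
      exact h2.int_mul n x)
  rw [zero_add] at h1
  exact h1

lemma conv_swap (g : ℝ → ℝ≥0∞) (h x : ℝ) :
    ∫⁻ s, q h (x - s) * g s = ∫⁻ r, q h r * g (x - r) := by
  have h1 := lintegral_sub_left_eq_self (μ := volume) (fun r => q h r * g (x - r)) x
  rw [← h1]
  apply lintegral_congr
  intro s
  show q h (x - s) * g s = q h (x - s) * g (x - (x - s))
  rw [sub_sub_cancel]

lemma conv_meas (g : ℝ → ℝ≥0∞) (hgm : Measurable g) (h : ℝ) :
    Measurable (fun x => ∫⁻ s, q h (x - s) * g s) := by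
  have h1 : Measurable (fun p : ℝ × ℝ => q h (p.1 - p.2) * g p.2) :=
    ((q_meas h).comp (measurable_fst.sub measurable_snd)).mul (hgm.comp measurable_snd)
  exact h1.lintegral_prod_right'

lemma conv_per (g : ℝ → ℝ≥0∞) (hg : ∀ x, g (x + 1) = g x) (h x : ℝ) :
    ∫⁻ s, q h (x + 1 - s) * g s = ∫⁻ s, q h (x - s) * g s := by
  rw [conv_swap, conv_swap]
  apply lintegral_congr
  intro r
  rw [show x + 1 - r = x - r + 1 by ring, hg]

lemma conv_mass (g : ℝ → ℝ≥0∞) (hgm : Measurable g) (hg : ∀ x, g (x + 1) = g x) {h : ℝ}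
    (hh : 0 < h) :
    ∫⁻ x in Set.Ioc 0 1, ∫⁻ s, q h (x - s) * g s = ∫⁻ x in Set.Ioc 0 1, g x := by
  have h1 : ∀ x, ∫⁻ s, q h (x - s) * g s = ∫⁻ r, q h r * g (x - r) := conv_swap g h
  simp_rw [h1]
  rw [lintegral_lintegral_swap]
  · have h2 : ∀ r, ∫⁻ x in Set.Ioc (0 : ℝ) 1, q h r * g (x - r) =
        q h r * ∫⁻ x in Set.Ioc 0 1, g x := by
      intro r
      have h5 : Measurable (fun x : ℝ => g (x - r)) := hgm.comp (measurable_id.sub_const r)
      rw [lintegral_const_mul _ h5]
      congr 1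
      have h3 := (measurePreserving_sub_right (volume : Measure ℝ) r).setLIntegral_comp_preimage
        (measurableSet_Ioc (a := -r) (b := -r + 1)) hgm
      have h4 : (fun x : ℝ => x - r) ⁻¹' (Set.Ioc (-r) (-r + 1)) = Set.Ioc 0 1 := by
        ext x
        simp only [Set.mem_preimage, Set.mem_Ioc]
        constructor
        · rintro ⟨ha, hb⟩
          exact ⟨by linarith, by linarith⟩
        · rintro ⟨ha, hb⟩
          exact ⟨by linarith, by linarith⟩
      rw [h4] at h3
      exact h3.trans (per_lint g hg (-r))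
    rw [lintegral_congr h2, lintegral_mul_const _ (q_meas h), q_mass hh, one_mul]
  · apply Measurable.aemeasurable
    exact ((q_meas h).comp measurable_snd).mul (hgm.comp (measurable_fst.sub measurable_snd))

/-- lower bound of the convolution of two kernels -/
lemma kern {h : ℝ} (hh : 0 < h) (x t : ℝ) :
    ENNReal.ofReal (h / (60 * ((x - t) ^ 2 + h ^ 2))) ≤
      ∫⁻ s, q (h / 2) (x - s) * q (h / 2) (s - t) := by
  have hpi := Real.pi_pos
  have hpi2 : Real.pi ^ 2 ≤ 32 / 3 := by
    have := Real.pi_lt_d2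
    nlinarith
  set c : ℝ := (2 / (5 * Real.pi * h)) * ((2 * h / 9) / (Real.pi * ((x - t) ^ 2 + h ^ 2))) with hc
  have hpos : 0 < (x - t) ^ 2 + h ^ 2 := by positivity
  have hlow : ∀ s ∈ Set.Icc (t - h) (t + h),
      ENNReal.ofReal c ≤ q (h / 2) (x - s) * q (h / 2) (s - t) := by
    intro s hs
    unfold q
    rw [← ENNReal.ofReal_mul (PK_nonneg (by positivity) _)]
    apply ENNReal.ofReal_le_ofReal
    rw [hc, mul_comm]
    have hs2 : (s - t) ^ 2 ≤ h ^ 2 := by
      apply sq_le_sq'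
      · linarith [hs.1]
      · linarith [hs.2]
    apply mul_le_mul
    · unfold PK
      rw [div_le_div_iff₀ (by positivity) (by positivity)]
      have h5 : (x - s) ^ 2 ≤ 2 * (x - t) ^ 2 + 2 * h ^ 2 := by
        nlinarith [sq_nonneg ((x - t) + (s - t)), sq_nonneg (x - s)]
      have h6 : (x - s) ^ 2 + (h / 2) ^ 2 ≤ 9 / 4 * ((x - t) ^ 2 + h ^ 2) := by nlinarith
      calc 2 * h / 9 * (Real.pi * ((x - s) ^ 2 + (h / 2) ^ 2))
          ≤ 2 * h / 9 * (Real.pi * (9 / 4 * ((x - t) ^ 2 + h ^ 2))) := by gcongr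
        _ = h / 2 * (Real.pi * ((x - t) ^ 2 + h ^ 2)) := by ring
    · unfold PK
      rw [div_le_div_iff₀ (by positivity) (by positivity)]
      have h6 : (s - t) ^ 2 + (h / 2) ^ 2 ≤ 5 / 4 * h ^ 2 := by nlinarith
      calc 2 * (Real.pi * ((s - t) ^ 2 + (h / 2) ^ 2))
          ≤ 2 * (Real.pi * (5 / 4 * h ^ 2)) := by gcongr
        _ = h / 2 * (5 * Real.pi * h) := by ring
    · positivity
    · exact PK_nonneg (by positivity) _
  calc ENNReal.ofReal (h / (60 * ((x - t) ^ 2 + h ^ 2)))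
      ≤ ENNReal.ofReal (c * (2 * h)) := by
        apply ENNReal.ofReal_le_ofReal
        have e1 : c * (2 * h) = h * 8 / (45 * Real.pi ^ 2 * ((x - t) ^ 2 + h ^ 2)) := by
          rw [hc]
          field_simp
          ring
        rw [e1, div_le_div_iff₀ (by positivity) (by positivity)]
        have : h * (45 * Real.pi ^ 2 * ((x - t) ^ 2 + h ^ 2)) =
          (h * ((x - t) ^ 2 + h ^ 2) * 45) * Real.pi ^ 2 := by ring
        rw [this]
        calc (h * ((x - t) ^ 2 + h ^ 2) * 45) * Real.pi ^ 2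
            ≤ (h * ((x - t) ^ 2 + h ^ 2) * 45) * (32 / 3) := by gcongr
          _ = h * 8 * (60 * ((x - t) ^ 2 + h ^ 2)) := by ring
    _ = ∫⁻ s in Set.Icc (t - h) (t + h), ENNReal.ofReal c := by
        rw [setLIntegral_const, Real.volume_Icc, ENNReal.ofReal_mul (by positivity)]
        congr 2
        ring
    _ ≤ ∫⁻ s in Set.Icc (t - h) (t + h), q (h / 2) (x - s) * q (h / 2) (s - t) := by
        apply setLIntegral_mono' measurableSet_Icc
        exact hlow
    _ ≤ _ := setLIntegral_le_lintegral _ _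

lemma ofReal_integral_le (f : ℝ → ℝ) (hf : ∀ x, 0 ≤ f x) :
    ENNReal.ofReal (∫ x, f x) ≤ ∫⁻ x, ENNReal.ofReal (f x) := by
  by_cases hm : AEStronglyMeasurable f volume
  · rw [integral_eq_lintegral_of_nonneg_ae (Eventually.of_forall hf) hm]
    exact ENNReal.ofReal_toReal_le
  · rw [integral_undef (fun hi => hm hi.1), ENNReal.ofReal_zero]
    exact bot_le

end VJaux

open VJaux

theorem t_VJ : S_VJ := by
  intro V hVm hVp C hV0 hVC A hA hAp hVA hineq
  set v : ℝ → ℝ≥0∞ := fun t => ENNReal.ofReal (V t) with hv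
  have hvm : Measurable v := hVm.ennreal_ofReal
  have hvp : ∀ x, v (x + 1) = v x := fun x => by simp only [hv]; rw [hVp]
  -- the two step averages
  set T : ℝ → ℝ → ℝ≥0∞ := fun h x =>
    ∫⁻ s, q (h / 2) (x - s) * ∫⁻ t, q (h / 2) (s - t) * v t with hT
  have hW : ∀ h, Measurable (fun s => ∫⁻ t, q (h / 2) (s - t) * v t) := fun h =>
    conv_meas v hvm (h / 2)
  have hTm : ∀ h, Measurable (T h) := fun h => conv_meas _ (hW h) (h / 2)
  have hle : ∀ h, 0 < h → ∀ x, v x ≤ ENNReal.ofReal h + T h x := by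
    intro h hh x
    have hh2 : 0 < h / 2 := by positivity
    have h1 : v x ≤ ENNReal.ofReal
        (h + ∫ s : ℝ, PK (h / 2) (x - s) * ∫ t : ℝ, PK (h / 2) (s - t) * V t) :=
      ENNReal.ofReal_le_ofReal (hineq h hh x)
    refine h1.trans ?_
    refine ENNReal.ofReal_add_le.trans ?_
    refine add_le_add le_rfl ?_
    have h2 : ∀ s, 0 ≤ ∫ t : ℝ, PK (h / 2) (s - t) * V t := fun s =>
      integral_nonneg fun t => mul_nonneg (PK_nonneg hh2 _) (hV0 t)
    refine (ofReal_integral_le _ fun s => mul_nonneg (PK_nonneg hh2 _) (h2 s)).trans ?_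
    apply lintegral_mono
    intro s
    show ENNReal.ofReal (PK (h / 2) (x - s) * ∫ t : ℝ, PK (h / 2) (s - t) * V t) ≤ _
    rw [ENNReal.ofReal_mul (PK_nonneg hh2 _)]
    apply mul_le_mul' le_rfl
    refine (ofReal_integral_le _ fun t => mul_nonneg (PK_nonneg hh2 _) (hV0 t)).trans ?_
    apply lintegral_mono
    intro t
    show ENNReal.ofReal (PK (h / 2) (s - t) * V t) ≤ _
    rw [ENNReal.ofReal_mul (PK_nonneg hh2 _)]
    exact le_rfl
  have hTint : ∀ h, 0 < h → ∫⁻ x in Set.Ioc 0 1, T h x = ∫⁻ x in Set.Ioc 0 1, v x := by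
    intro h hh
    have hh2 : 0 < h / 2 := by positivity
    rw [← conv_mass v hvm hvp hh2]
    exact conv_mass _ (hW h) (conv_per v hvp (h / 2)) hh2
  have hvfin : ∫⁻ x in Set.Ioc (0 : ℝ) 1, v x ≠ ⊤ := by
    have h1 : ∫⁻ x in Set.Ioc (0 : ℝ) 1, v x ≤ ∫⁻ x in Set.Ioc (0 : ℝ) 1, ENNReal.ofReal C :=
      lintegral_mono fun x => ENNReal.ofReal_le_ofReal (hVC x)
    refine ne_top_of_le_ne_top ?_ h1
    rw [setLIntegral_const, Real.volume_Ioc]
    exact ENNReal.mul_ne_top ENNReal.ofReal_ne_top ENNReal.ofReal_ne_top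
  -- the integral over `A`
  have hA1 : ∀ h, 0 < h → ∫⁻ x in Set.Ioc 0 1 ∩ A, T h x ≤ ENNReal.ofReal h := by
    intro h hh
    have h1 : (∫⁻ x in Set.Ioc 0 1 ∩ A, T h x) + (∫⁻ x in Set.Ioc 0 1 \ A, T h x) =
        ∫⁻ x in Set.Ioc 0 1, v x := by
      rw [← hTint h hh]
      exact lintegral_inter_add_sdiff _ _ hA
    have h2 : (∫⁻ x in Set.Ioc 0 1 ∩ A, v x) + (∫⁻ x in Set.Ioc 0 1 \ A, v x) =
        ∫⁻ x in Set.Ioc 0 1, v x := lintegral_inter_add_sdiff _ _ hA
    have h3 : ∫⁻ x in Set.Ioc 0 1 ∩ A, v x = 0 := by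
      have h4 : ∫⁻ x in Set.Ioc 0 1 ∩ A, v x = ∫⁻ x in Set.Ioc (0 : ℝ) 1 ∩ A, 0 := by
        apply setLIntegral_congr_fun (measurableSet_Ioc.inter hA)
        intro x hx
        show ENNReal.ofReal (V x) = 0
        rw [hVA x hx.2, ENNReal.ofReal_zero]
      rw [h4, lintegral_zero]
    have h5 : ∫⁻ x in Set.Ioc 0 1 \ A, v x ≤
        ENNReal.ofReal h + ∫⁻ x in Set.Ioc 0 1 \ A, T h x := by
      calc ∫⁻ x in Set.Ioc 0 1 \ A, v x
          ≤ ∫⁻ x in Set.Ioc 0 1 \ A, (ENNReal.ofReal h + T h x) :=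
            lintegral_mono fun x => hle h hh x
        _ = (∫⁻ x in Set.Ioc (0 : ℝ) 1 \ A, ENNReal.ofReal h) +
            (∫⁻ x in Set.Ioc 0 1 \ A, T h x) :=
            lintegral_add_left measurable_const _
        _ ≤ ENNReal.ofReal h + ∫⁻ x in Set.Ioc 0 1 \ A, T h x := by
            refine add_le_add ?_ le_rfl
            rw [setLIntegral_const]
            calc ENNReal.ofReal h * volume (Set.Ioc (0 : ℝ) 1 \ A)
                ≤ ENNReal.ofReal h * volume (Set.Ioc (0 : ℝ) 1) :=
                  mul_le_mul' le_rfl (measure_mono Set.sdiff_subset)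
              _ = ENNReal.ofReal h := by
                  rw [Real.volume_Ioc, sub_zero, ENNReal.ofReal_one, mul_one]
    have h6 : (∫⁻ x in Set.Ioc 0 1 ∩ A, T h x) + (∫⁻ x in Set.Ioc 0 1 \ A, T h x) ≤
        ENNReal.ofReal h + ∫⁻ x in Set.Ioc 0 1 \ A, T h x := by
      rw [h1, ← h2, h3, zero_add]
      exact h5
    have h7 : ∫⁻ x in Set.Ioc 0 1 \ A, T h x ≠ ⊤ := by
      refine ne_top_of_le_ne_top hvfin ?_
      rw [← h1]
      exact le_add_self
    exact (ENNReal.add_le_add_iff_right h7).1 h6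
  have hset : volume.restrict (A ∩ Set.Icc (0 : ℝ) 1) = volume.restrict (Set.Ioc (0 : ℝ) 1 ∩ A) := by
    rw [Set.inter_comm]
    apply Measure.restrict_congr_set
    exact (Ioc_ae_eq_Icc.symm).inter (ae_eq_refl A)
  -- the kernel bound
  set J : ℝ → ℝ → ℝ≥0∞ := fun h u => ∫⁻ t : ℝ, ENNReal.ofReal (V t / ((u - t) ^ 2 + h ^ 2)) with hJ
  have hJT : ∀ h, 0 < h → ∀ u, ENNReal.ofReal (h / 60) * J h u ≤ T h u := by
    intro h hh u
    have e1 : T h u = ∫⁻ t, (∫⁻ s, q (h / 2) (u - s) * q (h / 2) (s - t)) * v t := by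
      have e2 : ∀ s, q (h / 2) (u - s) * ∫⁻ t, q (h / 2) (s - t) * v t =
          ∫⁻ t, q (h / 2) (u - s) * (q (h / 2) (s - t) * v t) := by
        intro s
        rw [lintegral_const_mul]
        exact ((q_meas _).comp (measurable_const.sub measurable_id)).mul hvm
      simp only [hT]
      simp_rw [e2]
      rw [lintegral_lintegral_swap]
      · apply lintegral_congr
        intro t
        rw [← lintegral_mul_const]
        · apply lintegral_congr
          intro s
          ring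
        · exact ((q_meas _).comp (measurable_const.sub measurable_id)).mul
            ((q_meas _).comp (measurable_id.sub_const t))
      · apply Measurable.aemeasurable
        exact ((q_meas _).comp (measurable_const.sub measurable_fst)).mul
          (((q_meas _).comp (measurable_fst.sub measurable_snd)).mul (hvm.comp measurable_snd))
    rw [e1]
    simp only [hJ]
    rw [← lintegral_const_mul]
    · apply lintegral_mono
      intro t
      show ENNReal.ofReal (h / 60) * ENNReal.ofReal (V t / ((u - t) ^ 2 + h ^ 2)) ≤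
        (∫⁻ s, q (h / 2) (u - s) * q (h / 2) (s - t)) * v t
      have e3 : ENNReal.ofReal (h / 60) * ENNReal.ofReal (V t / ((u - t) ^ 2 + h ^ 2)) =
          ENNReal.ofReal (h / (60 * ((u - t) ^ 2 + h ^ 2))) * v t := by
        simp only [hv]
        rw [← ENNReal.ofReal_mul (by positivity), ← ENNReal.ofReal_mul (by positivity)]
        congr 1
        have : (u - t) ^ 2 + h ^ 2 ≠ 0 := by positivity
        field_simp
      rw [e3]
      exact mul_le_mul' (kern hh u t) le_rfl
    · apply Measurable.ennreal_ofReal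
      exact hVm.div (((measurable_const.sub measurable_id).pow_const 2).add_const _)
  have hJA : ∀ h, 0 < h → ∫⁻ u in A ∩ Set.Icc (0 : ℝ) 1, J h u ≤ ENNReal.ofReal 60 := by
    intro h hh
    rw [hset]
    have hJm : Measurable (J h) := by
      have h1 : Measurable (fun p : ℝ × ℝ =>
          ENNReal.ofReal (V p.2 / ((p.1 - p.2) ^ 2 + h ^ 2))) :=
        ((hVm.comp measurable_snd).div
          (((measurable_fst.sub measurable_snd).pow_const 2).add_const _)).ennreal_ofReal
      exact h1.lintegral_prod_right'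
    have h2 : ENNReal.ofReal (h / 60) * ∫⁻ u in Set.Ioc (0 : ℝ) 1 ∩ A, J h u ≤
        ENNReal.ofReal h := by
      rw [← lintegral_const_mul _ hJm]
      exact (lintegral_mono fun u => hJT h hh u).trans (hA1 h hh)
    have h3 : ENNReal.ofReal h = ENNReal.ofReal (h / 60) * ENNReal.ofReal 60 := by
      rw [← ENNReal.ofReal_mul (by positivity)]
      congr 1
      ring
    rw [h3] at h2
    have h4 : ENNReal.ofReal (h / 60) ≠ 0 := by
      rw [ENNReal.ofReal_ne_zero_iff]
      positivity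
    exact (ENNReal.mul_le_mul_iff_right h4 ENNReal.ofReal_ne_top).1 h2
  -- Fatou
  set hn : ℕ → ℝ := fun n => 1 / ((n : ℝ) + 1) with hhn
  have hnpos : ∀ n, 0 < hn n := fun n => by
    simp only [hhn]
    positivity
  have hnlim : Tendsto hn atTop (𝓝 0) := tendsto_one_div_add_atTop_nhds_zero_nat
  have hpt : ∀ u ∈ A, ∫⁻ t : ℝ, ENNReal.ofReal (V t / (u - t) ^ 2) ≤
      liminf (fun n => J (hn n) u) atTop := by
    intro u hu
    have h1 : ∀ t : ℝ, Tendsto (fun n => ENNReal.ofReal (V t / ((u - t) ^ 2 + hn n ^ 2))) atTop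
        (𝓝 (ENNReal.ofReal (V t / (u - t) ^ 2))) := by
      intro t
      by_cases ht : t = u
      · subst ht
        rw [hVA t hu]
        simp only [zero_div]
        exact tendsto_const_nhds
      · apply ENNReal.tendsto_ofReal
        apply Tendsto.div tendsto_const_nhds
        · have h2 : Tendsto (fun n => (u - t) ^ 2 + hn n ^ 2) atTop (𝓝 ((u - t) ^ 2 + 0 ^ 2)) :=
            tendsto_const_nhds.add (hnlim.pow 2)
          simpa using h2
        · exact pow_ne_zero 2 (sub_ne_zero.2 (Ne.symm ht))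
    calc ∫⁻ t : ℝ, ENNReal.ofReal (V t / (u - t) ^ 2)
        = ∫⁻ t : ℝ, liminf (fun n => ENNReal.ofReal (V t / ((u - t) ^ 2 + hn n ^ 2))) atTop := by
          apply lintegral_congr
          intro t
          exact (h1 t).liminf_eq.symm
      _ ≤ liminf (fun n => J (hn n) u) atTop := by
          apply lintegral_liminf_le
          intro n
          apply Measurable.ennreal_ofReal
          exact hVm.div (((measurable_const.sub measurable_id).pow_const 2).add_const _)
  calc ∫⁻ u in A ∩ Set.Icc 0 1, ∫⁻ t : ℝ, ENNReal.ofReal (V t / (u - t) ^ 2)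
      ≤ ∫⁻ u in A ∩ Set.Icc 0 1, liminf (fun n => J (hn n) u) atTop := by
        apply setLIntegral_mono' (hA.inter measurableSet_Icc)
        intro u hu
        exact hpt u hu.1
    _ ≤ liminf (fun n => ∫⁻ u in A ∩ Set.Icc 0 1, J (hn n) u) atTop := by
        apply lintegral_liminf_le
        intro n
        have h1 : Measurable (fun p : ℝ × ℝ =>
            ENNReal.ofReal (V p.2 / ((p.1 - p.2) ^ 2 + hn n ^ 2))) :=
          ((hVm.comp measurable_snd).div
            (((measurable_fst.sub measurable_snd).pow_const 2).add_const _)).ennreal_ofReal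
        exact h1.lintegral_prod_right'
    _ ≤ ENNReal.ofReal 60 := by
        refine (liminf_le_liminf (Eventually.of_forall fun n => hJA (hn n) (hnpos n))).trans ?_
        rw [liminf_const]

end Pool.Agent.H212.KR
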