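import Pool.Agent.H212.KR.Stm

/-!
# The second half of the vanishing set trick
-/

set_option autoImplicit false

namespace Pool.Agent.H212.KR

open Complex Filter Topology MeasureTheory

lemma VK_pos {h : ℝ} (hh : 0 < h) (t : ℝ) : 0 < PK h t := by
  unfold PK
  have := Real.pi_pos
  positivity

lemma VK_meas (h : ℝ) : Measurable (PK h) := by
  unfold PK
  fun_prop

lemma VK_int {h : ℝ} (hh : 0 < h) : ∫⁻ t, ENNReal.ofReal (PK h t) = 1 := by
  have hpi := Real.pi_pos
  have e : PK h = fun t => (Real.pi⁻¹ * h⁻¹) * (1 + (t / h) ^ 2)⁻¹ := by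
    funext t
    unfold PK
    field_simp
    ring
  have hi : Integrable (PK h) := by
    rw [e]
    exact (integrable_inv_one_add_sq.comp_div hh.ne').const_mul _
  have h1 : ∫ t, PK h t = 1 := by
    rw [e, integral_const_mul, Measure.integral_comp_div (fun t => (1 + t ^ 2)⁻¹),
      integral_univ_inv_one_add_sq, abs_of_pos hh, smul_eq_mul]
    field_simp
  rw [← ofReal_integral_eq_lintegral_ofReal hi
    (Eventually.of_forall fun t => (VK_pos hh t).le), h1, ENNReal.ofReal_one]

lemma VK_int1 {h : ℝ} (hh : 0 < h) (x : ℝ) : ∫⁻ s, ENNReal.ofReal (PK h (x - s)) = 1 := by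
  rw [← VK_int hh]
  exact lintegral_sub_left_eq_self (fun s => ENNReal.ofReal (PK h s)) x

lemma VK_int2 {h : ℝ} (hh : 0 < h) (x : ℝ) : ∫⁻ s, ENNReal.ofReal (PK h (s - x)) = 1 := by
  rw [← VK_int hh]
  exact lintegral_sub_right_eq_self (fun s => ENNReal.ofReal (PK h s)) x

/-- a bound for the kernel away from zero -/
lemma VK_le {h : ℝ} (hh : 0 < h) {c t : ℝ} (hc : 0 < c) (ht : c ≤ |t|) :
    PK h t ≤ h / (Real.pi * c ^ 2) := by
  unfold PK
  have hpi := Real.pi_pos
  have h1 : c ^ 2 ≤ t ^ 2 := by
    rw [← sq_abs t]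
    exact pow_le_pow_left₀ hc.le ht 2
  apply div_le_div_of_nonneg_left hh.le (by positivity)
  apply mul_le_mul_of_nonneg_left _ hpi.le
  nlinarith [sq_nonneg h]

lemma VK_le' {h : ℝ} (hh : 0 < h) (t : ℝ) : PK h t ≤ 1 / (Real.pi * h) := by
  unfold PK
  have hpi := Real.pi_pos
  rw [div_le_div_iff₀ (by positivity) (by positivity)]
  nlinarith [mul_nonneg hpi.le (sq_nonneg t)]

/-- the bound for the convolution of two kernels -/
lemma VK_conv {r a x u t : ℝ} (hr : 0 < r) (ha : r ≤ a) (ha3 : a ≤ 3 * r) (hx : |x - u| ≤ r)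
    (ht : t ≠ u) :
    ∫⁻ s, ENNReal.ofReal (PK a (x - s)) * ENNReal.ofReal (PK (2 * r) (s - t)) ≤
      ENNReal.ofReal (32 * r / (u - t) ^ 2) := by
  have hpi := Real.pi_pos
  have hpi3 := Real.pi_gt_three
  have ha0 : 0 < a := hr.trans_le ha
  have h2r : 0 < 2 * r := by positivity
  have htu : 0 < |u - t| := abs_pos.2 (sub_ne_zero.2 (Ne.symm ht))
  have htu2 : 0 < (u - t) ^ 2 := by rw [← sq_abs]; positivity
  rcases le_or_gt (2 * r) |u - t| with hc | hc
  · -- far
    set c := |u - t| / 4 with hcdef
    have hc0 : 0 < c := by positivity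
    have hsum : ∀ s : ℝ, c ≤ |x - s| ∨ c ≤ |s - t| := by
      intro s
      by_contra hcon
      push Not at hcon
      have h1 : |u - t| ≤ |x - u| + (|x - s| + |s - t|) := by
        have e : u - t = -(x - u) + ((x - s) + (s - t)) := by ring
        rw [e]
        refine (abs_add_le _ _).trans ?_
        rw [abs_neg]
        gcongr
        exact abs_add_le _ _
      have h2 : |x - s| + |s - t| < |u - t| / 2 := by
        have := hcon.1
        have := hcon.2
        rw [hcdef] at *
        linarith
      linarith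
    have hbd : ∀ s : ℝ, ENNReal.ofReal (PK a (x - s)) * ENNReal.ofReal (PK (2 * r) (s - t)) ≤
        ENNReal.ofReal (a / (Real.pi * c ^ 2)) * ENNReal.ofReal (PK (2 * r) (s - t)) +
        ENNReal.ofReal (2 * r / (Real.pi * c ^ 2)) * ENNReal.ofReal (PK a (x - s)) := by
      intro s
      rcases hsum s with h | h
      · refine le_trans ?_ le_self_add
        gcongr
        exact VK_le ha0 hc0 h
      · refine le_trans ?_ le_add_self
        rw [mul_comm]
        gcongr
        exact VK_le h2r hc0 h
    refine (lintegral_mono hbd).trans ?_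
    rw [lintegral_add_left (by
        have := VK_meas (2 * r)
        fun_prop), lintegral_const_mul _ (by
        have := VK_meas (2 * r)
        fun_prop), lintegral_const_mul _ (by
        have := VK_meas a
        fun_prop), VK_int1 ha0, VK_int2 h2r, mul_one, mul_one,
      ← ENNReal.ofReal_add (by positivity) (by positivity)]
    apply ENNReal.ofReal_le_ofReal
    have hc2 : c ^ 2 = (u - t) ^ 2 / 16 := by
      rw [hcdef, div_pow, sq_abs]
      norm_num
    rw [hc2, ← add_div, div_le_div_iff₀ (by positivity) htu2]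
    have : (a + 2 * r) ≤ 5 * r := by linarith
    have h5 : (a + 2 * r) * (u - t) ^ 2 ≤ 5 * r * (u - t) ^ 2 :=
      mul_le_mul_of_nonneg_right this htu2.le
    have h6 : 0 < r * (u - t) ^ 2 := by positivity
    have h7 : 3 * (r * (u - t) ^ 2) ≤ Real.pi * (r * (u - t) ^ 2) :=
      mul_le_mul_of_nonneg_right hpi3.le h6.le
    calc (a + 2 * r) * (u - t) ^ 2 ≤ 5 * r * (u - t) ^ 2 := h5
      _ ≤ 2 * (Real.pi * (r * (u - t) ^ 2)) := by nlinarith
      _ = 32 * r * (Real.pi * ((u - t) ^ 2 / 16)) := by ring
  · -- near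
    have hbd : ∀ s : ℝ, ENNReal.ofReal (PK a (x - s)) * ENNReal.ofReal (PK (2 * r) (s - t)) ≤
        ENNReal.ofReal (1 / (Real.pi * (2 * r))) * ENNReal.ofReal (PK a (x - s)) := by
      intro s
      rw [mul_comm]
      gcongr
      exact VK_le' h2r _
    refine (lintegral_mono hbd).trans ?_
    rw [lintegral_const_mul _ (by
        have := VK_meas a
        fun_prop), VK_int1 ha0, mul_one]
    apply ENNReal.ofReal_le_ofReal
    rw [div_le_div_iff₀ (by positivity) htu2, one_mul]
    have h8 : (u - t) ^ 2 ≤ (2 * r) ^ 2 := by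
      rw [← sq_abs (u - t)]
      exact pow_le_pow_left₀ htu.le hc.le 2
    have h9 : 3 * (r * r) ≤ Real.pi * (r * r) :=
      mul_le_mul_of_nonneg_right hpi3.le (by positivity)
    have h10 : 0 < r * r := by positivity
    calc (u - t) ^ 2 ≤ (2 * r) ^ 2 := h8
      _ = 4 * (r * r) := by ring
      _ ≤ 64 * (Real.pi * (r * r)) := by nlinarith
      _ = 32 * r * (Real.pi * (2 * r)) := by ring

/-- the integral of a non-negative function is at most its upper integral -/
lemma VK_ofReal_le {f : ℝ → ℝ} (hf : ∀ t, 0 ≤ f t) :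
    ENNReal.ofReal (∫ t, f t) ≤ ∫⁻ t, ENNReal.ofReal (f t) := by
  by_cases hi : Integrable f
  · exact (ofReal_integral_eq_lintegral_ofReal hi (Eventually.of_forall hf)).le
  · rw [integral_undef hi]
    simp

theorem t_VK : S_VK := by
  intro V hV C hV0 hVC u lam hlam hJ r a x hr ha ha3 hx
  have ha0 : 0 < a := hr.trans_le ha
  have h2r : 0 < 2 * r := by positivity
  have hin : ∀ s, 0 ≤ ∫ t : ℝ, PK (2 * r) (s - t) * V t := fun s =>
    integral_nonneg fun t => mul_nonneg (VK_pos h2r _).le (hV0 t)
  have hma := VK_meas a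
  have hmr := VK_meas (2 * r)
  have key : ENNReal.ofReal (∫ s : ℝ, PK a (x - s) * ∫ t : ℝ, PK (2 * r) (s - t) * V t) ≤
      ENNReal.ofReal (32 * r * lam) := by
    calc ENNReal.ofReal (∫ s : ℝ, PK a (x - s) * ∫ t : ℝ, PK (2 * r) (s - t) * V t)
        ≤ ∫⁻ s, ENNReal.ofReal (PK a (x - s) * ∫ t : ℝ, PK (2 * r) (s - t) * V t) :=
          VK_ofReal_le fun s => mul_nonneg (VK_pos ha0 _).le (hin s)
      _ ≤ ∫⁻ s, ∫⁻ t, ENNReal.ofReal (PK a (x - s)) *
            (ENNReal.ofReal (PK (2 * r) (s - t)) * ENNReal.ofReal (V t)) := by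
          apply lintegral_mono
          intro s
          show ENNReal.ofReal (PK a (x - s) * ∫ t : ℝ, PK (2 * r) (s - t) * V t) ≤
            ∫⁻ t, ENNReal.ofReal (PK a (x - s)) *
              (ENNReal.ofReal (PK (2 * r) (s - t)) * ENNReal.ofReal (V t))
          rw [lintegral_const_mul _ (by fun_prop)]
          rw [ENNReal.ofReal_mul (VK_pos ha0 _).le]
          gcongr
          refine (VK_ofReal_le fun t => mul_nonneg (VK_pos h2r _).le (hV0 t)).trans ?_
          apply lintegral_mono
          intro t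
          show ENNReal.ofReal (PK (2 * r) (s - t) * V t) ≤ _
          rw [ENNReal.ofReal_mul (VK_pos h2r _).le]
      _ = ∫⁻ t, ∫⁻ s, ENNReal.ofReal (PK a (x - s)) *
            (ENNReal.ofReal (PK (2 * r) (s - t)) * ENNReal.ofReal (V t)) := by
          apply lintegral_lintegral_swap
          apply Measurable.aemeasurable
          unfold Function.uncurry
          fun_prop
      _ = ∫⁻ t, (∫⁻ s, ENNReal.ofReal (PK a (x - s)) * ENNReal.ofReal (PK (2 * r) (s - t))) *
            ENNReal.ofReal (V t) := by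
          apply lintegral_congr
          intro t
          rw [← lintegral_mul_const _ (by fun_prop)]
          apply lintegral_congr
          intro s
          rw [mul_assoc]
      _ ≤ ∫⁻ t, ENNReal.ofReal (32 * r) * ENNReal.ofReal (V t / (u - t) ^ 2) := by
          apply lintegral_mono_ae
          have hne : ∀ᵐ t : ℝ, t ≠ u := by
            rw [ae_iff]
            simp
          filter_upwards [hne] with t ht
          calc (∫⁻ s, ENNReal.ofReal (PK a (x - s)) * ENNReal.ofReal (PK (2 * r) (s - t))) *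
              ENNReal.ofReal (V t) ≤ ENNReal.ofReal (32 * r / (u - t) ^ 2) *
                ENNReal.ofReal (V t) := by
                gcongr
                exact VK_conv hr ha ha3 hx ht
            _ = ENNReal.ofReal (32 * r) * ENNReal.ofReal (V t / (u - t) ^ 2) := by
                rw [← ENNReal.ofReal_mul (by positivity), ← ENNReal.ofReal_mul (by positivity)]
                congr 1
                ring
      _ = ENNReal.ofReal (32 * r) * ∫⁻ t, ENNReal.ofReal (V t / (u - t) ^ 2) :=
          lintegral_const_mul _ (by fun_prop)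
      _ ≤ ENNReal.ofReal (32 * r) * ENNReal.ofReal lam := by gcongr
      _ = ENNReal.ofReal (32 * r * lam) := by
          rw [← ENNReal.ofReal_mul (by positivity)]
  exact (ENNReal.ofReal_le_ofReal_iff (by positivity)).1 key

end Pool.Agent.H212.KR
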