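import Pool.Agent.H212.KR.Stm

/-! # The vanishing set trick: assembly (`S_VT`), by helper870 -/

set_option autoImplicit false

namespace Pool.Agent.H212.KR

open Complex Filter Topology MeasureTheory

namespace VTaux

theorem PK_nonneg {h : ℝ} (hh : 0 < h) (t : ℝ) : 0 ≤ PK h t := by
  unfold PK
  have := Real.pi_pos
  positivity

theorem PK_meas (h : ℝ) : Measurable (PK h) := by
  unfold PK
  fun_prop

theorem PK_eq {h : ℝ} (hh : 0 < h) (t : ℝ) : PK h t = (1 / (Real.pi * h)) * (1 + (t / h) ^ 2)⁻¹ := by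
  unfold PK
  have hpi := Real.pi_pos
  have h1 : 0 < t ^ 2 + h ^ 2 := by positivity
  have h2 : 0 < 1 + (t / h) ^ 2 := by positivity
  have e : 1 + (t / h) ^ 2 = (t ^ 2 + h ^ 2) / h ^ 2 := by
    field_simp
    ring
  rw [e]
  field_simp

theorem PK_int {h : ℝ} (hh : 0 < h) : Integrable (PK h) ∧ ∫ t, PK h t = 1 := by
  have hpi := Real.pi_pos
  have e : PK h = fun t => (1 / (Real.pi * h)) * (fun s : ℝ => (1 + s ^ 2)⁻¹) (t / h) := by
    funext t
    exact PK_eq hh t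
  rw [e]
  refine ⟨(integrable_inv_one_add_sq.comp_div hh.ne').const_mul _, ?_⟩
  rw [integral_const_mul, Measure.integral_comp_div (fun s : ℝ => (1 + s ^ 2)⁻¹) h,
    integral_univ_inv_one_add_sq, abs_of_pos hh, smul_eq_mul]
  field_simp

theorem PK_sub {h : ℝ} (hh : 0 < h) (x : ℝ) :
    Integrable (fun s => PK h (x - s)) ∧ ∫ s, PK h (x - s) = 1 := by
  refine ⟨(PK_int hh).1.comp_sub_left x, ?_⟩
  rw [integral_sub_left_eq_self (PK h) volume x]
  exact (PK_int hh).2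

theorem PK_mul_int {h : ℝ} (hh : 0 < h) (x : ℝ) {g : ℝ → ℝ} (hg : Measurable g) {B : ℝ}
    (hB : ∀ s, |g s| ≤ B) : Integrable (fun s => PK h (x - s) * g s) := by
  refine ((PK_sub hh x).1.mul_const B).mono' ?_ (Eventually.of_forall fun s => ?_)
  · exact (((PK_meas h).comp (measurable_const.sub measurable_id)).mul hg).aestronglyMeasurable
  · rw [Real.norm_eq_abs, abs_mul, abs_of_nonneg (PK_nonneg hh _)]
    exact mul_le_mul_of_nonneg_left (hB s) (PK_nonneg hh _)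

/-- comparison of Poisson integrals -/
theorem PK_mono {h : ℝ} (hh : 0 < h) (x : ℝ) {f g : ℝ → ℝ} (hf : Measurable f) (hg : Measurable g)
    {B B' : ℝ} (hB : ∀ s, |f s| ≤ B) (hB' : ∀ s, |g s| ≤ B') {c : ℝ} (hfg : ∀ s, f s ≤ c + g s) :
    ∫ s, PK h (x - s) * f s ≤ c + ∫ s, PK h (x - s) * g s := by
  have h1 := PK_sub hh x
  have h2 : ∫ s, PK h (x - s) * (c + g s) = c + ∫ s, PK h (x - s) * g s := by
    have e : ∀ s, PK h (x - s) * (c + g s) = PK h (x - s) * c + PK h (x - s) * g s := fun s => by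
      ring
    simp only [e]
    rw [integral_add (h1.1.mul_const c) (PK_mul_int hh x hg hB'), integral_mul_const, h1.2,
      one_mul]
  rw [← h2]
  refine integral_mono (PK_mul_int hh x hf hB)
    (PK_mul_int hh x (measurable_const.add hg) (B := |c| + B') (fun s => ?_)) (fun s => ?_)
  · exact (abs_add_le _ _).trans (by linarith [hB' s])
  · exact mul_le_mul_of_nonneg_left (hfg s) (PK_nonneg hh _)

/-- the Poisson integral of a bounded function -/
theorem PK_conv {b : ℝ} (hb : 0 < b) {V : ℝ → ℝ} (hV : Measurable V) {C : ℝ} (h0 : ∀ x, 0 ≤ V x)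
    (hC : ∀ x, V x ≤ C) : Measurable (fun s => ∫ t, PK b (s - t) * V t) ∧
      ∀ s, |∫ t, PK b (s - t) * V t| ≤ C := by
  have hVa : ∀ s, |V s| ≤ C := fun s => by rw [abs_of_nonneg (h0 s)]; exact hC s
  constructor
  · have hm : Measurable (fun p : ℝ × ℝ => PK b (p.1 - p.2) * V p.2) :=
      ((PK_meas b).comp (measurable_fst.sub measurable_snd)).mul (hV.comp measurable_snd)
    exact (hm.stronglyMeasurable.integral_prod_right').measurable
  · intro s
    have h1 : 0 ≤ ∫ t, PK b (s - t) * V t :=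
      integral_nonneg fun t => mul_nonneg (PK_nonneg hb _) (h0 t)
    rw [abs_of_nonneg h1]
    have h2 := PK_mono hb s hV (measurable_const (a := (0 : ℝ))) hVa (B' := 0)
      (fun _ => by simp) (c := C) (fun t => by linarith [hC t])
    simpa using h2

/-- the normalised `log⁺` -/
noncomputable def vv (F : ℂ → ℂ) (D : ℝ) (z : ℂ) : ℝ := Real.posLog ‖F z‖ / D

theorem vv_nonneg (F : ℂ → ℂ) {D : ℝ} (hD : 0 < D) (z : ℂ) : 0 ≤ vv F D z :=
  div_nonneg Real.posLog_nonneg hD.le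

theorem posLog_le_of {x B : ℝ} (hx : 0 ≤ x) (hB : 0 ≤ B) (h : x ≤ Real.exp B) :
    Real.posLog x ≤ B := by
  unfold Real.posLog
  refine max_le hB ?_
  rcases hx.eq_or_lt with h0 | h0
  · rw [← h0, Real.log_zero]
    exact hB
  · exact (Real.log_le_iff_le_exp h0).mpr h

theorem le_exp_posLog (x : ℝ) : x ≤ Real.exp (Real.posLog x) := by
  rcases le_or_gt x 0 with h | h
  · exact h.trans (Real.exp_pos _).le
  · calc x = Real.exp (Real.log x) := (Real.exp_log h).symm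
      _ ≤ Real.exp (Real.posLog x) := Real.exp_le_exp.mpr (le_max_right _ _)

theorem vv_le {F : ℂ → ℂ} {D C : ℝ} (hD : 0 < D) (hC : 0 ≤ C)
    (hF : ∀ z, ‖F z‖ ≤ Real.exp (D * (C + |z.im|))) (z : ℂ) : vv F D z ≤ C + |z.im| := by
  unfold vv
  rw [div_le_iff₀ hD]
  have h1 : 0 ≤ D * (C + |z.im|) := by
    have := abs_nonneg z.im
    positivity
  have h2 := posLog_le_of (norm_nonneg _) h1 (hF z)
  linarith

theorem vv_meas {F : ℂ → ℂ} (hF : Continuous F) (D a : ℝ) :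
    Measurable (fun t : ℝ => vv F D ((t : ℂ) + (a : ℂ) * I)) := by
  unfold vv
  have h1 : Continuous (fun t : ℝ => F ((t : ℂ) + (a : ℂ) * I)) :=
    hF.comp (by fun_prop)
  exact ((Real.continuous_posLog.comp h1.norm).measurable).div_const D

/-- the Poisson inequality upwards and downwards -/
theorem star (hPI : S_PI) {F : ℂ → ℂ} (hF : Differentiable ℂ F) (hper : ∀ z, F (z + 1) = F z)
    {D C : ℝ} (hD : 0 < D) (hC : 0 ≤ C) (hb : ∀ z, ‖F z‖ ≤ Real.exp (D * (C + |z.im|)))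
    (a x h : ℝ) (hh : 0 < h) :
    vv F D ((x : ℂ) + ((a + h : ℝ) : ℂ) * I) ≤
      h + ∫ t : ℝ, PK h (x - t) * vv F D ((t : ℂ) + (a : ℂ) * I) ∧
    vv F D ((x : ℂ) + ((a - h : ℝ) : ℂ) * I) ≤
      h + ∫ t : ℝ, PK h (x - t) * vv F D ((t : ℂ) + (a : ℂ) * I) := by
  have hCa : 0 ≤ D * (C + |a|) := by
    have := abs_nonneg a
    positivity
  have hdiv : ∀ (P : ℝ → ℝ) (g : ℝ → ℝ), ∫ t : ℝ, P t * (g t / D) = (∫ t : ℝ, P t * g t) / D := by
    intro P g
    rw [← integral_div]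
    congr 1
    funext t
    ring
  constructor
  · have h1 := hPI (fun z => F (z + (a : ℂ) * I)) (hF.comp (by fun_prop)) (fun z => by
      show F (z + 1 + (a : ℂ) * I) = F (z + (a : ℂ) * I)
      rw [← hper (z + (a : ℂ) * I)]
      congr 1
      ring) (D * (C + |a|)) D hCa hD.le (fun z => by
      refine (hb _).trans (Real.exp_le_exp.mpr ?_)
      have e : (z + (a : ℂ) * I).im = z.im + a := by simp
      rw [e]
      have := abs_add_le z.im a
      nlinarith) x h hh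
    unfold vv
    rw [hdiv, div_le_iff₀ hD]
    have e1 : (x : ℂ) + ((a + h : ℝ) : ℂ) * I = (x : ℂ) + h * I + (a : ℂ) * I := by
      push_cast
      ring
    rw [e1]
    refine h1.trans (le_of_eq ?_)
    rw [add_mul, div_mul_cancel₀ _ hD.ne', mul_comm D h]
    rfl
  · have h1 := hPI (fun z => F (-z + (a : ℂ) * I)) (hF.comp (by fun_prop)) (fun z => by
      show F (-(z + 1) + (a : ℂ) * I) = F (-z + (a : ℂ) * I)
      rw [← hper (-(z + 1) + (a : ℂ) * I)]
      congr 1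
      ring) (D * (C + |a|)) D hCa hD.le (fun z => by
      refine (hb _).trans (Real.exp_le_exp.mpr ?_)
      have e : (-z + (a : ℂ) * I).im = -z.im + a := by simp
      rw [e]
      have := abs_add_le (-z.im) a
      rw [abs_neg] at this
      nlinarith) (-x) h hh
    unfold vv
    rw [hdiv, div_le_iff₀ hD]
    have e1 : (x : ℂ) + ((a - h : ℝ) : ℂ) * I = -(((-x : ℝ) : ℂ) + h * I) + (a : ℂ) * I := by
      push_cast
      ring
    rw [e1]
    refine h1.trans (le_of_eq ?_)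
    rw [add_mul, div_mul_cancel₀ _ hD.ne', mul_comm D h]
    congr 1
    rw [← integral_neg_eq_self (fun t : ℝ => PK h (x - t) * Real.posLog ‖F ((t : ℂ) + (a : ℂ) * I)‖)]
    congr 1
    funext t
    unfold PK
    have e2 : (x - -t) ^ 2 = (-x - t) ^ 2 := by ring
    rw [e2]
    congr 4
    push_cast
    ring

/-- two steps -/
theorem two {F : ℂ → ℂ} (hF : Continuous F) {D C : ℝ} (hD : 0 < D) (hC : 0 ≤ C)
    (hb : ∀ z, ‖F z‖ ≤ Real.exp (D * (C + |z.im|))) {V : ℝ → ℝ} (hV : Measurable V)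
    (hV0 : ∀ x, 0 ≤ V x) (hVC : ∀ x, V x ≤ C) (hvV : ∀ x : ℝ, vv F D (x : ℂ) ≤ V x)
    {a1 b y0 : ℝ} (ha1 : 0 < a1) (hb0 : 0 < b) {z : ℂ} {x : ℝ}
    (h1 : vv F D z ≤ a1 + ∫ s : ℝ, PK a1 (x - s) * vv F D ((s : ℂ) + (y0 : ℂ) * I))
    (h2 : ∀ s : ℝ, vv F D ((s : ℂ) + (y0 : ℂ) * I) ≤
      b + ∫ t : ℝ, PK b (s - t) * vv F D ((t : ℂ) + ((0 : ℝ) : ℂ) * I)) :
    vv F D z ≤ (a1 + b) + ∫ s : ℝ, PK a1 (x - s) * ∫ t : ℝ, PK b (s - t) * V t := by
  obtain ⟨hWm, hWb⟩ := PK_conv hb0 hV hV0 hVC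
  have h3 : ∀ s : ℝ, vv F D ((s : ℂ) + (y0 : ℂ) * I) ≤ b + ∫ t : ℝ, PK b (s - t) * V t := by
    intro s
    have h4 := PK_mono hb0 s (vv_meas hF D 0) hV (B := C) (B' := C) (c := 0)
      (fun t => by
        rw [abs_of_nonneg (vv_nonneg F hD _)]
        have := vv_le hD hC hb ((t : ℂ) + ((0 : ℝ) : ℂ) * I)
        simpa using this)
      (fun t => by rw [abs_of_nonneg (hV0 t)]; exact hVC t)
      (fun t => by
        have e : ((t : ℂ) + ((0 : ℝ) : ℂ) * I) = (t : ℂ) := by simp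
        rw [e, zero_add]
        exact hvV t)
    linarith [h2 s]
  have h5 := PK_mono ha1 x (vv_meas hF D y0) hWm (B := C + |y0|) (B' := C) (c := b)
    (fun t => by
      rw [abs_of_nonneg (vv_nonneg F hD _)]
      have := vv_le hD hC hb ((t : ℂ) + (y0 : ℂ) * I)
      simpa using this) hWb h3
  linarith

theorem shift_mem {A : Set ℝ} (hA : ∀ x, x + 1 ∈ A ↔ x ∈ A) (k : ℤ) (x : ℝ) :
    x + k ∈ A ↔ x ∈ A := by
  induction k using Int.induction_on with
  | zero => simp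
  | succ i ih =>
    have e : x + ((i : ℤ) + 1 : ℤ) = (x + (i : ℤ)) + 1 := by push_cast; ring
    rw [e, hA]
    exact ih
  | pred i ih =>
    have e : x + ((-(i : ℤ) : ℤ) : ℝ) = (x + ((-(i : ℤ) - 1 : ℤ) : ℝ)) + 1 := by push_cast; ring
    rw [e, hA] at ih
    exact ih

theorem vol_cell {A : Set ℝ} (hA : ∀ x, x + 1 ∈ A ↔ x ∈ A) (hv : volume A ≠ 0) :
    volume (A ∩ Set.Icc 0 1) ≠ 0 := by
  intro h0
  apply hv
  have hsub : A ⊆ ⋃ k : ℤ, (fun x : ℝ => x + (k : ℝ)) ⁻¹' (A ∩ Set.Icc 0 1) := by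
    intro x hx
    rw [Set.mem_iUnion]
    refine ⟨-⌊x⌋, ?_⟩
    show x + ((-⌊x⌋ : ℤ) : ℝ) ∈ A ∩ Set.Icc 0 1
    refine ⟨(shift_mem hA _ _).mpr hx, ?_⟩
    push_cast
    exact ⟨by linarith [Int.floor_le x], by linarith [Int.lt_floor_add_one x]⟩
  refine measure_mono_null hsub (measure_iUnion_null fun k => ?_)
  rw [measure_preimage_add_right]
  exact h0

end VTaux

open VTaux in
/-- **VT** -/
theorem t_VT (hPI : S_PI) (hVJ : S_VJ) (hVK : S_VK) : S_VT := by
  intro F hF hper D hD C hC hb A hA hAper hA1 hAv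
  have hFc : ∀ n, Continuous (F n) := fun n => (hF n).continuous
  obtain ⟨V, hVdef⟩ : ∃ V : ℝ → ℝ, V = fun x : ℝ => ⨆ n, vv (F n) (D n) (x : ℂ) := ⟨_, rfl⟩
  have hvC : ∀ n (x : ℝ), vv (F n) (D n) (x : ℂ) ≤ C := fun n x => by
    have := vv_le (hD n) hC (hb n) (x : ℂ)
    simpa using this
  have hbdd : ∀ x : ℝ, BddAbove (Set.range fun n => vv (F n) (D n) (x : ℂ)) := fun x =>
    ⟨C, by rintro _ ⟨n, rfl⟩; exact hvC n x⟩
  have hvm : ∀ n, Measurable (fun x : ℝ => vv (F n) (D n) (x : ℂ)) := fun n => by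
    have h := vv_meas (hFc n) (D n) 0
    simpa using h
  have hVm : Measurable V := by
    rw [hVdef]
    exact Measurable.iSup hvm
  have hvV : ∀ n (x : ℝ), vv (F n) (D n) (x : ℂ) ≤ V x := fun n x => by
    rw [hVdef]
    exact le_ciSup (hbdd x) n
  have hV0 : ∀ x, 0 ≤ V x := fun x => (vv_nonneg (F 0) (hD 0) _).trans (hvV 0 x)
  have hVC : ∀ x, V x ≤ C := fun x => by
    rw [hVdef]
    exact ciSup_le fun n => hvC n x
  have hVper : ∀ x, V (x + 1) = V x := fun x => by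
    rw [hVdef]
    show (⨆ n, vv (F n) (D n) ((x + 1 : ℝ) : ℂ)) = ⨆ n, vv (F n) (D n) (x : ℂ)
    congr 1
    funext n
    unfold vv
    push_cast
    rw [hper]
  have hVA : ∀ x ∈ A, V x = 0 := fun x hx => by
    refine le_antisymm ?_ (hV0 x)
    rw [hVdef]
    refine ciSup_le fun n => ?_
    unfold vv
    have h1 : Real.posLog ‖F n (x : ℂ)‖ = 0 := by
      rw [Real.posLog_eq_zero_iff, abs_of_nonneg (norm_nonneg _)]
      exact hA1 n x hx
    rw [h1, zero_div]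
  have hstep : ∀ h : ℝ, 0 < h → ∀ x, V x ≤ h + ∫ s : ℝ, PK (h / 2) (x - s) *
      ∫ t : ℝ, PK (h / 2) (s - t) * V t := by
    intro h hh x
    have hh2 : 0 < h / 2 := by linarith
    have key : ∀ n, vv (F n) (D n) (x : ℂ) ≤ h + ∫ s : ℝ, PK (h / 2) (x - s) *
        ∫ t : ℝ, PK (h / 2) (s - t) * V t := by
      intro n
      have h1 := (star hPI (hF n) (hper n) (hD n) hC (hb n) (h / 2) x (h / 2) hh2).2
      have e : ((x : ℂ) + ((h / 2 - h / 2 : ℝ) : ℂ) * I) = (x : ℂ) := by simp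
      rw [e] at h1
      have h2 := fun s : ℝ => (star hPI (hF n) (hper n) (hD n) hC (hb n) 0 s (h / 2) hh2).1
      simp only [zero_add] at h2
      have h3 := two (hFc n) (hD n) hC (hb n) hVm hV0 hVC (hvV n) hh2 hh2 h1 h2
      rw [add_halves] at h3
      exact h3
    conv_lhs => rw [hVdef]
    exact ciSup_le key
  have hJ := hVJ V hVm hVper C hV0 hVC A hA hAper hVA hstep
  obtain ⟨J, hJdef⟩ : ∃ J : ℝ → ENNReal,
      J = fun u => ∫⁻ t : ℝ, ENNReal.ofReal (V t / (u - t) ^ 2) := ⟨_, rfl⟩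
  have hJm : Measurable J := by
    rw [hJdef]
    have hm : Measurable (fun p : ℝ × ℝ => ENNReal.ofReal (V p.2 / (p.1 - p.2) ^ 2)) :=
      ((hVm.comp measurable_snd).div ((measurable_fst.sub measurable_snd).pow_const 2)).ennreal_ofReal
    exact hm.lintegral_prod_right'
  have hJfin : ∀ᵐ u ∂(volume.restrict (A ∩ Set.Icc 0 1)), J u < ⊤ := by
    refine ae_lt_top hJm ?_
    rw [hJdef]
    exact ne_top_of_le_ne_top ENNReal.ofReal_ne_top hJ
  have hcell := vol_cell hAper hAv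
  have hAm : MeasurableSet (A ∩ Set.Icc (0 : ℝ) 1) := hA.inter measurableSet_Icc
  -- the set
  obtain ⟨N, hN⟩ : ∃ N : ℕ, volume ((A ∩ Set.Icc 0 1) ∩ {u | J u ≤ (N : ENNReal)}) ≠ 0 := by
    by_contra hcon
    push Not at hcon
    apply hcell
    rw [ae_restrict_iff' hAm] at hJfin
    have hsub : A ∩ Set.Icc 0 1 ⊆ (⋃ N : ℕ, (A ∩ Set.Icc 0 1) ∩ {u | J u ≤ (N : ENNReal)}) ∪
        {u | ¬ (u ∈ A ∩ Set.Icc 0 1 → J u < ⊤)} := by
      intro u hu
      by_cases hf : J u < ⊤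
      · left
        obtain ⟨N, hN⟩ := ENNReal.exists_nat_gt hf.ne
        exact Set.mem_iUnion.mpr ⟨N, hu, hN.le⟩
      · right
        intro h
        exact hf (h hu)
    refine measure_mono_null hsub (measure_union_null (measure_iUnion_null hcon) ?_)
    exact hJfin
  refine ⟨(A ∩ Set.Icc 0 1) ∩ {u | J u ≤ (N : ENNReal)}, fun u hu => hu.1.1,
    hAm.inter (measurableSet_le hJm measurable_const), hN, 5 + 32 * (N : ℝ), by positivity, ?_⟩
  intro n u hu ζ
  have huA : u ∈ A := hu.1.1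
  by_cases hζ : ζ = 0
  · rw [hζ, add_zero, norm_zero, mul_zero, Real.exp_zero]
    exact hA1 n u huA
  obtain ⟨r, hr⟩ : ∃ r : ℝ, r = ‖ζ‖ := ⟨_, rfl⟩
  have hr0 : 0 < r := by rw [hr]; exact norm_pos_iff.mpr hζ
  have him : |ζ.im| ≤ r := by rw [hr]; exact Complex.abs_im_le_norm ζ
  have hre : |ζ.re| ≤ r := by rw [hr]; exact Complex.abs_re_le_norm ζ
  obtain ⟨him1, him2⟩ := abs_le.mp him
  have ha0 : 0 < ζ.im + 2 * r := by linarith
  have h2r : 0 < 2 * r := by linarith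
  have h1 := (star hPI (hF n) (hper n) (hD n) hC (hb n) (-(2 * r)) (u + ζ.re) (ζ.im + 2 * r) ha0).1
  have e : (((u + ζ.re : ℝ) : ℂ) + ((-(2 * r) + (ζ.im + 2 * r) : ℝ) : ℂ) * I) = (u : ℂ) + ζ := by
    apply Complex.ext <;> simp
  rw [e] at h1
  have h2 := fun s : ℝ => (star hPI (hF n) (hper n) (hD n) hC (hb n) 0 s (2 * r) h2r).2
  simp only [zero_sub] at h2
  have h3 := two (hFc n) (hD n) hC (hb n) hVm hV0 hVC (hvV n) ha0 h2r h1 h2
  have hJu : ∫⁻ t : ℝ, ENNReal.ofReal (V t / (u - t) ^ 2) ≤ ENNReal.ofReal (N : ℝ) := by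
    have h4 : J u ≤ (N : ENNReal) := hu.2
    rw [hJdef] at h4
    rw [ENNReal.ofReal_natCast]
    exact h4
  have h5 := hVK V hVm C hV0 hVC u (N : ℝ) (Nat.cast_nonneg N) hJu r (ζ.im + 2 * r) (u + ζ.re) hr0
    (by linarith) (by linarith) (by rw [add_sub_cancel_left]; exact hre)
  have h6 : vv (F n) (D n) ((u : ℂ) + ζ) ≤ (5 + 32 * (N : ℝ)) * r := by linarith
  have h7 : Real.posLog ‖F n ((u : ℂ) + ζ)‖ ≤ (5 + 32 * (N : ℝ)) * D n * ‖ζ‖ := by
    unfold vv at h6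
    rw [div_le_iff₀ (hD n)] at h6
    rw [← hr]
    linarith
  exact (le_exp_posLog _).trans (Real.exp_le_exp.mpr h7)

end Pool.Agent.H212.KR
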