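import Pool.Agent.H212.KR.T_PI
import Pool.Agent.H212.KR.T_VJ
import Pool.Agent.H212.KR.T_VK
import Pool.Agent.H212.KR.T_VT
import Pool.Agent.H212.KR.T_TC
import Pool.Agent.H212.KR.T_CAS
import Pool.Agent.H212.KR.T_ST
import Pool.Agent.H212.KR.T_DPB
import Pool.Agent.H212.KR.T_G0
import Pool.Agent.H212.KR.T_BC
import Pool.Agent.H212.KR.T_CR1
import Pool.Agent.H212.KR.T_CR2
import Pool.Agent.H212.KR.T_CR3
import Pool.Agent.H212.KR.T_CR
import Pool.Agent.H212.KR.T_EV
import Pool.Agent.H212.KR.T_NGA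
import Pool.Agent.H212.KR.T_WIN
import Pool.Agent.H212.KR.T_A
import Pool.Agent.H212.KR.T_B
import Pool.Agent.H212.KR.T_D

/-!
# Assembly: absorbed points are dense over almost every base point
-/

set_option autoImplicit false

namespace Pool.Agent.H212.KR

theorem f_VT : S_VT := t_VT t_PI t_VJ t_VK

theorem f_CR : S_CR := t_CR t_CR1 t_CR2 t_CR3

theorem f_WIN : S_WIN := t_WIN t_TC t_CAS t_PER t_BAD t_G0 f_CR t_EV t_NUM

theorem f_A : S_A := t_A f_VT t_ST t_DEN t_BC f_WIN t_GR t_AM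

theorem f_D : S_D := t_D f_A t_B

end Pool.Agent.H212.KR
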