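import Pool.Agent.H212.KR.Stm2
import Pool.Agent.H212.KR.T_CR2

/-!
# KR AR: absorbed balls of definite size near the base point `0` (helper962)
-/

set_option autoImplicit false

namespace Pool.Agent.H212.KR

open Complex Filter Topology MeasureTheory
open Pool.Agent.TH229.Kan

/-- the orbit over the base point `0` -/
noncomputable def AR_F (L : ℕ) (α : ℝ) (w : ℂ) (k : ℕ) : ℂ := Phi L (α : ℂ) w k ((0 : ℝ) : ℂ)

theorem AR_step (L : ℕ) (α : ℝ) (w : ℂ) (k : ℕ) :
    AR_F L α w (k + 1) = AR_F L α w k * (1 + α * (1 - AR_F L α w k)) := by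
  unfold AR_F
  rw [Phi_succ_real']
  have h1 : cr L k 0 = 1 := by
    unfold cr
    simp
  rw [h1]
  push_cast
  ring

theorem AR_add (L : ℕ) (α : ℝ) (w : ℂ) (n k : ℕ) :
    AR_F L α w (n + k) = AR_F L α (AR_F L α w n) k := by
  unfold AR_F
  rw [Phi_add_real, mul_zero]

theorem AR_shift {L : ℕ} {α : ℝ} {w : ℂ} (n : ℕ)
    (h : Absorbed L (α : ℂ) (AR_F L α w n) 0) : Absorbed L (α : ℂ) w 0 := by
  refine Absorbed_shift n ?_
  rw [mul_zero]
  exact h

theorem AR_F0 (L : ℕ) (α : ℝ) (k : ℕ) : AR_F L α 0 k = 0 := by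
  induction k with
  | zero => rfl
  | succ k ih => rw [AR_step, ih, zero_mul]

theorem AR_F1 (L : ℕ) (α : ℝ) (k : ℕ) : AR_F L α 1 k = 1 := by
  induction k with
  | zero => rfl
  | succ k ih => rw [AR_step, ih, sub_self, mul_zero, add_zero, mul_one]

theorem AR_abs0 (L : ℕ) (α : ℝ) : Absorbed L (α : ℂ) 0 0 := by
  left
  have h : (fun n => Phi L (α : ℂ) 0 n ((0 : ℝ) : ℂ)) = fun _ => (0 : ℂ) :=
    funext fun n => AR_F0 L α n
  rw [h]
  exact tendsto_const_nhds

/-- repulsion -/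
theorem AR_rep (L : ℕ) {α : ℝ} (h0 : 0 < α) {w : ℂ} {K : ℕ}
    (h : ∀ k, K ≤ k → ‖AR_F L α w k‖ ≤ 1 / 4) : AR_F L α w K = 0 := by
  by_contra hne
  have hpos : 0 < ‖AR_F L α w K‖ := norm_pos_iff.2 hne
  have key : ∀ j : ℕ, (1 + α / 2) ^ j * ‖AR_F L α w K‖ ≤ ‖AR_F L α w (K + j)‖ := by
    intro j
    induction j with
    | zero => simp
    | succ j ih =>
      have h1 := h (K + j) (by omega)
      rw [← add_assoc, AR_step, norm_mul]
      have h2 : 1 + α / 2 ≤ ‖1 + (α : ℂ) * (1 - AR_F L α w (K + j))‖ := by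
        have e : 1 + (α : ℂ) * (1 - AR_F L α w (K + j)) =
            ((1 + α : ℝ) : ℂ) - (α : ℂ) * AR_F L α w (K + j) := by
          push_cast
          ring
        have h3 := norm_sub_norm_le ((1 + α : ℝ) : ℂ) ((α : ℂ) * AR_F L α w (K + j))
        rw [norm_mul, Complex.norm_real, Complex.norm_real, Real.norm_eq_abs, Real.norm_eq_abs,
          abs_of_pos h0, abs_of_pos (by linarith : (0 : ℝ) < 1 + α)] at h3
        rw [e]
        nlinarith
      calc (1 + α / 2) ^ (j + 1) * ‖AR_F L α w K‖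
          = ((1 + α / 2) ^ j * ‖AR_F L α w K‖) * (1 + α / 2) := by ring
        _ ≤ ‖AR_F L α w (K + j)‖ * ‖1 + (α : ℂ) * (1 - AR_F L α w (K + j))‖ :=
          mul_le_mul ih h2 (by positivity) (norm_nonneg _)
  obtain ⟨j, hj⟩ := pow_unbounded_of_one_lt ((1 / 4) / ‖AR_F L α w K‖)
    (by linarith : 1 < 1 + α / 2)
  rw [div_lt_iff₀ hpos] at hj
  linarith [key j, h (K + j) (by omega)]

/-- attraction to `1` -/
theorem AR_near1 (L : ℕ) {α : ℝ} (h0 : 0 < α) (h1 : α < 1) {w : ℂ} (hw : ‖w - 1‖ ≤ 1 / 2) :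
    Absorbed L (α : ℂ) w 0 := by
  right; left
  have key : ∀ k : ℕ, ‖AR_F L α w k - 1‖ ≤ (1 - α / 2) ^ k * (1 / 2) := by
    intro k
    induction k with
    | zero =>
      rw [pow_zero, one_mul]
      exact hw
    | succ k ih =>
      have e : AR_F L α w (k + 1) - 1 =
          (AR_F L α w k - 1) * (((1 - α : ℝ) : ℂ) - (α : ℂ) * (AR_F L α w k - 1)) := by
        rw [AR_step]
        push_cast
        ring
      have h2 : ‖AR_F L α w k - 1‖ ≤ 1 / 2 := by
        refine ih.trans ?_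
        have : (1 - α / 2) ^ k ≤ 1 := pow_le_one₀ (by linarith) (by linarith)
        linarith
      have h3 : ‖((1 - α : ℝ) : ℂ) - (α : ℂ) * (AR_F L α w k - 1)‖ ≤ 1 - α / 2 := by
        refine (norm_sub_le _ _).trans ?_
        rw [norm_mul, Complex.norm_real, Complex.norm_real, Real.norm_eq_abs, Real.norm_eq_abs,
          abs_of_pos h0, abs_of_pos (by linarith : (0 : ℝ) < 1 - α)]
        nlinarith
      rw [e, norm_mul]
      calc ‖AR_F L α w k - 1‖ * ‖((1 - α : ℝ) : ℂ) - (α : ℂ) * (AR_F L α w k - 1)‖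
          ≤ ((1 - α / 2) ^ k * (1 / 2)) * (1 - α / 2) :=
            mul_le_mul ih h3 (norm_nonneg _) (by
              have : 0 ≤ 1 - α / 2 := by linarith
              positivity)
        _ = (1 - α / 2) ^ (k + 1) * (1 / 2) := by ring
  rw [tendsto_iff_norm_sub_tendsto_zero]
  have hlim : Tendsto (fun k : ℕ => (1 - α / 2) ^ k * (1 / 2)) atTop (𝓝 (0 * (1 / 2))) :=
    (tendsto_pow_atTop_nhds_zero_of_lt_one (by linarith) (by linarith)).mul_const _
  rw [zero_mul] at hlim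
  exact squeeze_zero (fun _ => norm_nonneg _) key hlim

theorem AR_Phi (L : ℕ) (α w : ℝ) (k : ℕ) :
    AR_F L α (w : ℂ) k = (((CR2_f α)^[k] w : ℝ) : ℂ) := CR2_Phi L α w k

/-- every real point is absorbed over `0` -/
theorem AR_real (L : ℕ) {α : ℝ} (h0 : 0 < α) (h1 : α < 1) (p : ℝ) :
    Absorbed L (α : ℂ) (p : ℂ) 0 := by
  have hn : ‖(α : ℂ)‖ = α := by
    rw [Complex.norm_real, Real.norm_eq_abs, abs_of_pos h0]
  by_cases hp : p = 0
  · rw [hp, Complex.ofReal_zero]
    exact AR_abs0 L α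
  by_cases hp1 : p = 1 + 1 / α
  · refine AR_shift 1 ?_
    have e : AR_F L α (p : ℂ) 1 = 0 := by
      rw [AR_Phi, Function.iterate_one, hp1]
      unfold CR2_f
      have : (1 + 1 / α + α * (1 + 1 / α) * (1 - (1 + 1 / α)) : ℝ) = 0 := by
        field_simp
        ring
      rw [this, Complex.ofReal_zero]
    rw [e]
    exact AR_abs0 L α
  obtain ⟨k, hk⟩ := CR2_real (R := RE (α : ℂ) 1) (η1 := 1 / 2) h0 h1 (by norm_num) hp hp1
  refine AR_shift k ?_
  rw [AR_Phi]
  rcases hk with hk | hk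
  · refine absorbed_of_escape (M := 1) (by rw [hn]; exact h0) one_pos ?_ ?_
    · intro i
      have h2 : cr L i 0 = 1 := by
        unfold cr
        simp
      rw [h2, abs_one, one_mul]
      exact div_le_one_of_le₀ (one_le_pow₀ one_le_two) (by positivity)
    · rw [Complex.norm_real, Real.norm_eq_abs]
      exact hk.le
  · refine AR_near1 L h0 h1 ?_
    rw [← Complex.ofReal_one, ← Complex.ofReal_sub, Complex.norm_real, Real.norm_eq_abs]
    exact hk.le

theorem AR_diff (L : ℕ) (α : ℝ) (k : ℕ) : Differentiable ℂ fun w : ℂ => AR_F L α w k := by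
  induction k with
  | zero => exact differentiable_id
  | succ k ih =>
    have e : (fun w : ℂ => AR_F L α w (k + 1)) =
        fun w => AR_F L α w k * (1 + α * (1 - AR_F L α w k)) := funext fun w => AR_step L α w k
    rw [e]
    exact ih.mul ((differentiable_const _).add
      ((differentiable_const _).mul ((differentiable_const _).sub ih)))

/-- the image of a ball is open -/
theorem AR_open (L : ℕ) (α : ℝ) (k : ℕ) (z : ℂ) (r : ℝ) :
    IsOpen ((fun w : ℂ => AR_F L α w k) '' Metric.ball z r) := by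
  have h1 : AnalyticOnNhd ℂ (fun w : ℂ => AR_F L α w k) Set.univ :=
    fun w _ => (AR_diff L α k).analyticAt w
  rcases h1.is_constant_or_isOpen isPreconnected_univ with ⟨c, hc⟩ | h
  · exfalso
    have h2 := hc 0 (Set.mem_univ _)
    have h3 := hc 1 (Set.mem_univ _)
    simp only [AR_F0] at h2
    simp only [AR_F1] at h3
    rw [← h2] at h3
    exact one_ne_zero h3
  · exact h _ (Set.subset_univ _) Metric.isOpen_ball

/-- the points with a trapped orbit are dense -/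
theorem AR_dense (hB : S_B) (hCR2 : S_CR2) {L : ℕ} (hL : 2 ≤ L) {α : ℝ} (h0 : 0 < α) (h1 : α < 1)
    {R η1 : ℝ} (hR : 0 < R) (hη1 : 0 < η1) (z : ℂ) {r : ℝ} (hr : 0 < r) :
    ∃ w ∈ Metric.ball z r, ∃ k : ℕ, R < ‖AR_F L α w k‖ ∨ ‖AR_F L α w k - 1‖ < η1 := by
  by_contra hcon
  have hb : ∀ w ∈ Metric.ball z r, ∀ k : ℕ, ‖AR_F L α w k‖ ≤ R ∧ η1 ≤ ‖AR_F L α w k - 1‖ := by
    intro w hw k
    constructor
    · by_contra h
      exact hcon ⟨w, hw, k, Or.inl (not_le.1 h)⟩
    · by_contra h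
      exact hcon ⟨w, hw, k, Or.inr (not_le.1 h)⟩
  by_cases hA : ∃ w ∈ Metric.ball z r, Absorbed L (α : ℂ) w 0
  · obtain ⟨w, hw, hab⟩ := hA
    have hz : ∃ K, AR_F L α w K = 0 := by
      rcases hab with h | h | h
      · have h2 : ∀ᶠ k in atTop, ‖AR_F L α w k‖ < 1 / 4 := by
          have h3 : Tendsto (fun k => ‖AR_F L α w k‖) atTop (𝓝 ‖(0 : ℂ)‖) := h.norm
          rw [norm_zero] at h3
          exact h3.eventually (gt_mem_nhds (by norm_num))
        obtain ⟨K, hK⟩ := eventually_atTop.1 h2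
        exact ⟨K, AR_rep L h0 fun k hk => (hK k hk).le⟩
      · exfalso
        have h3 : Tendsto (fun k => ‖AR_F L α w k - 1‖) atTop (𝓝 ‖(1 : ℂ) - 1‖) :=
          (h.sub_const 1).norm
        rw [sub_self, norm_zero] at h3
        obtain ⟨k, hk⟩ := (h3.eventually (gt_mem_nhds hη1)).exists
        exact absurd (hb w hw k).2 (not_le.2 hk)
      · exfalso
        obtain ⟨k, hk⟩ := (h.eventually (eventually_gt_atTop R)).exists
        exact absurd (hb w hw k).1 (not_le.2 hk)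
    obtain ⟨K, hK⟩ := hz
    have hop := AR_open L α K z r
    have hmem : (0 : ℂ) ∈ (fun w : ℂ => AR_F L α w K) '' Metric.ball z r := ⟨w, hw, hK⟩
    obtain ⟨ρ, hρ, hball⟩ := Metric.isOpen_iff.1 hop 0 hmem
    obtain ⟨p, hp⟩ : ∃ p : ℝ, p = min (ρ / 2) (1 / 2) := ⟨_, rfl⟩
    have hp0 : 0 < p := by rw [hp]; positivity
    have hp1 : p ≤ 1 := by
      rw [hp]
      exact (min_le_right _ _).trans (by norm_num)
    have hpρ : p < ρ := by
      rw [hp]
      exact lt_of_le_of_lt (min_le_left _ _) (by linarith)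
    have hpm : (p : ℂ) ∈ Metric.ball (0 : ℂ) ρ := by
      rw [mem_ball_zero_iff, Complex.norm_real, Real.norm_eq_abs, abs_of_pos hp0]
      exact hpρ
    obtain ⟨w0, hw0, hw1⟩ := hball hpm
    have hw1' : AR_F L α w0 K = (p : ℂ) := hw1
    obtain ⟨j, hj⟩ := CR2_unit (R := R) h0 h1 hη1 hp0 hp1
    have h5 := hb w0 hw0 (K + j)
    rw [AR_add, hw1', AR_Phi] at h5
    rcases hj with hj | hj
    · have := h5.1
      rw [Complex.norm_real, Real.norm_eq_abs] at this
      linarith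
    · have := h5.2
      rw [← Complex.ofReal_one, ← Complex.ofReal_sub, Complex.norm_real, Real.norm_eq_abs] at this
      linarith
  · obtain ⟨N', δ', ε', hδ', hε', hcr⟩ := hCR2 L hL α h0 h1 R (1 / 8) η1 hR (by norm_num) hη1
    have hzb : z ∈ Metric.ball z r := Metric.mem_ball_self hr
    obtain ⟨N, hN⟩ := hB L hL α h0 h1 ε' (1 / 8) R hε' (by norm_num) le_rfl hR 0
      (fun n p => by rw [mul_zero]; exact AR_real L h0 h1 p) z r hr
      (fun w hw hab => hA ⟨w, hw, hab⟩)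
    have him : ∀ k, N ≤ k → |(AR_F L α z k).im| ≤ ε' := by
      intro k hk
      refine hN k hk 0 ?_ (hb z hzb k).1
      simp
    have hαi : 1 < 1 / α := by
      rw [lt_div_iff₀ h0]
      linarith
    have hni : ‖(1 : ℂ) + 1 / (α : ℂ)‖ = 1 + 1 / α := by
      have e : (1 : ℂ) + 1 / (α : ℂ) = ((1 + 1 / α : ℝ) : ℂ) := by push_cast; rfl
      rw [e, Complex.norm_real, Real.norm_eq_abs, abs_of_pos (by linarith)]
    have hor : ∀ k, N ≤ k → ‖AR_F L α z k‖ < 1 / 8 ∨ ‖AR_F L α z k - 1 - 1 / α‖ < 1 / 8 := by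
      intro k hk
      by_contra hc
      rw [not_or, not_lt, not_lt] at hc
      obtain ⟨j, -, hj⟩ := hcr (AR_F L α z k) (hb z hzb k).1 (him k hk) hc.1 hc.2 0 (by
        rw [abs_zero]
        exact hδ'.le)
      have hj' : R < ‖AR_F L α (AR_F L α z k) j‖ ∨ ‖AR_F L α (AR_F L α z k) j - 1‖ < η1 := hj
      rw [← AR_add] at hj'
      have h5 := hb z hzb (k + j)
      rcases hj' with hj' | hj'
      · linarith [h5.1]
      · linarith [h5.2]
    have hsm : ∀ k, N + 1 ≤ k → ‖AR_F L α z k‖ ≤ 1 / 4 := by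
      intro k hk
      obtain ⟨j, rfl⟩ : ∃ j, k = j + 1 := ⟨k - 1, by omega⟩
      have h3 : ‖AR_F L α z (j + 1)‖ < 3 / 8 := by
        obtain ⟨W, hW⟩ : ∃ W, W = AR_F L α z j := ⟨_, rfl⟩
        have h4 := hor j (by omega)
        rw [AR_step, ← hW, norm_mul]
        rw [← hW] at h4
        rcases h4 with h4 | h4
        · have h5 : ‖1 + (α : ℂ) * (1 - W)‖ ≤ 17 / 8 := by
            have e : 1 + (α : ℂ) * (1 - W) = ((1 + α : ℝ) : ℂ) - (α : ℂ) * W := by
              push_cast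
              ring
            rw [e]
            refine (norm_sub_le _ _).trans ?_
            rw [norm_mul, Complex.norm_real, Complex.norm_real, Real.norm_eq_abs,
              Real.norm_eq_abs, abs_of_pos h0, abs_of_pos (by linarith : (0 : ℝ) < 1 + α)]
            nlinarith [norm_nonneg W]
          calc ‖W‖ * ‖1 + (α : ℂ) * (1 - W)‖ ≤ 1 / 8 * (17 / 8) :=
                mul_le_mul h4.le h5 (norm_nonneg _) (by norm_num)
            _ < 3 / 8 := by norm_num
        · have e : 1 + (α : ℂ) * (1 - W) = -((α : ℂ) * (W - 1 - 1 / α)) := by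
            have : (α : ℂ) ≠ 0 := by exact_mod_cast h0.ne'
            field_simp
            ring
          have h5 : ‖1 + (α : ℂ) * (1 - W)‖ ≤ α * (1 / 8) := by
            rw [e, norm_neg, norm_mul, Complex.norm_real, Real.norm_eq_abs, abs_of_pos h0]
            exact mul_le_mul_of_nonneg_left h4.le h0.le
          have h6 : ‖W‖ ≤ 1 / 8 + (1 + 1 / α) := by
            have e2 : W = (W - 1 - 1 / α) + (1 + 1 / α) := by ring
            calc ‖W‖ = ‖(W - 1 - 1 / α) + (1 + 1 / (α : ℂ))‖ := by rw [← e2]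
              _ ≤ ‖W - 1 - 1 / α‖ + ‖(1 : ℂ) + 1 / (α : ℂ)‖ := norm_add_le _ _
              _ ≤ 1 / 8 + (1 + 1 / α) := by
                rw [hni]
                linarith
          calc ‖W‖ * ‖1 + (α : ℂ) * (1 - W)‖ ≤ (1 / 8 + (1 + 1 / α)) * (α * (1 / 8)) :=
                mul_le_mul h6 h5 (norm_nonneg _) (by positivity)
            _ = (9 / 8 * α + 1) / 8 := by
                field_simp
                ring
            _ < 3 / 8 := by linarith
      rcases hor (j + 1) (by omega) with h4 | h4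
      · linarith
      · exfalso
        have h5 : 1 + 1 / α ≤ ‖AR_F L α z (j + 1)‖ + ‖AR_F L α z (j + 1) - 1 - 1 / α‖ := by
          rw [← hni]
          have e2 : (1 : ℂ) + 1 / (α : ℂ) = AR_F L α z (j + 1) -
              (AR_F L α z (j + 1) - 1 - 1 / α) := by ring
          calc ‖(1 : ℂ) + 1 / (α : ℂ)‖ = ‖AR_F L α z (j + 1) -
              (AR_F L α z (j + 1) - 1 - 1 / α)‖ := by rw [← e2]
            _ ≤ _ := norm_sub_le _ _
        linarith
    have h0' := AR_rep L h0 hsm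
    refine hA ⟨z, hzb, AR_shift (N + 1) ?_⟩
    rw [h0']
    exact AR_abs0 L α

theorem AR_minpos (t : Finset ℂ) (s : ℂ → ℝ) (hs : ∀ w, 0 < s w) :
    ∃ s0 : ℝ, 0 < s0 ∧ ∀ w ∈ t, s0 ≤ s w := by
  classical
  induction t using Finset.induction_on with
  | empty => exact ⟨1, one_pos, fun w hw => absurd hw (Finset.notMem_empty w)⟩
  | insert a t ha ih =>
    obtain ⟨s0, h1, h2⟩ := ih
    refine ⟨min s0 (s a), lt_min h1 (hs a), fun w hw => ?_⟩
    rcases Finset.mem_insert.1 hw with rfl | hw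
    · exact min_le_right _ _
    · exact (min_le_left _ _).trans (h2 w hw)

theorem t_AR (hB : S_B) (hCR1 : S_CR1) (hCR2 : S_CR2) : S_AR := by
  intro L hL α h0 h1 θ hθ0 hθ1 C0 hC0 ε hε
  have hn : ‖(α : ℂ)‖ = α := by
    rw [Complex.norm_real, Real.norm_eq_abs, abs_of_pos h0]
  obtain ⟨R, hR⟩ : ∃ R : ℝ, R = RE (α : ℂ) C0 := ⟨_, rfl⟩
  obtain ⟨η1, hη1⟩ : ∃ η1 : ℝ, η1 = min (1 / 2) (rS (α : ℂ) θ C0) := ⟨_, rfl⟩
  have hR0 : 0 < R := by
    rw [hR]
    have := RE_pos (α := (α : ℂ)) (M := C0) (by rw [hn]; exact h0) (by linarith)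
    linarith
  have hη0 : 0 < η1 := by
    rw [hη1]
    exact lt_min (by norm_num) (rS_pos (by rw [hn]; exact h1) hθ1 (by linarith))
  -- density and joint continuity
  have hex : ∀ w : ℂ, ∃ (w' : ℂ) (k : ℕ) (s : ℝ), w' ∈ Metric.ball w (ε / 8) ∧ 0 < s ∧
      ∀ (w'' : ℂ) (x : ℝ), dist w'' w' < s → |x| < s →
        R < ‖Phi L (α : ℂ) w'' k x‖ ∨ ‖Phi L (α : ℂ) w'' k x - 1‖ < η1 := by
    intro w
    obtain ⟨w', hw', k, hk⟩ := AR_dense hB hCR2 hL h0 h1 hR0 hη0 w
      (by positivity : (0 : ℝ) < ε / 8)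
    have hop : IsOpen {p : ℂ × ℝ | R < ‖Phi L (α : ℂ) p.1 k (p.2 : ℂ)‖ ∨
        ‖Phi L (α : ℂ) p.1 k (p.2 : ℂ) - 1‖ < η1} := by
      have hc := Phi_joint_cont L (α : ℂ) k
      exact (isOpen_lt continuous_const hc.norm).union
        (isOpen_lt (hc.sub continuous_const).norm continuous_const)
    obtain ⟨s, hs, hball⟩ := Metric.isOpen_iff.1 hop (w', 0) hk
    refine ⟨w', k, s, hw', hs, fun w'' x h2 h3 => ?_⟩
    have h4 : ((w'', x) : ℂ × ℝ) ∈ Metric.ball ((w', 0) : ℂ × ℝ) s := by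
      rw [Metric.mem_ball, Prod.dist_eq, max_lt_iff]
      refine ⟨h2, ?_⟩
      rw [Real.dist_eq, sub_zero]
      exact h3
    exact hball h4
  choose w' k s hw' hs hV using hex
  obtain ⟨t, -, ht⟩ := (isCompact_closedBall (0 : ℂ) R).elim_nhds_subcover
    (fun w => Metric.ball w (ε / 8)) (fun w _ => Metric.ball_mem_nhds w (by positivity))
  obtain ⟨s0, hs0, hs1⟩ := AR_minpos t s hs
  obtain ⟨N, hN⟩ : ∃ N : ℕ, ∀ w ∈ t, k w ≤ N := ⟨t.sup k, fun w hw => Finset.le_sup hw⟩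
  have hL0 : (0 : ℝ) < L := by exact_mod_cast (by omega : 0 < L)
  have hL2 : (2 : ℝ) ≤ L := by exact_mod_cast hL
  refine ⟨min (s0 / 2) (1 / (8 * (L : ℝ) ^ (N + 1))), min s0 (ε / 8), by positivity,
    by positivity, min_le_right _ _, fun w hw x hx hgood => ?_⟩
  obtain ⟨m, hm1, hm2, hm3⟩ := hgood
  rw [← hR] at hw
  have hwm : w ∈ ⋃ v ∈ t, Metric.ball v (ε / 8) := ht (mem_closedBall_zero_iff.2 hw)
  obtain ⟨v, hv, hwv⟩ := Set.mem_iUnion₂.1 hwm
  refine ⟨w' v, ?_, fun w'' hw'' => ?_⟩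
  · have h2 := hw' v
    rw [Metric.mem_ball] at h2 hwv ⊢
    calc dist (w' v) w ≤ dist (w' v) v + dist v w := dist_triangle _ _ _
      _ < ε / 8 + ε / 8 := by
        rw [dist_comm v w]
        linarith
      _ = ε / 4 := by ring
  · by_contra hna
    have h2 : dist w'' (w' v) < s v := by
      rw [Metric.mem_ball] at hw''
      exact lt_of_lt_of_le hw'' ((min_le_left _ _).trans (hs1 v hv))
    have h3 : |x| < s v := by
      have h4 := hs1 v hv
      have h5 := hx.trans (min_le_left _ _)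
      linarith
    have hkm : k v ≤ m := by
      refine (hN v hv).trans ?_
      by_contra hc
      rw [not_le] at hc
      have h4 : |x| ≤ 1 / (8 * (L : ℝ) ^ (N + 1)) := hx.trans (min_le_right _ _)
      have h5 : (L : ℝ) ^ m ≤ (L : ℝ) ^ (N - 1) :=
        pow_le_pow_right₀ (by linarith) (by omega)
      have h6 : (L : ℝ) ^ m * |x| ≤ (L : ℝ) ^ (N - 1) * (1 / (8 * (L : ℝ) ^ (N + 1))) :=
        mul_le_mul h5 h4 (abs_nonneg _) (by positivity)
      have h7 : (L : ℝ) ^ (N - 1) * (1 / (8 * (L : ℝ) ^ (N + 1))) = 1 / (8 * (L : ℝ)) * (1 / L) := by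
        obtain ⟨n, rfl⟩ : ∃ n, N = n + 1 := ⟨N - 1, by omega⟩
        rw [Nat.add_sub_cancel]
        field_simp
        ring
      have h8 : (1 : ℝ) / L < 1 := by
        rw [div_lt_one hL0]
        linarith
      have h9 : 0 < 1 / (8 * (L : ℝ)) := by positivity
      have h10 : 1 / (8 * (L : ℝ)) * (1 / L) < 1 / (8 * (L : ℝ)) * 1 :=
        mul_lt_mul_of_pos_left h8 h9
      linarith
    have h4 := hCR1 L hL α h0 h1 θ hθ0 hθ1 C0 hC0 w'' x m hm2 hm3.1 hm3.2 hna (k v) hkm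
    rw [← hR, ← hη1] at h4
    rcases hV v w'' x h2 h3 with h5 | h5
    · linarith [h4.1]
    · linarith [h4.2]

end Pool.Agent.H212.KR
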