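import Pool.Agent.H212.KR.Stm2

/-!
# Project KR, part 2: zero area, assembly
-/

set_option autoImplicit false

namespace Pool.Agent.H212.KR

open Complex Filter Topology MeasureTheory
open Pool.Agent.TH229.Kan

theorem AREA_goodExit_meas (L : ℕ) (α θ C0 : ℝ) : MeasurableSet {x : ℝ | GoodExit L α θ C0 x} := by
  have h1 : {x : ℝ | GoodExit L α θ C0 x} = ⋃ m : ℕ, ({x : ℝ | 1 / (8 * (L : ℝ)) ≤ (L : ℝ) ^ m * |x|} ∩
      ({x : ℝ | (L : ℝ) ^ m * |x| < 1 / 8} ∩ (fun x : ℝ => (L : ℝ) ^ m * x) ⁻¹' (GG L α θ C0))) := by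
    ext x
    rw [Set.mem_iUnion]
    rfl
  rw [h1]
  refine MeasurableSet.iUnion fun m => ?_
  have hc : Continuous fun x : ℝ => (L : ℝ) ^ m * |x| := by fun_prop
  have hc2 : Continuous fun x : ℝ => (L : ℝ) ^ m * x := by fun_prop
  refine (measurableSet_le measurable_const hc.measurable).inter
    ((measurableSet_lt hc.measurable measurable_const).inter (hc2.measurable ?_))
  exact (GE_closed L C0).measurableSet.inter (GS_closed _ _ _ _).measurableSet

theorem AREA_nrg_meas (L : ℕ) (α θ C0 ε δ : ℝ) :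
    MeasurableSet {p : ℂ × ℝ | NRg L α p.1 θ C0 ε δ p.2} := by
  have h1 : {p : ℂ × ℝ | NRg L α p.1 θ C0 ε δ p.2} = ⋃ N : ℕ, ⋂ k : ℕ, ⋂ _ : N ≤ k, ⋂ j : ℤ,
      {p : ℂ × ℝ | |(L : ℝ) ^ k * p.2 - j| ≤ δ → GoodExit L α θ C0 ((L : ℝ) ^ k * p.2 - j) →
        ‖Phi L α p.1 k p.2‖ ≤ RE (α : ℂ) C0 → |(Phi L α p.1 k p.2).im| ≤ ε} := by
    ext p
    rw [Set.mem_iUnion]
    refine exists_congr fun N => ?_
    rw [Set.mem_iInter]
    refine forall_congr' fun k => ?_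
    rw [Set.mem_iInter]
    refine forall_congr' fun hk => ?_
    rw [Set.mem_iInter]
    rfl
  rw [h1]
  refine MeasurableSet.iUnion fun N => MeasurableSet.iInter fun k => MeasurableSet.iInter fun _ =>
    MeasurableSet.iInter fun j => ?_
  have hP := Phi_joint_cont L (α : ℂ) k
  have hc : Continuous fun p : ℂ × ℝ => (L : ℝ) ^ k * p.2 - (j : ℝ) := by fun_prop
  have hi : Continuous fun p : ℂ × ℝ => |(Phi L α p.1 k p.2).im| := (Complex.continuous_im.comp hP).abs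
  refine MeasurableSet.imp (measurableSet_le hc.abs.measurable measurable_const) ?_
  refine MeasurableSet.imp (hc.measurable (AREA_goodExit_meas L α θ C0)) ?_
  exact MeasurableSet.imp (measurableSet_le hP.norm.measurable measurable_const)
    (measurableSet_le hi.measurable measurable_const)

theorem AREA_bad (L : ℕ) (α θ C0 ε δ : ℝ) (z : ℂ) (u : ℝ) (h : ¬ NRg L α z θ C0 ε δ u) :
    ∃ᶠ k : ℕ in atTop, BadTime L α z θ C0 ε δ u k := by
  rw [Filter.frequently_atTop]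
  intro N
  by_contra hcon
  apply h
  refine ⟨N, fun k hk j h1 h2 h3 => ?_⟩
  by_contra h4
  exact hcon ⟨k, hk, j, h1, h2, h3, not_le.mp h4⟩

theorem t_AREA (hAg : S_Ag) (hPOR : S_POR) (hDENC : S_DENC) : S_AREA := by
  intro L hL α hα0 hα1
  obtain ⟨θ, C0, ε, δ0, hθ0, hθ1, hC0, hε, hδ0, -, hA⟩ := hAg L hL α hα0 hα1
  obtain ⟨δ1, c, hδ1, hc, hP⟩ := hPOR L hL α hα0 hα1 θ hθ0 hθ1 C0 hC0 ε hε
  set δ := min δ0 δ1 with hδ
  have hδpos : 0 < δ := lt_min hδ0 hδ1
  have hA' := hA δ hδpos (min_le_left _ _)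
  have hP' := hP δ hδpos (min_le_right _ _)
  have hAm := Absorbed_measurable L (α : ℂ)
  have hm : MeasurableSet {p : ℂ × ℝ | ¬ (NRg L α p.1 θ C0 ε δ p.2 → Absorbed L α p.1 p.2)} :=
    (MeasurableSet.imp (AREA_nrg_meas L α θ C0 ε δ) hAm).compl
  have h2 : (volume.prod volume : Measure (ℂ × ℝ))
      {p : ℂ × ℝ | ¬ (NRg L α p.1 θ C0 ε δ p.2 → Absorbed L α p.1 p.2)} = 0 := by
    rw [Measure.measure_prod_null hm]
    filter_upwards with z
    exact hA' z
  rw [Measure.prod_apply_symm hm, lintegral_eq_zero_iff (measurable_measure_prodMk_right hm)] at h2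
  filter_upwards [h2] with u hu
  have h3 : volume {z : ℂ | ¬ (NRg L α z θ C0 ε δ u → Absorbed L α z u)} = 0 := hu
  have hNm : MeasurableSet {z : ℂ | ¬ Absorbed L α z u} := by
    have h5 : Measurable fun z : ℂ => ((z, u) : ℂ × ℝ) := by fun_prop
    exact (h5 hAm).compl
  have h4 : volume {z : ℂ | ¬ Absorbed L α z u ∧ ¬ NRg L α z θ C0 ε δ u} = 0 := by
    refine hDENC {z : ℂ | ¬ Absorbed L α z u} _ hNm (fun z hz => hz.1) c hc fun z hz r0 hr0 => ?_
    obtain ⟨r, hr, hr2, z', hz', hz2⟩ := hP' z u (AREA_bad L α θ C0 ε δ z u hz.2) r0 hr0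
    exact ⟨r, hr, hr2, z', hz', fun w hw hw2 => hw2 (hz2 w hw)⟩
  refine measure_mono_null ?_ (measure_union_null h3 h4)
  intro z hz
  by_cases h5 : NRg L α z θ C0 ε δ u
  · left
    exact fun h6 => hz (h6 h5)
  · right
    exact ⟨hz, h5⟩

end Pool.Agent.H212.KR
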