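import Pool.Agent.H212.KR.Stm

set_option autoImplicit false

/-!
# NUM, GR, AM (by helper261)
-/

namespace Pool.Agent.H212.KR

open Complex Filter Topology MeasureTheory
open Pool.Agent.TH229.Kan

namespace NGAaux

theorem gr_aux {L : ℕ} (hL : 2 ≤ L) {α : ℂ} (z : ℂ) (hα : ‖α‖ ≤ 1) (x : ℂ) (n : ℕ) :
    NN (Phi L α z n x) ≤ Real.exp (2 ^ n * (Real.log (NN z) + Real.log 3) - Real.log 3 +
      2 * Real.pi * (n * (L : ℝ) ^ n) * |x.im|) := by
  induction n with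
  | zero =>
    have h : Real.exp (Real.log (NN z)) = NN z := Real.exp_log (lt_of_lt_of_le one_pos (one_le_NN z))
    have h2 : (2 : ℝ) ^ 0 * (Real.log (NN z) + Real.log 3) - Real.log 3 +
      2 * Real.pi * (((0 : ℕ) : ℝ) * (L : ℝ) ^ 0) * |x.im| = Real.log (NN z) := by
      push_cast; ring
    rw [h2, h, Phi_zero]
  | succ n ih =>
    refine (growth_step hα ih).trans ?_
    rw [Real.exp_le_exp]
    have hL' : (2 : ℝ) ≤ L := by exact_mod_cast hL
    have hp : (0 : ℝ) ≤ (L : ℝ) ^ n := by positivity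
    have hn : (0 : ℝ) ≤ n := Nat.cast_nonneg _
    have h3 : 2 * ((n : ℝ) * (L : ℝ) ^ n) + (L : ℝ) ^ n ≤ ((n : ℝ) + 1) * (L : ℝ) ^ (n + 1) := by
      have e : ((n : ℝ) + 1) * (L : ℝ) ^ (n + 1) = ((n : ℝ) + 1) * (L : ℝ) ^ n * L := by ring
      rw [e]
      have h4 : 0 ≤ ((n : ℝ) + 1) * (L : ℝ) ^ n := by positivity
      nlinarith
    have h5 : 2 * Real.pi * (2 * ((n : ℝ) * (L : ℝ) ^ n) + (L : ℝ) ^ n) * |x.im|
        ≤ 2 * Real.pi * (((n : ℝ) + 1) * (L : ℝ) ^ (n + 1)) * |x.im| := by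
      have hpi := Real.pi_pos
      gcongr
    have h6 : (2 : ℝ) ^ (n + 1) = 2 * 2 ^ n := by ring
    rw [h6]
    push_cast
    nlinarith [h5]

end NGAaux

theorem t_GR : S_GR := by
  intro L hL α z hα n hn x
  refine (norm_le_NN _).trans ((NGAaux.gr_aux hL z hα x n).trans ?_)
  rw [Real.exp_le_exp]
  have h1 : 0 ≤ Real.log 3 := Real.log_nonneg (by norm_num)
  have h2 : 0 ≤ Real.log (NN z) := Real.log_nonneg (one_le_NN z)
  have hL' : (2 : ℝ) ≤ L := by exact_mod_cast hL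
  have h3 : (2 : ℝ) ^ n ≤ (L : ℝ) ^ n := by gcongr
  have hn' : (1 : ℝ) ≤ n := by exact_mod_cast hn
  have h4 : (L : ℝ) ^ n ≤ 2 * Real.pi * n * (L : ℝ) ^ n := by
    have hp : (0 : ℝ) ≤ (L : ℝ) ^ n := by positivity
    have : (1 : ℝ) ≤ 2 * Real.pi * n := by nlinarith [Real.pi_gt_three]
    nlinarith
  have h5 : (2 : ℝ) ^ n * (Real.log (NN z) + Real.log 3)
      ≤ 2 * Real.pi * n * (L : ℝ) ^ n * (Real.log (NN z) + Real.log 3) := by
    apply mul_le_mul_of_nonneg_right (h3.trans h4) (by linarith)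
  have h6 : 2 * Real.pi * n * (L : ℝ) ^ n * (Real.log (NN z) + Real.log 3 + |x.im|)
      = 2 * Real.pi * n * (L : ℝ) ^ n * (Real.log (NN z) + Real.log 3)
        + 2 * Real.pi * (n * (L : ℝ) ^ n) * |x.im| := by ring
  rw [h6]
  linarith

namespace NGAaux

theorem per (L : ℕ) (α z : ℂ) (k : ℕ) (x : ℝ) :
    Phi L α z k ((x + 1 : ℝ) : ℂ) = Phi L α z k (x : ℂ) := by
  have := Phi_add_int L α z k (x : ℂ) 1
  rw [← this]
  push_cast
  rfl

theorem abs_per (L : ℕ) (α z : ℂ) (x : ℝ) : Absorbed L α z (x + 1) ↔ Absorbed L α z x := by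
  unfold Absorbed
  simp only [per]

end NGAaux

theorem t_AM : S_AM := by
  intro L α z ε δ R N
  constructor
  · have hA : MeasurableSet {u : ℝ | ¬ Absorbed L α z u} := by
      have h5 : Measurable fun u : ℝ => ((z, u) : ℂ × ℝ) := by fun_prop
      exact (h5 (Absorbed_measurable L α)).compl
    have hc : ∀ k, Continuous fun u : ℝ => Phi L α z k (u : ℂ) := fun k => Phi_real_cont L α z k
    have hB : MeasurableSet {u : ℝ | ∀ k ≥ N, ‖Phi L α z k u‖ ≤ (k : ℝ) ^ 3} := by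
      have e : {u : ℝ | ∀ k ≥ N, ‖Phi L α z k u‖ ≤ (k : ℝ) ^ 3}
          = ⋂ (k : ℕ) (_ : k ≥ N), {u : ℝ | ‖Phi L α z k u‖ ≤ (k : ℝ) ^ 3} := by
        ext u; simp
      rw [e]
      refine MeasurableSet.iInter fun k => MeasurableSet.iInter fun _ => ?_
      exact (isClosed_le (hc k).norm continuous_const).measurableSet
    have hC : MeasurableSet {u : ℝ | ∀ k ≥ N, ∀ j : ℤ, |(L : ℝ) ^ k * u - j| ≤ δ →
        ‖Phi L α z k u‖ ≤ R → |(Phi L α z k u).im| ≤ ε} := by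
      have e : {u : ℝ | ∀ k ≥ N, ∀ j : ℤ, |(L : ℝ) ^ k * u - j| ≤ δ →
        ‖Phi L α z k u‖ ≤ R → |(Phi L α z k u).im| ≤ ε}
          = ⋂ (k : ℕ) (_ : k ≥ N) (j : ℤ), ({u : ℝ | |(L : ℝ) ^ k * u - j| ≤ δ}ᶜ ∪
            ({u : ℝ | ‖Phi L α z k u‖ ≤ R}ᶜ ∪ {u : ℝ | |(Phi L α z k u).im| ≤ ε})) := by
        ext u
        simp only [Set.mem_setOf_eq, Set.mem_iInter, Set.mem_union, Set.mem_compl_iff]
        constructor
        · intro h k hk j
          by_cases h1 : |(L : ℝ) ^ k * u - j| ≤ δ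
          · by_cases h2 : ‖Phi L α z k u‖ ≤ R
            · exact Or.inr (Or.inr (h k hk j h1 h2))
            · exact Or.inr (Or.inl h2)
          · exact Or.inl h1
        · intro h k hk j h1 h2
          rcases h k hk j with h3 | h3 | h3
          · exact absurd h1 h3
          · exact absurd h2 h3
          · exact h3
      rw [e]
      refine MeasurableSet.iInter fun k => MeasurableSet.iInter fun _ => MeasurableSet.iInter fun j => ?_
      refine MeasurableSet.union ?_ (MeasurableSet.union ?_ ?_)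
      · have h1 : Continuous fun u : ℝ => |(L : ℝ) ^ k * u - j| := by fun_prop
        exact (isClosed_le h1 continuous_const).measurableSet.compl
      · exact (isClosed_le (hc k).norm continuous_const).measurableSet.compl
      · have h1 : Continuous fun u : ℝ => |(Phi L α z k (u : ℂ)).im| :=
          (Complex.continuous_im.comp (hc k)).abs
        exact (isClosed_le h1 continuous_const).measurableSet
    exact hA.inter (hB.inter hC)
  · intro x
    unfold AN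
    simp only [Set.mem_setOf_eq, NGAaux.per, NGAaux.abs_per]
    have key : (∀ k ≥ N, ∀ j : ℤ, |(L : ℝ) ^ k * (x + 1) - j| ≤ δ → ‖Phi L α z k x‖ ≤ R →
        |(Phi L α z k x).im| ≤ ε) ↔ (∀ k ≥ N, ∀ j : ℤ, |(L : ℝ) ^ k * x - j| ≤ δ →
        ‖Phi L α z k x‖ ≤ R → |(Phi L α z k x).im| ≤ ε) := by
      constructor
      · intro h k hk j h1 h2
        refine h k hk (j + (L : ℤ) ^ k) ?_ h2
        have e : (L : ℝ) ^ k * (x + 1) - ((j + (L : ℤ) ^ k : ℤ) : ℝ) = (L : ℝ) ^ k * x - j := by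
          push_cast; ring
        rw [e]; exact h1
      · intro h k hk j h1 h2
        refine h k hk (j - (L : ℤ) ^ k) ?_ h2
        have e : (L : ℝ) ^ k * x - ((j - (L : ℤ) ^ k : ℤ) : ℝ) = (L : ℝ) ^ k * (x + 1) - j := by
          push_cast; ring
        rw [e]; exact h1
    rw [key]

theorem t_NUM : S_NUM := by
  intro C4 s0 δ q hC hs hδ
  have hlog : Tendsto (fun n : ℕ => Real.log (n : ℝ)) atTop atTop :=
    Real.tendsto_log_atTop.comp tendsto_natCast_atTop_atTop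
  have h1 : ∀ᶠ n : ℕ in atTop, Real.log (n : ℝ) / n ≤ δ := by
    have h := (Real.isLittleO_log_id_atTop.tendsto_div_nhds_zero).comp
      (tendsto_natCast_atTop_atTop (R := ℝ))
    filter_upwards [h.eventually (gt_mem_nhds hδ)] with n hn
    exact hn.le
  have h2 : ∀ᶠ n : ℕ in atTop, 1 < C4 * Real.log (n : ℝ) := by
    filter_upwards [hlog.eventually_gt_atTop (1 / C4)] with n hn
    rw [div_lt_iff₀ hC] at hn
    linarith
  have h3 : ∀ᶠ n : ℕ in atTop,
      (max 1 ((100 : ℝ) ^ (13 * (q + 1)) * C4 ^ 20 / s0 ^ 13)) ≤ Real.log (n : ℝ) :=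
    hlog.eventually_ge_atTop _
  obtain ⟨n1, hn1⟩ := eventually_atTop.1 (h1.and (h2.and h3))
  refine ⟨max 3 n1, le_max_left _ _, ?_⟩
  intro n hn
  obtain ⟨ha, hb, hc⟩ := hn1 n ((le_max_right _ _).trans hn)
  refine ⟨ha, ?_⟩
  have hn3 : 3 ≤ n := (le_max_left _ _).trans hn
  have hn0 : (0 : ℝ) < n := by exact_mod_cast (by omega : 0 < n)
  set l := Real.log (n : ℝ) with hl
  have hl1 : 1 ≤ l := (le_max_left _ _).trans hc
  have hl2 : (100 : ℝ) ^ (13 * (q + 1)) * C4 ^ 20 / s0 ^ 13 ≤ l := (le_max_right _ _).trans hc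
  rw [div_le_iff₀ (by positivity)] at hl2
  have hex : ∃ j : ℕ, C4 * l ≤ 20 ^ j := by
    obtain ⟨j, hj⟩ := pow_unbounded_of_one_lt (C4 * l) (by norm_num : (1 : ℝ) < 20)
    exact ⟨j, hj.le⟩
  classical
  obtain ⟨j, hj, hmin⟩ : ∃ j : ℕ, C4 * l ≤ 20 ^ j ∧ ∀ i < j, (20 : ℝ) ^ i < C4 * l :=
    ⟨Nat.find hex, Nat.find_spec hex, fun i hi => not_le.1 (Nat.find_min hex hi)⟩
  refine ⟨j, hj, ?_⟩
  obtain ⟨i, rfl⟩ : ∃ i, j = i + 1 := by
    cases j with
    | zero => rw [pow_zero] at hj; linarith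
    | succ i => exact ⟨i, rfl⟩
  have hi := hmin i (Nat.lt_succ_self i)
  have hkey : (100 : ℝ) ^ (i + 1 + q) ≤ s0 * l ^ 2 := by
    rw [← pow_le_pow_iff_left₀ (by positivity) (by positivity) (by norm_num : (13 : ℕ) ≠ 0)]
    have e1 : ((100 : ℝ) ^ (i + 1 + q)) ^ 13 = (100 : ℝ) ^ (13 * (q + 1)) * ((100 : ℝ) ^ 13) ^ i := by
      rw [← pow_mul, ← pow_mul, ← pow_add]; congr 1; ring
    have e2 : ((100 : ℝ) ^ 13) ^ i ≤ (C4 * l) ^ 20 := by
      calc ((100 : ℝ) ^ 13) ^ i ≤ ((20 : ℝ) ^ 20) ^ i := by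
            apply pow_le_pow_left₀ (by positivity); norm_num
        _ = ((20 : ℝ) ^ i) ^ 20 := by rw [← pow_mul, ← pow_mul, mul_comm]
        _ ≤ (C4 * l) ^ 20 := pow_le_pow_left₀ (by positivity) hi.le 20
    rw [e1]
    calc (100 : ℝ) ^ (13 * (q + 1)) * ((100 : ℝ) ^ 13) ^ i
        ≤ (100 : ℝ) ^ (13 * (q + 1)) * (C4 * l) ^ 20 := by gcongr
      _ = ((100 : ℝ) ^ (13 * (q + 1)) * C4 ^ 20) * l ^ 20 := by ring
      _ ≤ (l * s0 ^ 13) * l ^ 20 := by gcongr
      _ = s0 ^ 13 * l ^ 21 := by ring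
      _ ≤ s0 ^ 13 * l ^ 26 := by
          have : l ^ 21 ≤ l ^ 26 := pow_le_pow_right₀ hl1 (by norm_num)
          gcongr
      _ = (s0 * l ^ 2) ^ 13 := by ring
  have hl0 : 0 < l := by linarith
  rw [div_div, mul_div_assoc', div_le_div_iff₀ (by positivity) (by positivity)]
  calc 1 * (n * (100 : ℝ) ^ (i + 1 + q)) ≤ n * (s0 * l ^ 2) := by rw [one_mul]; gcongr
    _ = s0 * l * (n * l) := by ring

end Pool.Agent.H212.KR
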