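import Pool.Agent.H212.KR.Stm2
import Pool.Agent.H212.KR.T_A
import Pool.Agent.H212.KR.T_NGA

set_option autoImplicit false

/-!
# Lemma A with good exits only (by helper348, after T_A by its author)
-/

namespace Pool.Agent.H212.KR

open Complex Filter Topology MeasureTheory
open Pool.Agent.TH229.Kan

namespace Agaux

open Aaux

/-- the window hypothesis, with good exits -/
def Wing (L : ℕ) (α θ C0 ε δ η : ℝ) : Prop := ∀ C2 : ℝ, ∃ n1 : ℕ, 3 ≤ n1 ∧
      ∀ n : ℕ, n1 ≤ n → ∀ w : ℂ → ℂ, Differentiable ℂ w →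
      (∀ x : ℂ, ‖x‖ ≤ Real.log n / n → ‖w x‖ ≤ Real.exp (C2 * Real.log n)) →
      ∀ A : Set ℝ, MeasurableSet A → (∀ x ∈ A, ¬ Absorbed L α (w (x : ℂ)) x) →
      (∀ x ∈ A, GoodExit L α θ C0 x → ∀ k : ℕ, (L : ℝ) ^ k * |x| ≤ δ →
        ‖Phi L α (w (x : ℂ)) k x‖ ≤ RE (α : ℂ) C0 → |(Phi L α (w (x : ℂ)) k x).im| ≤ ε) →
      (∀ ρ : ℝ, 1 / (n * Real.log n) ≤ ρ → ρ ≤ Real.log n / n →
        volume (Aᶜ ∩ Set.Icc (-ρ) ρ) ≤ ENNReal.ofReal (η * ρ)) → False

/-- the sets `A_N`, with good exits only -/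
def ANg (L : ℕ) (α : ℝ) (z : ℂ) (θ C0 ε δ : ℝ) (N : ℕ) : Set ℝ :=
  {u : ℝ | ¬ Absorbed L α z u ∧ (∀ k ≥ N, ‖Phi L α z k u‖ ≤ (k : ℝ) ^ 3) ∧
    ∀ k ≥ N, ∀ j : ℤ, |(L : ℝ) ^ k * u - j| ≤ δ → GoodExit L α θ C0 ((L : ℝ) ^ k * u - j) →
      ‖Phi L α z k u‖ ≤ RE (α : ℂ) C0 → |(Phi L α z k u).im| ≤ ε}

theorem ge_meas (L : ℕ) (α θ C0 : ℝ) : MeasurableSet {x : ℝ | GoodExit L α θ C0 x} := by
  have e : {x : ℝ | GoodExit L α θ C0 x} = ⋃ m : ℕ,
      ({x : ℝ | 1 / (8 * (L : ℝ)) ≤ (L : ℝ) ^ m * |x|} ∩ ({x : ℝ | (L : ℝ) ^ m * |x| < 1 / 8} ∩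
        (fun x : ℝ => (L : ℝ) ^ m * x) ⁻¹' (GG L α θ C0))) := by
    ext x
    simp only [Set.mem_setOf_eq, Set.mem_iUnion, Set.mem_inter_iff, Set.mem_preimage, GoodExit]
  rw [e]
  refine MeasurableSet.iUnion fun m => ?_
  have h1 : Continuous fun x : ℝ => (L : ℝ) ^ m * |x| := by fun_prop
  have h2 : Continuous fun x : ℝ => (L : ℝ) ^ m * x := by fun_prop
  refine (isClosed_le continuous_const h1).measurableSet.inter
    ((isOpen_lt h1 continuous_const).measurableSet.inter ?_)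
  exact h2.measurable ((GE_closed L C0).inter (GS_closed L (α : ℂ) θ C0)).measurableSet

theorem ge_shift {L : ℕ} (hL : 2 ≤ L) {α θ C0 x : ℝ} (h : GoodExit L α θ C0 x) (k : ℕ)
    (hk : (L : ℝ) ^ k * |x| ≤ 1 / 16) : GoodExit L α θ C0 ((L : ℝ) ^ k * x) := by
  obtain ⟨m, h1, h2, h3⟩ := h
  have hLr : (2 : ℝ) ≤ L := by exact_mod_cast hL
  have hL0 : (0 : ℝ) < L := by linarith
  have hkm : k ≤ m := by
    by_contra hcon
    push Not at hcon
    have h4 : (L : ℝ) ^ (m + 1) ≤ (L : ℝ) ^ k := pow_le_pow_right₀ (by linarith) hcon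
    have h5 : (L : ℝ) ^ (m + 1) * |x| ≤ (L : ℝ) ^ k * |x| :=
      mul_le_mul_of_nonneg_right h4 (abs_nonneg x)
    have h6 : (L : ℝ) * (1 / (8 * (L : ℝ))) ≤ (L : ℝ) * ((L : ℝ) ^ m * |x|) :=
      mul_le_mul_of_nonneg_left h1 hL0.le
    have h7 : (L : ℝ) * (1 / (8 * (L : ℝ))) = 1 / 8 := by field_simp
    have h8 : (L : ℝ) ^ (m + 1) * |x| = (L : ℝ) * ((L : ℝ) ^ m * |x|) := by ring
    linarith
  obtain ⟨i, rfl⟩ := Nat.exists_eq_add_of_le hkm
  have e1 : ∀ y : ℝ, (L : ℝ) ^ i * ((L : ℝ) ^ k * y) = (L : ℝ) ^ (k + i) * y := by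
    intro y
    ring
  refine ⟨i, ?_, ?_, ?_⟩
  · rw [abs_mul, abs_of_pos (pow_pos hL0 k), e1]
    exact h1
  · rw [abs_mul, abs_of_pos (pow_pos hL0 k), e1]
    exact h2
  · rw [e1]
    exact h3

theorem ANg_meas (L : ℕ) (α : ℝ) (z : ℂ) (θ C0 ε δ : ℝ) (N : ℕ) :
    MeasurableSet (ANg L α z θ C0 ε δ N) ∧
    ∀ x, x + 1 ∈ ANg L α z θ C0 ε δ N ↔ x ∈ ANg L α z θ C0 ε δ N := by
  constructor
  · have hA : MeasurableSet {u : ℝ | ¬ Absorbed L α z u} := by
      have h5 : Measurable fun u : ℝ => ((z, u) : ℂ × ℝ) := by fun_prop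
      exact (h5 (Absorbed_measurable L α)).compl
    have hc : ∀ k, Continuous fun u : ℝ => Phi L α z k (u : ℂ) := fun k => Phi_real_cont L α z k
    have hB : MeasurableSet {u : ℝ | ∀ k ≥ N, ‖Phi L α z k u‖ ≤ (k : ℝ) ^ 3} := by
      have e : {u : ℝ | ∀ k ≥ N, ‖Phi L α z k u‖ ≤ (k : ℝ) ^ 3}
          = ⋂ (k : ℕ) (_ : k ≥ N), {u : ℝ | ‖Phi L α z k u‖ ≤ (k : ℝ) ^ 3} := by
        ext u; simp
      rw [e]
      refine MeasurableSet.iInter fun k => MeasurableSet.iInter fun _ => ?_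
      exact (isClosed_le (hc k).norm continuous_const).measurableSet
    have hC : MeasurableSet {u : ℝ | ∀ k ≥ N, ∀ j : ℤ, |(L : ℝ) ^ k * u - j| ≤ δ →
        GoodExit L α θ C0 ((L : ℝ) ^ k * u - j) →
        ‖Phi L α z k u‖ ≤ RE (α : ℂ) C0 → |(Phi L α z k u).im| ≤ ε} := by
      have e : {u : ℝ | ∀ k ≥ N, ∀ j : ℤ, |(L : ℝ) ^ k * u - j| ≤ δ →
        GoodExit L α θ C0 ((L : ℝ) ^ k * u - j) →
        ‖Phi L α z k u‖ ≤ RE (α : ℂ) C0 → |(Phi L α z k u).im| ≤ ε}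
          = ⋂ (k : ℕ) (_ : k ≥ N) (j : ℤ), ({u : ℝ | |(L : ℝ) ^ k * u - j| ≤ δ}ᶜ ∪
            (((fun u : ℝ => (L : ℝ) ^ k * u - j) ⁻¹' {x : ℝ | GoodExit L α θ C0 x})ᶜ ∪
            ({u : ℝ | ‖Phi L α z k u‖ ≤ RE (α : ℂ) C0}ᶜ ∪
              {u : ℝ | |(Phi L α z k u).im| ≤ ε}))) := by
        ext u
        simp only [Set.mem_setOf_eq, Set.mem_iInter, Set.mem_union, Set.mem_compl_iff,
          Set.mem_preimage]
        constructor
        · intro h k hk j
          by_cases h1 : |(L : ℝ) ^ k * u - j| ≤ δ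
          · by_cases h0 : GoodExit L α θ C0 ((L : ℝ) ^ k * u - j)
            · by_cases h2 : ‖Phi L α z k u‖ ≤ RE (α : ℂ) C0
              · exact Or.inr (Or.inr (Or.inr (h k hk j h1 h0 h2)))
              · exact Or.inr (Or.inr (Or.inl h2))
            · exact Or.inr (Or.inl h0)
          · exact Or.inl h1
        · intro h k hk j h1 h0 h2
          rcases h k hk j with h3 | h3 | h3 | h3
          · exact absurd h1 h3
          · exact absurd h0 h3
          · exact absurd h2 h3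
          · exact h3
      rw [e]
      refine MeasurableSet.iInter fun k => MeasurableSet.iInter fun _ => MeasurableSet.iInter fun j => ?_
      refine MeasurableSet.union ?_ (MeasurableSet.union ?_ (MeasurableSet.union ?_ ?_))
      · have h1 : Continuous fun u : ℝ => |(L : ℝ) ^ k * u - j| := by fun_prop
        exact (isClosed_le h1 continuous_const).measurableSet.compl
      · have h1 : Continuous fun u : ℝ => (L : ℝ) ^ k * u - j := by fun_prop
        exact (h1.measurable (ge_meas L α θ C0)).compl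
      · exact (isClosed_le (hc k).norm continuous_const).measurableSet.compl
      · have h1 : Continuous fun u : ℝ => |(Phi L α z k (u : ℂ)).im| :=
          (Complex.continuous_im.comp (hc k)).abs
        exact (isClosed_le h1 continuous_const).measurableSet
    exact hA.inter (hB.inter hC)
  · intro x
    unfold ANg
    simp only [Set.mem_setOf_eq, NGAaux.per, NGAaux.abs_per]
    have key : (∀ k ≥ N, ∀ j : ℤ, |(L : ℝ) ^ k * (x + 1) - j| ≤ δ →
        GoodExit L α θ C0 ((L : ℝ) ^ k * (x + 1) - j) → ‖Phi L α z k x‖ ≤ RE (α : ℂ) C0 →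
        |(Phi L α z k x).im| ≤ ε) ↔ (∀ k ≥ N, ∀ j : ℤ, |(L : ℝ) ^ k * x - j| ≤ δ →
        GoodExit L α θ C0 ((L : ℝ) ^ k * x - j) →
        ‖Phi L α z k x‖ ≤ RE (α : ℂ) C0 → |(Phi L α z k x).im| ≤ ε) := by
      constructor
      · intro h k hk j h1 h0 h2
        have e : (L : ℝ) ^ k * (x + 1) - ((j + (L : ℤ) ^ k : ℤ) : ℝ) = (L : ℝ) ^ k * x - j := by
          push_cast; ring
        refine h k hk (j + (L : ℤ) ^ k) ?_ ?_ h2
        · rw [e]; exact h1
        · rw [e]; exact h0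
      · intro h k hk j h1 h0 h2
        have e : (L : ℝ) ^ k * x - ((j - (L : ℤ) ^ k : ℤ) : ℝ) = (L : ℝ) ^ k * (x + 1) - j := by
          push_cast; ring
        refine h k hk (j - (L : ℤ) ^ k) ?_ ?_ h2
        · rw [e]; exact h1
        · rw [e]; exact h0
    rw [key]

theorem null (hVT : S_VT) (hST : S_ST) (hDEN : S_DEN) (hGR : S_GR) (L : ℕ)
    (hL : 2 ≤ L) (α : ℝ) (hα0 : 0 < α) (hα1 : α < 1) (θ C0 ε δ η : ℝ) (hη : 0 < η)
    (hδ : δ ≤ 1 / 16)
    (hW : Wing L α θ C0 ε δ η) (z : ℂ) (N : ℕ) (hN : 1 ≤ N) :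
    volume (ANg L α z θ C0 ε δ N) = 0 := by
  by_contra hvol
  set A0 : Set ℝ := ANg L α z θ C0 ε δ N with hA0
  obtain ⟨hA0m, hA0p⟩ := ANg_meas L α z θ C0 ε δ N
  have hLr : (2 : ℝ) ≤ L := by exact_mod_cast hL
  have hL0 : (0 : ℝ) < L := by linarith
  have hαn : ‖(α : ℂ)‖ ≤ 1 := by
    rw [Complex.norm_real, Real.norm_eq_abs, abs_of_pos hα0]
    exact hα1.le
  have hNN : 0 ≤ Real.log (NN z) := Real.log_nonneg (one_le_NN z)
  have hl3 : 0 ≤ Real.log 3 := Real.log_nonneg (by norm_num)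
  set C : ℝ := Real.log (NN z) + Real.log 3 with hC
  have hC0 : 0 ≤ C := by positivity
  set D : ℕ → ℝ := fun n => 2 * Real.pi * ((n + N : ℕ) : ℝ) * (L : ℝ) ^ (n + N) with hD
  set F : ℕ → ℂ → ℂ := fun n x => Phi L α z (n + N) x / (((n + N : ℕ) : ℂ)) ^ 3 with hF
  have hpos : ∀ n : ℕ, (1 : ℝ) ≤ ((n + N : ℕ) : ℝ) := by
    intro n
    exact_mod_cast (by omega : 1 ≤ n + N)
  have hnF : ∀ n (x : ℂ), ‖F n x‖ = ‖Phi L α z (n + N) x‖ / ((n + N : ℕ) : ℝ) ^ 3 := by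
    intro n x
    simp only [hF]
    rw [norm_div, norm_pow, Complex.norm_natCast]
  obtain ⟨A', hA'sub, hA'm, hA'v, K, hK, hKF⟩ := hVT F
    (fun n => (Phi_diff L α z (n + N)).div_const _)
    (fun n x => by
      simp only [hF]
      have := Phi_add_int L α z (n + N) x 1
      rw [Int.cast_one] at this
      rw [this])
    D (fun n => by
      have := hpos n
      have h1 : 0 < (L : ℝ) ^ (n + N) := pow_pos hL0 _
      have h2 := Real.pi_pos
      simp only [hD]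
      positivity) C hC0
    (fun n x => by
      rw [hnF]
      have h1 := hGR L hL α z hαn (n + N) (by omega) x
      have h2 : (1 : ℝ) ≤ ((n + N : ℕ) : ℝ) ^ 3 := one_le_pow₀ (hpos n)
      refine (div_le_self (norm_nonneg _) h2).trans (h1.trans (le_of_eq ?_))
      simp only [hD, hC])
    A0 hA0m hA0p
    (fun n x hx => by
      rw [hnF, div_le_one (pow_pos (lt_of_lt_of_le one_pos (hpos n)) 3)]
      exact hx.2.1 (n + N) (by omega)) hvol
  -- the point
  have hae1 := hST L hL dl dl_pos dl_le_one dl_anti dl_ns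
  have hae2 := (ae_restrict_iff' hA0m).1 (hDEN A0 hA0m)
  obtain ⟨u0, hu0A', hfreq, hden⟩ : ∃ u0 ∈ A',
      (∃ᶠ n : ℕ in atTop, ∃ k : ℤ, |(L : ℝ) ^ n * u0 - k| < dl n) ∧
      ∀ e : ℝ, 0 < e → ∃ r : ℝ, 0 < r ∧ ∀ s : ℝ, 0 < s → s ≤ r →
        volume (A0ᶜ ∩ Set.Icc (u0 - s) (u0 + s)) ≤ ENNReal.ofReal (e * s) := by
    by_contra hcon
    push Not at hcon
    apply hA'v
    have h1 : ∀ᵐ u : ℝ, u ∉ A' := by
      filter_upwards [hae1, hae2] with u h1 h2 hu
      obtain ⟨e, he, h3⟩ := hcon u hu h1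
      obtain ⟨r, hr, h4⟩ := h2 (hA'sub hu) e he
      obtain ⟨s, hs, hsr, h5⟩ := h3 r hr
      exact absurd (h4 s hs hsr) (not_le.2 h5)
    exact measure_eq_zero_iff_ae_notMem.2 h1
  obtain ⟨r, hr, hden2⟩ := hden (η / 2) (by positivity)
  obtain ⟨n1, hn13, hwin⟩ := hW (3 + 4 * Real.pi * K)
  -- a large n
  have hev : ∀ᶠ n : ℕ in atTop, 2 * ((L : ℝ) ^ n)⁻¹ ≤ r := by
    have h1 : Tendsto (fun n : ℕ => 2 * ((L : ℝ) ^ n)⁻¹) atTop (𝓝 (2 * 0)) := by
      apply Tendsto.const_mul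
      exact (tendsto_pow_atTop_atTop_of_one_lt (by linarith)).inv_tendsto_atTop
    rw [mul_zero] at h1
    exact (h1.eventually_lt_const hr).mono (fun _ h => h.le)
  obtain ⟨n, ⟨j, hj⟩, hnr, hnn1, hnN⟩ :=
    (hfreq.and_eventually (hev.and ((eventually_ge_atTop n1).and (eventually_ge_atTop N)))).exists
  have hn3 : 3 ≤ n := hn13.trans hnn1
  have hn3r : (3 : ℝ) ≤ n := by exact_mod_cast hn3
  have hn0 : (0 : ℝ) < n := by linarith
  have hlogn1 : 1 < Real.log n := by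
    rw [Real.lt_log_iff_exp_lt hn0]
    have := Real.exp_one_lt_d9
    linarith
  have hlogn : 0 < Real.log n := by linarith
  set c : ℝ := (L : ℝ) ^ n with hc
  have hc0 : 0 < c := pow_pos hL0 n
  have hcc : ((L : ℂ)) ^ n = ((c : ℝ) : ℂ) := by rw [hc]; push_cast; rfl
  have hccn : ((c : ℝ) : ℂ) ≠ 0 := by exact_mod_cast hc0.ne'
  set w : ℂ → ℂ := fun x => Phi L α z n (((j : ℂ) + x) / (c : ℂ)) with hw
  have hreal : ∀ x : ℝ, (((j : ℂ) + (x : ℂ)) / (c : ℂ)) = ((((j : ℝ) + x) / c : ℝ) : ℂ) := by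
    intro x
    push_cast
    rfl
  have hcu : ∀ x : ℝ, c * (((j : ℝ) + x) / c) = x + j := by
    intro x
    field_simp
    ring
  refine hwin n hnn1 w ?_ ?_ {x : ℝ | ((j : ℝ) + x) / c ∈ A0} ?_ ?_ ?_ ?_
  · -- differentiable
    exact (Phi_diff L α z n).comp (((differentiable_const _).add differentiable_id).div_const _)
  · -- growth
    intro x hx
    obtain ⟨m, hm⟩ : ∃ m, m + N = n := ⟨n - N, by omega⟩
    have h1 := hKF m u0 hu0A' (((j : ℂ) + x) / (c : ℂ) - (u0 : ℂ))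
    rw [add_sub_cancel, hnF, hm] at h1
    have hn3' : (0 : ℝ) < (n : ℝ) ^ 3 := by positivity
    rw [div_le_iff₀ hn3'] at h1
    have h2 : ‖((j : ℂ) + x) / (c : ℂ) - (u0 : ℂ)‖ ≤ (Real.log n / n + dl n) / c := by
      have e1 : ((j : ℂ) + x) / (c : ℂ) - (u0 : ℂ) = (x - (((c * u0 - j : ℝ)) : ℂ)) / (c : ℂ) := by
        push_cast
        field_simp
        ring
      rw [e1, norm_div, Complex.norm_real, Real.norm_eq_abs, abs_of_pos hc0]
      apply div_le_div_of_nonneg_right _ hc0.le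
      refine (norm_sub_le _ _).trans (add_le_add hx ?_)
      rw [Complex.norm_real, Real.norm_eq_abs]
      exact hj.le
    have h3 : K * D m * ‖((j : ℂ) + x) / (c : ℂ) - (u0 : ℂ)‖ ≤ 4 * Real.pi * K * Real.log n := by
      have e1 : D m = 2 * Real.pi * n * c := by
        simp only [hD]
        rw [hm]
      rw [e1]
      have e2 : (n : ℝ) * dl n ≤ Real.log n := by
        have a1 := dl_le n hn3
        calc (n : ℝ) * dl n ≤ n * (1 / ((n : ℝ) * Real.log n)) :=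
              mul_le_mul_of_nonneg_left a1 hn0.le
          _ = 1 / Real.log n := by field_simp
          _ ≤ 1 := by
            rw [div_le_one hlogn]
            exact hlogn1.le
          _ ≤ Real.log n := hlogn1.le
      calc K * (2 * Real.pi * n * c) * ‖((j : ℂ) + x) / (c : ℂ) - (u0 : ℂ)‖
          ≤ K * (2 * Real.pi * n * c) * ((Real.log n / n + dl n) / c) := by
            apply mul_le_mul_of_nonneg_left h2
            have := Real.pi_pos
            positivity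
        _ = 2 * Real.pi * K * (Real.log n + n * dl n) := by
            field_simp
        _ ≤ 2 * Real.pi * K * (Real.log n + Real.log n) := by
            apply mul_le_mul_of_nonneg_left _ (by have := Real.pi_pos; positivity)
            linarith
        _ = 4 * Real.pi * K * Real.log n := by ring
    calc ‖w x‖ ≤ Real.exp (K * D m * ‖((j : ℂ) + x) / (c : ℂ) - (u0 : ℂ)‖) * (n : ℝ) ^ 3 := h1
      _ ≤ Real.exp (4 * Real.pi * K * Real.log n) * (n : ℝ) ^ 3 :=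
          mul_le_mul_of_nonneg_right (Real.exp_le_exp.2 h3) hn3'.le
      _ = Real.exp ((3 + 4 * Real.pi * K) * Real.log n) := by
          have e1 : (n : ℝ) ^ 3 = Real.exp (3 * Real.log n) := by
            have := Real.exp_nat_mul (Real.log n) 3
            rw [Real.exp_log hn0] at this
            push_cast at this
            exact this.symm
          rw [e1, ← Real.exp_add]
          congr 1
          ring
  · -- measurable
    have hcont : Continuous fun x : ℝ => ((j : ℝ) + x) / c := by fun_prop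
    exact hcont.measurable hA0m
  · -- not absorbed
    intro x hx habs
    have hxA : ((j : ℝ) + x) / c ∈ A0 := hx
    apply hxA.1
    apply Absorbed_shift n
    have e1 : (L : ℝ) ^ n * (((j : ℝ) + x) / c) = x + j := hcu x
    rw [e1]
    apply Absorbed_int
    have e2 : w (x : ℂ) = Phi L α z n ((((j : ℝ) + x) / c : ℝ) : ℂ) := by
      simp only [hw]
      rw [hreal]
    rw [← e2]
    exact habs
  · -- near real
    intro x hx hge k hk hR
    have hxA : ((j : ℝ) + x) / c ∈ A0 := hx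
    have e2 : w (x : ℂ) = Phi L α z n ((((j : ℝ) + x) / c : ℝ) : ℂ) := by
      simp only [hw]
      rw [hreal]
    have e3 : Phi L α z (n + k) ((((j : ℝ) + x) / c : ℝ) : ℂ) = Phi L α (w (x : ℂ)) k (x : ℂ) := by
      rw [Phi_add_real, ← e2]
      have e1 : (L : ℝ) ^ n * (((j : ℝ) + x) / c) = x + j := hcu x
      rw [e1, Phi_int]
    have h1 := hxA.2.2 (n + k) (by omega) ((L : ℤ) ^ k * j) (by
      have e4 : (L : ℝ) ^ (n + k) * (((j : ℝ) + x) / c) - (((L : ℤ) ^ k * j : ℤ) : ℝ) =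
          (L : ℝ) ^ k * x := by
        have e1 : (L : ℝ) ^ n * (((j : ℝ) + x) / c) = x + j := hcu x
        rw [pow_add, mul_comm ((L : ℝ) ^ n), mul_assoc, e1]
        push_cast
        ring
      rw [e4, abs_mul, abs_of_pos (pow_pos hL0 k)]
      exact hk) (by
      have e4 : (L : ℝ) ^ (n + k) * (((j : ℝ) + x) / c) - (((L : ℤ) ^ k * j : ℤ) : ℝ) =
          (L : ℝ) ^ k * x := by
        have e1 : (L : ℝ) ^ n * (((j : ℝ) + x) / c) = x + j := hcu x
        rw [pow_add, mul_comm ((L : ℝ) ^ n), mul_assoc, e1]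
        push_cast
        ring
      rw [e4]
      exact ge_shift hL hge k (hk.trans hδ))
    rw [e3] at h1
    exact h1 hR
  · -- density
    intro ρ hρ1 hρ2
    have hρ0 : 0 < ρ := lt_of_lt_of_le (by positivity) hρ1
    have hsub : {x : ℝ | ((j : ℝ) + x) / c ∈ A0}ᶜ ∩ Set.Icc (-ρ) ρ ⊆
        (fun x : ℝ => ((j : ℝ) + x) / c) ⁻¹'
          (A0ᶜ ∩ Set.Icc (u0 - 2 * ρ / c) (u0 + 2 * ρ / c)) := by
      rintro x ⟨hx1, hx2⟩
      refine ⟨hx1, ?_⟩
      have h1 : |(c * u0) - j| < ρ := lt_of_lt_of_le hj ((dl_le n hn3).trans hρ1)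
      rw [abs_lt] at h1
      rw [Set.mem_Icc] at hx2
      show ((j : ℝ) + x) / c ∈ Set.Icc (u0 - 2 * ρ / c) (u0 + 2 * ρ / c)
      rw [Set.mem_Icc]
      constructor
      · rw [le_div_iff₀ hc0, sub_mul, div_mul_cancel₀ _ hc0.ne']
        linarith [h1.1, h1.2, hx2.1, hx2.2, mul_comm c u0]
      · rw [div_le_iff₀ hc0, add_mul, div_mul_cancel₀ _ hc0.ne']
        linarith [h1.1, h1.2, hx2.1, hx2.2, mul_comm c u0]
    refine (measure_mono hsub).trans ?_
    rw [scale _ c hc0]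
    have hs : 2 * ρ / c ≤ r := by
      refine le_trans ?_ hnr
      have h1 : Real.log n / n ≤ 1 := by
        rw [div_le_one hn0]
        have := Real.log_le_sub_one_of_pos hn0
        linarith
      rw [div_eq_mul_inv]
      apply mul_le_mul_of_nonneg_right _ (inv_nonneg.2 hc0.le)
      linarith
    have h2 := hden2 (2 * ρ / c) (by positivity) hs
    calc ENNReal.ofReal c * volume (A0ᶜ ∩ Set.Icc (u0 - 2 * ρ / c) (u0 + 2 * ρ / c))
        ≤ ENNReal.ofReal c * ENNReal.ofReal (η / 2 * (2 * ρ / c)) := by gcongr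
      _ = ENNReal.ofReal (η * ρ) := by
          rw [← ENNReal.ofReal_mul hc0.le]
          congr 1
          field_simp

end Agaux

theorem t_Ag (hVT : S_VT) (hST : S_ST) (hDEN : S_DEN) (hBC : S_BC) (hWIN : S_WINg)
    (hGR : S_GR) : S_Ag := by
  intro L hL α hα0 hα1
  obtain ⟨θ, C0, ε, δ0, hθ0, hθ1, hC0, hε, hδ0, hδ8, hW⟩ := hWIN L hL α hα0 hα1
  refine ⟨θ, C0, ε, min δ0 (1 / 16), hθ0, hθ1, hC0, hε, lt_min hδ0 (by norm_num),
    (min_le_left _ _).trans hδ8, ?_⟩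
  intro δ hδ hδ1 z
  obtain ⟨η, hη, hWη⟩ := hW δ hδ (hδ1.trans (min_le_left _ _))
  have hδ16 : δ ≤ 1 / 16 := hδ1.trans (min_le_right _ _)
  have hnull : ∀ N : ℕ, ∀ᵐ u : ℝ, u ∉ Agaux.ANg L α z θ C0 ε δ (N + 1) := fun N =>
    measure_eq_zero_iff_ae_notMem.1 (Agaux.null hVT hST hDEN hGR L hL α hα0 hα1 θ C0 ε δ η hη
      hδ16 hWη z (N + 1) (by omega))
  have hαn : ‖(α : ℂ)‖ = α := by
    rw [Complex.norm_real, Real.norm_eq_abs, abs_of_pos hα0]
  filter_upwards [ae_all_iff.2 hnull, hBC L hL α z (by rw [hαn]; exact hα0)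
    (by rw [hαn]; exact hα1)] with u h1 h2 h3
  by_contra hcon
  obtain ⟨N0, hN0⟩ := h3
  obtain ⟨N1, hN1⟩ := eventually_atTop.1 (h2 hcon)
  apply h1 (max N0 N1)
  refine ⟨hcon, fun k hk => hN1 k ?_, fun k hk => hN0 k ?_⟩
  · exact le_trans (le_max_right N0 N1) (by omega)
  · exact le_trans (le_max_left N0 N1) (by omega)

end Pool.Agent.H212.KR
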