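import Pool.Agent.H212.KR.Stm2
import Pool.Agent.H212.KR.T_B

/-! # Project KR: S_B2 -/

set_option autoImplicit false

namespace Pool.Agent.H212.KR

open Complex Filter Topology MeasureTheory
open Pool.Agent.TH229.Kan

open Baux in
theorem t_B2 : S_B2 := by
  intro L hL α hα0 hα1 ε δ R hε hδ hδ8 hR u z r hr hnr
  have hzb : z ∈ Metric.ball z r := Metric.mem_ball_self hr
  set y : ℕ → ℝ := fun n => (Phi L α z n u).im with hy
  set x : ℕ → ℝ := fun n => (Phi L α z n u).re with hx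
  set d : ℕ → ℂ := fun n => deriv (fun w : ℂ => Phi L α w n u) z with hd
  set b : ℕ → ℝ := fun n => α * cr L n u with hb
  have hy0 : ∀ n, y n ≠ 0 := fun n => hnr n z hzb
  have hpk : ∀ n, ‖d n‖ ≤ 2 * |y n| / r := fun n => pick' hr (zdiff L α n u) (hnr n)
  have hys : ∀ n, y (n + 1) = y n * (1 + b n * (1 - 2 * x n)) := fun n => im_succ L α z n u
  have hds : ∀ n, d (n + 1) = d n * (1 + (b n : ℂ) * (1 - 2 * Phi L α z n u)) := by
    intro n
    have := zderiv L α n u z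
    simp only [hd, hb]
    rw [this]
    push_cast
    ring
  have hmul : ∀ n, 1 + b n * (1 - 2 * x n) ≠ 0 := by
    intro n h
    apply hy0 (n + 1)
    rw [hys, h, mul_zero]
  have hd2 : ∀ n, ‖d (n + 1)‖ ^ 2 = ‖d n‖ ^ 2 *
      ((1 + b n * (1 - 2 * x n)) ^ 2 + 4 * b n ^ 2 * y n ^ 2) := by
    intro n
    rw [hds, norm_mul, mul_pow]
    congr 1
    rw [Complex.sq_norm, Complex.normSq_apply]
    simp only [Complex.add_re, Complex.add_im, Complex.mul_re, Complex.mul_im, Complex.sub_re,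
      Complex.sub_im, Complex.one_re, Complex.one_im, Complex.ofReal_re, Complex.ofReal_im,
      Complex.re_ofNat, Complex.im_ofNat, hx, hy]
    ring
  set t : ℕ → ℝ := fun n => ‖d n‖ ^ 2 / y n ^ 2 with ht
  set s : ℕ → ℝ := fun n => 4 * b n ^ 2 * y n ^ 2 / (1 + b n * (1 - 2 * x n)) ^ 2 with hs
  have hts : ∀ n, t (n + 1) = t n * (1 + s n) := by
    intro n
    have h1 := hy0 n
    have h2 := hmul n
    simp only [ht, hs]
    rw [hd2, hys]
    field_simp
  have hs0 : ∀ n, 0 ≤ s n := fun n => by simp only [hs]; positivity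
  have ht0 : ∀ n, 0 ≤ t n := fun n => by simp only [ht]; positivity
  have hmono : Monotone t := by
    refine monotone_nat_of_le_succ fun n => ?_
    rw [hts]
    nlinarith [mul_nonneg (ht0 n) (hs0 n)]
  have hbd : ∀ n, t n ≤ 4 / r ^ 2 := by
    intro n
    have h1 := hy0 n
    have h2 : 0 < y n ^ 2 := by positivity
    simp only [ht]
    rw [div_le_iff₀ h2]
    calc ‖d n‖ ^ 2 ≤ (2 * |y n| / r) ^ 2 := pow_le_pow_left₀ (norm_nonneg _) (hpk n) 2
      _ = 4 / r ^ 2 * y n ^ 2 := by rw [div_pow, mul_pow, sq_abs]; ring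
  have hlim : ∃ T, Tendsto t atTop (𝓝 T) :=
    ⟨_, tendsto_atTop_ciSup hmono ⟨4 / r ^ 2, by rintro _ ⟨n, rfl⟩; exact hbd n⟩⟩
  obtain ⟨T, hT⟩ := hlim
  have hdiff : Tendsto (fun n => t (n + 1) - t n) atTop (𝓝 0) := by
    have := (hT.comp (tendsto_add_atTop_nat 1)).sub hT
    rwa [sub_self] at this
  have ht00 : 0 < t 0 := by
    have h1 := hy0 0
    have h2 : d 0 = 1 := by
      simp only [hd]
      exact deriv_id z
    simp only [ht]
    rw [h2]
    simp only [norm_one]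
    positivity
  have hs_small : ∀ η : ℝ, 0 < η → ∃ N, ∀ k ≥ N, s k < η := by
    intro η hη
    have h1 := (hdiff.eventually_lt_const (show (0 : ℝ) < η * t 0 by positivity))
    obtain ⟨N, hN⟩ := eventually_atTop.mp h1
    refine ⟨N, fun k hk => ?_⟩
    have h2 := hN k hk
    rw [hts] at h2
    have h3 : t 0 ≤ t k := hmono (Nat.zero_le k)
    have h4 : t 0 * s k ≤ t k * s k := mul_le_mul_of_nonneg_right h3 (hs0 k)
    by_contra hc
    push Not at hc
    have h5 : t 0 * η ≤ t 0 * s k := mul_le_mul_of_nonneg_left hc ht00.le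
    nlinarith
  obtain ⟨N, hN⟩ := hs_small ((α * ε) ^ 2 / (2 + 2 * R) ^ 2) (by positivity)
  refine ⟨N, fun k hk j hj hRk => ?_⟩
  have hsk := hN k hk
  -- lower bound of the cosine
  have hcos : 1 / 2 ≤ cr L k u := by
    have h1 : cr L k u = Real.cos (2 * Real.pi * ((L : ℝ) ^ k * u - j)) := by
      unfold cr
      rw [mul_sub, show 2 * Real.pi * (j : ℝ) = (j : ℝ) * (2 * Real.pi) by ring,
        Real.cos_sub_int_mul_two_pi]
    rw [h1, ← Real.cos_abs]
    have hpi := Real.pi_pos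
    have h2 : |2 * Real.pi * ((L : ℝ) ^ k * u - j)| ≤ Real.pi / 3 := by
      rw [abs_mul, abs_of_pos (by positivity : (0 : ℝ) < 2 * Real.pi)]
      nlinarith
    have h3 := Real.cos_le_cos_of_nonneg_of_le_pi (abs_nonneg _) (by linarith) h2
    rw [Real.cos_pi_div_three] at h3
    exact h3
  have hcos1 : |cr L k u| ≤ 1 := cr_abs_le L k u
  have hbk : α / 2 ≤ b k := by
    simp only [hb]
    nlinarith
  have hbk1 : |b k| ≤ 1 := by
    simp only [hb]
    rw [abs_mul, abs_of_pos hα0]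
    nlinarith [abs_nonneg (cr L k u)]
  have hxk : |x k| ≤ R := (Complex.abs_re_le_norm _).trans hRk
  have hM : |1 + b k * (1 - 2 * x k)| ≤ 2 + 2 * R := by
    have h1 : |b k * (1 - 2 * x k)| ≤ 1 * (1 + 2 * R) := by
      rw [abs_mul]
      refine mul_le_mul hbk1 ?_ (abs_nonneg _) zero_le_one
      calc |1 - 2 * x k| ≤ |1| + |2 * x k| := abs_sub _ _
        _ ≤ 1 + 2 * R := by rw [abs_one, abs_mul, abs_two]; linarith
    calc |1 + b k * (1 - 2 * x k)| ≤ |1| + |b k * (1 - 2 * x k)| := abs_add_le _ _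
      _ ≤ 2 + 2 * R := by rw [abs_one]; linarith
  have hM2 : (1 + b k * (1 - 2 * x k)) ^ 2 ≤ (2 + 2 * R) ^ 2 := by
    rw [← sq_abs (1 + b k * (1 - 2 * x k))]
    exact pow_le_pow_left₀ (abs_nonneg _) hM 2
  have hMpos : 0 < (1 + b k * (1 - 2 * x k)) ^ 2 := by
    have := hmul k
    positivity
  simp only [hs] at hsk
  rw [div_lt_div_iff₀ hMpos (by positivity)] at hsk
  have h6 : 4 * b k ^ 2 * y k ^ 2 * (2 + 2 * R) ^ 2 < (α * ε) ^ 2 * (2 + 2 * R) ^ 2 :=
    lt_of_lt_of_le hsk (mul_le_mul_of_nonneg_left hM2 (by positivity))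
  have h7 : 4 * b k ^ 2 * y k ^ 2 < (α * ε) ^ 2 :=
    lt_of_mul_lt_mul_right h6 (by positivity)
  have h8 : α ^ 2 ≤ 4 * b k ^ 2 := by nlinarith
  have h9 : α ^ 2 * y k ^ 2 < α ^ 2 * ε ^ 2 := by
    calc α ^ 2 * y k ^ 2 ≤ 4 * b k ^ 2 * y k ^ 2 := mul_le_mul_of_nonneg_right h8 (by positivity)
      _ < (α * ε) ^ 2 := h7
      _ = _ := by ring
  have h10 : y k ^ 2 < ε ^ 2 := lt_of_mul_lt_mul_left h9 (by positivity)
  have h11 := abs_lt_of_sq_lt_sq h10 hε.le
  exact h11.le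

end Pool.Agent.H212.KR
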