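import Pool.Agent.H212.KR.Stm2
import Pool.Agent.H212.KR.T_CR

set_option autoImplicit false

namespace Pool.Agent.H212.KR

open Complex Filter Topology MeasureTheory
open Pool.Agent.TH229.Kan

theorem t_CRg (h1 : S_CR1) (h2 : S_CR2) (h3 : S_CR3) : S_CRg := by
  intro L hL α hα hα1 θ hθ hθ1 C0 hC0
  have hL1 : (1 : ℝ) < L := by exact_mod_cast (by omega : 1 < L)
  have hL2 : (2 : ℝ) ≤ L := by exact_mod_cast hL
  have hL0 : (0 : ℝ) < L := by linarith
  have hαn : ‖(α : ℂ)‖ = α := by rw [Complex.norm_real, Real.norm_eq_abs, abs_of_pos hα]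
  obtain ⟨η, C3, hη, hη8, hC3, H3⟩ := h3 L hL α hα hα1
  obtain ⟨R, hR⟩ : ∃ R : ℝ, R = RE (α : ℂ) C0 := ⟨_, rfl⟩
  have hR1 : 1 < R := by
    rw [hR]
    exact RE_pos (by rw [hαn]; exact hα) (by linarith)
  obtain ⟨η1, hη1⟩ : ∃ η1 : ℝ, η1 = min (1 / 2) (rS (α : ℂ) θ C0) := ⟨_, rfl⟩
  have hη1p : 0 < η1 := by
    rw [hη1]
    exact lt_min (by norm_num) (rS_pos (by rw [hαn]; exact hα1) hθ1 (by linarith))
  obtain ⟨N, δ', ε, hδ', hε, H2⟩ := h2 L hL α hα hα1 R η η1 (by linarith) hη hη1p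
  obtain ⟨δm, hδm⟩ : ∃ δm : ℝ, δm = min (min δ' (1 / (8 * (L : ℝ) ^ (N + 1)))) (α / 32) := ⟨_, rfl⟩
  have hδm0 : 0 < δm := by
    rw [hδm]
    exact lt_min (lt_min hδ' (by positivity)) (by positivity)
  have hδmc : δm ≤ α / 32 := by rw [hδm]; exact min_le_right _ _
  refine ⟨ε, δm, hε, hδm0, by linarith, ?_⟩
  intro δ hδ0 hδle
  have hδa : δ ≤ δ' := hδle.trans (by rw [hδm]; exact (min_le_left _ _).trans (min_le_left _ _))
  have hδb : δ ≤ 1 / (8 * (L : ℝ) ^ (N + 1)) := hδle.trans (by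
    rw [hδm]; exact (min_le_left _ _).trans (min_le_right _ _))
  have hδc : δ ≤ α / 32 := hδle.trans hδmc
  have hδ8 : δ ≤ 1 / 8 := by linarith
  obtain ⟨a, ha⟩ : ∃ a : ℝ, a = Real.logb L (1 + α) := ⟨_, rfl⟩
  have ha0 : 0 < a := by
    rw [ha]
    exact Real.logb_pos hL1 (by linarith)
  have hLa : (L : ℝ) ^ a = 1 + α := by
    rw [ha]
    exact Real.rpow_logb hL0 hL1.ne' (by linarith)
  have ha1 : a ≤ 1 := by
    by_contra hcon
    push Not at hcon
    have h4 : (L : ℝ) ^ (1 : ℝ) < (L : ℝ) ^ a := Real.rpow_lt_rpow_of_exponent_lt hL1 hcon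
    rw [Real.rpow_one, hLa] at h4
    linarith
  obtain ⟨P, hP⟩ : ∃ P : ℝ, P = (δ / L) ^ a := ⟨_, rfl⟩
  have hP0 : 0 < P := by
    rw [hP]
    exact Real.rpow_pos_of_pos (by positivity) a
  refine ⟨(R * (R + 1 + 1 / α) + C3 / α) / P + 20 * R * (1 + R), by positivity, ?_⟩
  intro w x hx0 hxδ m hm1 hm2 hGE hGS hnA hNR
  rw [← hR] at hNR
  rw [← ha]
  have hxp : 0 < |x| := abs_pos.2 hx0
  have H1 := h1 L hL α hα hα1 θ hθ hθ1 C0 hC0 w x m hm2 hGE hGS hnA
  rw [← hR, ← hη1] at H1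
  -- claim A
  have clA : ∀ k : ℕ, (L : ℝ) ^ k * |x| ≤ δ → k + N ≤ m := by
    intro k hk
    by_contra hcon
    push Not at hcon
    have e1 : (L : ℝ) ^ (m + 1) ≤ (L : ℝ) ^ (k + N) := pow_le_pow_right₀ hL1.le hcon
    have e2 : (L : ℝ) ^ (k + N) * |x| ≤ 1 / (8 * L) := by
      have e3 : (L : ℝ) ^ (k + N) * |x| = (L : ℝ) ^ N * ((L : ℝ) ^ k * |x|) := by
        rw [pow_add]; ring
      rw [e3]
      refine (mul_le_mul_of_nonneg_left (hk.trans hδb) (by positivity)).trans (le_of_eq ?_)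
      rw [pow_succ]
      field_simp
    have e4 : (L : ℝ) ^ (m + 1) * |x| ≤ 1 / (8 * L) :=
      (mul_le_mul_of_nonneg_right e1 hxp.le).trans e2
    have e5 : (L : ℝ) ^ (m + 1) * |x| = L * ((L : ℝ) ^ m * |x|) := by
      rw [pow_succ]; ring
    rw [e5] at e4
    have e6 : (0 : ℝ) < 1 / (8 * L) := by positivity
    nlinarith
  -- claim B
  have clB : ∀ k : ℕ, (L : ℝ) ^ k * |x| ≤ δ →
      ‖Phi L α w k x‖ < η ∨ ‖Phi L α w k x - 1 - 1 / α‖ < η := by
    intro k hk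
    by_contra hcon
    push Not at hcon
    obtain ⟨c1, c2⟩ := hcon
    have hkm := clA k hk
    have b1 := (H1 k (by omega)).1
    have b2 := hNR k hk b1.le
    have b3 : |(L : ℝ) ^ k * x| ≤ δ' := by
      rw [abs_mul, abs_of_nonneg (show (0 : ℝ) ≤ (L : ℝ) ^ k by positivity)]
      exact hk.trans hδa
    obtain ⟨k', hk', hor⟩ := H2 (Phi L α w k x) b1.le b2 c1 c2 ((L : ℝ) ^ k * x) b3
    rw [← Phi_add_real] at hor
    obtain ⟨d1, d2⟩ := H1 (k + k') (by omega)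
    rcases hor with hor | hor
    · linarith
    · linarith
  -- claim C
  have clC : ∀ k : ℕ, (L : ℝ) ^ (k + 1) * |x| ≤ δ → ‖Phi L α w (k + 1) x‖ < η := by
    intro k hk
    have hk0 : (L : ℝ) ^ k * |x| ≤ δ := by
      refine le_trans ?_ hk
      exact mul_le_mul_of_nonneg_right (pow_le_pow_right₀ hL1.le (Nat.le_succ k)) hxp.le
    exact CR_next hα hα1 hη hη8 hδ0.le hδc hk0 (clB k hk0) (clB (k + 1) hk)
  -- the last time in the small neighbourhood
  have hex : ∃ k : ℕ, δ < (L : ℝ) ^ k * |x| := by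
    obtain ⟨k, hk⟩ := pow_unbounded_of_one_lt (δ / |x|) hL1
    refine ⟨k, ?_⟩
    rwa [div_lt_iff₀ hxp] at hk
  classical
  obtain ⟨k0, hk0⟩ : ∃ k0 : ℕ, k0 = Nat.find hex := ⟨_, rfl⟩
  have hk0s : δ < (L : ℝ) ^ k0 * |x| := by rw [hk0]; exact Nat.find_spec hex
  have hk0m : ∀ j < k0, (L : ℝ) ^ j * |x| ≤ δ := fun j hj => by
    rw [hk0] at hj
    exact not_lt.1 (Nat.find_min hex hj)
  have hk01 : k0 ≠ 0 := by
    intro h
    rw [h, pow_zero, one_mul] at hk0s
    linarith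
  obtain ⟨K, rfl⟩ : ∃ K, k0 = K + 1 := Nat.exists_eq_succ_of_ne_zero hk01
  have hKs := hk0s
  have hKm : (L : ℝ) ^ K * |x| ≤ δ := hk0m K (Nat.lt_succ_self K)
  have hxa : 0 < |x| ^ a := Real.rpow_pos_of_pos hxp a
  -- comparison of the powers
  have hpow : P ≤ (1 + α) ^ K * |x| ^ a := by
    have e1 : δ / L ≤ (L : ℝ) ^ K * |x| := by
      rw [div_le_iff₀ hL0]
      rw [pow_succ] at hKs
      linarith
    have e2 := Real.rpow_le_rpow (by positivity) e1 ha0.le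
    rw [Real.mul_rpow (by positivity) hxp.le, ← Real.rpow_pow_comm hL0.le, hLa] at e2
    rw [hP]
    exact e2
  have w0 : ‖w‖ < R := by
    have := (H1 0 (Nat.zero_le _)).1
    exact this
  have hR0 : 0 < R := by linarith
  have hαi : 0 < 1 / α := by positivity
  rcases Nat.eq_zero_or_pos K with hK | hK
  · -- `K = 0`
    rw [hK, pow_zero, one_mul] at hpow
    have e1 : ‖w * (w - 1 - 1 / α)‖ ≤ R * (R + 1 + 1 / α) := by
      rw [norm_mul]
      refine mul_le_mul w0.le ?_ (norm_nonneg _) hR0.le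
      refine (norm_sub_le _ _).trans ?_
      have e2 : ‖(1 : ℂ) / α‖ = 1 / α := by rw [norm_div, norm_one, hαn]
      rw [e2]
      have e3 := norm_sub_le w 1
      rw [norm_one] at e3
      linarith
    have e4 : 1 ≤ |x| ^ a / P := by
      rw [le_div_iff₀ hP0]
      linarith
    have e5 : 0 ≤ C3 / α / P * |x| ^ a := by positivity
    have e6 : 0 ≤ 20 * R * (1 + R) * |x| ^ a := by positivity
    have e7 : R * (R + 1 + 1 / α) ≤ R * (R + 1 + 1 / α) * (|x| ^ a / P) :=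
      le_mul_of_one_le_right (by positivity) e4
    have e8 : ((R * (R + 1 + 1 / α) + C3 / α) / P + 20 * R * (1 + R)) * |x| ^ a =
        R * (R + 1 + 1 / α) * (|x| ^ a / P) + C3 / α / P * |x| ^ a +
          20 * R * (1 + R) * |x| ^ a := by
      field_simp
    rw [e8]
    linarith
  · -- `K ≥ 1`
    have f1 : ‖Phi L α w 1 x‖ ≤ C3 * ((1 + α) ^ K)⁻¹ := by
      refine H3 w x K hK (hKm.trans hδ8) ?_
      intro k hk1 hk2
      obtain ⟨j, rfl⟩ : ∃ j, k = j + 1 := Nat.exists_eq_succ_of_ne_zero (by omega)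
      exact (clC j (hk0m (j + 1) (by omega))).le
    have f2 : ((1 + α) ^ K)⁻¹ ≤ |x| ^ a / P := by
      rw [le_div_iff₀ hP0, inv_mul_le_iff₀ (by positivity)]
      exact hpow
    have hstep := CR_step L α w 0 x
    have hz : Phi L α w 0 x = w := rfl
    rw [hz, zero_add] at hstep
    obtain ⟨c, hc⟩ : ∃ c : ℝ, c = cr L 0 x := ⟨_, rfl⟩
    rw [← hc] at hstep
    have hc4 : c = Real.cos (2 * Real.pi * x) := by
      rw [hc, cr, pow_zero, one_mul]
    have hc2 : 1 - c ≤ 20 * x ^ 2 := by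
      rw [hc4]
      exact CR_cos x
    have hc3 : 0 ≤ 1 - c := by
      have := Real.cos_le_one (2 * Real.pi * x)
      rw [hc4]
      linarith
    have hαc : (α : ℂ) ≠ 0 := by exact_mod_cast hα.ne'
    have g1 : w * (w - 1 - 1 / α) =
        -(1 / α * Phi L α w 1 x) - ((1 - c : ℝ) : ℂ) * (w * (1 - w)) := by
      rw [hstep]
      push_cast
      field_simp
      ring
    have g2 : ‖w * (1 - w)‖ ≤ R * (1 + R) := by
      rw [norm_mul]
      refine mul_le_mul w0.le ?_ (norm_nonneg _) hR0.le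
      refine (norm_sub_le _ _).trans ?_
      rw [norm_one]
      linarith
    have g3 : ‖w * (w - 1 - 1 / α)‖ ≤ 1 / α * ‖Phi L α w 1 x‖ + (1 - c) * (R * (1 + R)) := by
      rw [g1]
      refine (norm_sub_le _ _).trans ?_
      rw [norm_neg, norm_mul, norm_mul, norm_div, norm_one, hαn, Complex.norm_real,
        Real.norm_eq_abs, abs_of_nonneg hc3]
      have := mul_le_mul_of_nonneg_left g2 hc3
      linarith
    have g4 : x ^ 2 ≤ |x| ^ a := by
      rw [← sq_abs, ← Real.rpow_natCast]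
      refine Real.rpow_le_rpow_of_exponent_ge hxp (by linarith) ?_
      push_cast
      linarith
    have g5 : 1 / α * ‖Phi L α w 1 x‖ ≤ 1 / α * (C3 * (|x| ^ a / P)) := by
      refine mul_le_mul_of_nonneg_left ?_ hαi.le
      exact f1.trans (mul_le_mul_of_nonneg_left f2 hC3.le)
    have g6 : (1 - c) * (R * (1 + R)) ≤ 20 * |x| ^ a * (R * (1 + R)) :=
      mul_le_mul_of_nonneg_right (by linarith) (by positivity)
    have e7 : 0 ≤ R * (R + 1 + 1 / α) / P * |x| ^ a := by positivity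
    have e8 : ((R * (R + 1 + 1 / α) + C3 / α) / P + 20 * R * (1 + R)) * |x| ^ a =
        R * (R + 1 + 1 / α) / P * |x| ^ a + 1 / α * (C3 * (|x| ^ a / P)) +
          20 * |x| ^ a * (R * (1 + R)) := by
      field_simp
    rw [e8]
    linarith

end Pool.Agent.H212.KR
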