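import Pool.Agent.H212.KR.Stm

/-!
# Project KR, part 2: zero area of the non absorbed set (real coupling, every base degree)

The near-real condition is now only required at times whose exit from the neighbourhood of the base point `0` is good.
-/

set_option autoImplicit false

namespace Pool.Agent.H212.KR

open Complex Filter Topology MeasureTheory
open Pool.Agent.TH229.Kan

/-- the good set of exits -/
def GG (L : ℕ) (α : ℝ) (θ C0 : ℝ) : Set ℝ := GE L C0 ∩ GS L (α : ℂ) θ C0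

/-- `x` (small, non zero) has a good exit from the neighbourhood of `0` under `x ↦ L x` -/
def GoodExit (L : ℕ) (α θ C0 x : ℝ) : Prop :=
  ∃ m : ℕ, 1 / (8 * (L : ℝ)) ≤ (L : ℝ) ^ m * |x| ∧ (L : ℝ) ^ m * |x| < 1 / 8 ∧
    (L : ℝ) ^ m * x ∈ GG L α θ C0

/-- **S_CRg.** Same as `S_CR`, but every small `δ` is allowed. The proof of `S_CR` works: there `δ` is only required to be below a bound. -/
def S_CRg : Prop :=
  ∀ L : ℕ, 2 ≤ L → ∀ α : ℝ, 0 < α → α < 1 → ∀ θ : ℝ, 0 < θ → θ < 1 → ∀ C0 : ℝ, 2 ≤ C0 →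
    ∃ ε δ0 : ℝ, 0 < ε ∧ 0 < δ0 ∧ δ0 ≤ 1 / 8 ∧ ∀ δ : ℝ, 0 < δ → δ ≤ δ0 → ∃ C1 : ℝ, 0 < C1 ∧
      ∀ (w : ℂ) (x : ℝ), x ≠ 0 → |x| ≤ δ → ∀ m : ℕ, 1 / (8 * (L : ℝ)) ≤ (L : ℝ) ^ m * |x| →
      (L : ℝ) ^ m * |x| < 1 / 8 → (L : ℝ) ^ m * x ∈ GE L C0 → (L : ℝ) ^ m * x ∈ GS L (α : ℂ) θ C0 →
      ¬ Absorbed L α w x →
      (∀ k : ℕ, (L : ℝ) ^ k * |x| ≤ δ → ‖Phi L α w k x‖ ≤ RE (α : ℂ) C0 →
        |(Phi L α w k x).im| ≤ ε) →
      ‖w * (w - 1 - 1 / α)‖ ≤ C1 * |x| ^ Real.logb L (1 + α)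

/-- **S_WINg.** Same as `S_WIN`, with every small `δ` allowed, explicit `θ, C0`, and the near-real hypothesis only at `x ∈ A` with a good exit (which is all the proof of
`S_WIN` uses: `S_CR` is applied at points `x ∈ A ∖ B`). `theorem t_WINg (hTC : S_TC) (hCAS : S_CAS) (hPER : S_PER) (hBAD : S_BAD) (hG0 : S_G0) (hCR : S_CRg) (hEV : S_EV) (hNUM : S_NUM) : S_WINg`. -/
def S_WINg : Prop :=
  ∀ L : ℕ, 2 ≤ L → ∀ α : ℝ, 0 < α → α < 1 →
    ∃ θ C0 ε δ0 : ℝ, 0 < θ ∧ θ < 1 ∧ 2 ≤ C0 ∧ 0 < ε ∧ 0 < δ0 ∧ δ0 ≤ 1 / 8 ∧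
    ∀ δ : ℝ, 0 < δ → δ ≤ δ0 → ∃ η : ℝ, 0 < η ∧ ∀ C2 : ℝ, ∃ n1 : ℕ, 3 ≤ n1 ∧
      ∀ n : ℕ, n1 ≤ n → ∀ w : ℂ → ℂ, Differentiable ℂ w →
      (∀ x : ℂ, ‖x‖ ≤ Real.log n / n → ‖w x‖ ≤ Real.exp (C2 * Real.log n)) →
      ∀ A : Set ℝ, MeasurableSet A → (∀ x ∈ A, ¬ Absorbed L α (w (x : ℂ)) x) →
      (∀ x ∈ A, GoodExit L α θ C0 x → ∀ k : ℕ, (L : ℝ) ^ k * |x| ≤ δ →
        ‖Phi L α (w (x : ℂ)) k x‖ ≤ RE (α : ℂ) C0 → |(Phi L α (w (x : ℂ)) k x).im| ≤ ε) →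
      (∀ ρ : ℝ, 1 / (n * Real.log n) ≤ ρ → ρ ≤ Real.log n / n →
        volume (Aᶜ ∩ Set.Icc (-ρ) ρ) ≤ ENNReal.ofReal (η * ρ)) → False

/-- near-real near the base point `0` at good exits -/
def NRg (L : ℕ) (α : ℝ) (z : ℂ) (θ C0 ε δ u : ℝ) : Prop :=
  ∃ N : ℕ, ∀ k ≥ N, ∀ j : ℤ, |(L : ℝ) ^ k * u - j| ≤ δ → GoodExit L α θ C0 ((L : ℝ) ^ k * u - j) →
    ‖Phi L α z k u‖ ≤ RE (α : ℂ) C0 → |(Phi L α z k u).im| ≤ ε

/-- **S_Ag (Lemma A, general form).** Same proof as `S_A`. (`x ∈ A` with a good exit, `u = (j+x)/L^n`: if `L^k |x| ≤ δ` then `L^(n+k) u - L^k j = L^k x`, and `L^k x` has a good exit with `m - k` in place of `m`: `k ≤ m` because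
`L^k |x| ≤ δ ≤ 1/8`; if `k > m` then `L^k|x| ≥ L · L^m|x| ≥ 1/8`, so choose `δ0 < 1/8`, or treat `L^k |x| = 1/8` separately; `δ < 1/8` may be assumed by shrinking `δ0`.)
`theorem t_Ag (hVT : S_VT) (hST : S_ST) (hDEN : S_DEN) (hBC : S_BC) (hWIN : S_WINg) (hGR : S_GR) : S_Ag`. -/
def S_Ag : Prop :=
  ∀ L : ℕ, 2 ≤ L → ∀ α : ℝ, 0 < α → α < 1 →
    ∃ θ C0 ε δ0 : ℝ, 0 < θ ∧ θ < 1 ∧ 2 ≤ C0 ∧ 0 < ε ∧ 0 < δ0 ∧ δ0 ≤ 1 / 8 ∧
    ∀ δ : ℝ, 0 < δ → δ ≤ δ0 → ∀ z : ℂ, ∀ᵐ u : ℝ, NRg L α z θ C0 ε δ u → Absorbed L α z u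

/-- **S_B2.** Second half of the proof of `S_B`: if the orbit of a disc avoids the real line then its centre is near-real.
Proof. `g n w = Phi L α w n u`, polynomial in `w`. `g n (ball z r)` is connected and disjoint from `ℝ`: it lies in one half plane. Schwarz-Pick: `‖(g n)' z‖ ≤ 2 |Im (g n z)| / r`. `x_n + i y_n = g n z`, `β_n = α cos (2π L^n u)`,
`τ_n = ‖(g n)' z‖/|y_n| ≤ 2/r`, `τ_0 > 0`. `(g (n+1))' z = (1 + β_n (1 - 2 g n z)) (g n)' z`, `y_{n+1} = y_n (1 + β_n (1 - 2 x_n))`, so `τ_{n+1}² = τ_n² (1 + 4 β_n² y_n² / (1 + β_n(1-2x_n))²)`; `τ_n²` converges to a positive limit,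
so `4 β_n² y_n² / (1 + β_n (1-2x_n))² → 0`. If `|L^n u - j| ≤ δ ≤ 1/8`, `|β_n| ≥ α/2`, and if `‖g n z‖ ≤ R`, `|1 + β_n(1-2x_n)| ≤ 2 + 2R`, so `|y_n| ≤ ε` for large `n`. -/
def S_B2 : Prop :=
  ∀ L : ℕ, 2 ≤ L → ∀ α : ℝ, 0 < α → α < 1 → ∀ ε δ R : ℝ, 0 < ε → 0 < δ → δ ≤ 1 / 8 → 0 < R →
    ∀ (u : ℝ) (z : ℂ) (r : ℝ), 0 < r → (∀ (n : ℕ), ∀ w ∈ Metric.ball z r, (Phi L α w n u).im ≠ 0) →
      NR L α z ε δ R u

/-- **S_AR (absorbed balls).** Near every point `w`, over a real base point `x` close to `0` with a good exit, there is a ball of a definite size of absorbed points.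
Proof (`theorem t_AR (hB : S_B) (hCR1 : S_CR1) (hCR2 : S_CR2) : S_AR`). `R = RE α C0`, `η1 = min (1/2) (rS α θ C0)`, `T = {z | ∃ k, R < ‖Phi L α z k 0‖ ∨ ‖Phi L α z k 0 - 1‖ < η1}` (base point `0`, `Phi L α z k 0 = f^k z`, `f w = w + α w (1-w)`), open.
(1) Over `u = 0` every real `p` is absorbed (real dynamics, see `S_CR2`: `p = 0, 1 + 1/α ↦ 0`, `0<p<1+1/α`: `→ 1`; else `→ ∞`). (2) `T` is dense: let `ball z r ∩ T = ∅`. If the ball has an absorbed (over `0`) point `z'`: its orbit does not converge to `1` or `∞`, so `→ 0`, and since `0` is repelling (`‖f w‖ ≥ (1+α/2)‖w‖` for `‖w‖ ≤ 1/4`)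
`Phi L α z' k 0 = 0` for some `k`; by the open mapping theorem (`Phi L α · k 0` is a non constant polynomial: values `0`, `1` at `0`, `1`) the image of the ball contains a small real `p ∈ (0,1)`, whose orbit tends to `1`: a point of `T`. If the ball has no absorbed point: by `S_B` at `u = 0` (`L^n * 0 = 0`), `|Im f^k z| ≤ ε'` eventually for every `ε'` (the orbit is bounded by `R` as `ball ∩ T = ∅`).
`S_CR2` (with `η` small, e.g. `η = 1/8`, and its `ε'`) at `x = 0`: for all large `k`, `‖f^k z‖ < η` or `‖f^k z - 1 - 1/α‖ < η` (else `T`); as in the proof of `S_CR` the next points are all in `‖·‖ < η`, growing by the factor `1 + α/2`: so some `f^k z = 0`, `z` is absorbed, contradiction. (3) Compactness: for `w ∈ closedBall 0 R` choose `w' ∈ ball w (ε/8) ∩ T` with its `k`; by joint continuity (`Phi_joint_cont`) there are `s_w, δ_w > 0` such that the condition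
`R < ‖Phi L α w'' k x‖ ∨ ‖Phi L α w'' k x - 1‖ < η1` holds for `w'' ∈ ball w' s_w`, `|x| ≤ δ_w`. A finite cover of `closedBall 0 R` by balls `ball w_i (ε/8)` gives `s = min s_i` (`≤ ε/8`), `N = max k_i`, `δa = min (δ_i, 1/(8 L^(N+1)))`. (4) If `|x| ≤ δa` has a good exit `m` then `k ≤ N ≤ m` and `S_CR1` (contrapositive) shows that `w''` is absorbed over `x`. -/
def S_AR : Prop :=
  ∀ L : ℕ, 2 ≤ L → ∀ α : ℝ, 0 < α → α < 1 → ∀ θ : ℝ, 0 < θ → θ < 1 → ∀ C0 : ℝ, 2 ≤ C0 →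
    ∀ ε : ℝ, 0 < ε → ∃ δa s : ℝ, 0 < δa ∧ 0 < s ∧ s ≤ ε / 8 ∧
      ∀ w : ℂ, ‖w‖ ≤ RE (α : ℂ) C0 → ∀ x : ℝ, |x| ≤ δa → GoodExit L α θ C0 x →
        ∃ w' ∈ Metric.ball w (ε / 4), ∀ w'' ∈ Metric.ball w' s, Absorbed L α w'' x

/-- **S_INV (inverse branches on half planes).** Real coupling, real base point: all critical values are real, so the branches of the inverse of `Phi_k` are defined on the half planes.
Proof. Induction on `k`, `Phi_{k+1} = f_β ∘ Phi_k`, `f_β w = w + β w (1-w)`, `β` real. If `β = 0`, trivial. Else `f_β w = v - β (w - c)²`, `c = (1+β)/(2β)`, `v = (1+β)²/(4β)`; for `ζ` in a half plane `(v - ζ)/β` is in `ℂ ∖ ℝ` (one half plane), its principal square root is analytic there, and `h ζ = c ± sqrt ((v-ζ)/β)` (sign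
chosen so that `h (Phi_{k+1} z) = Phi_k z`) satisfies `f_β (h ζ) = ζ`; `h ζ` is never real (`f_β` maps reals to reals), so `h` maps the half plane into one half plane (connectedness), the one containing `Phi_k z`. Compose with the branch for `Phi_k`. `σ = 1` or `-1` selects the half plane. -/
def S_INV : Prop :=
  ∀ (L : ℕ) (α u : ℝ) (z : ℂ) (k : ℕ) (σ : ℝ), (σ = 1 ∨ σ = -1) → 0 < σ * (Phi L (α : ℂ) z k u).im →
    ∃ g : ℂ → ℂ, DifferentiableOn ℂ g {w : ℂ | 0 < σ * w.im} ∧ g (Phi L (α : ℂ) z k u) = z ∧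
      ∀ w : ℂ, 0 < σ * w.im → Phi L (α : ℂ) (g w) k u = w

/-- bad times: near the base point `0`, with a good exit, bounded, but not near-real -/
def BadTime (L : ℕ) (α : ℝ) (z : ℂ) (θ C0 ε δ u : ℝ) (k : ℕ) : Prop :=
  ∃ j : ℤ, |(L : ℝ) ^ k * u - j| ≤ δ ∧ GoodExit L α θ C0 ((L : ℝ) ^ k * u - j) ∧
    ‖Phi L α z k u‖ ≤ RE (α : ℂ) C0 ∧ ε < |(Phi L α z k u).im|

/-- **S_POR (porosity at points with infinitely many bad times).**
Proof (`theorem t_POR (hB2 : S_B2) (hAR : S_AR) (hINV : S_INV) : S_POR`). `δa, s` from `S_AR` (take `δ1 = min δa (1/8)`). Let `k` be a bad time, `w_k = Phi L α z k u`, `|Im w_k| > ε`, `g` the branch (`S_INV`) on the half plane containing `ball w_k ε`; `g` is injective there (`Phi_k ∘ g = id`), `g w_k = z`. By Koebe (library: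
`Pool.Graph.R_seed8.W746.LD.Koebe`, `exists_KC` / chain, or `KOE_chain` in Pool/Agent/H212/MB/T_KOE.lean on origin/main; quarter theorem and distortion), with `ρ = ‖g' w_k‖` and absolute constants `C`: for `w' ∈ ball w_k (ε/2)`: `ρ/C ≤ ‖g' w'‖ ≤ C ρ`, `‖g w' - z‖ ≤ C ε ρ`; `g (ball w' s) ⊇ ball (g w') (s ‖g' w'‖/4)` if `ball w' s ⊆ ball w_k ε`; `g (ball w_k ε) ⊇ ball z (ε ρ/4)`.
(a) `ρ = ρ_k → 0` along the bad times: otherwise some fixed `ball z r ⊆ g (ball w_k ε)` for infinitely many bad `k`, so `Phi_k` maps `ball z r` into `ball w_k ε`, which is disjoint from `ℝ`, for infinitely many `k`; since real points have real orbits, `(Phi_n w).im ≠ 0` for all `n` and `w ∈ ball z r`; then `S_B2` gives `|Im Phi_k z| ≤ ε` at all large times `k` with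
`|L^k u - j| ≤ δ`, `‖Phi_k z‖ ≤ R`: contradiction with the bad times. (b) Porosity: `S_AR` at `w_k` and `x = L^k u - j` gives `w'`; for `w'' ∈ ball w' s`, `Absorbed L α w'' x`, so (periodicity of `Phi`) `Absorbed L α w'' (L^k u)` and `Absorbed L α (g w'') u` (`Absorbed_shift`, `Phi_add_real`). So `ball (g w') (s ρ/(4C))` consists of absorbed points and `‖g w' - z‖ ≤ C ε ρ`. Take `r = (C ε + s) ρ`-ish and `c` the ratio. -/
def S_POR : Prop :=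
  ∀ L : ℕ, 2 ≤ L → ∀ α : ℝ, 0 < α → α < 1 → ∀ θ : ℝ, 0 < θ → θ < 1 → ∀ C0 : ℝ, 2 ≤ C0 →
    ∀ ε : ℝ, 0 < ε → ∃ δ1 c : ℝ, 0 < δ1 ∧ 0 < c ∧ ∀ δ : ℝ, 0 < δ → δ ≤ δ1 →
      ∀ (z : ℂ) (u : ℝ), (∃ᶠ k : ℕ in atTop, BadTime L α z θ C0 ε δ u k) →
        ∀ r0 : ℝ, 0 < r0 → ∃ r : ℝ, 0 < r ∧ r < r0 ∧ ∃ z' : ℂ, Metric.ball z' (c * r) ⊆ Metric.ball z r ∧
          ∀ w ∈ Metric.ball z' (c * r), Absorbed L α w u

/-- **S_DENC (a porous measurable set in the plane is null).** If at every point of `P ⊆ N` (`N` measurable) the complement of `N` contains balls `ball z' (c r) ⊆ ball z r` for arbitrarily small `r`, then `P` is null: almost every point of `N` is a density point of `N`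
(Mathlib `Besicovitch.ae_tendsto_measure_inter_div`), but at `z ∈ P` the ratio is `≤ 1 - c²` for arbitrarily small `r`. -/
def S_DENC : Prop :=
  ∀ N P : Set ℂ, MeasurableSet N → P ⊆ N → ∀ c : ℝ, 0 < c →
    (∀ z ∈ P, ∀ r0 : ℝ, 0 < r0 → ∃ r : ℝ, 0 < r ∧ r < r0 ∧ ∃ z' : ℂ,
      Metric.ball z' (c * r) ⊆ Metric.ball z r ∧ Metric.ball z' (c * r) ⊆ Nᶜ) → volume P = 0

/-- **S_AREA.** For a.e. `u` the set of non absorbed points has zero area.
Proof (`theorem t_AREA (hAg : S_Ag) (hPOR : S_POR) (hDENC : S_DENC) : S_AREA`). `θ, C0, ε, δ0` from `S_Ag`, `δ1, c` from `S_POR` for this `ε`, `δ = min δ0 δ1`. `¬ NRg` means infinitely many bad times. By Fubini (library `ae_fubini` in Kan/WFinal.lean; measurability of `{(z,u) | NRg → Absorbed}`: `Absorbed_measurable`, and `NRg` is a countable union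
of countable intersections of measurable sets: `Phi_joint_cont`, `GoodExit` is a countable union with closed sets `GE`, `GS`) for a.e. `u` and a.e. `z`: `NRg → Absorbed`. For every `u` the set `P` of non absorbed `z` with infinitely many bad times is null by `S_POR`, `S_DENC`. -/
def S_AREA : Prop :=
  ∀ L : ℕ, 2 ≤ L → ∀ α : ℝ, 0 < α → α < 1 → ∀ᵐ u : ℝ, volume {z : ℂ | ¬ Absorbed L α z u} = 0

end Pool.Agent.H212.KR
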