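import Mathlib
import Pool.Agent.H212.KR.Stm2

set_option autoImplicit false

open Filter Topology Set MeasureTheory

namespace Pool.Agent.H212.KR

theorem t_DENC : S_DENC := by
  intro N P _ hPN c hc h
  have hae := Besicovitch.ae_tendsto_measure_inter_div (volume : Measure ℂ) P
  have hsub : P ⊆ {x : ℂ | ¬ Tendsto (fun r : ℝ => volume (P ∩ Metric.closedBall x r) /
      volume (Metric.closedBall x r)) (𝓝[>] 0) (𝓝 1)} := by
    intro z hz ht
    have hc2 : ENNReal.ofReal (c ^ 2) ≠ 0 := by
      rw [Ne, ENNReal.ofReal_eq_zero, not_le]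
      positivity
    have hlt : (1 : ENNReal) - ENNReal.ofReal (c ^ 2) < 1 :=
      ENNReal.sub_lt_self ENNReal.one_ne_top one_ne_zero hc2
    have hev := ht.eventually (lt_mem_nhds hlt)
    obtain ⟨r0, hr0, H⟩ := mem_nhdsGT_iff_exists_Ioo_subset.1 hev
    obtain ⟨r, hr, hrr0, z', h1, h2⟩ := h z hz r0 hr0
    have h3 : (1 : ENNReal) - ENNReal.ofReal (c ^ 2) < volume (P ∩ Metric.closedBall z r) /
      volume (Metric.closedBall z r) := H ⟨hr, hrr0⟩
    have hV : volume (Metric.closedBall z r) = ENNReal.ofReal r ^ 2 * NNReal.pi :=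
      Complex.volume_closedBall z r
    have hV0 : volume (Metric.closedBall z r) ≠ 0 :=
      (Metric.measure_closedBall_pos volume z hr).ne'
    have hVt : volume (Metric.closedBall z r) ≠ ⊤ := measure_closedBall_lt_top.ne
    have hB : volume (Metric.ball z' (c * r)) =
        ENNReal.ofReal (c ^ 2) * volume (Metric.closedBall z r) := by
      rw [hV, Complex.volume_ball, ENNReal.ofReal_mul hc.le, ENNReal.ofReal_pow hc.le]
      ring
    have hle : volume (P ∩ Metric.closedBall z r) ≤
        (1 - ENNReal.ofReal (c ^ 2)) * volume (Metric.closedBall z r) := by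
      calc volume (P ∩ Metric.closedBall z r)
          ≤ volume (Metric.closedBall z r \ Metric.ball z' (c * r)) := by
            refine measure_mono fun x hx => ⟨hx.2, fun hx' => h2 hx' (hPN hx.1)⟩
        _ = volume (Metric.closedBall z r) - volume (Metric.ball z' (c * r)) :=
            measure_sdiff (h1.trans Metric.ball_subset_closedBall)
              measurableSet_ball.nullMeasurableSet measure_ball_lt_top.ne
        _ = (1 - ENNReal.ofReal (c ^ 2)) * volume (Metric.closedBall z r) := by
            rw [hB, ENNReal.sub_mul (fun _ _ => hVt), one_mul]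
    exact absurd ((ENNReal.div_le_iff hV0 hVt).2 hle) (not_le.2 h3)
  have h0 := (Measure.le_restrict_apply P {x : ℂ | ¬ Tendsto (fun r : ℝ =>
    volume (P ∩ Metric.closedBall x r) / volume (Metric.closedBall x r)) (𝓝[>] 0) (𝓝 1)} :
    volume _ ≤ volume.restrict P _)
  rw [inter_eq_self_of_subset_right hsub] at h0
  exact le_antisymm (h0.trans (le_of_eq hae)) bot_le

end Pool.Agent.H212.KR
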