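import Mathlib
import Pool.Agent.H212.KR.Stm2

set_option autoImplicit false

namespace Pool.Agent.H212.KR

open Complex Filter Topology MeasureTheory
open Pool.Agent.TH229.Kan

lemma INV_sqrt (w : ℂ) (hw : w.im ≠ 0) :
    (w ^ (2⁻¹ : ℂ)) ^ 2 = w ∧ 0 < (w ^ (2⁻¹ : ℂ)).re := by
  constructor
  · have := Complex.cpow_nat_inv_pow w (n := 2) (by norm_num)
    simpa using this
  · rw [Complex.cpow_inv_two_re]
    apply Real.sqrt_pos.2
    have h1 : |w.re| < ‖w‖ := Complex.abs_re_lt_norm.2 hw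
    have h2 := (abs_lt.1 h1).1
    linarith

lemma INV_prod (w w' : ℂ) (hw : 0 < w.im * w'.im) :
    0 < (w ^ (2⁻¹ : ℂ)).im * (w' ^ (2⁻¹ : ℂ)).im := by
  have h1 : w.im ≠ 0 := by rintro h; rw [h] at hw; simp at hw
  have h2 : w'.im ≠ 0 := by rintro h; rw [h] at hw; simp at hw
  obtain ⟨a1, a2⟩ := INV_sqrt w h1
  obtain ⟨b1, b2⟩ := INV_sqrt w' h2
  set s := w ^ (2⁻¹ : ℂ)
  set t := w' ^ (2⁻¹ : ℂ)
  have e1 : w.im = 2 * s.re * s.im := by
    rw [← a1, pow_two, Complex.mul_im]; ring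
  have e2 : w'.im = 2 * t.re * t.im := by
    rw [← b1, pow_two, Complex.mul_im]; ring
  rw [e1, e2] at hw
  have e3 : 2 * s.re * s.im * (2 * t.re * t.im) = (4 * (s.re * t.re)) * (s.im * t.im) := by ring
  rw [e3] at hw
  exact (pos_iff_pos_of_mul_pos hw).1 (by positivity)

lemma INV_branch (β : ℝ) (σ : ℝ) (hσ : σ = 1 ∨ σ = -1) (p : ℂ)
    (hp : 0 < σ * (p + β * p * (1 - p)).im) :
    ∃ τ : ℝ, (τ = 1 ∨ τ = -1) ∧ 0 < τ * p.im ∧ ∃ h : ℂ → ℂ,
      DifferentiableOn ℂ h {w : ℂ | 0 < σ * w.im} ∧ h (p + β * p * (1 - p)) = p ∧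
      ∀ w : ℂ, 0 < σ * w.im → 0 < τ * (h w).im ∧ h w + β * h w * (1 - h w) = w := by
  rcases eq_or_ne β 0 with h0 | hβ
  · subst h0
    simp only [Complex.ofReal_zero, zero_mul, add_zero] at hp ⊢
    exact ⟨σ, hσ, hp, fun w => w, differentiableOn_id, rfl, fun w hw => ⟨hw, rfl⟩⟩
  have hβ' : (β : ℂ) ≠ 0 := by exact_mod_cast hβ
  have hpim : p.im ≠ 0 := by
    intro h1
    have h2 : (p + β * p * (1 - p)).im = 0 := by
      simp [Complex.add_im, Complex.mul_im, Complex.mul_re, Complex.sub_im, Complex.sub_re, h1]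
    rw [h2, mul_zero] at hp
    exact lt_irrefl _ hp
  set P : ℂ := p + β * p * (1 - p) with hP
  obtain ⟨τ, hτ, hτp⟩ : ∃ τ : ℝ, (τ = 1 ∨ τ = -1) ∧ 0 < τ * p.im := by
    rcases lt_or_gt_of_ne hpim with h | h
    · exact ⟨-1, Or.inr rfl, by linarith⟩
    · exact ⟨1, Or.inl rfl, by linarith⟩
  set c : ℝ := (1 + β) / (2 * β) with hc
  set v : ℝ := (1 + β) ^ 2 / (4 * β) with hv
  set W : ℂ → ℂ := fun ζ => ((v : ℂ) - ζ) / β with hW
  have hWim : ∀ ζ, (W ζ).im = -(ζ.im) / β := by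
    intro ζ
    simp only [hW, Complex.div_ofReal_im, Complex.sub_im, Complex.ofReal_im, zero_sub]
  have hWP : ∀ ζ : ℂ, 0 < σ * ζ.im → 0 < (W ζ).im * (W P).im := by
    intro ζ hζ
    rw [hWim, hWim]
    have h1 : 0 < (σ * ζ.im) * (σ * P.im) := mul_pos hζ hp
    have h2 : σ * σ = 1 := by rcases hσ with h | h <;> rw [h] <;> norm_num
    have h3 : (σ * ζ.im) * (σ * P.im) = ζ.im * P.im := by
      linear_combination (ζ.im * P.im) * h2
    rw [h3] at h1
    have h4 : -(ζ.im) / β * (-(P.im) / β) = (ζ.im * P.im) / (β ^ 2) := by field_simp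
    rw [h4]
    positivity
  set S : ℂ → ℂ := fun ζ => (W ζ) ^ (2⁻¹ : ℂ) with hS
  have hWne : ∀ ζ : ℂ, 0 < σ * ζ.im → (W ζ).im ≠ 0 := by
    intro ζ hζ h1
    have := hWP ζ hζ
    rw [h1, zero_mul] at this
    exact lt_irrefl _ this
  have hS2 : ∀ ζ : ℂ, 0 < σ * ζ.im → (S ζ) ^ 2 = W ζ := fun ζ hζ => (INV_sqrt _ (hWne ζ hζ)).1
  have hf : ∀ x : ℂ, x + β * x * (1 - x) = v - β * (x - c) ^ 2 := by
    intro x
    simp only [hc, hv]
    push_cast
    field_simp
    ring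
  have hsq : (p - c) ^ 2 = (S P) ^ 2 := by
    rw [hS2 P hp]
    have h1 := hf p
    rw [← hP] at h1
    simp only [hW]
    rw [h1]
    field_simp
    ring
  obtain ⟨e, he1, he2⟩ : ∃ e : ℝ, e * e = 1 ∧ p - c = e * S P := by
    rcases sq_eq_sq_iff_eq_or_eq_neg.1 hsq with h | h
    · exact ⟨1, by norm_num, by rw [h]; simp⟩
    · exact ⟨-1, by norm_num, by rw [h]; simp⟩
  have he1' : (e : ℂ) * e = 1 := by exact_mod_cast he1
  refine ⟨τ, hτ, hτp, fun ζ => c + e * S ζ, ?_, ?_, ?_⟩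
  · intro ζ hζ
    have hd : DifferentiableAt ℂ W ζ := by
      simp only [hW]
      fun_prop
    have h1 : DifferentiableAt ℂ S ζ := by
      apply DifferentiableAt.cpow hd (differentiableAt_const _)
      rw [Complex.mem_slitPlane_iff]
      exact Or.inr (hWne ζ hζ)
    exact ((h1.const_mul (e : ℂ)).const_add (c : ℂ)).differentiableWithinAt
  · show (c : ℂ) + e * S P = p
    rw [← he2]; ring
  · intro ζ hζ
    constructor
    · have h1 : ((c : ℂ) + e * S ζ).im = e * (S ζ).im := by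
        simp [Complex.add_im, Complex.re_ofReal_mul, Complex.im_ofReal_mul]
      have h2 : p.im = e * (S P).im := by
        have : p = c + e * S P := by rw [← he2]; ring
        have h3 := congrArg Complex.im this
        simpa [Complex.add_im, Complex.im_ofReal_mul] using h3
      have h4 := INV_prod _ _ (hWP ζ hζ)
      have h5 : 0 < (e * (S ζ).im) * p.im := by
        rw [h2]
        have h6 : e * (S ζ).im * (e * (S P).im) = (S ζ).im * (S P).im := by
          linear_combination ((S ζ).im * (S P).im) * he1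
        rw [h6]; exact h4
      show 0 < τ * ((c : ℂ) + e * S ζ).im
      rw [h1]
      have h7 : 0 < (τ * p.im) * ((e * (S ζ).im) * p.im) := mul_pos hτp h5
      have h8 : (τ * p.im) * ((e * (S ζ).im) * p.im) = (p.im ^ 2) * (τ * (e * (S ζ).im)) := by ring
      rw [h8] at h7
      exact (pos_iff_pos_of_mul_pos h7).1 (by positivity)
    · show (c : ℂ) + e * S ζ + β * (c + e * S ζ) * (1 - (c + e * S ζ)) = ζ
      rw [hf]
      have h9 : ((c : ℂ) + e * S ζ - c) ^ 2 = W ζ := by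
        have : ((c : ℂ) + e * S ζ - c) ^ 2 = (e * e) * (S ζ) ^ 2 := by ring
        rw [this, he1', one_mul, hS2 ζ hζ]
      rw [h9]
      simp only [hW]
      field_simp
      ring

theorem t_INV : S_INV := by
  intro L α u z k
  induction k with
  | zero =>
    intro σ _ _
    exact ⟨fun w => w, differentiableOn_id, rfl, fun w _ => rfl⟩
  | succ k ih =>
    intro σ hσ hpos
    set β : ℝ := α * cr L k u with hβ
    have hstep : ∀ z' : ℂ, Phi L (α : ℂ) z' (k + 1) u =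
        Phi L α z' k u + β * Phi L α z' k u * (1 - Phi L α z' k u) := by
      intro z'
      rw [Phi_succ, cc_cr, hβ]
      push_cast
      rfl
    rw [hstep z] at hpos ⊢
    obtain ⟨τ, hτ, hτp, h, hd, hh, hw⟩ := INV_branch β σ hσ (Phi L α z k u) hpos
    obtain ⟨g, gd, gz, gw⟩ := ih τ hτ hτp
    refine ⟨fun w => g (h w), ?_, ?_, ?_⟩
    · exact gd.comp hd (fun w hw' => (hw w hw').1)
    · show g (h _) = z
      rw [hh, gz]
    · intro w hw'
      rw [hstep]
      rw [gw (h w) (hw w hw').1]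
      exact (hw w hw').2

end Pool.Agent.H212.KR
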