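import Pool.Agent.H212.KR.Stm2
import Pool.Graph.R_seed8.W746.LD.Koebe

/-!
# KR POR: porosity at points with infinitely many bad times
-/

set_option autoImplicit false

namespace Pool.Agent.H212.KR

open Complex Filter Topology MeasureTheory
open Pool.Agent.TH229.Kan

namespace PORaux

open Pool.Agent.W746.LD

/-- real points have real orbits -/
theorem real_step {L : ℕ} {α : ℝ} {w : ℂ} {n : ℕ} {u : ℝ} (h : (Phi L (α : ℂ) w n u).im = 0) :
    (Phi L (α : ℂ) w (n + 1) u).im = 0 := by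
  have h1 : Phi L (α : ℂ) w n u = (((Phi L (α : ℂ) w n u).re : ℝ) : ℂ) := by
    apply Complex.ext
    · simp
    · simp [h]
  rw [Phi_succ_real', h1]
  have h2 : ((((Phi L (α : ℂ) w n u).re : ℝ) : ℂ)) * (1 + (α : ℂ) * (cr L n u : ℂ) *
      (1 - (((Phi L (α : ℂ) w n u).re : ℝ) : ℂ))) =
      (((Phi L (α : ℂ) w n u).re * (1 + α * cr L n u * (1 - (Phi L (α : ℂ) w n u).re)) : ℝ) : ℂ) := by
    push_cast
    ring
  rw [h2]
  exact Complex.ofReal_im _

theorem real_add {L : ℕ} {α : ℝ} {w : ℂ} {n : ℕ} {u : ℝ} (h : (Phi L (α : ℂ) w n u).im = 0)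
    (m : ℕ) : (Phi L (α : ℂ) w (n + m) u).im = 0 := by
  induction m with
  | zero => exact h
  | succ m ih => exact real_step ih

theorem branch (hINV : S_INV) {L : ℕ} {α u : ℝ} {z : ℂ} {k : ℕ} {ε : ℝ}
    (him : ε < |(Phi L (α : ℂ) z k u).im|) :
    ∃ g : ℂ → ℂ, Univ g (Phi L (α : ℂ) z k u) ε ∧ g (Phi L (α : ℂ) z k u) = z ∧
      ∀ w ∈ Metric.ball (Phi L (α : ℂ) z k u) ε, w.im ≠ 0 ∧ Phi L (α : ℂ) (g w) k u = w := by
  obtain ⟨σ, hσ, hσi⟩ : ∃ σ : ℝ, (σ = 1 ∨ σ = -1) ∧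
      σ * (Phi L (α : ℂ) z k u).im = |(Phi L (α : ℂ) z k u).im| := by
    rcases le_total 0 (Phi L (α : ℂ) z k u).im with h | h
    · exact ⟨1, Or.inl rfl, by rw [abs_of_nonneg h, one_mul]⟩
    · exact ⟨-1, Or.inr rfl, by rw [abs_of_nonpos h]; ring⟩
  by_cases hε : ε ≤ 0
  · -- degenerate ball
    refine ⟨fun _ => z, ⟨?_, ?_⟩, rfl, ?_⟩
    · rw [Metric.ball_eq_empty.2 hε]
      exact differentiableOn_empty
    · rw [Metric.ball_eq_empty.2 hε]
      exact Set.injOn_empty _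
    · rw [Metric.ball_eq_empty.2 hε]
      intro w hw
      exact absurd hw (Set.notMem_empty w)
  push Not at hε
  obtain ⟨g, hgd, hgz, hg⟩ := hINV L α u z k σ hσ (by rw [hσi]; linarith)
  have hsub : ∀ w ∈ Metric.ball (Phi L (α : ℂ) z k u) ε, 0 < σ * w.im := by
    intro w hw
    rw [Metric.mem_ball, dist_eq_norm] at hw
    have h1 : |(w - Phi L (α : ℂ) z k u).im| ≤ ‖w - Phi L (α : ℂ) z k u‖ := Complex.abs_im_le_norm _
    rw [Complex.sub_im] at h1
    have h2 : |σ| = 1 := by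
      rcases hσ with h | h
      · rw [h]; simp
      · rw [h]; simp
    have h3 : |σ * (w.im - (Phi L (α : ℂ) z k u).im)| < ε := by
      rw [abs_mul, h2, one_mul]
      linarith
    have h4 := (abs_lt.1 h3).1
    have h5 : σ * (w.im - (Phi L (α : ℂ) z k u).im) = σ * w.im - σ * (Phi L (α : ℂ) z k u).im := by
      ring
    rw [h5, hσi] at h4
    linarith
  refine ⟨g, ⟨hgd.mono hsub, ?_⟩, hgz, ?_⟩
  · intro a ha b hb hab
    have h1 := hg a (hsub a ha)
    have h2 := hg b (hsub b hb)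
    rw [hab] at h1
    rw [← h1, h2]
  · intro w hw
    refine ⟨?_, hg w (hsub w hw)⟩
    intro h0
    have h1 := hsub w hw
    rw [h0, mul_zero] at h1
    exact lt_irrefl _ h1

end PORaux

open PORaux in
theorem t_POR (hB2 : S_B2) (hAR : S_AR) (hINV : S_INV) : S_POR := by
  intro L hL α hα0 hα1 θ hθ0 hθ1 C0 hC0 ε hε
  obtain ⟨δa, s, hδa, hs, hsε, hAR'⟩ := hAR L hL α hα0 hα1 θ hθ0 hθ1 C0 hC0 ε hε
  obtain ⟨K, k0, hK⟩ := Pool.Agent.W746.LD.exists_KC
  have hK1 : 0 < K := lt_of_lt_of_le one_pos hK.one_le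
  have hk0 : 0 < k0 := hK.pos
  obtain ⟨Q, hQ⟩ : ∃ Q : ℝ, Q = k0 * s / K + K * ε / 4 := ⟨_, rfl⟩
  have hQ0 : 0 < Q := by rw [hQ]; positivity
  have hR : 0 < RE (α : ℂ) C0 := by
    have h1 : 0 < ‖(α : ℂ)‖ := by
      rw [Complex.norm_real, Real.norm_of_nonneg hα0.le]
      exact hα0
    have h2 := RE_pos h1 (show (0 : ℝ) < C0 by linarith)
    linarith
  refine ⟨min δa (1 / 8), (k0 * s / K) / Q, by positivity, by positivity, ?_⟩
  intro δ hδ hδ1 z u hfreq r0 hr0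
  have hδ2 : δ ≤ δa := hδ1.trans (min_le_left _ _)
  have hδ3 : δ ≤ 1 / 8 := hδ1.trans (min_le_right _ _)
  obtain ⟨k, hbad, g, hU, hgz, hg, hρ⟩ : ∃ k, BadTime L α z θ C0 ε δ u k ∧ ∃ g : ℂ → ℂ,
      Pool.Agent.W746.LD.Univ g (Phi L (α : ℂ) z k u) ε ∧ g (Phi L (α : ℂ) z k u) = z ∧
      (∀ w ∈ Metric.ball (Phi L (α : ℂ) z k u) ε, w.im ≠ 0 ∧ Phi L (α : ℂ) (g w) k u = w) ∧
      ‖deriv g (Phi L (α : ℂ) z k u)‖ < r0 / Q := by
    by_contra hcon
    push Not at hcon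
    have hr : 0 < k0 * ε * (r0 / Q) := by positivity
    have hge : ∀ k, BadTime L α z θ C0 ε δ u k →
        ∀ w ∈ Metric.ball z (k0 * ε * (r0 / Q)), (Phi L (α : ℂ) w k u).im ≠ 0 := by
      intro k hk w hw him
      obtain ⟨j, hj1, hj2, hj3, hj4⟩ := id hk
      obtain ⟨g, hU, hgz, hg⟩ := branch hINV (L := L) (α := α) (u := u) (z := z) (k := k) hj4
      have h1 := hcon k hk g hU hgz hg
      have h2 := hK.komit g _ ε hε hU w (by
        intro w'' hw'' heq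
        obtain ⟨h3, h4⟩ := hg w'' hw''
        rw [heq] at h4
        rw [h4] at him
        exact h3 him)
      rw [hgz] at h2
      rw [Metric.mem_ball, dist_eq_norm, norm_sub_rev] at hw
      have h3 : k0 * ε * (r0 / Q) ≤ k0 * ε * ‖deriv g (Phi L (α : ℂ) z k u)‖ :=
        mul_le_mul_of_nonneg_left h1 (by positivity)
      linarith
    have hne : ∀ (n : ℕ), ∀ w ∈ Metric.ball z (k0 * ε * (r0 / Q)),
        (Phi L (α : ℂ) w n u).im ≠ 0 := by
      intro n w hw h0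
      obtain ⟨k, hk, hbad⟩ := (frequently_atTop.1 hfreq) n
      refine hge k hbad w hw ?_
      obtain ⟨m, rfl⟩ := Nat.exists_eq_add_of_le hk
      exact real_add h0 m
    obtain ⟨N, hN⟩ := hB2 L hL α hα0 hα1 ε δ (RE (α : ℂ) C0) hε hδ hδ3 hR u z _ hr hne
    obtain ⟨k, hk, j, h1, h2, h3, h4⟩ := (frequently_atTop.1 hfreq) N
    have h5 := hN k hk j h1 h3
    linarith
  obtain ⟨j, hj1, hj2, hj3, hj4⟩ := hbad
  obtain ⟨w', hw', habs⟩ := hAR' (Phi L (α : ℂ) z k u) hj3 ((L : ℝ) ^ k * u - j)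
    (hj1.trans hδ2) hj2
  rw [Metric.mem_ball, dist_eq_norm] at hw'
  -- positivity of the derivative
  have hρ0 : 0 < ‖deriv g (Phi L (α : ℂ) z k u)‖ := by
    by_contra hcon
    have h0 : ‖deriv g (Phi L (α : ℂ) z k u)‖ = 0 := le_antisymm (not_lt.1 hcon) (norm_nonneg _)
    have h1 : ‖(Phi L (α : ℂ) z k u + ((ε / 8 : ℝ) : ℂ)) - Phi L (α : ℂ) z k u‖ = ε / 8 := by
      rw [add_sub_cancel_left, Complex.norm_real, Real.norm_of_nonneg (by positivity)]
    have h2 := hK.lip hε hU (w := Phi L (α : ℂ) z k u + ((ε / 8 : ℝ) : ℂ)) (by rw [h1]; linarith)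
    rw [h0, mul_zero, zero_mul] at h2
    have h3 : g (Phi L (α : ℂ) z k u + ((ε / 8 : ℝ) : ℂ)) = g (Phi L (α : ℂ) z k u) := by
      have h4 := le_antisymm h2 (norm_nonneg _)
      exact sub_eq_zero.1 (norm_eq_zero.1 h4)
    have h4 := hU.2 (by rw [Metric.mem_ball, dist_eq_norm, h1]; linarith)
      (Metric.mem_ball_self hε) h3
    rw [h4, sub_self, norm_zero] at h1
    linarith
  obtain ⟨ρ, hρd⟩ : ∃ ρ : ℝ, ρ = ‖deriv g (Phi L (α : ℂ) z k u)‖ := ⟨_, rfl⟩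
  rw [← hρd] at hρ hρ0
  have hdist : ‖g w' - z‖ ≤ K * ρ * (ε / 4) := by
    have h1 := hK.lip hε hU (w := w') hw'.le
    rw [hgz, ← hρd] at h1
    refine h1.trans ?_
    exact mul_le_mul_of_nonneg_left hw'.le (by positivity)
  have hder : ρ ≤ K * ‖deriv g w'‖ := by
    rw [hρd]
    exact (hK.kdist g _ ε hε hU w' hw'.le).2
  have hsub : Metric.ball w' s ⊆ Metric.ball (Phi L (α : ℂ) z k u) ε := by
    refine Metric.ball_subset_ball' ?_
    rw [dist_eq_norm]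
    linarith
  have hU' : Pool.Agent.W746.LD.Univ g w' s := hU.mono hsub
  have hcr : (k0 * s / K) / Q * (ρ * Q) = k0 * s / K * ρ := by
    field_simp
  refine ⟨ρ * Q, by positivity, ?_, g w', ?_, ?_⟩
  · rwa [lt_div_iff₀ hQ0] at hρ
  · refine Metric.ball_subset_ball' ?_
    rw [hcr, dist_eq_norm]
    have h1 : ρ * Q = k0 * s / K * ρ + K * ρ * (ε / 4) := by
      rw [hQ]
      ring
    rw [h1]
    linarith
  · intro w hw
    rw [hcr, Metric.mem_ball, dist_eq_norm, norm_sub_rev] at hw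
    -- `w = g w''`
    obtain ⟨w'', hw'', hgw⟩ : ∃ w'' ∈ Metric.ball w' s, g w'' = w := by
      by_contra hcon
      push Not at hcon
      have h1 := hK.komit g w' s hs hU' w hcon
      have h2 : k0 * s / K * ρ ≤ k0 * s * ‖deriv g w'‖ := by
        have h3 : k0 * s / K * ρ ≤ k0 * s / K * (K * ‖deriv g w'‖) :=
          mul_le_mul_of_nonneg_left hder (by positivity)
        have h4 : k0 * s / K * (K * ‖deriv g w'‖) = k0 * s * ‖deriv g w'‖ := by
          field_simp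
        rw [h4] at h3
        exact h3
      linarith
    obtain ⟨-, h2⟩ := hg w'' (hsub hw'')
    rw [hgw] at h2
    have h3 := habs w'' hw''
    refine Absorbed_shift k ?_
    rw [h2]
    have h4 : ∀ n, Phi L (α : ℂ) w'' n ((((L : ℝ) ^ k * u : ℝ)) : ℂ) =
        Phi L (α : ℂ) w'' n (((L : ℝ) ^ k * u - j : ℝ) : ℂ) := by
      intro n
      rw [← Phi_add_int L (α : ℂ) w'' n (((L : ℝ) ^ k * u - j : ℝ) : ℂ) j]
      congr 1
      push_cast
      ring
    unfold Absorbed at h3 ⊢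
    simp_rw [h4]
    exact h3

end Pool.Agent.H212.KR
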