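import Pool.Agent.H212.KR.Stm2

set_option autoImplicit false

namespace Pool.Agent.H212.KR

open Complex Filter Topology MeasureTheory
open Pool.Agent.TH229.Kan

theorem WINg_exit {L : ℕ} (hL : 2 ≤ L) {x : ℝ} (hx : x ≠ 0) (hx8 : |x| ≤ 1 / 16) :
    ∃ m : ℕ, 1 / (8 * (L : ℝ)) ≤ (L : ℝ) ^ m * |x| ∧ (L : ℝ) ^ m * |x| < 1 / 8 := by
  classical
  have hL1 : (1 : ℝ) < L := by exact_mod_cast (by omega : 1 < L)
  have hL0 : (0 : ℝ) < L := by linarith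
  have hax : 0 < |x| := abs_pos.2 hx
  have hex : ∃ m : ℕ, 1 / (8 * (L : ℝ)) ≤ (L : ℝ) ^ m * |x| := by
    obtain ⟨m, hm⟩ := pow_unbounded_of_one_lt (1 / (8 * (L : ℝ)) / |x|) hL1
    refine ⟨m, ?_⟩
    rw [div_lt_iff₀ hax] at hm
    exact hm.le
  refine ⟨Nat.find hex, Nat.find_spec hex, ?_⟩
  rcases Nat.eq_zero_or_pos (Nat.find hex) with h0 | h0
  · rw [h0, pow_zero, one_mul]
    linarith
  · have h1 := Nat.find_min hex (m := Nat.find hex - 1) (by omega)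
    push Not at h1
    have h2 : Nat.find hex = (Nat.find hex - 1) + 1 := by omega
    rw [h2, pow_succ]
    calc (L : ℝ) ^ (Nat.find hex - 1) * L * |x| = L * ((L : ℝ) ^ (Nat.find hex - 1) * |x|) := by
          ring
      _ < L * (1 / (8 * (L : ℝ))) := mul_lt_mul_of_pos_left h1 hL0
      _ = 1 / 8 := by field_simp

theorem t_WINg (hTC : S_TC) (hCAS : S_CAS) (hPER : S_PER) (hBAD : S_BAD) (hG0 : S_G0)
    (hCR : S_CRg) (hEV : S_EV) (hNUM : S_NUM) : S_WINg := by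
  intro L hL α hα0 hα1
  have hL2 : (2 : ℝ) ≤ L := by exact_mod_cast hL
  have hL0 : (0 : ℝ) < L := by linarith
  obtain ⟨ε1, hε1, hTCp⟩ := hTC
  obtain ⟨θ, hθ0, hθ1, hG⟩ := hG0 L hL α hα0 hα1
  set e : ℝ := min (ε1 / (64 * L)) (1 / 100) with he
  have he0 : 0 < e := lt_min (by positivity) (by norm_num)
  obtain ⟨C0, hC0, hvol⟩ := hG e he0
  obtain ⟨ε, δ0, hε, hδ0, hδ08, hCRp0⟩ := hCR L hL α hα0 hα1 θ hθ0 hθ1 C0 hC0
  refine ⟨θ, C0, ε, δ0, hθ0, hθ1, hC0, hε, hδ0, hδ08, ?_⟩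
  intro δ hδ hδδ0
  obtain ⟨C1, hC1, hCRp⟩ := hCRp0 δ hδ hδδ0
  have hC3 : 0 < C1 * Real.exp 9 := by positivity
  obtain ⟨s0, ρ1, q, hs0, hs1, hρ1, hEVp⟩ :=
    hEV L hL α hα0 hα1 θ hθ0 hθ1 C0 (C1 * Real.exp 9) hC0 hC3
  have hαn : ‖(α : ℂ)‖ = α := by
    rw [Complex.norm_real, Real.norm_eq_abs, abs_of_pos hα0]
  refine ⟨min (ε1 / 2) (1 / 4), lt_min (by positivity) (by norm_num), ?_⟩
  intro C2
  set a : ℝ := Real.logb L (1 + α) with ha
  have ha0 : 0 ≤ a := Real.logb_nonneg (by linarith) (by linarith)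
  have ha1 : a ≤ 1 := by
    rw [ha, Real.logb_le_iff_le_rpow (by linarith) (by linarith), Real.rpow_one]
    linarith
  set k : ℝ := |Real.log ((2 + 1 / α) / C1)| with hk
  have hk0 : 0 ≤ k := abs_nonneg _
  set C4 : ℝ := 2 * |C2| + 1 + k with hC4
  have hC4p : 0 < C4 := by positivity
  obtain ⟨n1, hn13, hn1⟩ := hNUM C4 s0 (min (min δ ρ1) (1 / 16)) q hC4p hs0
    (lt_min (lt_min hδ hρ1) (by norm_num))
  refine ⟨n1, hn13, ?_⟩
  intro n hn w hw hwb A hAm hAa hANR hden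
  obtain ⟨hρ0δ, j, hj1, hj2⟩ := hn1 n hn
  have hn3 : (3 : ℝ) ≤ n := by exact_mod_cast hn13.trans hn
  have hn0 : (0 : ℝ) < n := by linarith
  have hlog : 1 ≤ Real.log n := by
    rw [Real.le_log_iff_exp_le hn0]
    have := Real.exp_one_lt_d9
    linarith
  set ρ0 : ℝ := Real.log n / n with hρ0
  have hρ0p : 0 < ρ0 := by positivity
  have hρ0d : ρ0 ≤ δ := hρ0δ.trans ((min_le_left _ _).trans (min_le_left _ _))
  have hρ0r : ρ0 ≤ ρ1 := hρ0δ.trans ((min_le_left _ _).trans (min_le_right _ _))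
  have hρ016 : ρ0 ≤ 1 / 16 := hρ0δ.trans (min_le_right _ _)
  set G : Set ℝ := GE L C0 ∩ GS L (α : ℂ) θ C0 with hGdef
  have hGm : MeasurableSet G :=
    (GE_closed L C0).measurableSet.inter (GS_closed L (α : ℂ) θ C0).measurableSet
  have hGp : ∀ x, x + 1 ∈ G ↔ x ∈ G := fun x =>
    and_congr (GE_periodic L C0 x) (GS_periodic L (α : ℂ) θ C0 x)
  set Y : ℂ → ℂ := fun x => w x * (w x - 1 - 1 / α) with hY
  have hYd : Differentiable ℂ Y := hw.mul ((hw.sub_const _).sub_const _)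
  -- the scales
  have hsc : ∀ i : ℕ, i ≤ j + q → 0 < ρ0 / 100 ^ i ∧ 1 / (n * Real.log n) ≤ s0 * (ρ0 / 100 ^ i) ∧
      ρ0 / 100 ^ i ≤ ρ0 := by
    intro i hi
    have h1 : (1 : ℝ) ≤ 100 ^ i := one_le_pow₀ (by norm_num)
    have h2 : (100 : ℝ) ^ i ≤ 100 ^ (j + q) := pow_le_pow_right₀ (by norm_num) hi
    refine ⟨by positivity, hj2.trans ?_, ?_⟩
    · gcongr
    · exact div_le_self hρ0p.le h1
  -- the good points
  have hgood : ∀ x : ℝ, x ∈ A → x ≠ 0 → |x| ≤ ρ0 →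
      (¬ ∃ m : ℕ, 1 / (8 * (L : ℝ)) ≤ (L : ℝ) ^ m * |x| ∧
      (L : ℝ) ^ m * |x| < 1 / 8 ∧ (L : ℝ) ^ m * x ∉ G) → ‖Y x‖ ≤ C1 * |x| ^ a := by
    intro x hxA hx0 hxr hxB
    obtain ⟨m, hm1, hm2⟩ := WINg_exit hL hx0 (hxr.trans hρ016)
    have hmG : (L : ℝ) ^ m * x ∈ G := by
      by_contra hc
      exact hxB ⟨m, hm1, hm2, hc⟩
    exact hCRp (w x) x hx0 (hxr.trans hρ0d) m hm1 hm2 hmG.1 hmG.2 (hAa x hxA)
      (hANR x hxA ⟨m, hm1, hm2, hmG⟩)
  -- the cascade sets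
  have hlev : ∀ i < j + q, volume {x : ℝ | x ∈ Set.Icc (-(ρ0 / 100 ^ i)) (ρ0 / 100 ^ i) ∧
        C1 * (ρ0 / 100 ^ i) ^ a < ‖Y x‖} ≤ ENNReal.ofReal (ε1 * (ρ0 / 100 ^ i)) := by
    intro i hi
    obtain ⟨h1, h2, h3⟩ := hsc i hi.le
    set r : ℝ := ρ0 / 100 ^ i with hr
    have h4 : 1 / (n * Real.log n) ≤ r := by
      have : s0 * r ≤ 1 * r := mul_le_mul_of_nonneg_right hs1.le h1.le
      linarith
    have h5 := hden r h4 h3
    have h6 := hBAD L hL G hGm hGp e he0.le hvol r h1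
    have h7 : {x : ℝ | x ∈ Set.Icc (-r) r ∧ C1 * r ^ a < ‖Y x‖} ⊆
        (Aᶜ ∩ Set.Icc (-r) r) ∪ {x : ℝ | x ∈ Set.Icc (-r) r ∧ ∃ m : ℕ,
          1 / (8 * (L : ℝ)) ≤ (L : ℝ) ^ m * |x| ∧
          (L : ℝ) ^ m * |x| < 1 / 8 ∧ (L : ℝ) ^ m * x ∉ G} ∪ {0} := by
      rintro x ⟨hxr, hxY⟩
      by_contra hc
      simp only [Set.mem_union, Set.mem_inter_iff, Set.mem_compl_iff, Set.mem_ofPred_eq,
        Set.mem_singleton_iff, not_or, not_and] at hc
      obtain ⟨⟨hc1, hc2⟩, hc3⟩ := hc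
      have hxA : x ∈ A := by
        by_contra hcA
        exact hc1 hcA hxr
      have hxa : |x| ≤ r := abs_le.2 hxr
      have h8 := hgood x hxA hc3 (hxa.trans h3) (by
        rintro ⟨m, hm⟩
        exact hc2 hxr ⟨m, hm⟩)
      have h9 : |x| ^ a ≤ r ^ a := Real.rpow_le_rpow (abs_nonneg _) hxa ha0
      have h10 : C1 * |x| ^ a ≤ C1 * r ^ a := mul_le_mul_of_nonneg_left h9 hC1.le
      linarith
    have hLe : 32 * L * e ≤ ε1 / 2 := by
      have : e ≤ ε1 / (64 * L) := min_le_left _ _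
      rw [le_div_iff₀ (by positivity)] at this
      linarith
    calc volume {x : ℝ | x ∈ Set.Icc (-r) r ∧ C1 * r ^ a < ‖Y x‖}
        ≤ volume ((Aᶜ ∩ Set.Icc (-r) r) ∪ {x : ℝ | x ∈ Set.Icc (-r) r ∧ ∃ m : ℕ,
          1 / (8 * (L : ℝ)) ≤ (L : ℝ) ^ m * |x| ∧
          (L : ℝ) ^ m * |x| < 1 / 8 ∧ (L : ℝ) ^ m * x ∉ G} ∪ {0}) := measure_mono h7
      _ ≤ volume (Aᶜ ∩ Set.Icc (-r) r) + volume {x : ℝ | x ∈ Set.Icc (-r) r ∧ ∃ m : ℕ,
          1 / (8 * (L : ℝ)) ≤ (L : ℝ) ^ m * |x| ∧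
          (L : ℝ) ^ m * |x| < 1 / 8 ∧ (L : ℝ) ^ m * x ∉ G} + volume ({0} : Set ℝ) :=
          (measure_union_le _ _).trans (add_le_add (measure_union_le _ _) le_rfl)
      _ ≤ ENNReal.ofReal (min (ε1 / 2) (1 / 4) * r) + ENNReal.ofReal (32 * L * e * r) + 0 := by
          gcongr
          rw [Real.volume_singleton]
      _ = ENNReal.ofReal (min (ε1 / 2) (1 / 4) * r + 32 * L * e * r) := by
          rw [add_zero, ENNReal.ofReal_add (by positivity) (by positivity)]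
      _ ≤ ENNReal.ofReal (ε1 * r) := by
          apply ENNReal.ofReal_le_ofReal
          have h11 : min (ε1 / 2) (1 / 4) ≤ ε1 / 2 := min_le_left _ _
          have h12 : min (ε1 / 2) (1 / 4) * r ≤ ε1 / 2 * r := mul_le_mul_of_nonneg_right h11 h1.le
          have h13 : 32 * L * e * r ≤ ε1 / 2 * r := mul_le_mul_of_nonneg_right hLe h1.le
          linarith
  -- the initial bound
  have hinit : ∀ x : ℂ, ‖x‖ ≤ ρ0 → ‖Y x‖ ≤ Real.exp (C4 * Real.log n) * (C1 * ρ0 ^ a) := by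
    intro x hx
    have h1 := hwb x hx
    have h2 : Real.exp (C2 * Real.log n) ≤ Real.exp (|C2| * Real.log n) :=
      Real.exp_le_exp.2 (mul_le_mul_of_nonneg_right (le_abs_self _) (by linarith))
    set E : ℝ := Real.exp (|C2| * Real.log n) with hE
    have hE1 : 1 ≤ E := Real.one_le_exp (by positivity)
    have h3 : ‖w x‖ ≤ E := h1.trans h2
    have h4 : ‖w x - 1 - 1 / (α : ℂ)‖ ≤ E + 1 + 1 / α := by
      calc ‖w x - 1 - 1 / (α : ℂ)‖ ≤ ‖w x - 1‖ + ‖1 / (α : ℂ)‖ := norm_sub_le _ _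
        _ ≤ ‖w x‖ + ‖(1 : ℂ)‖ + ‖1 / (α : ℂ)‖ := by gcongr; exact norm_sub_le _ _
        _ = ‖w x‖ + 1 + 1 / α := by rw [norm_one, norm_div, norm_one, hαn]
        _ ≤ E + 1 + 1 / α := by gcongr
    have h5 : ‖Y x‖ ≤ E * (E + 1 + 1 / α) := by
      rw [hY]
      simp only [norm_mul]
      exact mul_le_mul h3 h4 (norm_nonneg _) (by linarith)
    have h6 : E * (E + 1 + 1 / α) ≤ E * E * (2 + 1 / α) := by
      have h61 : 0 < 1 / α := by positivity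
      have h62 : 0 ≤ E * ((E - 1) * (1 + 1 / α)) :=
        mul_nonneg (by linarith) (mul_nonneg (by linarith) (by linarith))
      have h63 : E * E * (2 + 1 / α) - E * (E + 1 + 1 / α) = E * ((E - 1) * (1 + 1 / α)) := by
        ring
      linarith
    have h7 : 1 / (n : ℝ) ≤ ρ0 := by
      rw [hρ0]
      gcongr
    have h8 : 1 / (n : ℝ) ≤ ρ0 ^ a := by
      have h81 : (1 / (n : ℝ)) ≤ 1 := by
        rw [div_le_one hn0]; linarith
      calc 1 / (n : ℝ) = (1 / (n : ℝ)) ^ (1 : ℝ) := (Real.rpow_one _).symm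
        _ ≤ (1 / (n : ℝ)) ^ a := Real.rpow_le_rpow_of_exponent_ge (by positivity) h81 ha1
        _ ≤ ρ0 ^ a := Real.rpow_le_rpow (by positivity) h7 ha0
    have h9 : (2 + 1 / α) / C1 ≤ Real.exp (k * Real.log n) := by
      have h91 : 0 < (2 + 1 / α) / C1 := by positivity
      calc (2 + 1 / α) / C1 = Real.exp (Real.log ((2 + 1 / α) / C1)) := (Real.exp_log h91).symm
        _ ≤ Real.exp (k * Real.log n) := by
          apply Real.exp_le_exp.2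
          have h92 : Real.log ((2 + 1 / α) / C1) ≤ k := le_abs_self _
          have h93 : k * 1 ≤ k * Real.log n := mul_le_mul_of_nonneg_left hlog hk0
          linarith
    have h10 : Real.exp (C4 * Real.log n) = E * E * n * Real.exp (k * Real.log n) := by
      have h101 : Real.exp (Real.log n) = n := Real.exp_log hn0
      have h102 : C4 * Real.log n = |C2| * Real.log n + |C2| * Real.log n + Real.log n +
          k * Real.log n := by
        rw [hC4]; ring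
      rw [h102, Real.exp_add, Real.exp_add, Real.exp_add, h101]
    rw [h10]
    have h11 : 2 + 1 / α ≤ Real.exp (k * Real.log n) * C1 := by
      rwa [div_le_iff₀ hC1] at h9
    have h12 : 1 ≤ (n : ℝ) * ρ0 ^ a := by
      rwa [div_le_iff₀ hn0, mul_comm] at h8
    calc ‖Y x‖ ≤ E * E * (2 + 1 / α) := h5.trans h6
      _ ≤ E * E * (Real.exp (k * Real.log n) * C1) := by gcongr
      _ = E * E * (Real.exp (k * Real.log n) * C1) * 1 := by ring
      _ ≤ E * E * (Real.exp (k * Real.log n) * C1) * (n * ρ0 ^ a) := by gcongr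
      _ = E * E * n * Real.exp (k * Real.log n) * (C1 * ρ0 ^ a) := by ring
  have hg0 : 0 ≤ C4 * Real.log n := by positivity
  have hcas := hCAS ε1 hε1 hTCp Y hYd C1 a ρ0 (C4 * Real.log n) hC1 ha0 ha1 hρ0p hg0 hinit
    (j + q) hlev
  -- the two levels
  have hlv : ∀ i, j ≤ i → i ≤ j + q → ∀ x : ℂ, ‖x‖ ≤ ρ0 / 100 ^ i →
      ‖Y x‖ ≤ C1 * Real.exp 9 * (ρ0 / 100 ^ i) ^ a := by
    intro i hi1 hi2 x hx
    have h1 := hcas i hi2 x hx
    have h2 : C4 * Real.log n / 20 ^ i ≤ 1 := by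
      rw [div_le_one (by positivity)]
      exact hj1.trans (pow_le_pow_right₀ (by norm_num) hi1)
    have h3 : Real.exp (C4 * Real.log n / 20 ^ i + 8) ≤ Real.exp 9 :=
      Real.exp_le_exp.2 (by linarith)
    have h4 : 0 ≤ C1 * (ρ0 / 100 ^ i) ^ a := by positivity
    calc ‖Y x‖ ≤ Real.exp (C4 * Real.log n / 20 ^ i + 8) * (C1 * (ρ0 / 100 ^ i) ^ a) := h1
      _ ≤ Real.exp 9 * (C1 * (ρ0 / 100 ^ i) ^ a) := mul_le_mul_of_nonneg_right h3 h4
      _ = C1 * Real.exp 9 * (ρ0 / 100 ^ i) ^ a := by ring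
  obtain ⟨hj0, hj3, hj4⟩ := hsc j (by omega)
  have e1 : ρ0 / 100 ^ j / 100 ^ q = ρ0 / 100 ^ (j + q) := by
    rw [div_div, pow_add]
  obtain ⟨K, hK1, hK2⟩ := hEVp (ρ0 / 100 ^ j) hj0 (hj4.trans hρ0r) w hw
    (hlv j le_rfl (by omega)) (by
      rw [e1]
      exact hlv (j + q) (by omega) le_rfl)
  set s : ℝ := s0 * (ρ0 / 100 ^ j) with hs
  have hsp : 0 < s := by positivity
  have hsρ : s ≤ ρ0 := by
    have : s ≤ 1 * (ρ0 / 100 ^ j) := mul_le_mul_of_nonneg_right hs1.le hj0.le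
    linarith
  have h1 := hden s hj3 hsρ
  have h2 := hPER G hGm hGp e he0.le hvol ((L : ℝ) ^ K) s (by positivity) hsp hK1
  have h3 : Set.Icc (-s) s ⊆ (Aᶜ ∩ Set.Icc (-s) s) ∪
      {x : ℝ | x ∈ Set.Icc (-s) s ∧ (L : ℝ) ^ K * x ∉ G} := by
    intro x hx
    by_cases hxG : (L : ℝ) ^ K * x ∈ G
    · left
      refine ⟨fun hxA => ?_, hx⟩
      apply hAa x hxA
      apply Absorbed_shift K
      exact absorbed_of_zero (by rw [hαn]; exact hα1) hθ0 hθ1 (by linarith) hxG.2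
        (hK2 x (abs_le.2 hx)).le
    · right
      exact ⟨hx, hxG⟩
  have h4 : ENNReal.ofReal (2 * s) ≤
      ENNReal.ofReal (min (ε1 / 2) (1 / 4) * s + 4 * e * s) := by
    calc ENNReal.ofReal (2 * s) = volume (Set.Icc (-s) s) := by
          rw [Real.volume_Icc]; congr 1; ring
      _ ≤ volume ((Aᶜ ∩ Set.Icc (-s) s) ∪
          {x : ℝ | x ∈ Set.Icc (-s) s ∧ (L : ℝ) ^ K * x ∉ G}) := measure_mono h3
      _ ≤ volume (Aᶜ ∩ Set.Icc (-s) s) +
          volume {x : ℝ | x ∈ Set.Icc (-s) s ∧ (L : ℝ) ^ K * x ∉ G} := measure_union_le _ _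
      _ ≤ ENNReal.ofReal (min (ε1 / 2) (1 / 4) * s) + ENNReal.ofReal (4 * e * s) :=
          add_le_add h1 h2
      _ = ENNReal.ofReal (min (ε1 / 2) (1 / 4) * s + 4 * e * s) := by
          rw [ENNReal.ofReal_add (by positivity) (by positivity)]
  rw [ENNReal.ofReal_le_ofReal_iff (by positivity)] at h4
  have h5 : min (ε1 / 2) (1 / 4) ≤ 1 / 4 := min_le_right _ _
  have h6 : e ≤ 1 / 100 := min_le_right _ _
  have h7 : min (ε1 / 2) (1 / 4) * s ≤ 1 / 4 * s := mul_le_mul_of_nonneg_right h5 hsp.le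
  have h8 : e * s ≤ 1 / 100 * s := mul_le_mul_of_nonneg_right h6 hsp.le
  linarith

end Pool.Agent.H212.KR
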