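import Pool.Agent.H212.KR.Final
import Pool.Agent.H212.KR.T_CRg
import Pool.Agent.H212.KR.T_WINg
import Pool.Agent.H212.KR.T_Ag
import Pool.Agent.H212.KR.T_B2
import Pool.Agent.H212.KR.T_AR
import Pool.Agent.H212.KR.T_INV
import Pool.Agent.H212.KR.T_POR
import Pool.Agent.H212.KR.T_DENC
import Pool.Agent.H212.KR.T_AREA

/-!
# Assembly: zero area of the non absorbed set
-/

set_option autoImplicit false

namespace Pool.Agent.H212.KR

theorem f_CRg : S_CRg := t_CRg t_CR1 t_CR2 t_CR3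

theorem f_WINg : S_WINg := t_WINg t_TC t_CAS t_PER t_BAD t_G0 f_CRg t_EV t_NUM

theorem f_Ag : S_Ag := t_Ag f_VT t_ST t_DEN t_BC f_WINg t_GR

theorem f_AR : S_AR := t_AR t_B t_CR1 t_CR2

theorem f_POR : S_POR := t_POR t_B2 f_AR t_INV

theorem f_AREA : S_AREA := t_AREA f_Ag f_POR t_DENC

end Pool.Agent.H212.KR
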