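import Pool.Agent.H212.KR.Stm
import Mathlib

/-!
# Project KR: the Poisson inequality for periodic functions of exponential type
-/

set_option autoImplicit false
set_option linter.all false

namespace Pool.Agent.H212.KR

open Complex Filter Topology MeasureTheory
open Pool.Agent.TH229.Kan

namespace PIaux

open scoped FourierTransform ComplexConjugate

/-- the Poisson kernel -/
noncomputable def Pk (h s : ℝ) : ℝ := h / (Real.pi * (s ^ 2 + h ^ 2))

theorem Pk_nonneg {h : ℝ} (hh : 0 < h) (s : ℝ) : 0 ≤ Pk h s := by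
  unfold Pk
  have := Real.pi_pos
  positivity

theorem Pk_cont {h : ℝ} (hh : 0 < h) : Continuous (Pk h) := by
  unfold Pk
  have := Real.pi_pos
  refine continuous_const.div (by fun_prop) (fun s => ?_)
  positivity

theorem Pk_integrable {h : ℝ} (hh : 0 < h) : Integrable (Pk h) := by
  have h1 : Integrable (fun x : ℝ => (1 + x ^ 2)⁻¹) := integrable_inv_one_add_sq
  have h2 : Integrable (fun x : ℝ => (1 + (x / h) ^ 2)⁻¹) := h1.comp_div hh.ne'
  have h3 : Pk h = fun s => (Real.pi * h)⁻¹ * (1 + (s / h) ^ 2)⁻¹ := by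
    funext s
    unfold Pk
    have hpi := Real.pi_pos
    have h4 : 0 < s ^ 2 + h ^ 2 := by positivity
    have h5 : 1 + (s / h) ^ 2 = (s ^ 2 + h ^ 2) / h ^ 2 := by
      field_simp
      ring
    rw [h5]
    field_simp
  rw [h3]
  exact h2.const_mul _

theorem Pk_neg (h s : ℝ) : Pk h (-s) = Pk h s := by
  unfold Pk
  rw [neg_sq]

/-- the exponential -/
noncomputable def ef (h ξ : ℝ) : ℂ := Complex.exp ((-(2 * Real.pi * h * |ξ|) : ℝ) : ℂ)

theorem ef_cont (h : ℝ) : Continuous (ef h) := by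
  unfold ef
  fun_prop

theorem ef_neg (h ξ : ℝ) : ef h (-ξ) = ef h ξ := by
  unfold ef
  rw [abs_neg]

theorem ef_Ioi {h : ℝ} (hh : 0 < h) (s : ℝ) :
    IntegrableOn (fun v : ℝ => Complex.exp (((-2 * Real.pi * v * s : ℝ) : ℂ) * I) • ef h v) (Set.Ioi 0) ∧
    ∫ v in Set.Ioi (0 : ℝ), Complex.exp (((-2 * Real.pi * v * s : ℝ) : ℂ) * I) • ef h v =
      1 / (2 * Real.pi * (h + s * I)) := by
  have hpi := Real.pi_pos
  have ha : (-(2 * Real.pi * (h + s * I)) : ℂ).re < 0 := by
    simp
    positivity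
  have e : Set.EqOn (fun v : ℝ => Complex.exp (((-2 * Real.pi * v * s : ℝ) : ℂ) * I) • ef h v)
      (fun v : ℝ => Complex.exp ((-(2 * Real.pi * (h + s * I)) : ℂ) * v)) (Set.Ioi 0) := by
    intro v hv
    have hv' : (0 : ℝ) < v := hv
    simp only [ef, abs_of_pos hv', smul_eq_mul]
    rw [← Complex.exp_add]
    congr 1
    push_cast
    ring
  constructor
  · exact (integrableOn_congr_fun e measurableSet_Ioi).2 (integrableOn_exp_mul_complex_Ioi ha 0)
  · rw [setIntegral_congr_fun measurableSet_Ioi e, integral_exp_mul_complex_Ioi ha]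
    rw [Complex.ofReal_zero, mul_zero, Complex.exp_zero, neg_div_neg_eq]

theorem ef_Iic {h : ℝ} (hh : 0 < h) (s : ℝ) :
    IntegrableOn (fun v : ℝ => Complex.exp (((-2 * Real.pi * v * s : ℝ) : ℂ) * I) • ef h v) (Set.Iic 0) ∧
    ∫ v in Set.Iic (0 : ℝ), Complex.exp (((-2 * Real.pi * v * s : ℝ) : ℂ) * I) • ef h v =
      1 / (2 * Real.pi * (h - s * I)) := by
  have hpi := Real.pi_pos
  have ha : 0 < ((2 * Real.pi * (h - s * I)) : ℂ).re := by
    simp
    positivity
  have e : Set.EqOn (fun v : ℝ => Complex.exp (((-2 * Real.pi * v * s : ℝ) : ℂ) * I) • ef h v)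
      (fun v : ℝ => Complex.exp (((2 * Real.pi * (h - s * I)) : ℂ) * v)) (Set.Iic 0) := by
    intro v hv
    have hv' : v ≤ 0 := hv
    simp only [ef, abs_of_nonpos hv', smul_eq_mul]
    rw [← Complex.exp_add]
    congr 1
    push_cast
    ring
  constructor
  · exact (integrableOn_congr_fun e measurableSet_Iic).2 (integrableOn_exp_mul_complex_Iic ha 0)
  · rw [setIntegral_congr_fun measurableSet_Iic e, integral_exp_mul_complex_Iic ha]
    rw [Complex.ofReal_zero, mul_zero, Complex.exp_zero]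

theorem ef_int {h : ℝ} (hh : 0 < h) (s : ℝ) :
    Integrable (fun v : ℝ => Complex.exp (((-2 * Real.pi * v * s : ℝ) : ℂ) * I) • ef h v) ∧
    ∫ v : ℝ, Complex.exp (((-2 * Real.pi * v * s : ℝ) : ℂ) * I) • ef h v = (Pk h s : ℂ) := by
  obtain ⟨i1, e1⟩ := ef_Iic hh s
  obtain ⟨i2, e2⟩ := ef_Ioi hh s
  constructor
  · have := i1.union i2
    rw [Set.Iic_union_Ioi] at this
    exact integrableOn_univ.1 this
  · rw [← intervalIntegral.integral_Iic_add_Ioi i1 i2, e1, e2]
    have hpi := Real.pi_pos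
    have h1 : (h - s * I : ℂ) ≠ 0 := by
      intro h0
      have := congrArg Complex.re h0
      simp at this
      exact hh.ne' this
    have h2 : (h + s * I : ℂ) ≠ 0 := by
      intro h0
      have := congrArg Complex.re h0
      simp at this
      exact hh.ne' this
    have h3 : ((s : ℂ) ^ 2 + h ^ 2) = (h - s * I) * (h + s * I) := by
      ring_nf
      rw [I_sq]
      ring
    have h4 : (Real.pi : ℂ) ≠ 0 := by exact_mod_cast hpi.ne'
    unfold Pk
    push_cast
    rw [h3]
    field_simp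
    ring

theorem ef_integrable {h : ℝ} (hh : 0 < h) : Integrable (ef h) := by
  have := (ef_int hh 0).1
  refine this.congr (Eventually.of_forall fun v => ?_)
  simp

theorem fourier_ef {h : ℝ} (hh : 0 < h) : 𝓕 (ef h) = fun s : ℝ => (Pk h s : ℂ) := by
  funext s
  rw [Real.fourier_real_eq_integral_exp_smul]
  exact (ef_int hh s).2

theorem PK {h : ℝ} (hh : 0 < h) (k : ℝ) :
    ∫ s : ℝ, Complex.exp (((2 * Real.pi * (s * k) : ℝ) : ℂ) * I) * (Pk h s : ℂ) = ef h k := by
  have h1 : 𝓕⁻ (𝓕 (ef h)) = ef h := by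
    refine Continuous.fourierInv_fourier_eq (ef_cont h) (ef_integrable hh) ?_
    rw [fourier_ef hh]
    exact (Pk_integrable hh).ofReal
  have h2 := congrFun h1 k
  rw [Real.fourierInv_eq', fourier_ef hh] at h2
  rw [← h2]
  refine integral_congr_ae (Eventually.of_forall fun s => ?_)
  simp only [smul_eq_mul]
  congr 3
  simp [mul_comm]

/-- functions which satisfy the Poisson formula in the upper half plane -/
def Good (g : ℂ → ℂ) : Prop := Differentiable ℂ g ∧ (∃ M : ℝ, ∀ z : ℂ, 0 ≤ z.im → ‖g z‖ ≤ M) ∧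
  ∀ x h : ℝ, 0 < h → (g (x + h * I)).re = ∫ t : ℝ, Pk h (x - t) * (g t).re

theorem int_aux {g : ℝ → ℝ} (hg : Continuous g) {M : ℝ} (hM : ∀ t, |g t| ≤ M) {h : ℝ} (hh : 0 < h) (x : ℝ) :
    Integrable (fun t : ℝ => Pk h (x - t) * g t) := by
  have h1 : Integrable (fun t : ℝ => Pk h (x - t)) := (Pk_integrable hh).comp_sub_left x
  refine h1.mul_bdd (c := M) hg.aestronglyMeasurable (Eventually.of_forall fun t => ?_)
  exact hM t

theorem Good.int {g : ℂ → ℂ} (hg : Good g) {h : ℝ} (hh : 0 < h) (x : ℝ) :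
    Integrable (fun t : ℝ => Pk h (x - t) * (g t).re) := by
  obtain ⟨h1, ⟨M, h2⟩, h3⟩ := hg
  refine int_aux (g := fun t : ℝ => (g t).re) ?_ (M := M) (fun t => ?_) hh x
  · exact Complex.continuous_re.comp (h1.continuous.comp Complex.continuous_ofReal)
  · exact (Complex.abs_re_le_norm _).trans (h2 _ (by simp))

theorem Good.add {g g' : ℂ → ℂ} (hg : Good g) (hg' : Good g') : Good (fun z => g z + g' z) := by
  refine ⟨hg.1.add hg'.1, ?_, ?_⟩
  · obtain ⟨M, hM⟩ := hg.2.1
    obtain ⟨M', hM'⟩ := hg'.2.1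
    exact ⟨M + M', fun z hz => (norm_add_le _ _).trans (add_le_add (hM z hz) (hM' z hz))⟩
  · intro x h hh
    rw [Complex.add_re, hg.2.2 x h hh, hg'.2.2 x h hh, ← integral_add (hg.int hh x) (hg'.int hh x)]
    refine integral_congr_ae (Eventually.of_forall fun t => ?_)
    simp only [Complex.add_re]
    ring

theorem Good.zero : Good (fun _ => 0) := by
  refine ⟨differentiable_const _, ⟨0, fun z _ => by simp⟩, fun x h hh => ?_⟩
  simp

/-- the exponentials -/
theorem Good.exp (c : ℂ) (k : ℕ) : Good (fun z => c * Complex.exp (2 * Real.pi * I * k * z)) := by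
  refine ⟨by fun_prop, ⟨‖c‖, fun z hz => ?_⟩, fun x h hh => ?_⟩
  · rw [norm_mul, Complex.norm_exp]
    have h1 : (2 * Real.pi * I * k * z : ℂ).re = -(2 * Real.pi * k * z.im) := by
      simp
    have h2 : Real.exp ((2 * Real.pi * I * k * z : ℂ).re) ≤ 1 := by
      rw [h1]
      apply Real.exp_le_one_iff.2
      have := Real.pi_pos
      have : 0 ≤ 2 * Real.pi * k * z.im := by positivity
      linarith
    calc ‖c‖ * Real.exp ((2 * Real.pi * I * k * z : ℂ).re) ≤ ‖c‖ * 1 :=
          mul_le_mul_of_nonneg_left h2 (norm_nonneg _)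
      _ = ‖c‖ := mul_one _
  · have key : ∫ t : ℝ, ((Pk h (x - t) : ℝ) : ℂ) * (c * Complex.exp (2 * Real.pi * I * k * t)) =
        c * Complex.exp (2 * Real.pi * I * k * (x + h * I)) := by
      have e1 : ∫ t : ℝ, ((Pk h (x - t) : ℝ) : ℂ) * (c * Complex.exp (2 * Real.pi * I * k * t)) =
          ∫ s : ℝ, ((Pk h s : ℝ) : ℂ) * (c * Complex.exp (2 * Real.pi * I * k * ((x - s : ℝ) : ℂ))) := by
        rw [← integral_sub_left_eq_self (fun s : ℝ => ((Pk h s : ℝ) : ℂ) *
          (c * Complex.exp (2 * Real.pi * I * k * ((x - s : ℝ) : ℂ)))) volume x]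
        refine integral_congr_ae (Eventually.of_forall fun t => ?_)
        simp only [sub_sub_cancel]
      rw [e1]
      have e2 : ∀ s : ℝ, ((Pk h s : ℝ) : ℂ) * (c * Complex.exp (2 * Real.pi * I * k * ((x - s : ℝ) : ℂ))) =
          (c * Complex.exp (2 * Real.pi * I * k * x)) *
            (Complex.exp (((2 * Real.pi * (s * (-(k : ℝ))) : ℝ) : ℂ) * I) * (Pk h s : ℂ)) := by
        intro s
        have : Complex.exp (2 * Real.pi * I * k * ((x - s : ℝ) : ℂ)) =
            Complex.exp (2 * Real.pi * I * k * x) *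
              Complex.exp (((2 * Real.pi * (s * (-(k : ℝ))) : ℝ) : ℂ) * I) := by
          rw [← Complex.exp_add]
          congr 1
          push_cast
          ring
        rw [this]
        ring
      rw [integral_congr_ae (Eventually.of_forall e2), integral_const_mul, PK hh, ef_neg, mul_assoc]
      congr 1
      unfold ef
      rw [← Complex.exp_add, abs_of_nonneg (Nat.cast_nonneg k)]
      congr 1
      push_cast
      ring_nf
      rw [I_sq]
      ring
    show (c * Complex.exp (2 * Real.pi * I * k * (x + h * I))).re =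
      ∫ t : ℝ, Pk h (x - t) * (c * Complex.exp (2 * Real.pi * I * k * t)).re
    rw [← key, ← Complex.reCLM_apply, ← ContinuousLinearMap.integral_comp_comm]
    · refine integral_congr_ae (Eventually.of_forall fun t => ?_)
      simp only [Complex.reCLM_apply, Complex.re_ofReal_mul]
    · have h1 : Integrable (fun t : ℝ => ((Pk h (x - t) : ℝ) : ℂ)) :=
        ((Pk_integrable hh).comp_sub_left x).ofReal
      refine h1.mul_bdd (c := ‖c‖) (Continuous.aestronglyMeasurable (by fun_prop))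
        (Eventually.of_forall fun t => ?_)
      rw [norm_mul, Complex.norm_exp]
      simp

/-- trigonometric polynomials -/
theorem trig (f : C(AddCircle (1 : ℝ), ℂ)) (hf : f ∈ Submodule.span ℂ (Set.range (@fourier (1 : ℝ)))) :
    ∀ c : ℂ, ∃ g : ℂ → ℂ, Good g ∧ ∀ t : ℝ, (g t).re = (c * f (t : AddCircle (1 : ℝ))).re := by
  induction hf using Submodule.span_induction with
  | mem f hf =>
    obtain ⟨n, rfl⟩ := hf
    intro c
    rcases le_total 0 n with hn | hn
    · obtain ⟨k, rfl⟩ := Int.eq_ofNat_of_zero_le hn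
      refine ⟨_, Good.exp c k, fun t => ?_⟩
      rw [fourier_coe_apply]
      congr 3
      push_cast
      ring
    · obtain ⟨k, hk⟩ := Int.eq_ofNat_of_zero_le (neg_nonneg.2 hn)
      have hn' : n = -(k : ℤ) := by omega
      subst hn'
      refine ⟨_, Good.exp (conj c) k, fun t => ?_⟩
      rw [fourier_coe_apply, ← Complex.conj_re, map_mul, Complex.conj_conj, ← Complex.exp_conj]
      congr 3
      simp only [map_mul, Complex.conj_ofReal, Complex.conj_I]
      simp
      left
      left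
      exact Complex.conj_ofNat 2
  | zero =>
    intro c
    exact ⟨_, Good.zero, fun t => by simp⟩
  | add f f' _ _ ih ih' =>
    intro c
    obtain ⟨g, hg, e⟩ := ih c
    obtain ⟨g', hg', e'⟩ := ih' c
    refine ⟨_, hg.add hg', fun t => ?_⟩
    rw [Complex.add_re, e, e', ContinuousMap.add_apply, mul_add, Complex.add_re]
  | smul a f _ ih =>
    intro c
    obtain ⟨g, hg, e⟩ := ih (c * a)
    refine ⟨g, hg, fun t => ?_⟩
    rw [e, ContinuousMap.smul_apply, smul_eq_mul, mul_assoc]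

/-- approximation -/
theorem approx {φ : ℝ → ℝ} (hφ : Continuous φ) (hp : ∀ t, φ (t + 1) = φ t) {η : ℝ} (hη : 0 < η) :
    ∃ g : ℂ → ℂ, Good g ∧ ∀ t : ℝ, |(g t).re - φ t| ≤ η := by
  haveI : Fact (0 < (1 : ℝ)) := ⟨one_pos⟩
  have hper : Function.Periodic (fun t : ℝ => (φ t : ℂ)) 1 := fun t => by
    show ((φ (t + 1) : ℝ) : ℂ) = φ t
    rw [hp]
  let f : C(AddCircle (1 : ℝ), ℂ) := ⟨hper.lift,
    continuous_coinduced_dom.mpr (Complex.continuous_ofReal.comp hφ)⟩
  have hf : f ∈ (Submodule.span ℂ (Set.range (@fourier (1 : ℝ)))).topologicalClosure := by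
    rw [span_fourier_closure_eq_top]
    exact Submodule.mem_top
  obtain ⟨f', hf', hd⟩ := Metric.mem_closure_iff.1 hf η hη
  obtain ⟨g, hg, e⟩ := trig f' hf' 1
  refine ⟨g, hg, fun t => ?_⟩
  rw [e, one_mul]
  have h1 : f (t : AddCircle (1 : ℝ)) = (φ t : ℂ) := rfl
  have h2 : (f' (t : AddCircle (1 : ℝ))).re - φ t = -((f - f') (t : AddCircle (1 : ℝ))).re := by
    rw [ContinuousMap.sub_apply, h1, Complex.sub_re, Complex.ofReal_re]
    ring
  rw [h2, abs_neg]
  refine (Complex.abs_re_le_norm _).trans ((ContinuousMap.norm_coe_le_norm _ _).trans ?_)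
  rw [← dist_eq_norm]
  exact hd.le

theorem Pk_one {h : ℝ} (hh : 0 < h) (x : ℝ) : ∫ t : ℝ, Pk h (x - t) = 1 := by
  have := (Good.exp 1 0).2.2 x h hh
  simpa using this.symm

/-- the maximum principle -/
theorem pl {F : ℂ → ℂ} (hF : Differentiable ℂ F) {C D : ℝ}
    (hb : ∀ z : ℂ, ‖F z‖ ≤ Real.exp (C + D * |z.im|)) {g : ℂ → ℂ} (hg : Good g)
    (hr : ∀ t : ℝ, ‖F t‖ ≤ Real.exp (g t).re) (x h : ℝ) (hh : 0 < h) :
    ‖F (x + h * I)‖ ≤ Real.exp (D * h + (g (x + h * I)).re) := by
  obtain ⟨M, hM⟩ := hg.2.1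
  have hgd := hg.1
  let H : ℂ → ℂ := fun ζ => F (I * ζ) * Complex.exp (-(D * ζ) - g (I * ζ))
  have hH : Differentiable ℂ H := by
    refine (hF.comp (by fun_prop)).mul (Complex.differentiable_exp.comp ?_)
    exact (by fun_prop : Differentiable ℂ fun ζ : ℂ => -((D : ℂ) * ζ)).sub (hgd.comp (by fun_prop))
  have hn : ∀ ζ : ℂ, ‖H ζ‖ = ‖F (I * ζ)‖ * Real.exp (-(D * ζ.re) - (g (I * ζ)).re) := by
    intro ζ
    rw [norm_mul, Complex.norm_exp]
    simp
  have hbd : ∀ ζ : ℂ, 0 ≤ ζ.re → ‖H ζ‖ ≤ Real.exp (C + M) := by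
    intro ζ hζ
    have him : (I * ζ).im = ζ.re := by simp
    rw [hn]
    have h1 := hb (I * ζ)
    rw [him, abs_of_nonneg hζ] at h1
    have h2 : -(g (I * ζ)).re ≤ M :=
      ((neg_le_abs _).trans (Complex.abs_re_le_norm _)).trans (hM _ (by rw [him]; exact hζ))
    calc ‖F (I * ζ)‖ * Real.exp (-(D * ζ.re) - (g (I * ζ)).re)
        ≤ Real.exp (C + D * ζ.re) * Real.exp (-(D * ζ.re) - (g (I * ζ)).re) :=
          mul_le_mul_of_nonneg_right h1 (Real.exp_pos _).le
      _ = Real.exp (C + -(g (I * ζ)).re) := by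
          rw [← Real.exp_add]
          congr 1
          ring
      _ ≤ Real.exp (C + M) := Real.exp_le_exp.2 (by linarith)
  have key : ‖H ((h : ℂ) - x * I)‖ ≤ 1 := by
    refine PhragmenLindelof.right_half_plane_of_bounded_on_real hH.diffContOnCl ?_ ?_ ?_ ?_
    · refine ⟨1, by norm_num, 0, ?_⟩
      refine Asymptotics.IsBigO.of_bound (Real.exp (C + M)) ?_
      refine Filter.mem_inf_of_right ?_
      intro ζ hζ
      have hζ' : 0 < ζ.re := hζ
      show ‖H ζ‖ ≤ Real.exp (C + M) * ‖Real.exp (0 * ‖ζ‖ ^ (1 : ℝ))‖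
      rw [zero_mul, Real.exp_zero, norm_one, mul_one]
      exact hbd ζ hζ'.le
    · refine Filter.isBoundedUnder_of_eventually_le (a := Real.exp (C + M)) ?_
      filter_upwards [eventually_ge_atTop (0 : ℝ)] with y hy
      exact hbd y (by simpa using hy)
    · intro y
      rw [hn]
      have e1 : I * ((y : ℂ) * I) = ((-y : ℝ) : ℂ) := by
        push_cast
        rw [mul_comm, mul_assoc, I_mul_I]
        ring
      rw [e1]
      have e2 : ((y : ℂ) * I).re = 0 := by simp
      rw [e2, mul_zero, neg_zero, zero_sub]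
      calc ‖F ((-y : ℝ) : ℂ)‖ * Real.exp (-(g ((-y : ℝ) : ℂ)).re)
          ≤ Real.exp (g ((-y : ℝ) : ℂ)).re * Real.exp (-(g ((-y : ℝ) : ℂ)).re) :=
            mul_le_mul_of_nonneg_right (hr _) (Real.exp_pos _).le
        _ = 1 := by rw [← Real.exp_add, add_neg_cancel, Real.exp_zero]
    · simp [hh.le]
  rw [hn] at key
  have e1 : I * ((h : ℂ) - x * I) = x + h * I := by
    have : I * ((h : ℂ) - x * I) = h * I - x * (I * I) := by ring
    rw [this, I_mul_I]
    ring
  have e2 : ((h : ℂ) - x * I).re = h := by simp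
  rw [e1, e2] at key
  have h3 : ‖F (x + h * I)‖ * Real.exp (-(D * h) - (g (x + h * I)).re) *
      Real.exp (D * h + (g (x + h * I)).re) ≤ 1 * Real.exp (D * h + (g (x + h * I)).re) :=
    mul_le_mul_of_nonneg_right key (Real.exp_pos _).le
  rw [mul_assoc, ← Real.exp_add, one_mul] at h3
  have e3 : -(D * h) - (g (x + h * I)).re + (D * h + (g (x + h * I)).re) = 0 := by ring
  rw [e3, Real.exp_zero, mul_one] at h3
  exact h3

end PIaux

open PIaux

theorem t_PI : S_PI := by
  intro F hF hper C D hC hD hb x h hh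
  let φ : ℝ → ℝ := fun t => Real.posLog ‖F t‖
  have hφc : Continuous φ :=
    Real.continuous_posLog.comp (continuous_norm.comp (hF.continuous.comp Complex.continuous_ofReal))
  have hφp : ∀ t, φ (t + 1) = φ t := by
    intro t
    show Real.posLog ‖F ((t + 1 : ℝ) : ℂ)‖ = Real.posLog ‖F t‖
    rw [Complex.ofReal_add, Complex.ofReal_one, hper]
  have hφ0 : ∀ t, 0 ≤ φ t := fun t => Real.posLog_nonneg
  have hle : ∀ z : ℂ, ‖F z‖ ≤ Real.exp (Real.posLog ‖F z‖) := by
    intro z
    rcases eq_or_lt_of_le (norm_nonneg (F z)) with h0 | h0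
    · rw [← h0]
      exact (Real.exp_pos _).le
    · calc ‖F z‖ = Real.exp (Real.log ‖F z‖) := (Real.exp_log h0).symm
        _ ≤ _ := Real.exp_le_exp.2 (le_max_right _ _)
  have hφb : ∀ t, |φ t| ≤ C := by
    intro t
    rw [abs_of_nonneg (hφ0 t)]
    have h1 := hb t
    rw [Complex.ofReal_im, abs_zero, mul_zero, add_zero] at h1
    show max 0 (Real.log ‖F t‖) ≤ C
    refine max_le hC ?_
    rcases eq_or_lt_of_le (norm_nonneg (F t)) with h0 | h0
    · rw [← h0, Real.log_zero]
      exact hC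
    · exact (Real.log_le_iff_le_exp h0).2 h1
  show Real.posLog ‖F ((x : ℂ) + h * I)‖ ≤ D * h + ∫ t : ℝ, Pk h (x - t) * φ t
  refine le_of_forall_pos_le_add fun ε hε => ?_
  obtain ⟨g, hg, hgφ⟩ := approx (φ := fun t => φ t + ε / 2) (by fun_prop)
    (fun t => by rw [hφp]) (half_pos hε)
  have h1 : ∀ t : ℝ, φ t ≤ (g t).re ∧ (g t).re ≤ φ t + ε := by
    intro t
    have := abs_le.1 (hgφ t)
    constructor
    · linarith [this.1]
    · linarith [this.2]
  have h2 := pl hF hb hg (fun t => (hle t).trans (Real.exp_le_exp.2 (h1 t).1)) x h hh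
  have h3 : (g (x + h * I)).re ≤ (∫ t : ℝ, Pk h (x - t) * φ t) + ε := by
    rw [hg.2.2 x h hh]
    have i1 := int_aux hφc hφb hh x
    have i2 : Integrable (fun t : ℝ => Pk h (x - t)) := (Pk_integrable hh).comp_sub_left x
    have e : (∫ t : ℝ, Pk h (x - t) * φ t) + ε =
        ∫ t : ℝ, (Pk h (x - t) * φ t + Pk h (x - t) * ε) := by
      rw [integral_add i1 (i2.mul_const ε), integral_mul_const, Pk_one hh, one_mul]
    rw [e]
    refine integral_mono (hg.int hh x) (i1.add (i2.mul_const ε)) fun t => ?_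
    show Pk h (x - t) * (g t).re ≤ Pk h (x - t) * φ t + Pk h (x - t) * ε
    rw [← mul_add]
    exact mul_le_mul_of_nonneg_left (h1 t).2 (Pk_nonneg hh _)
  have h4 : 0 ≤ ∫ t : ℝ, Pk h (x - t) * φ t :=
    integral_nonneg fun t => mul_nonneg (Pk_nonneg hh _) (hφ0 t)
  show max 0 (Real.log ‖F (x + h * I)‖) ≤ _
  refine max_le (by positivity) ?_
  rcases eq_or_lt_of_le (norm_nonneg (F (x + h * I))) with h0 | h0
  · rw [← h0, Real.log_zero]
    positivity
  · have := (Real.log_le_iff_le_exp h0).2 h2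
    linarith

end Pool.Agent.H212.KR
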